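import Pool.Agent.W273.Z.Size

/-!
The auxiliary polynomials vanish to high order at the rational approximation.
-/

set_option autoImplicit false

namespace Pool.Agent.W273.Z

open Polynomial Finset

/-- integrality forces vanishing -/
lemma vanish (n : ℕ) (W v0 β C1 : ℝ) (r : Fin (n + 1) → ℤ) (w : ℝ) (hw1 : 1 ≤ w) (hC1 : 0 ≤ C1)
    (hc : ∀ j ≤ n, |(hasseDeriv j (poly n (fun l => (r l : ℝ)))).eval w| ≤ C1 * w ^ (j * W - v0))
    (a b : ℤ) (hb : 1 ≤ b) (hbw : (b : ℝ) ≤ w ^ β) (hab : |w - a / b| ≤ w ^ (-W)) (j : ℕ)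
    (hj : j ≤ n)
    (hsmall : (n + 1) * 2 ^ n * C1 * w ^ (-(v0 - β * n - j * (W - β))) < 1) :
    (taylor ((a : ℝ) / b) (poly n (fun l => (r l : ℝ)))).coeff j = 0 := by
  have hw : 0 < w := by linarith
  set P := poly n (fun l => (r l : ℝ)) with hP
  set α : ℝ := (a : ℝ) / b with hα
  set δ : ℝ := α - w with hδ
  have hPdeg : P.natDegree ≤ n := poly_natDegree n _
  -- Taylor expansion
  have h1 : (taylor α P).coeff j = ∑ i ∈ range (n + 1), (i.choose j : ℝ) * (taylor w P).coeff i * δ ^ (i - j) := by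
    have e1 : taylor α P = taylor δ (taylor w P) := by
      rw [taylor_taylor, hδ, sub_add_cancel]
    rw [e1, taylor_coeff]
    have e2 : taylor w P = ∑ i ∈ range (n + 1), monomial i ((taylor w P).coeff i) := by
      apply as_sum_range'
      rw [natDegree_taylor]
      omega
    conv_lhs => rw [e2]
    rw [map_sum, eval_finsetSum]
    apply Finset.sum_congr rfl
    intro i _
    rw [hasseDeriv_monomial, eval_monomial]
  have hδle : |δ| ≤ w ^ (-W) := by
    rw [hδ, abs_sub_comm]; exact hab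
  have h2 : |(taylor α P).coeff j| ≤ (n + 1) * 2 ^ n * C1 * w ^ (j * W - v0) := by
    rw [h1]
    calc _ ≤ ∑ i ∈ range (n + 1), |(i.choose j : ℝ) * (taylor w P).coeff i * δ ^ (i - j)| :=
          Finset.abs_sum_le_sum_abs _ _
      _ ≤ ∑ i ∈ range (n + 1), 2 ^ n * C1 * w ^ (j * W - v0) := by
          apply Finset.sum_le_sum
          intro i hi
          rw [Finset.mem_range] at hi
          rcases Nat.lt_or_ge i j with hij | hij
          · rw [Nat.choose_eq_zero_of_lt hij, Nat.cast_zero, zero_mul, zero_mul, abs_zero]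
            positivity
          · rw [abs_mul, abs_mul, abs_pow, taylor_coeff]
            have e1 : |(i.choose j : ℝ)| ≤ 2 ^ n := by
              rw [abs_of_nonneg (by positivity)]
              have : i.choose j ≤ 2 ^ n := by
                calc i.choose j ≤ 2 ^ i := Nat.choose_le_two_pow _ _
                  _ ≤ 2 ^ n := Nat.pow_le_pow_right (by norm_num) (by omega)
              exact_mod_cast this
            have e2 := hc i (by omega)
            have e3 : |δ| ^ (i - j) ≤ (w ^ (-W)) ^ (i - j) := pow_le_pow_left₀ (abs_nonneg _) hδle _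
            have e4 : w ^ (i * W - v0) * (w ^ (-W)) ^ (i - j) = w ^ (j * W - v0) := by
              rw [← Real.rpow_natCast, ← Real.rpow_mul hw.le, ← Real.rpow_add hw]
              congr 1
              rw [Nat.cast_sub hij]; ring
            calc _ ≤ 2 ^ n * (C1 * w ^ (i * W - v0)) * (w ^ (-W)) ^ (i - j) := by
                  apply mul_le_mul (mul_le_mul e1 e2 (abs_nonneg _) (by positivity)) e3 (by positivity)
                    (by positivity)
              _ = 2 ^ n * C1 * (w ^ (i * W - v0) * (w ^ (-W)) ^ (i - j)) := by ring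
              _ = _ := by rw [e4]
      _ = _ := by rw [Finset.sum_const, Finset.card_range, nsmul_eq_mul]; push_cast; ring
  -- integrality
  set PZ : ℤ[X] := ∑ l : Fin (n + 1), monomial (l : ℕ) (r l) with hPZ
  have h3 : (hasseDeriv j PZ).map (algebraMap ℤ ℝ) = hasseDeriv j P := by
    rw [hPZ, hP, poly_apply, map_sum, map_sum, Polynomial.map_sum]
    apply Finset.sum_congr rfl
    intro l _
    rw [hasseDeriv_monomial, hasseDeriv_monomial, map_monomial]
    simp
  have h4 : eval ((a : ℝ) / b) ((hasseDeriv j PZ).map (algebraMap ℤ ℝ)) = (taylor α P).coeff j := by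
    rw [h3, taylor_coeff]
  have hPZdeg : PZ.natDegree ≤ n := by
    rw [hPZ]
    apply natDegree_sum_le_of_forall_le
    intro l _
    exact (natDegree_monomial_le _).trans (by omega)
  by_contra hne
  have h5 := one_le_pow_mul_abs_eval_div (K := ℝ) (f := hasseDeriv j PZ) (a := a) (b := b) (by omega)
    (by rw [h4]; exact hne)
  rw [h4] at h5
  have hbR : (1 : ℝ) ≤ b := by exact_mod_cast hb
  have h6 : (b : ℝ) ^ (hasseDeriv j PZ).natDegree ≤ w ^ (β * (n - j)) := by
    calc (b : ℝ) ^ (hasseDeriv j PZ).natDegree ≤ (b : ℝ) ^ (n - j) := by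
          apply pow_le_pow_right₀ hbR
          exact (natDegree_hasseDeriv_le _ _).trans (by omega)
      _ ≤ (w ^ β) ^ (n - j) := pow_le_pow_left₀ (by positivity) hbw _
      _ = _ := by
          rw [← Real.rpow_natCast, ← Real.rpow_mul hw.le, Nat.cast_sub hj]
  have h7 : (1 : ℝ) ≤ w ^ (β * (n - j)) * ((n + 1) * 2 ^ n * C1 * w ^ (j * W - v0)) :=
    h5.trans (mul_le_mul h6 h2 (abs_nonneg _) (by positivity))
  have h8 : w ^ (β * (n - j)) * ((n + 1) * 2 ^ n * C1 * w ^ (j * W - v0)) =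
      (n + 1) * 2 ^ n * C1 * w ^ (-(v0 - β * n - j * (W - β))) := by
    calc _ = (n + 1) * 2 ^ n * C1 * (w ^ (β * (n - j)) * w ^ (j * W - v0)) := by ring
      _ = _ := by
        rw [← Real.rpow_add hw]
        congr 2; ring
  rw [h8] at h7
  linarith

/-- counting conditions -/
lemma count (d n N : ℕ) (W v0 : ℝ) (hW0 : 0 ≤ W) (hWN : W * n ≤ N) (hv0 : 0 ≤ v0) :
    ((n : ℝ) + 1) * (n * (W / 2) - v0 - d) ≤
      (Fintype.card (Bx n N) : ℝ) - Fintype.card (Jx d n N W v0) := by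
  rw [Fintype.card_sigma, Fintype.card_sigma]
  simp only [Fintype.card_fin]
  push_cast
  rw [← Finset.sum_sub_distrib]
  have h1 : ∀ l : Fin (n + 1), (l.1 : ℝ) * W - v0 - d ≤
      ((N + n + 1 - l.1 : ℕ) : ℝ) - (En d n N W v0 l.1 : ℝ) := by
    intro l
    have hl : (l.1 : ℝ) ≤ n := by
      have := l.2
      exact_mod_cast (by omega : l.1 ≤ n)
    have hn0 : (0 : ℝ) ≤ n := by positivity
    have hd0 : (0 : ℝ) ≤ d := by positivity
    have hlW : (l.1 : ℝ) * W ≤ N := by
      calc (l.1 : ℝ) * W ≤ n * W := mul_le_mul_of_nonneg_right hl hW0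
        _ = W * n := mul_comm _ _
        _ ≤ N := hWN
    have h2 : (En d n N W v0 l.1 : ℝ) < (N + n + d : ℝ) - l.1 + v0 - l.1 * W + 1 := by
      apply Nat.ceil_lt_add_one
      linarith
    have h3 : ((N + n + 1 - l.1 : ℕ) : ℝ) = N + n + 1 - l.1 := by
      rw [Nat.cast_sub (by have := l.2; omega)]
      push_cast; ring
    rw [h3]
    linarith
  have h4 : ∑ l : Fin (n + 1), ((l.1 : ℝ) * W - v0 - d) = ((n : ℝ) + 1) * (n * (W / 2) - v0 - d) := by
    rw [Fin.sum_univ_eq_sum_range (fun l => (l : ℝ) * W - v0 - d)]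
    have h5 : ∀ N : ℕ, ∑ l ∈ range N, ((l : ℝ) * W - v0 - d) = (N : ℝ) * (N - 1) / 2 * W - N * (v0 + d) := by
      intro N
      induction N with
      | zero => simp
      | succ N ih => rw [Finset.sum_range_succ, ih]; push_cast; ring
    rw [h5]; push_cast; ring
  rw [← h4]
  exact Finset.sum_le_sum fun l _ => h1 l

/-- polynomially bounded functions of the height -/
def PB (F : ℕ → ℝ) : Prop := ∃ K M : ℕ, ∀ H : ℕ, 1 ≤ H → F H ≤ K * (H : ℝ) ^ M

lemma PB.const (c : ℝ) : PB (fun _ => c) := by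
  refine ⟨⌈c⌉₊, 0, fun H _ => ?_⟩
  rw [pow_zero, mul_one]
  exact Nat.le_ceil c

lemma PB.id : PB (fun H => (H : ℝ)) := ⟨1, 1, fun H _ => by simp⟩

lemma PB.add {F G : ℕ → ℝ} (hF : PB F) (hG : PB G) : PB (fun H => F H + G H) := by
  obtain ⟨K, M, h⟩ := hF
  obtain ⟨K', M', h'⟩ := hG
  refine ⟨K + K', M + M', fun H hH => ?_⟩
  have hH' : (1 : ℝ) ≤ H := by exact_mod_cast hH
  have e1 : (H : ℝ) ^ M ≤ (H : ℝ) ^ (M + M') := pow_le_pow_right₀ hH' (by omega)
  have e2 : (H : ℝ) ^ M' ≤ (H : ℝ) ^ (M + M') := pow_le_pow_right₀ hH' (by omega)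
  have e3 : (K : ℝ) * (H : ℝ) ^ M ≤ K * (H : ℝ) ^ (M + M') := mul_le_mul_of_nonneg_left e1 (by positivity)
  have e4 : (K' : ℝ) * (H : ℝ) ^ M' ≤ K' * (H : ℝ) ^ (M + M') := mul_le_mul_of_nonneg_left e2 (by positivity)
  have := h H hH
  have := h' H hH
  push_cast
  nlinarith

lemma PB.mul {F G : ℕ → ℝ} (hF : PB F) (hG : PB G) (hG0 : ∀ H, 0 ≤ G H) :
    PB (fun H => F H * G H) := by
  obtain ⟨K, M, h⟩ := hF
  obtain ⟨K', M', h'⟩ := hG
  refine ⟨K * K', M + M', fun H hH => ?_⟩
  have e := mul_le_mul (h H hH) (h' H hH) (hG0 H) (by positivity)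
  calc _ ≤ _ := e
    _ = _ := by push_cast; rw [pow_add]; ring

lemma PB.pow {F : ℕ → ℝ} (hF : PB F) (hF0 : ∀ H, 0 ≤ F H) (m : ℕ) : PB (fun H => F H ^ m) := by
  obtain ⟨K, M, h⟩ := hF
  refine ⟨K ^ m, M * m, fun H hH => ?_⟩
  have e := pow_le_pow_left₀ (hF0 H) (h H hH) m
  calc _ ≤ _ := e
    _ = _ := by push_cast; rw [mul_pow, pow_mul]

end Pool.Agent.W273.Z
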