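import Pool.Agent.W273.Z.ZTwo

/-!
The linear factors for which the key property fails: they come from a polynomial identity.
-/

set_option autoImplicit false

namespace Pool.Agent.W273.Z

open Polynomial Finset

/-- the exceptional identity -/
def Exc (F : ℚ[X]) (k : ℕ) : Prop :=
  ∃ m Q : ℚ[X], ∃ c : ℚ, m ≠ 0 ∧ c ≠ 0 ∧ m.natDegree = k ∧ Q * Q * F = m * (m * X - C c)

namespace CrvL

variable (E : CrvL)

lemma no_sq (m Q : ℚ[X]) (hm : m ≠ 0) (h : Q * Q * E.F = m * m * X) : False := by
  have hmr : algebraMap ℚ[X] (RatFunc ℚ) m ≠ 0 := (map_ne_zero_iff _ polR_inj).mpr hm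
  obtain ⟨q, hq⟩ := E.pol_of_sq (algebraMap ℚ[X] (RatFunc ℚ) Q / algebraMap ℚ[X] (RatFunc ℚ) m) X (by
    have h1 := congrArg (algebraMap ℚ[X] (RatFunc ℚ)) h
    rw [map_mul, map_mul, map_mul, map_mul] at h1
    field_simp
    rw [pow_two, pow_two]
    linear_combination h1)
  rw [div_eq_iff hmr, ← map_mul] at hq
  have hQ : Q = q * m := polR_inj hq
  have h2 : q * q * E.F = X := by
    rw [hQ] at h
    have h3 : (m * m) * (q * q * E.F) = (m * m) * X := by linear_combination h
    exact mul_left_cancel₀ (mul_ne_zero hm hm) h3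
  have hq0 : q ≠ 0 := by
    rintro rfl
    rw [mul_zero, zero_mul] at h2
    exact X_ne_zero h2.symm
  have h4 := congrArg natDegree h2
  rw [natDegree_mul (mul_ne_zero hq0 hq0) E.F_ne, natDegree_mul hq0 hq0, natDegree_X] at h4
  have := E.three
  omega

/-- a linear factor without the key property gives an exceptional identity -/
lemma exc_of_not_good (k : ℕ) (W : ℝ) (hk1 : 2 * (k : ℝ) ≤ W) (hk2 : W < 2 * k + 2) (φ : E.K)
    (h : ¬ E.G W (X - C φ)) : 2 * (k : ℝ) < W ∧ Exc E.F k := by
  have hk0 : (0 : ℝ) ≤ k := by positivity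
  obtain ⟨m, P, Q, R, hD, hno⟩ : ∃ m P Q R : ℚ[X], E.Data φ m P Q R ∧ ¬ (W - m.natDegree ≤ W / 2 ∨
      (wL - E.ι φ ≠ 0 ∧ (wL - E.ι φ).order - m.natDegree ≤ W / 2)) := by
    by_contra hcon
    push Not at hcon
    apply h
    apply E.G_of_data
    intro m P Q R hD
    have := hcon m P Q R hD
    tauto
  rw [not_or] at hno
  obtain ⟨hno1, hno2⟩ := hno
  push Not at hno1
  have hm := hD.1
  have hmne := evP_ne_zero hm
  obtain ⟨μ, hμ⟩ : ∃ μ : ℕ, μ = m.natDegree := ⟨_, rfl⟩
  rw [← hμ] at hno1 hno2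
  have hμW : 2 * (μ : ℝ) < W := by linarith
  have hμk : μ ≤ k := by
    have h1 : 2 * (μ : ℝ) < 2 * k + 2 := by linarith
    have h2 : (μ : ℝ) < k + 1 := by linarith
    have h3 : μ < k + 1 := by exact_mod_cast h2
    omega
  have hbig : wL - E.ι φ = 0 ∨ W / 2 + μ < (wL - E.ι φ).order := by
    by_contra hc
    push Not at hc
    exact hno2 ⟨hc.1, by linarith [hc.2]⟩
  have hprod := E.w_sub_eq φ m P Q R hD
  have hpos : 0 < W / 2 - μ := by linarith
  have hD0 : E.Od m Q + -(evP P) = 0 ∨ W / 2 - μ < (E.Od m Q + -(evP P)).order := by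
    rw [← hprod]
    rcases hbig with h | h
    · left; rw [h, mul_zero]
    · by_cases hz : wL - E.ι φ = 0
      · left; rw [hz, mul_zero]
      · right
        rw [HahnSeries.order_mul hmne hz, order_evP hm, ← hμ]
        linarith
  have hmwo : (evP m * wL).order = -(2 * (μ : ℝ) + 1) := by
    rw [HahnSeries.order_mul hmne wL_ne, order_evP hm, order_wL, ← hμ]; ring
  have hmw : evP m * wL ≠ 0 := mul_ne_zero hmne wL_ne
  obtain ⟨g, hg⟩ := E.odd
  -- the odd part is not too large
  have hOd : E.Od m Q = 0 ∨ -(2 * (μ : ℝ) + 1) < (E.Od m Q).order := by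
    by_contra hh
    push Not at hh
    obtain ⟨hO1, hO2⟩ := hh
    obtain ⟨a, ha⟩ : ∃ a : ℤ, (E.Od m Q).order = 2 * (a : ℝ) + 1 := by
      by_cases hq0 : Q = 0
      · refine ⟨-(μ : ℤ) - 1, ?_⟩
        unfold Od
        rw [hq0, map_zero, zero_mul, neg_zero, add_zero, hmwo]; push_cast; ring
      · have hne : -(evP Q * E.y) ≠ 0 := neg_ne_zero.mpr (mul_ne_zero (evP_ne_zero hq0) E.y_ne)
        have hor : (-(evP Q * E.y)).order = -2 * (Q.natDegree : ℝ) - (2 * (g : ℝ) + 1) := by
          rw [order_neg_LL, HahnSeries.order_mul (evP_ne_zero hq0) E.y_ne, order_evP hq0, E.order_y, hg]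
          push_cast; ring
        by_cases heq : (evP m * wL).order = (-(evP Q * E.y)).order
        · refine ⟨-(μ : ℤ) - 1, ?_⟩
          have h5 := HahnSeries.min_order_le_order_add hO1
          rw [← heq, min_self, hmwo] at h5
          have h6 : (E.Od m Q).order = -(2 * (μ : ℝ) + 1) := le_antisymm hO2 h5
          rw [h6]; push_cast; ring
        · obtain ⟨_, g2⟩ := order_add_of_ne hmw hne heq
          rcases le_total (evP m * wL).order (-(evP Q * E.y)).order with hle | hle
          · refine ⟨-(μ : ℤ) - 1, ?_⟩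
            unfold Od
            rw [g2, min_eq_left hle, hmwo]; push_cast; ring
          · refine ⟨-(Q.natDegree : ℤ) - g - 1, ?_⟩
            unfold Od
            rw [g2, min_eq_right hle, hor]; push_cast; ring
    by_cases hp0 : P = 0
    · rw [hp0, map_zero, neg_zero, add_zero] at hD0
      rcases hD0 with h | h
      · exact hO1 h
      · have : (0 : ℝ) ≤ μ := by positivity
        linarith
    · have hne : -(evP P) ≠ 0 := neg_ne_zero.mpr (evP_ne_zero hp0)
      have hor : (-(evP P)).order = -2 * (P.natDegree : ℝ) := by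
        rw [order_neg_LL, order_evP hp0]
      have hlt : (E.Od m Q).order ≠ (-(evP P)).order := by
        rw [ha, hor]
        intro h
        have h6 : (2 * a + 1 : ℤ) = -2 * (P.natDegree : ℤ) := by exact_mod_cast h
        omega
      obtain ⟨g1, g2⟩ := order_add_of_ne hO1 hne hlt
      rcases hD0 with h | h
      · exact g1 h
      · rw [g2] at h
        have := lt_of_lt_of_le h (min_le_left _ _)
        have : (0 : ℝ) ≤ μ := by positivity
        linarith
  -- the conjugate
  obtain ⟨hO'1, hO'2⟩ : evP m * wL + evP Q * E.y ≠ 0 ∧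
      (evP m * wL + evP Q * E.y).order = -(2 * (μ : ℝ) + 1) := by
    have e1 : evP m * wL + evP Q * E.y = evP (C 2 * m) * wL + -(E.Od m Q) := by
      have : evP (C 2 * m) = 2 * evP m := by
        rw [map_mul, map_ofNat C 2, map_ofNat]
      unfold Od
      rw [this]; ring
    have h2m : (C 2 * m : ℚ[X]) ≠ 0 := mul_ne_zero (by simp) hm
    have h2d : (C 2 * m : ℚ[X]).natDegree = μ := by rw [natDegree_C_mul (by norm_num), hμ]
    have h2ne : evP (C 2 * m) * wL ≠ 0 := mul_ne_zero (evP_ne_zero h2m) wL_ne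
    have h2o : (evP (C 2 * m) * wL).order = -(2 * (μ : ℝ) + 1) := by
      rw [HahnSeries.order_mul (evP_ne_zero h2m) wL_ne, order_evP h2m, order_wL, h2d]; ring
    rw [e1]
    by_cases hz : E.Od m Q = 0
    · rw [hz, neg_zero, add_zero]
      exact ⟨h2ne, h2o⟩
    · have h5 := hOd.resolve_left hz
      have hlt : (evP (C 2 * m) * wL).order ≠ (-(E.Od m Q)).order := by
        rw [h2o, order_neg_LL]; exact h5.ne
      obtain ⟨g1, g2⟩ := order_add_of_ne h2ne (neg_ne_zero.mpr hz) hlt
      refine ⟨g1, ?_⟩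
      rw [g2, h2o, order_neg_LL]
      exact min_eq_left h5.le
  -- the product
  set N : ℚ[X] := m * m * X - Q * Q * E.F with hN
  have hprod2 : E.Od m Q * (evP m * wL + evP Q * E.y) = evP N := by
    have e1 : evP X = wL ^ 2 := by
      rw [wL_sq]; unfold evP; rw [coe_eval₂RingHom, eval₂_X]
    rw [hN, map_sub, map_mul, map_mul, map_mul, map_mul, e1, ← E.hy]
    unfold Od
    ring
  have hN0 : N ≠ 0 := by
    intro hz
    apply E.no_sq m Q hm
    rw [hN] at hz
    linear_combination -hz
  have hOdne : E.Od m Q ≠ 0 := by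
    intro hz
    rw [hz, zero_mul] at hprod2
    exact evP_ne_zero hN0 hprod2.symm
  have hord : (E.Od m Q).order = 2 * (μ : ℝ) + 1 - 2 * (N.natDegree : ℝ) := by
    have h5 := congrArg HahnSeries.order hprod2
    rw [HahnSeries.order_mul hOdne hO'1, hO'2, order_evP hN0] at h5
    linarith
  have hP0 : P = 0 := by
    by_contra hp0
    have hne : -(evP P) ≠ 0 := neg_ne_zero.mpr (evP_ne_zero hp0)
    have hor : (-(evP P)).order = -2 * (P.natDegree : ℝ) := by
      rw [order_neg_LL, order_evP hp0]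
    have hPd : (0 : ℝ) ≤ P.natDegree := by positivity
    have hlt : (E.Od m Q).order ≠ (-(evP P)).order := by
      rw [hord, hor]
      intro h
      have h7 : (2 * (μ : ℤ) + 1 - 2 * (N.natDegree : ℤ)) = -2 * (P.natDegree : ℤ) := by exact_mod_cast h
      omega
    obtain ⟨g1, g2⟩ := order_add_of_ne hOdne hne hlt
    rcases hD0 with h | h
    · exact g1 h
    · rw [g2] at h
      have := lt_of_lt_of_le h (min_le_right _ _)
      rw [hor] at this
      linarith
  rw [hP0, map_zero, neg_zero, add_zero] at hD0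
  have h7 := hD0.resolve_left hOdne
  rw [hord] at h7
  -- divisibility
  have hfin := hD.2.2
  rw [hP0, mul_zero, zero_sub] at hfin
  obtain ⟨c, hc⟩ : ∃ c : ℚ[X], c = R + m * X := ⟨_, rfl⟩
  have hNc : N = m * c := by
    rw [hc, hN]
    linear_combination -hfin
  have hc0 : c ≠ 0 := by
    rintro h0
    rw [h0, mul_zero] at hNc
    exact hN0 hNc
  have hNdeg : N.natDegree = μ + c.natDegree := by
    rw [hNc, natDegree_mul hm hc0, hμ]
  rw [hNdeg] at h7
  push_cast at h7
  have hcd : c.natDegree = 0 := by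
    have h8 : 2 * (c.natDegree : ℝ) < 1 + μ - W / 2 := by linarith
    have h9 : (μ : ℝ) ≤ k := by exact_mod_cast hμk
    have h10 : 2 * (c.natDegree : ℝ) < 1 := by linarith
    have h11 : 2 * c.natDegree < 1 := by exact_mod_cast h10
    omega
  have hμk' : μ = k := by
    rw [hcd] at h7
    push_cast at h7
    have h8 : (k : ℝ) < μ + 1 := by linarith
    have h9 : k < μ + 1 := by exact_mod_cast h8
    omega
  obtain ⟨c0, hc0'⟩ := natDegree_eq_zero.mp hcd
  refine ⟨by rw [← hμk']; exact hμW, m, Q, c0, hm, ?_, by rw [← hμ, hμk'], ?_⟩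
  · rintro rfl
    rw [C_0] at hc0'
    exact hc0 hc0'.symm
  · rw [hc0']
    have h1 : m * m * X - Q * Q * E.F = m * c := by rw [← hN, hNc]
    linear_combination -h1

/-- the zero estimate holds for all linear factors unless there is an exceptional identity -/
lemma good_or_exc (k : ℕ) (W : ℝ) (hk1 : 2 * (k : ℝ) ≤ W) (hk2 : W < 2 * k + 2) :
    (∀ φ : E.K, E.G W (X - C φ)) ∨ (2 * (k : ℝ) < W ∧ Exc E.F k) := by
  by_cases h : ∀ φ : E.K, E.G W (X - C φ)
  · exact Or.inl h
  · push Not at h
    obtain ⟨φ, hφ⟩ := h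
    exact Or.inr (E.exc_of_not_good k W hk1 hk2 φ hφ)

/-- degrees in the exceptional identity -/
lemma exc_deg (m Q : ℚ[X]) (c : ℚ) (hm0 : m ≠ 0)
    (h : Q * Q * E.F = m * (m * X - C c)) :
    Q ≠ 0 ∧ 2 * Q.natDegree + E.F.natDegree = 2 * m.natDegree + 1 := by
  have hmX : (m * X).natDegree = m.natDegree + 1 := natDegree_mul_X hm0
  have h1 : (m * X - C c).natDegree = m.natDegree + 1 := by
    rw [natDegree_sub_C, hmX]
  have h1' : m * X - C c ≠ 0 := by
    intro h0
    rw [h0, natDegree_zero] at h1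
    omega
  have hQ : Q ≠ 0 := by
    rintro rfl
    rw [mul_zero, zero_mul] at h
    exact mul_ne_zero hm0 h1' h.symm
  refine ⟨hQ, ?_⟩
  have h2 := congrArg natDegree h
  rw [natDegree_mul (mul_ne_zero hQ hQ) E.F_ne, natDegree_mul hQ hQ, natDegree_mul hm0 h1', h1] at h2
  omega

end CrvL

end Pool.Agent.W273.Z
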