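import Mathlib

/-!
Primitive polynomials with respect to a valuation, and integrality of the discriminant.
-/

set_option autoImplicit false

namespace Pool.Agent.W273.Z

open Polynomial Finset

variable {K : Type*} [Field K] {Γ : Type*} [LinearOrderedCommGroupWithZero Γ]

/-- all coefficients are integral and some coefficient is a unit -/
def PrimV (v : Valuation K Γ) (Q : K[X]) : Prop :=
  (∀ i, v (Q.coeff i) ≤ 1) ∧ ∃ i, v (Q.coeff i) = 1

lemma exists_prim (v : Valuation K Γ) (Q : K[X]) (hQ : Q ≠ 0) :
    ∃ c : K, ∃ Q1 : K[X], c ≠ 0 ∧ PrimV v Q1 ∧ Q = C c * Q1 := by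
  have hne : Q.support.Nonempty := Polynomial.support_nonempty.mpr hQ
  obtain ⟨i, hi, hmax⟩ := Finset.exists_max_image Q.support (fun i => v (Q.coeff i)) hne
  have hc : Q.coeff i ≠ 0 := Polynomial.mem_support_iff.mp hi
  have hv : v (Q.coeff i) ≠ 0 := (Valuation.ne_zero_iff v).mpr hc
  refine ⟨Q.coeff i, C (Q.coeff i)⁻¹ * Q, hc, ⟨?_, i, ?_⟩, ?_⟩
  · intro j
    rw [coeff_C_mul, map_mul, map_inv₀]
    by_cases hj : Q.coeff j = 0
    · rw [hj, map_zero, mul_zero]; exact zero_le_one
    · have h1 := hmax j (Polynomial.mem_support_iff.mpr hj)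
      rw [inv_mul_le_iff₀ (zero_lt_iff.mpr hv), mul_one]
      exact h1
  · rw [coeff_C_mul, inv_mul_cancel₀ hc, map_one]
  · rw [← mul_assoc, ← C_mul, mul_inv_cancel₀ hc, C_1, one_mul]

lemma PrimV.mul {v : Valuation K Γ} {P Q : K[X]} (hP : PrimV v P) (hQ : PrimV v Q) :
    PrimV v (P * Q) := by
  classical
  obtain ⟨hP1, hP2⟩ := hP
  obtain ⟨hQ1, hQ2⟩ := hQ
  refine ⟨?_, ?_⟩
  · intro i
    rw [coeff_mul]
    apply Valuation.map_sum_le
    intro x _
    rw [map_mul]
    exact mul_le_one' (hP1 _) (hQ1 _)
  · set i0 := Nat.find hP2 with hi0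
    set j0 := Nat.find hQ2 with hj0
    have h1 : v (P.coeff i0) = 1 := Nat.find_spec hP2
    have h2 : v (Q.coeff j0) = 1 := Nat.find_spec hQ2
    refine ⟨i0 + j0, ?_⟩
    rw [coeff_mul]
    have hmem : (i0, j0) ∈ Finset.HasAntidiagonal.antidiagonal (i0 + j0) := by simp
    rw [← Finset.add_sum_erase _ _ hmem]
    have h3 : v (P.coeff i0 * Q.coeff j0) = 1 := by rw [map_mul, h1, h2, one_mul]
    have h4 : v (∑ x ∈ (Finset.HasAntidiagonal.antidiagonal (i0 + j0)).erase (i0, j0),
        P.coeff x.1 * Q.coeff x.2) < 1 := by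
      apply Valuation.map_sum_lt _ one_ne_zero
      intro x hx
      rw [Finset.mem_erase, Finset.HasAntidiagonal.mem_antidiagonal] at hx
      obtain ⟨hne, hsum⟩ := hx
      rw [map_mul]
      rcases lt_trichotomy x.1 i0 with h | h | h
      · have h5 : v (P.coeff x.1) < 1 :=
          lt_of_le_of_ne (hP1 _) (Nat.find_min hP2 h)
        calc v (P.coeff x.1) * v (Q.coeff x.2) ≤ v (P.coeff x.1) * 1 :=
              mul_le_mul_right (hQ1 _) _
          _ < 1 := by rw [mul_one]; exact h5
      · exfalso
        apply hne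
        ext
        · exact h
        · simp only; omega
      · have h6 : x.2 < j0 := by omega
        have h5 : v (Q.coeff x.2) < 1 :=
          lt_of_le_of_ne (hQ1 _) (Nat.find_min hQ2 h6)
        calc v (P.coeff x.1) * v (Q.coeff x.2) ≤ 1 * v (Q.coeff x.2) :=
              mul_le_mul_left (hP1 _) _
          _ < 1 := by rw [one_mul]; exact h5
    rw [Valuation.map_add_eq_of_lt_left]
    · exact h3
    · rw [h3]; exact h4

/-- the scalar is unique up to units -/
lemma prim_unique {v : Valuation K Γ} {c c' : K} {P P' : K[X]} (hP : PrimV v P)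
    (hP' : PrimV v P') (h : C c * P = C c' * P') : v c = v c' := by
  obtain ⟨i, hi⟩ := hP.2
  obtain ⟨j, hj⟩ := hP'.2
  have h1 := congrArg (fun R => v (R.coeff i)) h
  have h2 := congrArg (fun R => v (R.coeff j)) h
  simp only [coeff_C_mul, map_mul, hi, hj, mul_one] at h1 h2
  apply le_antisymm
  · rw [h1]
    calc v c' * v (P'.coeff i) ≤ v c' * 1 := mul_le_mul_right (hP'.1 _) _
      _ = v c' := mul_one _
  · rw [← h2]
    calc v c * v (P.coeff j) ≤ v c * 1 := mul_le_mul_right (hP.1 _) _
      _ = v c := mul_one _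

lemma v_natCast_le (v : Valuation K Γ) (n : ℕ) : v (n : K) ≤ 1 := by
  induction n with
  | zero => rw [Nat.cast_zero, map_zero]; exact zero_le_one
  | succ n ih =>
    rw [Nat.cast_succ]
    exact (Valuation.map_add v _ _).trans (max_le ih (by rw [map_one]))

lemma v_det_le (v : Valuation K Γ) {n : ℕ} (M : Matrix (Fin n) (Fin n) K)
    (hM : ∀ i j, v (M i j) ≤ 1) : v M.det ≤ 1 := by
  rw [Matrix.det_apply]
  apply Valuation.map_sum_le
  intro σ _
  have h1 : v (∏ i, M (σ i) i) ≤ 1 := by
    rw [map_prod]
    exact Finset.prod_le_one' (fun i _ => hM _ _)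
  rcases Int.units_eq_one_or (Equiv.Perm.sign σ) with h | h
  · rw [h, one_smul]; exact h1
  · rw [h, Units.neg_smul, one_smul, Valuation.map_neg]; exact h1

/-- the discriminant of an integral polynomial is integral -/
lemma v_discr_le (v : Valuation K Γ) (Q : K[X]) (hQ : ∀ i, v (Q.coeff i) ≤ 1) :
    v Q.discr ≤ 1 := by
  unfold Polynomial.discr
  rw [map_mul]
  apply mul_le_one'
  · apply v_det_le
    intro i j
    have hd : ∀ k, v (Q.derivative.coeff k) ≤ 1 := by
      intro k
      rw [coeff_derivative, map_mul]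
      apply mul_le_one' (hQ _)
      exact_mod_cast v_natCast_le v (k + 1)
    unfold Polynomial.sylvesterDeriv
    split_ifs with h0
    · simp
    · rw [Matrix.updateRow_apply]
      split_ifs
      · rw [map_one]
      · exact v_natCast_le v _
      · rw [map_zero]; exact zero_le_one
      · unfold Polynomial.sylvester
        rw [Matrix.of_apply]
        induction j using Fin.addCases with
        | left j => 
          rw [Fin.addCases_left]
          split_ifs
          · exact hQ _
          · rw [map_zero]; exact zero_le_one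
        | right j =>
          rw [Fin.addCases_right]
          split_ifs
          · exact hd _
          · rw [map_zero]; exact zero_le_one
  · rw [map_pow, Valuation.map_neg, map_one, one_pow]

end Pool.Agent.W273.Z
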