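import Pool.Agent.W273.Z.Content

/-!
Homogeneity of the discriminant under multiplication by scalars and affine substitutions.
-/

set_option autoImplicit false

namespace Pool.Agent.W273.Z

open Polynomial Finset

variable {K : Type*} [Field K] [CharZero K]

lemma natDegree_derivative' (Q : K[X]) : Q.derivative.natDegree = Q.natDegree - 1 :=
  Polynomial.natDegree_derivative Q

lemma discr_C_mul (c : K) (hc : c ≠ 0) (Q : K[X]) (hk : 0 < Q.natDegree) :
    (C c * Q).discr = c ^ (2 * Q.natDegree - 2) * Q.discr := by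
  have hQ : Q ≠ 0 := by rintro rfl; simp at hk
  have hd : (C c * Q).natDegree = Q.natDegree := natDegree_C_mul hc
  have h1 := resultant_deriv (f := C c * Q) (by
    rw [← natDegree_pos_iff_degree_pos, hd]; exact hk)
  have h2 := resultant_deriv (f := Q) (by rw [← natDegree_pos_iff_degree_pos]; exact hk)
  rw [hd, derivative_C_mul, resultant_C_mul_left, resultant_C_mul_right, h2,
    leadingCoeff_mul, leadingCoeff_C] at h1
  have hl : Q.leadingCoeff ≠ 0 := leadingCoeff_ne_zero.mpr hQ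
  have hs : ((-1 : K) ^ (Q.natDegree * (Q.natDegree - 1) / 2)) ≠ 0 :=
    pow_ne_zero _ (by norm_num)
  have e1 : c ^ (Q.natDegree - 1) * c ^ Q.natDegree = c * c ^ (2 * Q.natDegree - 2) := by
    rw [← pow_add, ← pow_succ']
    congr 1
    omega
  have h3 : ((-1 : K) ^ (Q.natDegree * (Q.natDegree - 1) / 2) * c * Q.leadingCoeff) *
      (C c * Q).discr = ((-1 : K) ^ (Q.natDegree * (Q.natDegree - 1) / 2) * c * Q.leadingCoeff) *
      (c ^ (2 * Q.natDegree - 2) * Q.discr) := by
    calc _ = (-1 : K) ^ (Q.natDegree * (Q.natDegree - 1) / 2) * (c * Q.leadingCoeff) *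
          (C c * Q).discr := by ring
      _ = c ^ (Q.natDegree - 1) * (c ^ Q.natDegree *
          ((-1) ^ (Q.natDegree * (Q.natDegree - 1) / 2) * Q.leadingCoeff * Q.discr)) := h1.symm
      _ = (c ^ (Q.natDegree - 1) * c ^ Q.natDegree) *
          ((-1) ^ (Q.natDegree * (Q.natDegree - 1) / 2) * Q.leadingCoeff * Q.discr) := by ring
      _ = _ := by rw [e1]; ring
  exact mul_left_cancel₀ (mul_ne_zero (mul_ne_zero hs hc) hl) h3

lemma derivative_scaleRoots (Q : K[X]) (r : K) :
    (Q.scaleRoots r).derivative = (Q.derivative).scaleRoots r := by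
  ext i
  rw [coeff_derivative, coeff_scaleRoots, coeff_scaleRoots, coeff_derivative,
    natDegree_derivative']
  have : Q.natDegree - (i + 1) = Q.natDegree - 1 - i := by omega
  rw [this]; ring

lemma discr_scaleRoots (Q : K[X]) (r : K) (hk : 0 < Q.natDegree) :
    (Q.scaleRoots r).discr = r ^ (Q.natDegree * (Q.natDegree - 1)) * Q.discr := by
  have hQ : Q ≠ 0 := by rintro rfl; simp at hk
  have h1 := resultant_deriv (f := Q.scaleRoots r) (by
    rw [← natDegree_pos_iff_degree_pos, natDegree_scaleRoots]; exact hk)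
  have h2 := resultant_deriv (f := Q) (by rw [← natDegree_pos_iff_degree_pos]; exact hk)
  have h3 := resultant_scaleRoots Q Q.derivative r
  rw [natDegree_scaleRoots, natDegree_scaleRoots, natDegree_derivative'] at h3
  rw [derivative_scaleRoots, natDegree_scaleRoots, h3, h2] at h1
  have hl : Q.leadingCoeff ≠ 0 := leadingCoeff_ne_zero.mpr hQ
  have hls : (Q.scaleRoots r).leadingCoeff = Q.leadingCoeff := leadingCoeff_scaleRoots Q r
  rw [hls] at h1
  have hs : ((-1 : K) ^ (Q.natDegree * (Q.natDegree - 1) / 2)) ≠ 0 :=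
    pow_ne_zero _ (by norm_num)
  apply mul_left_cancel₀ (mul_ne_zero hs hl)
  rw [← h1]; ring

lemma discr_taylor (Q : K[X]) (w : K) (hk : 0 < Q.natDegree) :
    (Q.taylor w).discr = Q.discr := by
  have hQ : Q ≠ 0 := by rintro rfl; simp at hk
  have h1 := resultant_deriv (f := Q.taylor w) (by
    rw [← natDegree_pos_iff_degree_pos, natDegree_taylor]; exact hk)
  have h2 := resultant_deriv (f := Q) (by rw [← natDegree_pos_iff_degree_pos]; exact hk)
  have h3 := resultant_taylor Q Q.derivative w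
  have hder : (Q.taylor w).derivative = (Q.derivative).taylor w := by
    rw [taylor_apply, taylor_apply, derivative_comp]; simp
  rw [natDegree_taylor, natDegree_taylor, natDegree_derivative'] at h3
  rw [hder, natDegree_taylor, h3, h2] at h1
  have hl : Q.leadingCoeff ≠ 0 := leadingCoeff_ne_zero.mpr hQ
  have hls : (Q.taylor w).leadingCoeff = Q.leadingCoeff := leadingCoeff_taylor w Q
  rw [hls] at h1
  have hs : ((-1 : K) ^ (Q.natDegree * (Q.natDegree - 1) / 2)) ≠ 0 :=
    pow_ne_zero _ (by norm_num)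
  exact (mul_left_cancel₀ (mul_ne_zero hs hl) h1).symm

lemma comp_eq_scale (Q : K[X]) (ϖ w : K) (hϖ : ϖ ≠ 0) :
    Q.comp (C ϖ * X + C w) = C (ϖ ^ Q.natDegree) * (Q.taylor w).scaleRoots ϖ⁻¹ := by
  have h1 : Q.comp (C ϖ * X + C w) = (Q.taylor w).comp (C ϖ * X) := by
    rw [taylor_apply, comp_assoc]
    simp
  rw [h1]
  ext i
  rw [coeff_C_mul, coeff_scaleRoots, natDegree_taylor, comp_C_mul_X_coeff]
  by_cases hi : i ≤ Q.natDegree
  · have h2 : ϖ ^ Q.natDegree = ϖ ^ i * ϖ ^ (Q.natDegree - i) := by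
      rw [← pow_add]; congr 1; omega
    have h3 : ϖ ^ (Q.natDegree - i) * ϖ⁻¹ ^ (Q.natDegree - i) = 1 := by
      rw [← mul_pow, mul_inv_cancel₀ hϖ, one_pow]
    calc _ = (Q.taylor w).coeff i * ϖ ^ i * 1 := by rw [mul_one]
      _ = (Q.taylor w).coeff i * ϖ ^ i *
        (ϖ ^ (Q.natDegree - i) * ϖ⁻¹ ^ (Q.natDegree - i)) := by rw [h3]
      _ = _ := by rw [h2]; ring
  · rw [coeff_eq_zero_of_natDegree_lt (by rw [natDegree_taylor]; omega)]
    simp

omit [CharZero K] in
lemma natDegree_comp_scale (Q : K[X]) (ϖ w : K) (hϖ : ϖ ≠ 0) :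
    (Q.comp (C ϖ * X + C w)).natDegree = Q.natDegree := by
  rw [natDegree_comp, natDegree_linear hϖ, mul_one]

lemma discr_comp (Q : K[X]) (ϖ w : K) (hϖ : ϖ ≠ 0) (hk : 0 < Q.natDegree) :
    (Q.comp (C ϖ * X + C w)).discr = ϖ ^ (Q.natDegree * (Q.natDegree - 1)) * Q.discr := by
  rw [comp_eq_scale Q ϖ w hϖ, discr_C_mul _ (pow_ne_zero _ hϖ) _ (by
    rw [natDegree_scaleRoots, natDegree_taylor]; exact hk), discr_scaleRoots _ _ (by
    rw [natDegree_taylor]; exact hk), discr_taylor _ _ hk, natDegree_scaleRoots, natDegree_taylor]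
  set k := Q.natDegree
  obtain ⟨m, hm⟩ : ∃ m, k = m + 1 := ⟨k - 1, by omega⟩
  rw [hm, ← pow_mul]
  have e1 : (m + 1) * (2 * (m + 1) - 2) = (m + 1) * m + (m + 1) * m := by
    have : 2 * (m + 1) - 2 = m + m := by omega
    rw [this]; ring
  have e2 : m + 1 - 1 = m := by omega
  rw [e1, e2, pow_add]
  have h3 : ϖ ^ ((m + 1) * m) * ϖ⁻¹ ^ ((m + 1) * m) = 1 := by
    rw [← mul_pow, mul_inv_cancel₀ hϖ, one_pow]
  calc _ = ϖ ^ ((m + 1) * m) * (ϖ ^ ((m + 1) * m) * ϖ⁻¹ ^ ((m + 1) * m)) * Q.discr := by ring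
    _ = _ := by rw [h3, mul_one]

/-- the discriminant of an irreducible polynomial of positive degree does not vanish -/
lemma discr_ne_zero (Q : K[X]) (hQ : Irreducible Q) : Q.discr ≠ 0 := by
  have hk : 0 < Q.natDegree := hQ.natDegree_pos
  have h2 := resultant_deriv (f := Q) (by rw [← natDegree_pos_iff_degree_pos]; exact hk)
  have hcop : IsCoprime Q Q.derivative := (hQ.separable)
  have h3 : resultant Q Q.derivative ≠ 0 := by
    intro h
    rw [resultant_eq_zero_iff] at h
    exact h.2 hcop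
  rw [natDegree_derivative'] at h3
  intro h
  rw [h, mul_zero] at h2
  exact h3 h2

end Pool.Agent.W273.Z
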