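import Mathlib

/-!
Linear algebra: minors, vanishing to high order at a point, and the filtration argument.
-/

set_option autoImplicit false

namespace Pool.Agent.W273.Z

open Polynomial Finset

section MINOR

variable {α γ : Type} [Fintype α] [Fintype γ]

/-- a matrix of rank at least `ρ` has `ρ` independent rows -/
theorem rows_indep {K : Type} [Field K] (B : Matrix α γ K) (ρ : ℕ) (h : ρ ≤ B.rank) :
    ∃ f : Fin ρ → α, LinearIndependent K (fun i => B (f i)) := by
  rw [Matrix.rank_eq_finrank_span_row] at h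
  obtain ⟨g, hg, -, hli⟩ := Submodule.exists_fun_fin_finrank_span_eq K (Set.range B.row)
  choose e he using hg
  refine ⟨fun i => e (Fin.castLE h i), ?_⟩
  have h1 := hli.comp (Fin.castLE h) (Fin.castLE_injective h)
  have h2 : (fun i => B (e (Fin.castLE h i))) = g ∘ Fin.castLE h := by
    funext i
    exact he (Fin.castLE h i)
  rw [h2]
  exact h1

/-- rank and minors -/
theorem exists_minor {K : Type} [Field K] (B : Matrix α γ K) (ρ : ℕ) (h : ρ ≤ B.rank) :
    ∃ (f : Fin ρ → α) (g : Fin ρ → γ), (B.submatrix f g).det ≠ 0 := by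
  obtain ⟨f, hf⟩ := rows_indep B ρ h
  have h1 : (B.submatrix f id).rank = ρ := by
    have h2 : LinearIndependent K (B.submatrix f id).row := hf
    rw [h2.rank_matrix, Fintype.card_fin]
  have h3 : ρ ≤ (B.submatrix f id).transpose.rank := by
    rw [Matrix.rank_transpose, h1]
  obtain ⟨g, hg⟩ := rows_indep _ ρ h3
  refine ⟨f, g, ?_⟩
  have h4 : LinearIndependent K (B.submatrix f g).transpose.row := hg
  have h5 : IsUnit (B.submatrix f g).transpose :=
    Matrix.linearIndependent_rows_iff_isUnit.1 h4
  have h6 := (Matrix.isUnit_iff_isUnit_det _).1 h5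
  rw [Matrix.det_transpose] at h6
  exact h6.ne_zero

omit [Fintype α] in
theorem rank_ge_of_minor {K : Type} [Field K] (B : Matrix α γ K) (ρ : ℕ) (f : Fin ρ → α)
    (g : Fin ρ → γ) (h : (B.submatrix f g).det ≠ 0) : ρ ≤ B.rank := by
  have h1 : (B.submatrix f g).rank = Fintype.card (Fin ρ) := Matrix.rank_of_det_ne_zero h
  have h2 := Matrix.rank_submatrix_le B f g
  rw [h1, Fintype.card_fin] at h2
  exact h2

end MINOR

/-- the polynomial with given coefficients -/
noncomputable def poly (n : ℕ) : (Fin (n + 1) → ℝ) →ₗ[ℝ] ℝ[X] :=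
  ∑ l : Fin (n + 1), (Polynomial.monomial (l : ℕ)).comp (LinearMap.proj l)

lemma poly_apply (n : ℕ) (v : Fin (n + 1) → ℝ) : poly n v = ∑ l : Fin (n + 1), monomial (l : ℕ) (v l) := by
  simp [poly]

lemma poly_coeff (n : ℕ) (v : Fin (n + 1) → ℝ) (l : Fin (n + 1)) : (poly n v).coeff l = v l := by
  rw [poly_apply, finsetSum_coeff, Finset.sum_eq_single l]
  · rw [coeff_monomial_same]
  · intro b _ hb
    rw [coeff_monomial, if_neg]
    intro h
    exact hb (Fin.ext h)
  · intro h; exact absurd (Finset.mem_univ _) h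

lemma poly_natDegree (n : ℕ) (v : Fin (n + 1) → ℝ) : (poly n v).natDegree ≤ n := by
  rw [poly_apply]
  apply natDegree_sum_le_of_forall_le
  intro l _
  exact (natDegree_monomial_le _).trans (by omega)

/-- coefficient vectors of polynomials vanishing to order `m0` at `α` -/
noncomputable def Vn (n m0 : ℕ) (α : ℝ) : Submodule ℝ (Fin (n + 1) → ℝ) where
  carrier := {v | ∀ j < m0, (taylor α (poly n v)).coeff j = 0}
  add_mem' := by
    intro a b ha hb j hj
    rw [map_add, map_add, coeff_add, ha j hj, hb j hj, add_zero]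
  zero_mem' := by
    intro j _
    rw [map_zero, map_zero, coeff_zero]
  smul_mem' := by
    intro c a ha j hj
    rw [map_smul, map_smul, coeff_smul, ha j hj, smul_zero]

lemma finrank_Vn (n m0 : ℕ) (α : ℝ) : Module.finrank ℝ (Vn n m0 α) ≤ n + 1 - m0 := by
  let Φ : Vn n m0 α →ₗ[ℝ] (Fin (n + 1 - m0) → ℝ) :=
    { toFun := fun v j => (taylor α (poly n v.1)).coeff (m0 + j)
      map_add' := by
        intro a b
        funext j
        simp
      map_smul' := by
        intro c a
        funext j
        simp }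
  have hinj : Function.Injective Φ := by
    rw [injective_iff_map_eq_zero]
    intro v hv
    have h1 : taylor α (poly n v.1) = 0 := by
      ext j
      rw [coeff_zero]
      rcases Nat.lt_or_ge j m0 with h | h
      · exact v.2 j h
      · rcases Nat.lt_or_ge n j with h' | h'
        · apply coeff_eq_zero_of_natDegree_lt
          rw [natDegree_taylor]
          exact lt_of_le_of_lt (poly_natDegree n v.1) h'
        · have := congrFun hv ⟨j - m0, by omega⟩
          have e : m0 + (j - m0) = j := by omega
          simp only [Φ, LinearMap.coe_mk, AddHom.coe_mk, Pi.zero_apply, e] at this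
          exact this
    have h2 : poly n v.1 = 0 := by
      apply taylor_injective α
      rw [h1, map_zero]
    apply Subtype.ext
    funext l
    rw [← poly_coeff n v.1 l, h2]
    simp
  have := LinearMap.finrank_le_finrank_of_injective hinj
  rwa [Module.finrank_fin_fun] at this

/-- matrices whose rows vanish to high order have small rank -/
lemma rank_le_of_vanish (k n m0 : ℕ) (α : ℝ) (M : Matrix (Fin k) (Fin (n + 1)) ℝ)
    (h : ∀ i, ∀ j < m0, (taylor α (poly n (M i))).coeff j = 0) : M.rank ≤ n + 1 - m0 := by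
  rw [Matrix.rank_eq_finrank_span_row]
  have h1 : Submodule.span ℝ (Set.range M.row) ≤ Vn n m0 α := by
    rw [Submodule.span_le]
    rintro _ ⟨i, rfl⟩
    exact h i
  exact (Submodule.finrank_mono h1).trans (finrank_Vn n m0 α)

/-- one step of the filtration argument -/
lemma drop_one {V : Type} [AddCommGroup V] [Module ℚ V] [FiniteDimensional ℚ V]
    (S S' : Submodule ℚ V) (hS : S' ≤ S) (r : ℕ)
    (h : ∀ v : Fin (r + 1) → V, (∀ i, v i ∈ S) → ∃ c : Fin (r + 1) → ℚ, c ≠ 0 ∧
      ∑ i, c i • v i ∈ S') : Module.finrank ℚ S ≤ Module.finrank ℚ S' + r := by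
  by_contra hlt
  push Not at hlt
  set T : Submodule ℚ S := S'.comap S.subtype with hT
  have h1 : Module.finrank ℚ T = Module.finrank ℚ S' := by
    rw [hT]
    exact LinearEquiv.finrank_eq (Submodule.comapSubtypeEquivOfLe hS)
  have h2 := Submodule.finrank_quotient_add_finrank T
  have h3 : r + 1 ≤ Module.finrank ℚ (S ⧸ T) := by omega
  obtain ⟨g, hg⟩ := exists_linearIndependent_of_le_finrank h3
  choose w hw using fun i => Submodule.mkQ_surjective T (g i)
  obtain ⟨c, hc, hsum⟩ := h (fun i => (w i : V)) (fun i => (w i).2)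
  apply hc
  have h4 : ∑ i, c i • g i = 0 := by
    have h5 : T.mkQ (∑ i, c i • w i) = ∑ i, c i • g i := by
      rw [map_sum]
      apply Finset.sum_congr rfl
      intro i _
      rw [map_smul, hw]
    rw [← h5, Submodule.mkQ_apply, Submodule.Quotient.mk_eq_zero]
    rw [hT, Submodule.mem_comap, map_sum]
    simpa using hsum
  have := Fintype.linearIndependent_iff.mp hg c h4
  funext i
  exact this i

/-- the filtration argument -/
lemma drop_all {V : Type} [AddCommGroup V] [Module ℚ V] [FiniteDimensional ℚ V]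
    (S : ℕ → Submodule ℚ V) (hS0 : S 0 = ⊤) (hS : ∀ t, S (t + 1) ≤ S t) (r : ℕ)
    (h : ∀ t, ∀ v : Fin (r + 1) → V, (∀ i, v i ∈ S t) → ∃ c : Fin (r + 1) → ℚ, c ≠ 0 ∧
      ∑ i, c i • v i ∈ S (t + 1)) (t0 : ℕ) (hbot : S t0 = ⊥) : Module.finrank ℚ V ≤ r * t0 := by
  have key : ∀ t, Module.finrank ℚ V ≤ Module.finrank ℚ (S t) + r * t := by
    intro t
    induction t with
    | zero => rw [hS0, finrank_top]; omega
    | succ t ih =>
      have := drop_one (S t) (S (t + 1)) (hS t) r (h t)
      have e : r * (t + 1) = r * t + r := by ring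
      omega
  have := key t0
  rw [hbot, finrank_bot] at this
  omega

end Pool.Agent.W273.Z
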