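import Pool.Agent.W273.Z.Sys
import Pool.Agent.W273.Z.Lin

/-!
The filtration argument: the family of auxiliary polynomials has large rank over the function field.
-/

set_option autoImplicit false

namespace Pool.Agent.W273.Z

open Polynomial Finset

/-- all coefficients below `v` vanish -/
def low (v : ℝ) (x : LL) : Prop := ∀ e : ℝ, e < v → x.coeff e = 0

lemma low_zero (v : ℝ) : low v 0 := fun _ _ => HahnSeries.coeff_zero

lemma low.add {v : ℝ} {x y : LL} (hx : low v x) (hy : low v y) : low v (x + y) := by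
  intro e he
  rw [HahnSeries.coeff_add, hx e he, hy e he, add_zero]

lemma low.neg {v : ℝ} {x : LL} (hx : low v x) : low v (-x) := by
  intro e he
  rw [HahnSeries.coeff_neg, hx e he, neg_zero]

lemma low.sum {ι : Type} {s : Finset ι} {v : ℝ} {x : ι → LL} (h : ∀ i ∈ s, low v (x i)) :
    low v (∑ i ∈ s, x i) := by
  classical
  induction s using Finset.induction_on with
  | empty => rw [Finset.sum_empty]; exact low_zero v
  | insert a s ha ih =>
    rw [Finset.sum_insert ha]
    exact (h a (Finset.mem_insert_self _ _)).add (ih fun i hi => h i (Finset.mem_insert_of_mem hi))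

lemma low_iff {v : ℝ} {x : LL} (hx : x ≠ 0) : low v x ↔ v ≤ x.order := by
  rw [HahnSeries.le_order_iff_forall hx]; rfl

lemma low.mul {a b : ℝ} {x y : LL} (hx : low a x) (hy : low b y) : low (a + b) (x * y) := by
  by_cases hx0 : x = 0
  · rw [hx0, zero_mul]; exact low_zero _
  by_cases hy0 : y = 0
  · rw [hy0, mul_zero]; exact low_zero _
  rw [low_iff (mul_ne_zero hx0 hy0), HahnSeries.order_mul hx0 hy0]
  rw [low_iff hx0] at hx
  rw [low_iff hy0] at hy
  linarith

lemma low.mono {a b : ℝ} (h : a ≤ b) {x : LL} (hx : low b x) : low a x :=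
  fun e he => hx e (lt_of_lt_of_le he h)

namespace CrvL

variable (E : CrvL)

lemma tw_zero (W : ℝ) : E.tw W 0 = 0 := by
  unfold tw; rw [Polynomial.map_zero, zero_comp]

lemma tw_add (W : ℝ) (P Q : E.K[X]) : E.tw W (P + Q) = E.tw W P + E.tw W Q := by
  unfold tw; rw [Polynomial.map_add, add_comp]

lemma tw_C_mul (W : ℝ) (c : E.K) (Q : E.K[X]) : E.tw W (C c * Q) = C (E.ι c) * E.tw W Q := by
  unfold tw; rw [Polynomial.map_mul, map_C, mul_comp, C_comp]

lemma tw_neg (W : ℝ) (Q : E.K[X]) : E.tw W (-Q) = -E.tw W Q := by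
  unfold tw; rw [Polynomial.map_neg, neg_comp]

lemma tw_sum {ι' : Type} (W : ℝ) (s : Finset ι') (Q : ι' → E.K[X]) :
    E.tw W (∑ i ∈ s, Q i) = ∑ i ∈ s, E.tw W (Q i) := by
  classical
  induction s using Finset.induction_on with
  | empty => rw [Finset.sum_empty, Finset.sum_empty, tw_zero]
  | insert a s ha ih => rw [Finset.sum_insert ha, Finset.sum_insert ha, tw_add, ih]

/-- removing the constant term of an element of non-negative order -/
lemma low_sub (z : E.K) (hz : low 0 (E.ι z)) (c : E.K) (hc : E.ι c = HahnSeries.C ((E.ι z).coeff 0)) :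
    low 1 (E.ι (z - c)) := by
  by_cases h0 : z - c = 0
  · rw [h0, map_zero]; exact low_zero _
  have hι := E.ι_ne h0
  have h1 : low 0 (E.ι (z - c)) := by
    intro e he
    rw [map_sub, HahnSeries.coeff_sub, hz e he, hc, HahnSeries.C_apply,
      HahnSeries.coeff_single_of_ne (by linarith), sub_zero]
  have h2 : (E.ι (z - c)).coeff 0 = 0 := by
    rw [map_sub, HahnSeries.coeff_sub, hc, HahnSeries.C_apply, HahnSeries.coeff_single_same, sub_self]
  rw [low_iff hι] at h1 ⊢
  have h3 : (E.ι (z - c)).order ≠ 0 := by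
    intro h
    rw [← h] at h2
    exact hι (HahnSeries.coeff_order_eq_zero.mp h2)
  rw [E.order_ι h0] at h1 h3 ⊢
  have h4 : (0 : ℤ) < -(QuadraticAlgebra.norm (z - c)).intDegree := by
    have h5 : (0 : ℝ) < -((QuadraticAlgebra.norm (z - c)).intDegree : ℝ) := lt_of_le_of_ne h1 (Ne.symm h3)
    exact_mod_cast h5
  have h6 : (1 : ℤ) ≤ -(QuadraticAlgebra.norm (z - c)).intDegree := h4
  exact_mod_cast h6

end CrvL

namespace Par

variable (p : Par)

lemma PQ_add (n N : ℕ) (u u' : Bx n N → ℚ) : p.PQ n N (u + u') = p.PQ n N u + p.PQ n N u' := by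
  unfold PQ
  rw [← Finset.sum_add_distrib]
  apply Finset.sum_congr rfl
  intro q _
  rw [Pi.add_apply, map_add, add_mul, map_add]

lemma PQ_smul (n N : ℕ) (c : ℚ) (u : Bx n N → ℚ) : p.PQ n N (c • u) = C (p.cK c) * p.PQ n N u := by
  unfold PQ
  rw [Finset.mul_sum]
  apply Finset.sum_congr rfl
  intro q _
  rw [Pi.smul_apply, smul_eq_mul, RingHom.map_mul p.cK, C_mul_monomial, mul_assoc]

lemma PQ_zero (n N : ℕ) : p.PQ n N 0 = 0 := by
  unfold PQ
  apply Finset.sum_eq_zero
  intro q _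
  rw [Pi.zero_apply, map_zero, zero_mul, map_zero]

lemma PQ_sum {ι' : Type} (n N : ℕ) (s : Finset ι') (c : ι' → ℚ) (u : ι' → Bx n N → ℚ) :
    p.PQ n N (∑ i ∈ s, c i • u i) = ∑ i ∈ s, C (p.cK (c i)) * p.PQ n N (u i) := by
  classical
  induction s using Finset.induction_on with
  | empty => rw [Finset.sum_empty, Finset.sum_empty, PQ_zero]
  | insert a s ha ih => rw [Finset.sum_insert ha, Finset.sum_insert ha, PQ_add, ih, PQ_smul]

lemma natDegree_PQ (n N : ℕ) (u : Bx n N → ℚ) : (p.PQ n N u).natDegree ≤ n := by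
  unfold PQ
  apply natDegree_sum_le_of_forall_le
  intro q _
  exact (natDegree_monomial_le _).trans (by have := q.1.2; omega)

lemma coeff_PQ (n N : ℕ) (u : Bx n N → ℚ) (l : Fin (n + 1)) : (p.PQ n N u).coeff l =
    ∑ k : Fin (N + n + 1 - l.1), p.cK (u ⟨l, k⟩) * p.toK (p.mon (p.io n N ⟨l, k⟩)) := by
  unfold PQ
  rw [finsetSum_coeff, Fintype.sum_sigma, Finset.sum_eq_single l]
  · apply Finset.sum_congr rfl
    intro k _
    rw [coeff_monomial_same]
  · intro l' _ hl
    apply Finset.sum_eq_zero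
    intro k _
    rw [coeff_monomial, if_neg]
    intro h
    exact hl (Fin.ext h)
  · intro h; exact absurd (Finset.mem_univ _) h

lemma cK_mul_re (c : ℚ) (z : p.RZ) : (p.cK c * p.toK z).re =
    algebraMap ℚ[X] (RatFunc ℚ) (C c * z.re.map (Int.castRingHom ℚ)) := by
  rw [QuadraticAlgebra.re_mul]
  have h1 : (p.cK c).re = algebraMap ℚ[X] (RatFunc ℚ) (C c) := rfl
  have h2 : (p.cK c).im = 0 := rfl
  rw [h1, h2, mul_zero, zero_mul, add_zero, map_mul]
  rfl

lemma cK_mul_im (c : ℚ) (z : p.RZ) : (p.cK c * p.toK z).im =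
    algebraMap ℚ[X] (RatFunc ℚ) (C c * z.im.map (Int.castRingHom ℚ)) := by
  rw [QuadraticAlgebra.im_mul]
  have h1 : (p.cK c).re = algebraMap ℚ[X] (RatFunc ℚ) (C c) := rfl
  have h2 : (p.cK c).im = 0 := rfl
  rw [h1, h2, zero_mul, zero_mul, zero_mul, add_zero, add_zero, map_mul]
  rfl

lemma re_sum {ι' : Type} (s : Finset ι') (z : ι' → p.E.K) : (∑ i ∈ s, z i).re = ∑ i ∈ s, (z i).re :=
  map_sum (QuadraticAlgebra.reₗ (R := RatFunc ℚ) p.E.Fr 0) z s

lemma im_sum {ι' : Type} (s : Finset ι') (z : ι' → p.E.K) : (∑ i ∈ s, z i).im = ∑ i ∈ s, (z i).im :=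
  map_sum (QuadraticAlgebra.imₗ (R := RatFunc ℚ) p.E.Fr 0) z s

lemma PQ_int (n N : ℕ) (u : Bx n N → ℚ) (i : ℕ) : ∃ P Q : ℚ[X],
    (p.PQ n N u).coeff i = ⟨algebraMap ℚ[X] (RatFunc ℚ) P, algebraMap ℚ[X] (RatFunc ℚ) Q⟩ := by
  rcases Nat.lt_or_ge n i with h | h
  · refine ⟨0, 0, ?_⟩
    rw [coeff_eq_zero_of_natDegree_lt (lt_of_le_of_lt (p.natDegree_PQ n N u) h), map_zero]
    rfl
  · have := p.coeff_PQ n N u ⟨i, by omega⟩
    simp only at this
    rw [this]
    refine ⟨∑ k, C (u ⟨⟨i, by omega⟩, k⟩) * (p.mon (p.io n N ⟨⟨i, by omega⟩, k⟩)).re.map (Int.castRingHom ℚ),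
      ∑ k, C (u ⟨⟨i, by omega⟩, k⟩) * (p.mon (p.io n N ⟨⟨i, by omega⟩, k⟩)).im.map (Int.castRingHom ℚ), ?_⟩
    ext
    · rw [re_sum]
      change _ = algebraMap ℚ[X] (RatFunc ℚ) _
      rw [map_sum]
      exact Finset.sum_congr rfl fun k _ => p.cK_mul_re _ _
    · rw [im_sum]
      change _ = algebraMap ℚ[X] (RatFunc ℚ) _
      rw [map_sum]
      exact Finset.sum_congr rfl fun k _ => p.cK_mul_im _ _

/-- the monomials are linearly independent -/
lemma PQ_inj (n N : ℕ) (u : Bx n N → ℚ) (h : p.PQ n N u = 0) : u = 0 := by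
  funext q
  obtain ⟨l, k0⟩ := q
  have h1 := p.coeff_PQ n N u l
  rw [h, coeff_zero] at h1
  have hio : ∀ k : Fin (N + n + 1 - l.1), p.io n N ⟨l, k⟩ + l.1 + k.1 = N + n + p.d := fun k =>
    p.io_add n N ⟨l, k⟩
  have hge : ∀ k : Fin (N + n + 1 - l.1), p.d ≤ p.io n N ⟨l, k⟩ := fun k => p.io_ge n N ⟨l, k⟩
  have hinj : Function.Injective (algebraMap ℚ[X] (RatFunc ℚ)) := IsFractionRing.injective _ _
  by_cases hev : Even (p.io n N ⟨l, k0⟩)
  · have h2 := congrArg QuadraticAlgebra.re h1.symm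
    rw [re_sum] at h2
    have h3 : algebraMap ℚ[X] (RatFunc ℚ) (∑ k : Fin (N + n + 1 - l.1),
        C (u ⟨l, k⟩) * (p.mon (p.io n N ⟨l, k⟩)).re.map (Int.castRingHom ℚ)) = 0 := by
      rw [map_sum]
      exact (Finset.sum_congr rfl fun k _ => (p.cK_mul_re _ _).symm).trans h2
    have h4 := (map_eq_zero_iff _ hinj).mp h3
    have h5 := congrArg (fun P => P.coeff (p.io n N ⟨l, k0⟩ / 2)) h4
    simp only [finsetSum_coeff, coeff_zero] at h5
    rw [Finset.sum_eq_single k0] at h5
    · unfold mon at h5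
      rw [if_pos hev] at h5
      simpa using h5
    · intro k _ hk
      rw [coeff_C_mul]
      unfold mon
      split_ifs with hk2
      · simp only [Polynomial.map_pow, map_X, coeff_X_pow]
        rw [if_neg, mul_zero]
        intro he
        apply hk
        have e1 := hio k
        have e2 := hio k0
        obtain ⟨a, ha⟩ := hev
        obtain ⟨b, hb⟩ := hk2
        apply Fin.ext
        omega
      · simp
    · intro hh; exact absurd (Finset.mem_univ _) hh
  · have h2 := congrArg QuadraticAlgebra.im h1.symm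
    rw [im_sum] at h2
    have h3 : algebraMap ℚ[X] (RatFunc ℚ) (∑ k : Fin (N + n + 1 - l.1),
        C (u ⟨l, k⟩) * (p.mon (p.io n N ⟨l, k⟩)).im.map (Int.castRingHom ℚ)) = 0 := by
      rw [map_sum]
      exact (Finset.sum_congr rfl fun k _ => (p.cK_mul_im _ _).symm).trans h2
    have h4 := (map_eq_zero_iff _ hinj).mp h3
    have h5 := congrArg (fun P => P.coeff ((p.io n N ⟨l, k0⟩ - p.d) / 2)) h4
    simp only [finsetSum_coeff, coeff_zero] at h5
    rw [Finset.sum_eq_single k0] at h5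
    · unfold mon at h5
      rw [if_neg hev] at h5
      simpa using h5
    · intro k _ hk
      rw [coeff_C_mul]
      unfold mon
      split_ifs with hk2
      · simp
      · simp only [Polynomial.map_pow, map_X, coeff_X_pow]
        rw [if_neg, mul_zero]
        intro he
        apply hk
        have e1 := hio k
        have e2 := hio k0
        have e3 := hge k
        have e4 := hge k0
        rw [Nat.not_even_iff_odd] at hev hk2
        obtain ⟨a, ha⟩ := hev
        obtain ⟨b, hb⟩ := hk2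
        obtain ⟨c, hc⟩ := p.odd
        have hc' : p.d = 2 * c + 1 := hc
        apply Fin.ext
        omega
    · intro hh; exact absurd (Finset.mem_univ _) hh

end Par

end Pool.Agent.W273.Z
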