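import Pool.Agent.W273.Z.Drop

/-!
The filtration argument: the family of auxiliary polynomials has large rank over the function field.
-/

set_option autoImplicit false

namespace Pool.Agent.W273.Z

open Polynomial Finset

namespace Par

variable (p : Par)

/-- coefficient matrix over the function field -/
noncomputable def MK (n N : ℕ) {k : ℕ} (u : Fin k → Bx n N → ℚ) : Matrix (Fin k) (Fin (n + 1)) p.E.K :=
  fun i l => (p.PQ n N (u i)).coeff l

/-- the filtration -/
noncomputable def Fl (n N : ℕ) (W v0 : ℝ) {k : ℕ} (u : Fin k → Bx n N → ℚ) (t : ℕ) :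
    Submodule ℚ (Fin k → ℚ) where
  carrier := {lam | ∀ j, low (v0 + t) ((p.E.tw W (p.PQ n N (∑ i, lam i • u i))).coeff j)}
  add_mem' := by
    intro a b ha hb j
    have h1 : ∑ i, (a + b) i • u i = ∑ i, a i • u i + ∑ i, b i • u i := by
      rw [← Finset.sum_add_distrib]
      exact Finset.sum_congr rfl fun i _ => by rw [Pi.add_apply, add_smul]
    rw [h1, PQ_add, CrvL.tw_add, coeff_add]
    exact (ha j).add (hb j)
  zero_mem' := by
    intro j
    have h1 : ∑ i, (0 : Fin k → ℚ) i • u i = 0 := by simp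
    rw [h1, PQ_zero, CrvL.tw_zero, coeff_zero]
    exact low_zero _
  smul_mem' := by
    intro c a ha j
    have h1 : ∑ i, (c • a) i • u i = c • ∑ i, a i • u i := by
      rw [Finset.smul_sum]
      exact Finset.sum_congr rfl fun i _ => by rw [Pi.smul_apply, smul_eq_mul, mul_smul]
    rw [h1, PQ_smul, CrvL.tw_C_mul, coeff_C_mul, ι_cK]
    intro e he
    rw [HahnSeries.C_mul_eq_smul, HahnSeries.coeff_smul, ha j e he, smul_zero]

/-- relations over the function field can be turned into relations over `ℚ` one step deeper -/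
lemma step (n N : ℕ) (W v : ℝ) (r : ℕ) (Q : Fin (r + 1) → Bx n N → ℚ)
    (hQ : ∀ i j, low v ((p.E.tw W (p.PQ n N (Q i))).coeff j))
    (μ : Fin (r + 1) → p.E.K) (hμ : μ ≠ 0) (hrel : ∑ i, C (μ i) * p.PQ n N (Q i) = 0) :
    ∃ c : Fin (r + 1) → ℚ, c ≠ 0 ∧
      ∀ j, low (v + 1) ((p.E.tw W (p.PQ n N (∑ i, c i • Q i))).coeff j) := by
  classical
  -- the index with smallest order
  obtain ⟨i1, hi1⟩ : ∃ i, μ i ≠ 0 := by
    by_contra h
    push Not at h
    exact hμ (funext h)
  have hne : (Finset.univ.filter (fun i => μ i ≠ 0)).Nonempty := ⟨i1, by simp [hi1]⟩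
  obtain ⟨i0, hi0, hmin⟩ := Finset.exists_min_image (Finset.univ.filter (fun i => μ i ≠ 0))
    (fun i => (p.E.ι (μ i)).order) hne
  rw [Finset.mem_filter] at hi0
  have hi0' := hi0.2
  set lam : Fin (r + 1) → p.E.K := fun i => μ i / μ i0 with hlam
  have hlow : ∀ i, low 0 (p.E.ι (lam i)) := by
    intro i
    by_cases h0 : μ i = 0
    · have : lam i = 0 := by rw [hlam]; simp [h0]
      rw [this, map_zero]; exact low_zero _
    · have hl : lam i ≠ 0 := div_ne_zero h0 hi0'
      rw [low_iff (p.E.ι_ne hl)]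
      have h1 : p.E.ι (lam i) * p.E.ι (μ i0) = p.E.ι (μ i) := by
        rw [← map_mul]
        congr 1
        exact div_mul_cancel₀ _ hi0'
      have h2 := congrArg HahnSeries.order h1
      rw [HahnSeries.order_mul (p.E.ι_ne hl) (p.E.ι_ne hi0')] at h2
      have h3 : (p.E.ι (μ i0)).order ≤ (p.E.ι (μ i)).order := hmin i (by simp [h0])
      linarith
  set c : Fin (r + 1) → ℚ := fun i => (p.E.ι (lam i)).coeff 0 with hc
  refine ⟨c, ?_, ?_⟩
  · intro h
    have h1 := congrFun h i0
    have h2 : lam i0 = 1 := div_self hi0'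
    simp only [hc, h2, map_one, Pi.zero_apply] at h1
    rw [HahnSeries.coeff_one, if_pos rfl] at h1
    exact one_ne_zero h1
  · have hrel' : ∑ i, C (lam i) * p.PQ n N (Q i) = 0 := by
      have h1 : ∑ i, C (lam i) * p.PQ n N (Q i) = C (μ i0)⁻¹ * ∑ i, C (μ i) * p.PQ n N (Q i) := by
        rw [Finset.mul_sum]
        apply Finset.sum_congr rfl
        intro i _
        rw [← mul_assoc, ← C_mul, hlam]
        congr 2
        change μ i / μ i0 = _
        rw [div_eq_mul_inv, mul_comm]
      rw [h1, hrel, mul_zero]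
    have h2 : p.PQ n N (∑ i, c i • Q i) = -∑ i, C (lam i - p.cK (c i)) * p.PQ n N (Q i) := by
      rw [PQ_sum]
      have h3 : ∑ i, C (lam i - p.cK (c i)) * p.PQ n N (Q i) =
          ∑ i, C (lam i) * p.PQ n N (Q i) - ∑ i, C (p.cK (c i)) * p.PQ n N (Q i) := by
        rw [← Finset.sum_sub_distrib]
        exact Finset.sum_congr rfl fun i _ => by rw [C_sub, sub_mul]
      rw [h3, hrel', zero_sub, neg_neg]
    intro j
    rw [h2, CrvL.tw_neg, coeff_neg, CrvL.tw_sum, finsetSum_coeff]
    apply low.neg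
    apply low.sum
    intro i _
    rw [CrvL.tw_C_mul, coeff_C_mul, add_comm v 1]
    apply low.mul _ (hQ i j)
    exact p.E.low_sub (lam i) (hlow i) (p.cK (c i)) (by rw [ι_cK])

/-- **rank bound**: a large independent family of kernel vectors has large rank -/
theorem large_rank (n N : ℕ) (W v0 : ℝ) (hW0 : 0 ≤ W)
    (hgood : ∀ φ : p.E.K, p.E.G W (X - C φ)) {k : ℕ} (u : Fin k → Bx n N → ℚ)
    (hu : ∀ i, ∀ j ≤ n, ∀ e < En p.d n N W v0 j, PowerSeries.coeff e (p.Cs n N (u i) j) = 0)
    (hind : ∀ lam : Fin k → ℚ, ∑ i, lam i • u i = 0 → lam = 0) (r : ℕ)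
    (hr : (p.MK n N u).rank ≤ r) (t0 : ℕ) (ht0 : n * (W / 2) < v0 + t0) : k ≤ r * t0 := by
  have hmain := drop_all (V := Fin k → ℚ) (p.Fl n N W v0 u) ?_ ?_ r ?_ t0 ?_
  · rwa [Module.finrank_fin_fun] at hmain
  · -- start
    rw [eq_top_iff]
    intro lam _ j
    rw [Nat.cast_zero, add_zero]
    have h1 : ∀ i, low v0 ((p.E.tw W (p.PQ n N (u i))).coeff j) := fun i e he =>
      p.order_of_ker n N W v0 (u i) (hu i) j e he
    rw [PQ_sum, CrvL.tw_sum, finsetSum_coeff]
    apply low.sum
    intro i _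
    rw [CrvL.tw_C_mul, coeff_C_mul, ι_cK]
    intro e he
    rw [HahnSeries.C_mul_eq_smul, HahnSeries.coeff_smul, h1 i e he, smul_zero]
  · intro t lam hlam j
    apply (hlam j).mono
    push_cast
    linarith
  · -- the step
    intro t v hv
    set Q : Fin (r + 1) → Bx n N → ℚ := fun i => ∑ m, v i m • u m with hQ
    -- relation over K
    set Λ : Matrix (Fin (r + 1)) (Fin k) p.E.K := fun i m => p.cK (v i m) with hΛ
    have hN : (Λ * p.MK n N u).rank ≤ r := (Matrix.rank_mul_le_right _ _).trans hr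
    have hNe : ∀ i (l : Fin (n + 1)), (Λ * p.MK n N u) i l = (p.PQ n N (Q i)).coeff l := by
      intro i l
      rw [Matrix.mul_apply, hQ]
      simp only
      rw [PQ_sum, finsetSum_coeff]
      apply Finset.sum_congr rfl
      intro m _
      rw [coeff_C_mul]
      rfl
    have hnl : ¬ LinearIndependent p.E.K (Λ * p.MK n N u).row := by
      intro h
      have := h.rank_matrix
      rw [Fintype.card_fin] at this
      omega
    rw [Fintype.not_linearIndependent_iff] at hnl
    obtain ⟨μ, hμ1, i1, hi1⟩ := hnl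
    have hrel : ∑ i, C (μ i) * p.PQ n N (Q i) = 0 := by
      apply Polynomial.ext
      intro l
      rw [finsetSum_coeff, coeff_zero]
      simp only [coeff_C_mul]
      rcases Nat.lt_or_ge n l with h | h
      · apply Finset.sum_eq_zero
        intro i _
        rw [coeff_eq_zero_of_natDegree_lt (lt_of_le_of_lt (p.natDegree_PQ n N _) h), mul_zero]
      · have h1 := congrFun hμ1 ⟨l, by omega⟩
        rw [Finset.sum_apply] at h1
        rw [Pi.zero_apply] at h1
        rw [← h1]
        apply Finset.sum_congr rfl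
        intro i _
        rw [Pi.smul_apply, smul_eq_mul]
        congr 1
        exact (hNe i ⟨l, by omega⟩).symm
    obtain ⟨c, hc, hc2⟩ := p.step n N W (v0 + t) r Q (fun i j => hv i j) μ (by
      rintro rfl; exact hi1 rfl) hrel
    refine ⟨c, hc, ?_⟩
    intro j
    have h3 : ∑ m, (∑ i, c i • v i) m • u m = ∑ i, c i • Q i := by
      rw [hQ]
      simp only [Finset.sum_apply, Pi.smul_apply, smul_eq_mul, Finset.sum_smul, Finset.smul_sum]
      rw [Finset.sum_comm]
      apply Finset.sum_congr rfl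
      intro i _
      apply Finset.sum_congr rfl
      intro m _
      rw [mul_smul]
    rw [h3]
    have := hc2 j
    push_cast
    rw [← add_assoc]
    exact this
  · -- the end
    rw [eq_bot_iff]
    intro lam hlam
    rw [Submodule.mem_bot]
    apply hind
    by_contra hne
    have hP : p.PQ n N (∑ i, lam i • u i) ≠ 0 := fun h => hne (p.PQ_inj n N _ h)
    have := p.E.zero_estimate W hW0 hgood _ hP n (p.natDegree_PQ n N _) (p.PQ_int n N _) (v0 + t0)
      (fun j e he => hlam j e he)
    linarith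

end Par

end Pool.Agent.W273.Z
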