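import Pool.Agent.W273.Z.Fin

/-!
The case of Weierstrass curves.
-/

set_option autoImplicit false

namespace Pool.Agent.W273.Z

open Polynomial Finset

/-- the Weierstrass polynomial -/
noncomputable def wf (A B : ℤ) : ℤ[X] := X ^ 3 + C A * X + C B

lemma wf_natDegree (A B : ℤ) : (wf A B).natDegree = 3 := by
  unfold wf; compute_degree!

lemma wf_monic (A B : ℤ) : (wf A B).Monic := by
  unfold wf; monicity!

lemma wf_sqf (A B : ℤ) (h : 4 * A ^ 3 + 27 * B ^ 2 ≠ 0) :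
    Squarefree ((wf A B).map (Int.castRingHom ℚ)) := by
  apply Polynomial.Separable.squarefree
  have hD : ((4 * A ^ 3 + 27 * B ^ 2 : ℤ) : ℚ) ≠ 0 := by exact_mod_cast h
  set D : ℚ := ((4 * A ^ 3 + 27 * B ^ 2 : ℤ) : ℚ) with hDdef
  have e1 : (wf A B).map (Int.castRingHom ℚ) = X ^ 3 + C (A : ℚ) * X + C (B : ℚ) := by
    unfold wf
    simp
  rw [e1]
  have e2 : derivative (X ^ 3 + C (A : ℚ) * X + C (B : ℚ)) = C 3 * X ^ 2 + C (A : ℚ) := by
    simp only [derivative_add, derivative_X_pow, derivative_C_mul, derivative_X, derivative_C]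
    norm_num
  rw [separable_def, e2]
  refine ⟨C D⁻¹ * -(C (18 * (A : ℚ)) * X - C (27 * (B : ℚ))),
    C D⁻¹ * (C (6 * (A : ℚ)) * X ^ 2 - C (9 * (B : ℚ)) * X + C (4 * (A : ℚ) ^ 2)), ?_⟩
  have e3 : -(C (18 * (A : ℚ)) * X - C (27 * (B : ℚ))) * (X ^ 3 + C (A : ℚ) * X + C (B : ℚ)) +
      (C (6 * (A : ℚ)) * X ^ 2 - C (9 * (B : ℚ)) * X + C (4 * (A : ℚ) ^ 2)) *
        (C 3 * X ^ 2 + C (A : ℚ)) = C D := by
    have hDe : D = 4 * (A : ℚ) ^ 3 + 27 * (B : ℚ) ^ 2 := by rw [hDdef]; push_cast; ring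
    rw [hDe]
    simp only [C_mul, C_add, C_pow]
    have n3 : (C 3 : ℚ[X]) = 3 := map_ofNat C 3
    have n4 : (C 4 : ℚ[X]) = 4 := map_ofNat C 4
    have n6 : (C 6 : ℚ[X]) = 6 := map_ofNat C 6
    have n9 : (C 9 : ℚ[X]) = 9 := map_ofNat C 9
    have n18 : (C 18 : ℚ[X]) = 18 := map_ofNat C 18
    have n27 : (C 27 : ℚ[X]) = 27 := map_ofNat C 27
    rw [n3, n4, n6, n9, n18, n27]
    ring
  calc _ = C D⁻¹ * (-(C (18 * (A : ℚ)) * X - C (27 * (B : ℚ))) * (X ^ 3 + C (A : ℚ) * X + C (B : ℚ)) +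
      (C (6 * (A : ℚ)) * X ^ 2 - C (9 * (B : ℚ)) * X + C (4 * (A : ℚ) ^ 2)) *
        (C 3 * X ^ 2 + C (A : ℚ))) := by ring
    _ = 1 := by rw [e3, ← C_mul, inv_mul_cancel₀ hD, C_1]

/-- the parameter of a Weierstrass curve -/
noncomputable def wp (A B : ℤ) (h : 4 * A ^ 3 + 27 * B ^ 2 ≠ 0) : Par where
  f := wf A B
  monic := wf_monic A B
  odd := by rw [wf_natDegree]; decide
  three := by rw [wf_natDegree]
  sqf := wf_sqf A B h

lemma wp_d (A B : ℤ) (h : 4 * A ^ 3 + 27 * B ^ 2 ≠ 0) : (wp A B h).d = 3 := wf_natDegree A B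

lemma wf_coeff (A B : ℤ) (H : ℕ) (hH : 1 ≤ H) (hA : |A| ≤ H) (hB : |B| ≤ H) (i : ℕ) :
    |(wf A B).coeff i| ≤ H := by
  have hH' : (1 : ℤ) ≤ H := by exact_mod_cast hH
  unfold wf
  simp only [coeff_add, coeff_X_pow, coeff_C_mul, coeff_X, coeff_C]
  rcases i with _ | _ | _ | _ | i
  · simp [hB]
  · simp [hA]
  · simp
  · simpa using hH'
  · simp

/-- the Weierstrass case, abscissa -/
theorem ell_x (ε : ℝ) (hε : 0 < ε) : ∃ K M : ℕ, 1 ≤ K ∧ ∀ A B x y : ℤ,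
    4 * A ^ 3 + 27 * B ^ 2 ≠ 0 → y ^ 2 = x ^ 3 + A * x + B → ∀ a b : ℤ, 1 ≤ b →
    ((b : ℝ) ≤ |(x : ℝ)| ^ (1 / 2 - ε) ∨ (B ≠ 0 ∧ (b : ℝ) ≤ |(x : ℝ)| ^ (1 - ε))) →
    |(b : ℝ) ^ 2 * x - (a : ℝ) ^ 2| ≤ |(x : ℝ)| ^ (1 / 2 - ε) →
    ∀ H : ℕ, 1 ≤ H → |A| ≤ H → |B| ≤ H → |(x : ℝ)| ≤ K * (H : ℝ) ^ M := by
  obtain ⟨K1, M1, hK1, h1⟩ := assemble 3 2 (by norm_num) ε hε
  obtain ⟨K2, M2, hK2, h2⟩ := assemble 3 4 (by norm_num) ε hε
  refine ⟨K1 + K2, M1 + M2, by omega, ?_⟩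
  intro A B x y hΔ hxy a b hb hcase hab H hH hA hB
  have hHR : (1 : ℝ) ≤ H := by exact_mod_cast hH
  have hev : y ^ 2 = (wp A B hΔ).f.eval x := by
    rw [hxy]
    change _ = (wf A B).eval x
    unfold wf; simp
  have hcf : ∀ i, |(wp A B hΔ).f.coeff i| ≤ H := wf_coeff A B H hH hA hB
  have hdeg : (wp A B hΔ).E.F.natDegree = 3 := by
    change (wp A B hΔ).FQ.natDegree = 3
    rw [Par.natDegree_FQ, wp_d]
  rcases hcase with hc | ⟨hB0, hc⟩
  · have := h1 (wp A B hΔ) (wp_d A B hΔ) (fun W hW0 hW φ => by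
      apply (wp A B hΔ).E.good_of_le W hW0
      rw [hdeg]; push_cast at hW ⊢; linarith) H hH hcf x y hev a b hb (by
      have e : ((2 : ℕ) : ℝ) / 4 - ε = 1 / 2 - ε := by norm_num
      rw [e]; exact hc) hab
    calc |(x : ℝ)| ≤ K1 * (H : ℝ) ^ M1 := this
      _ ≤ ((K1 + K2 : ℕ) : ℝ) * (H : ℝ) ^ (M1 + M2) := by
        apply mul_le_mul _ (pow_le_pow_right₀ hHR (by omega)) (by positivity) (by positivity)
        push_cast
        have : (0 : ℝ) ≤ K2 := by positivity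
        linarith
  · have hF : (wp A B hΔ).E.F = X ^ 3 + C (A : ℚ) * X + C (B : ℚ) := by
      change (wf A B).map (Int.castRingHom ℚ) = _
      unfold wf
      simp
    have := h2 (wp A B hΔ) (wp_d A B hΔ) (fun W hW0 hW φ => by
      apply (wp A B hΔ).E.good_cubic W hW0 _ hdeg
      · rw [hF]
        simp only [coeff_add, coeff_X_pow, coeff_C_mul, coeff_X, coeff_C]
        norm_num
      · rw [hF]
        simp only [coeff_add, coeff_X_pow, coeff_C_mul, coeff_X, coeff_C]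
        norm_num
        exact hB0
      · push_cast at hW ⊢; exact hW) H hH hcf x y hev a b hb (by
      have e : ((4 : ℕ) : ℝ) / 4 - ε = 1 - ε := by norm_num
      rw [e]; exact hc) hab
    calc |(x : ℝ)| ≤ K2 * (H : ℝ) ^ M2 := this
      _ ≤ ((K1 + K2 : ℕ) : ℝ) * (H : ℝ) ^ (M1 + M2) := by
        apply mul_le_mul _ (pow_le_pow_right₀ hHR (by omega)) (by positivity) (by positivity)
        push_cast
        have : (0 : ℝ) ≤ K1 := by positivity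
        linarith

/-- **Hall–Lang bound for points with a good rational approximation of `√x`** -/
theorem ell (ε : ℝ) (hε : 0 < ε) : ∃ K M : ℝ, 0 < K ∧ 0 < M ∧ ∀ A B x y : ℤ,
    4 * A ^ 3 + 27 * B ^ 2 ≠ 0 → y ^ 2 = x ^ 3 + A * x + B →
    (∃ a b : ℤ, 1 ≤ b ∧
      ((b : ℝ) ≤ |(x : ℝ)| ^ (1 / 2 - ε) ∨ (B ≠ 0 ∧ (b : ℝ) ≤ |(x : ℝ)| ^ (1 - ε))) ∧
      |(b : ℝ) ^ 2 * x - (a : ℝ) ^ 2| ≤ |(x : ℝ)| ^ (1 / 2 - ε)) →
    max |(x : ℝ)| |(y : ℝ)| ≤ K * (max |(A : ℝ)| |(B : ℝ)|) ^ M := by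
  obtain ⟨K, M, hK, h⟩ := ell_x ε hε
  refine ⟨3 * (K : ℝ) ^ 3, ((3 * M + 1 : ℕ) : ℝ), by positivity, by positivity, ?_⟩
  rintro A B x y hΔ hxy ⟨a, b, hb, hcase, hab⟩
  -- the height
  obtain ⟨H, hH⟩ : ∃ H : ℕ, (H : ℤ) = max |A| |B| := by
    refine ⟨(max |A| |B|).toNat, ?_⟩
    exact Int.toNat_of_nonneg (le_max_of_le_left (abs_nonneg A))
  have hHR : (H : ℝ) = max |(A : ℝ)| |(B : ℝ)| := by
    have : ((H : ℤ) : ℝ) = ((max |A| |B| : ℤ) : ℝ) := by rw [hH]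
    push_cast at this
    exact this
  have hH1 : 1 ≤ H := by
    by_contra hlt
    have h0 : H = 0 := by omega
    rw [h0] at hH
    have hA : |A| ≤ 0 := by
      have : |A| ≤ max |A| |B| := le_max_left _ _
      rw [← hH] at this; exact_mod_cast this
    have hB : |B| ≤ 0 := by
      have : |B| ≤ max |A| |B| := le_max_right _ _
      rw [← hH] at this; exact_mod_cast this
    have hA0 : A = 0 := abs_nonpos_iff.mp hA
    have hB0 : B = 0 := abs_nonpos_iff.mp hB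
    apply hΔ; rw [hA0, hB0]; norm_num
  have hA : |A| ≤ H := by rw [hH]; exact le_max_left _ _
  have hB : |B| ≤ H := by rw [hH]; exact le_max_right _ _
  have hx := h A B x y hΔ hxy a b hb hcase hab H hH1 hA hB
  rw [← hHR, Real.rpow_natCast]
  have hH1R : (1 : ℝ) ≤ H := by exact_mod_cast hH1
  have hKR : (1 : ℝ) ≤ K := by exact_mod_cast hK
  set S : ℝ := K * (H : ℝ) ^ M with hS
  have hS1 : 1 ≤ S := by
    have : (1 : ℝ) ≤ (H : ℝ) ^ M := one_le_pow₀ hH1R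
    calc (1 : ℝ) = 1 * 1 := by norm_num
      _ ≤ _ := mul_le_mul hKR this (by norm_num) (by positivity)
  have hgoal : 3 * (K : ℝ) ^ 3 * (H : ℝ) ^ (3 * M + 1) = 3 * S ^ 3 * H := by
    rw [hS, mul_pow, ← pow_mul, pow_succ]; ring
  rw [hgoal]
  have hS3 : 1 ≤ S ^ 3 := one_le_pow₀ hS1
  have hSS : S ≤ S ^ 3 := by
    calc S = S ^ 1 := (pow_one S).symm
      _ ≤ S ^ 3 := pow_le_pow_right₀ hS1 (by norm_num)
  apply max_le
  · calc |(x : ℝ)| ≤ S := hx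
      _ ≤ S ^ 3 := hSS
      _ ≤ 3 * S ^ 3 * H := by nlinarith
  · -- y
    have hAR : |(A : ℝ)| ≤ H := by exact_mod_cast hA
    have hBR : |(B : ℝ)| ≤ H := by exact_mod_cast hB
    have hy2 : |(y : ℝ)| ^ 2 ≤ S ^ 3 + H * S + H := by
      have h1 : (y : ℝ) ^ 2 = (x : ℝ) ^ 3 + A * x + B := by exact_mod_cast hxy
      rw [sq_abs, h1]
      have e1 : (x : ℝ) ^ 3 ≤ S ^ 3 := by
        calc (x : ℝ) ^ 3 ≤ |(x : ℝ) ^ 3| := le_abs_self _
          _ = |(x : ℝ)| ^ 3 := abs_pow _ _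
          _ ≤ S ^ 3 := pow_le_pow_left₀ (abs_nonneg _) hx 3
      have e2 : (A : ℝ) * x ≤ H * S := by
        calc (A : ℝ) * x ≤ |(A : ℝ) * x| := le_abs_self _
          _ = |(A : ℝ)| * |(x : ℝ)| := abs_mul _ _
          _ ≤ H * S := mul_le_mul hAR hx (abs_nonneg _) (by positivity)
      have e3 : (B : ℝ) ≤ H := (le_abs_self _).trans hBR
      linarith
    have hbound : S ^ 3 + H * S + H ≤ 3 * S ^ 3 * H := by
      have e1 : S ^ 3 ≤ S ^ 3 * H := le_mul_of_one_le_right (by positivity) hH1R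
      have e2 : (H : ℝ) * S ≤ S ^ 3 * H := by
        rw [mul_comm]; exact mul_le_mul_of_nonneg_right hSS (by positivity)
      have e3 : (H : ℝ) ≤ S ^ 3 * H := le_mul_of_one_le_left (by positivity) hS3
      linarith
    have hT1 : 1 ≤ 3 * S ^ 3 * H := by nlinarith
    by_contra hlt
    push Not at hlt
    have h5 : |(y : ℝ)| * 1 ≤ |(y : ℝ)| * |(y : ℝ)| :=
      mul_le_mul_of_nonneg_left (by linarith) (abs_nonneg _)
    have h6 : |(y : ℝ)| ^ 2 = |(y : ℝ)| * |(y : ℝ)| := pow_two _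
    linarith

end Pool.Agent.W273.Z
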