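import Pool.Agent.W273.Z.Siegel

/-!
A system of linear equations with a nonzero rational solution has a small nonzero integer solution.
-/

set_option autoImplicit false

namespace Pool.Agent.W273.Z

open Finset Matrix

lemma siegel_ker {r n : ℕ} (M : Matrix (Fin r) (Fin n) ℤ) (B : ℕ) (hB : 1 ≤ B)
    (hM : ∀ i j, |M i j| ≤ B) (v : Fin n → ℚ) (hv : v ≠ 0)
    (h : ∀ i, ∑ j, (M i j : ℚ) * v j = 0) :
    ∃ t : Fin n → ℤ, t ≠ 0 ∧ (∀ i, ∑ j, M i j * t j = 0) ∧ ∀ j, |t j| ≤ ((n * B : ℕ) : ℤ) ^ n := by
  classical
  obtain ⟨s, hs⟩ : ∃ s : Set (Fin n → ℚ), s = Set.range (fun i : Fin r => fun j => (M i j : ℚ)) := ⟨_, rfl⟩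
  obtain ⟨g, hg1, hg2, hg3⟩ := Submodule.exists_fun_fin_finrank_span_eq ℚ s
  -- functionals
  have hfun : ∀ u : Fin n → ℚ, (∀ w ∈ s, ∑ j, w j * u j = 0) →
      ∀ w ∈ Submodule.span ℚ s, ∑ j, w j * u j = 0 := by
    intro u hu w hw
    induction hw using Submodule.span_induction with
    | mem w hw => exact hu w hw
    | zero => simp
    | add a b _ _ ha hb =>
      have : ∑ j, (a + b) j * u j = ∑ j, a j * u j + ∑ j, b j * u j := by
        rw [← Finset.sum_add_distrib]
        exact Finset.sum_congr rfl fun j _ => by rw [Pi.add_apply]; ring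
      rw [this, ha, hb, add_zero]
    | smul c a _ ha =>
      have : ∑ j, (c • a) j * u j = c * ∑ j, a j * u j := by
        rw [Finset.mul_sum]
        exact Finset.sum_congr rfl fun j _ => by rw [Pi.smul_apply, smul_eq_mul]; ring
      rw [this, ha, mul_zero]
  have hρ : Module.finrank ℚ (Submodule.span ℚ s) < n := by
    by_contra hge
    push Not at hge
    have htop : Submodule.span ℚ s = ⊤ := by
      apply Submodule.eq_top_of_finrank_eq
      apply le_antisymm (Submodule.finrank_le _)
      rw [Module.finrank_fin_fun]; exact hge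
    apply hv
    funext j
    have := hfun v (by
      intro w hw
      rw [hs] at hw
      obtain ⟨i, rfl⟩ := hw
      exact h i) (Pi.single j 1) (by rw [htop]; exact Submodule.mem_top)
    rw [Finset.sum_eq_single j] at this
    · simpa using this
    · intro b _ hb
      rw [Pi.single_eq_of_ne hb, zero_mul]
    · intro hj; exact absurd (Finset.mem_univ _) hj
  have hg1' : ∀ i, ∃ a : Fin r, (fun j => (M a j : ℚ)) = g i := by
    intro i
    have := hg1 i
    rw [hs] at this
    exact this
  choose a ha using hg1'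
  obtain ⟨t, ht0, ht1, ht2⟩ := siegel_one (M.submatrix a id) B hB (fun i j => hM _ _) (by
    rw [Fintype.card_fin, Fintype.card_fin]; exact hρ)
  refine ⟨t, ht0, ?_, ?_⟩
  · intro i
    have h1 := hfun (fun j => (t j : ℚ))
    have h2 : ∀ w ∈ Submodule.span ℚ (Set.range g), ∑ j, w j * (t j : ℚ) = 0 := by
      intro w hw
      induction hw using Submodule.span_induction with
      | mem w hw =>
        obtain ⟨i', rfl⟩ := hw
        rw [← ha i']
        have := congrFun ht1 i'
        simp only [Matrix.mulVec, dotProduct, Matrix.submatrix_apply, id, Pi.zero_apply] at this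
        change ∑ j, (M (a i') j : ℚ) * (t j : ℚ) = 0
        exact_mod_cast this
      | zero => simp
      | add a b _ _ ha hb =>
        have : ∑ j, (a + b) j * (t j : ℚ) = ∑ j, a j * (t j : ℚ) + ∑ j, b j * (t j : ℚ) := by
          rw [← Finset.sum_add_distrib]
          exact Finset.sum_congr rfl fun j _ => by rw [Pi.add_apply]; ring
        rw [this, ha, hb, add_zero]
      | smul c a _ ha =>
        have : ∑ j, (c • a) j * (t j : ℚ) = c * ∑ j, a j * (t j : ℚ) := by
          rw [Finset.mul_sum]
          exact Finset.sum_congr rfl fun j _ => by rw [Pi.smul_apply, smul_eq_mul]; ring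
        rw [this, ha, mul_zero]
    rw [hg2] at h2
    have h3 := h2 (fun j => (M i j : ℚ)) (Submodule.subset_span (by rw [hs]; exact ⟨i, rfl⟩))
    exact_mod_cast h3
  · intro j
    have := ht2 j
    rw [Fintype.card_fin] at this
    exact this

end Pool.Agent.W273.Z
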