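import Mathlib

/-!
The power series square root with controlled denominators, and its truncations at real points.
-/

set_option autoImplicit false

namespace Pool.Agent.W273.Z

open Finset

/-- the integer recursion for the coefficients of the square root -/
def zc (g : ℕ → ℤ) : ℕ → ℤ
  | 0 => 0
  | (n + 1) => 4 ^ n * g (n + 1) - ∑ i : Fin n, zc g (i.1 + 1) * zc g (n - i.1)
decreasing_by
  all_goals (have := i.2; omega)

/-- scaled coefficients `4ⁿ Yₙ` -/
def yy (g : ℕ → ℤ) (n : ℕ) : ℤ := if n = 0 then 1 else 2 * zc g n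

/-- coefficients of the square root -/
def Yc (g : ℕ → ℤ) (n : ℕ) : ℚ := yy g n / 4 ^ n

lemma zc_succ (g : ℕ → ℤ) (n : ℕ) :
    zc g (n + 1) = 4 ^ n * g (n + 1) - ∑ i ∈ range n, zc g (i + 1) * zc g (n - i) := by
  rw [zc, Finset.sum_range]

lemma yy_zero (g : ℕ → ℤ) : yy g 0 = 1 := if_pos rfl

lemma yy_succ (g : ℕ → ℤ) (n : ℕ) : yy g (n + 1) = 2 * zc g (n + 1) := if_neg (by omega)

lemma Yc_zero (g : ℕ → ℤ) : Yc g 0 = 1 := by simp [Yc, yy_zero]

lemma yy_conv (g : ℕ → ℤ) (h0 : g 0 = 1) (n : ℕ) :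
    ∑ p ∈ antidiagonal n, yy g p.1 * yy g p.2 = 4 ^ n * g n := by
  rcases n with _ | n
  · simp [yy_zero, h0]
  · rw [Finset.Nat.sum_antidiagonal_eq_sum_range_succ (fun a b => yy g a * yy g b)]
    rw [Finset.sum_range_succ, Finset.sum_range_succ']
    have h1 : ∀ k ∈ range n, yy g (k + 1) * yy g (n + 1 - (k + 1)) =
        4 * (zc g (k + 1) * zc g (n - k)) := by
      intro k hk
      rw [Finset.mem_range] at hk
      have h2 : n + 1 - (k + 1) = (n - k - 1) + 1 := by omega
      have h3 : n - k = (n - k - 1) + 1 := by omega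
      rw [h2, yy_succ, yy_succ, ← h3]; ring
    rw [Finset.sum_congr rfl h1, ← Finset.mul_sum, yy_zero, Nat.sub_zero, Nat.sub_self, yy_zero,
      yy_succ, zc_succ, pow_succ]
    ring

lemma Yc_conv (g : ℕ → ℤ) (h0 : g 0 = 1) (n : ℕ) :
    ∑ p ∈ antidiagonal n, Yc g p.1 * Yc g p.2 = g n := by
  have h := yy_conv g h0 n
  have h1 : ∀ p ∈ antidiagonal n, Yc g p.1 * Yc g p.2 = ((yy g p.1 * yy g p.2 : ℤ) : ℚ) / 4 ^ n := by
    intro p hp
    rw [Finset.HasAntidiagonal.mem_antidiagonal] at hp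
    unfold Yc
    rw [← hp, pow_add]
    push_cast
    field_simp
  rw [Finset.sum_congr rfl h1, ← Finset.sum_div, ← Int.cast_sum, h]
  push_cast
  field_simp

/-- the square root as a power series -/
noncomputable def Yps (g : ℕ → ℤ) : PowerSeries ℚ := PowerSeries.mk (Yc g)

lemma Yps_sq (g : ℕ → ℤ) (h0 : g 0 = 1) : Yps g * Yps g = PowerSeries.mk (fun n => (g n : ℚ)) := by
  ext n
  rw [PowerSeries.coeff_mul, PowerSeries.coeff_mk]
  simp only [Yps, PowerSeries.coeff_mk]
  exact Yc_conv g h0 n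

/-- polynomial bounds for the integer recursion -/
lemma zc_bd (n : ℕ) : ∃ C e : ℕ, ∀ (g : ℕ → ℤ) (H : ℕ), 1 ≤ H → (∀ i, |g i| ≤ H) →
    ∀ m ≤ n, |zc g m| ≤ C * (H : ℤ) ^ e := by
  induction n with
  | zero =>
    refine ⟨0, 0, ?_⟩
    intro g H _ _ m hm
    have : m = 0 := by omega
    subst this
    rw [zc]; simp
  | succ n ih =>
    obtain ⟨C, e, h⟩ := ih
    refine ⟨C + (4 ^ n + n * C * C), e + (1 + e + e), ?_⟩
    intro g H hH hg m hm
    have hH' : (1 : ℤ) ≤ H := by exact_mod_cast hH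
    have hpow : ∀ a b : ℕ, a ≤ b → (H : ℤ) ^ a ≤ (H : ℤ) ^ b := fun a b hab => pow_le_pow_right₀ hH' hab
    have h0 : ∀ a : ℕ, (0 : ℤ) ≤ (H : ℤ) ^ a := fun a => by positivity
    rcases Nat.lt_or_ge n m with h1 | h1
    · have hmn : m = n + 1 := by omega
      subst hmn
      rw [zc_succ]
      have e1 : |(4 : ℤ) ^ n * g (n + 1)| ≤ 4 ^ n * (H : ℤ) ^ (e + (1 + e + e)) := by
        rw [abs_mul, abs_of_nonneg (by positivity : (0 : ℤ) ≤ 4 ^ n)]
        apply mul_le_mul_of_nonneg_left _ (by positivity)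
        calc |g (n + 1)| ≤ (H : ℤ) ^ 1 := by rw [pow_one]; exact hg _
          _ ≤ _ := hpow _ _ (by omega)
      have e2 : |∑ i ∈ range n, zc g (i + 1) * zc g (n - i)| ≤
          n * C * C * (H : ℤ) ^ (e + (1 + e + e)) := by
        calc |∑ i ∈ range n, zc g (i + 1) * zc g (n - i)|
            ≤ ∑ i ∈ range n, |zc g (i + 1) * zc g (n - i)| := Finset.abs_sum_le_sum_abs _ _
          _ ≤ ∑ i ∈ range n, (C * (H : ℤ) ^ e) * (C * (H : ℤ) ^ e) := by
              apply Finset.sum_le_sum
              intro i hi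
              rw [Finset.mem_range] at hi
              rw [abs_mul]
              exact mul_le_mul (h g H hH hg _ (by omega)) (h g H hH hg _ (by omega)) (abs_nonneg _)
                (by positivity)
          _ = n * C * C * ((H : ℤ) ^ (e + e)) := by
              rw [Finset.sum_const, Finset.card_range, nsmul_eq_mul, pow_add]; ring
          _ ≤ _ := mul_le_mul_of_nonneg_left (hpow _ _ (by omega)) (by positivity)
      calc _ ≤ |(4 : ℤ) ^ n * g (n + 1)| + |∑ i ∈ range n, zc g (i + 1) * zc g (n - i)| :=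
            abs_sub _ _
        _ ≤ 4 ^ n * (H : ℤ) ^ (e + (1 + e + e)) + n * C * C * (H : ℤ) ^ (e + (1 + e + e)) :=
            add_le_add e1 e2
        _ ≤ (C + (4 ^ n + n * C * C)) * (H : ℤ) ^ (e + (1 + e + e)) := by
            have : (0 : ℤ) ≤ C * (H : ℤ) ^ (e + (1 + e + e)) := by positivity
            nlinarith
        _ = _ := by push_cast; ring
    · calc |zc g m| ≤ C * (H : ℤ) ^ e := h g H hH hg m h1
        _ ≤ C * (H : ℤ) ^ (e + (1 + e + e)) := mul_le_mul_of_nonneg_left (hpow _ _ (by omega)) (by positivity)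
        _ ≤ ((C + (4 ^ n + n * C * C) : ℕ) : ℤ) * (H : ℤ) ^ (e + (1 + e + e)) := by
            apply mul_le_mul_of_nonneg_right _ (h0 _)
            push_cast
            have : (0 : ℤ) ≤ 4 ^ n + n * C * C := by positivity
            linarith

lemma yy_bd (n : ℕ) : ∃ C e : ℕ, 1 ≤ C ∧ ∀ (g : ℕ → ℤ) (H : ℕ), 1 ≤ H → (∀ i, |g i| ≤ H) →
    ∀ m ≤ n, |yy g m| ≤ C * (H : ℤ) ^ e := by
  obtain ⟨C, e, h⟩ := zc_bd n
  refine ⟨2 * C + 1, e, by omega, ?_⟩
  intro g H hH hg m hm
  have hH' : (1 : ℤ) ≤ (H : ℤ) ^ e := one_le_pow₀ (by exact_mod_cast hH)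
  have hC : (0 : ℤ) ≤ C := by positivity
  unfold yy
  split_ifs with h0
  · push_cast
    rw [abs_one]
    nlinarith
  · rw [abs_mul, abs_two]
    have := h g H hH hg m hm
    push_cast
    nlinarith

lemma Yc_bd (n : ℕ) : ∃ C e : ℕ, 1 ≤ C ∧ ∀ (g : ℕ → ℤ) (H : ℕ), 1 ≤ H → (∀ i, |g i| ≤ H) →
    ∀ m ≤ n, |(Yc g m : ℝ)| ≤ C * (H : ℝ) ^ e := by
  obtain ⟨C, e, hC, h⟩ := yy_bd n
  refine ⟨C, e, hC, ?_⟩
  intro g H hH hg m hm
  have h1 : |(yy g m : ℝ)| ≤ C * (H : ℝ) ^ e := by
    have := h g H hH hg m hm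
    exact_mod_cast this
  unfold Yc
  push_cast
  rw [abs_div]
  have h4 : (1 : ℝ) ≤ |(4 : ℝ) ^ m| := by
    rw [abs_of_nonneg (by positivity)]
    exact one_le_pow₀ (by norm_num)
  calc |(yy g m : ℝ)| / |(4 : ℝ) ^ m| ≤ |(yy g m : ℝ)| / 1 :=
        div_le_div_of_nonneg_left (abs_nonneg _) one_pos h4
    _ ≤ _ := by rw [div_one]; exact h1

/-- truncations of the square root at real points -/
lemma approx (E D : ℕ) : ∃ C e : ℕ, 1 ≤ C ∧ ∀ (g : ℕ → ℤ) (H : ℕ), 1 ≤ H → (∀ i, |g i| ≤ H) →
    g 0 = 1 → (∀ i, D < i → g i = 0) → ∀ s η : ℝ, 0 < s → s * (C * (H : ℝ) ^ e) ≤ 1 → 0 ≤ η →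
    η ^ 2 = ∑ m ∈ range (D + 1), (g m : ℝ) * s ^ m → ∀ M ≤ E,
    |η - ∑ m ∈ range M, (Yc g m : ℝ) * s ^ m| ≤ C * (H : ℝ) ^ e * s ^ M := by
  obtain ⟨B, b, hB1, hB⟩ := Yc_bd E
  refine ⟨2 * E * B + 2 * ((D + 1) + E * E * B * B), b + b + 1, (by have := Nat.zero_le (2 * E * B); have := Nat.zero_le (E * E * B * B); omega), ?_⟩
  intro g H hH hg h0 hgD s η hs hs1 hη hη2 M hM
  have hH' : (1 : ℝ) ≤ H := by exact_mod_cast hH
  have hpow : ∀ a b : ℕ, a ≤ b → (H : ℝ) ^ a ≤ (H : ℝ) ^ b := fun a b hab => pow_le_pow_right₀ hH' hab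
  have hB1' : (1 : ℝ) ≤ B := by exact_mod_cast hB1
  set C : ℝ := ((2 * E * B + 2 * ((D + 1) + E * E * B * B) : ℕ) : ℝ) with hC
  have hCval : C = 2 * E * B + 2 * ((D + 1) + E * E * B * B) := by rw [hC]; push_cast; ring
  have hC1 : 1 ≤ C := by
    rw [hCval]
    have : (0 : ℝ) ≤ 2 * E * B := by positivity
    have : (0 : ℝ) ≤ (E : ℝ) * E * B * B := by positivity
    have : (0 : ℝ) ≤ (D : ℝ) := by positivity
    linarith
  have hHe : (1 : ℝ) ≤ (H : ℝ) ^ (b + b + 1) := one_le_pow₀ hH'
  have hs_le : s ≤ 1 := by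
    have : s * 1 ≤ s * (C * (H : ℝ) ^ (b + b + 1)) :=
      mul_le_mul_of_nonneg_left (by nlinarith) hs.le
    linarith
  have hspow : ∀ a b : ℕ, a ≤ b → s ^ b ≤ s ^ a := fun a b hab => pow_le_pow_of_le_one hs.le hs_le hab
  have hg' : ∀ i, |(g i : ℝ)| ≤ H := by
    intro i
    have := hg i
    exact_mod_cast this
  rcases Nat.eq_zero_or_pos M with hM0 | hM0
  · subst hM0
    rw [Finset.sum_range_zero, sub_zero, pow_zero, mul_one, abs_of_nonneg hη]
    have h1 : η ^ 2 ≤ (D + 1) * H := by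
      rw [hη2]
      calc ∑ m ∈ range (D + 1), (g m : ℝ) * s ^ m ≤ ∑ m ∈ range (D + 1), (H : ℝ) := by
            apply Finset.sum_le_sum
            intro m _
            calc (g m : ℝ) * s ^ m ≤ |(g m : ℝ)| * s ^ m :=
                  mul_le_mul_of_nonneg_right (le_abs_self _) (by positivity)
              _ ≤ H * 1 := mul_le_mul (hg' m) (pow_le_one₀ hs.le hs_le) (by positivity) (by positivity)
              _ = H := mul_one _
        _ = (D + 1) * H := by rw [Finset.sum_const, Finset.card_range, nsmul_eq_mul]; push_cast; ring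
    have h2 : (1 : ℝ) ≤ (D + 1) * H := by
      have : (0 : ℝ) ≤ (D : ℝ) := by positivity
      nlinarith
    have h3 : η ≤ (D + 1) * H := by
      by_contra hlt
      push Not at hlt
      nlinarith
    calc η ≤ (D + 1) * H := h3
      _ ≤ C * (H : ℝ) ^ (b + b + 1) := by
        apply mul_le_mul _ _ (by positivity) (by positivity)
        · rw [hCval]
          have : (0 : ℝ) ≤ 2 * E * B := by positivity
          have : (0 : ℝ) ≤ (E : ℝ) * E * B * B := by positivity
          have : (0 : ℝ) ≤ (D : ℝ) := by positivity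
          linarith
        · calc (H : ℝ) = (H : ℝ) ^ 1 := (pow_one _).symm
            _ ≤ _ := hpow _ _ (by omega)
  · -- main case
    set T : ℝ := ∑ m ∈ range M, (Yc g m : ℝ) * s ^ m with hT
    have hYB : ∀ m ∈ range M, |(Yc g m : ℝ)| ≤ B * (H : ℝ) ^ b := by
      intro m hm
      rw [Finset.mem_range] at hm
      exact hB g H hH hg m (by omega)
    have hMR : (M : ℝ) ≤ E := by exact_mod_cast hM
    -- lower bound for T
    have hTlow : 1 / 2 ≤ T := by
      obtain ⟨M', rfl⟩ : ∃ M', M = M' + 1 := ⟨M - 1, by omega⟩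
      rw [hT, Finset.sum_range_succ', Yc_zero, pow_zero]
      push_cast
      have h1 : |∑ k ∈ range M', (Yc g (k + 1) : ℝ) * s ^ (k + 1)| ≤ 1 / 2 := by
        calc _ ≤ ∑ k ∈ range M', |(Yc g (k + 1) : ℝ) * s ^ (k + 1)| := Finset.abs_sum_le_sum_abs _ _
          _ ≤ ∑ k ∈ range M', (B * (H : ℝ) ^ b) * s := by
              apply Finset.sum_le_sum
              intro k hk
              rw [Finset.mem_range] at hk
              rw [abs_mul, abs_of_nonneg (by positivity : 0 ≤ s ^ (k + 1))]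
              apply mul_le_mul (hYB _ (Finset.mem_range.mpr (by omega))) _ (by positivity) (by positivity)
              calc s ^ (k + 1) ≤ s ^ 1 := hspow _ _ (by omega)
                _ = s := pow_one s
          _ = M' * (B * (H : ℝ) ^ b * s) := by
              rw [Finset.sum_const, Finset.card_range, nsmul_eq_mul]
          _ ≤ E * (B * (H : ℝ) ^ b * s) := by
              apply mul_le_mul_of_nonneg_right _ (by positivity)
              push_cast at hMR
              linarith
          _ ≤ 1 / 2 * (s * (C * (H : ℝ) ^ (b + b + 1))) := by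
              have h2 : (H : ℝ) ^ b ≤ (H : ℝ) ^ (b + b + 1) := hpow _ _ (by omega)
              have h3 : (E : ℝ) * B ≤ 1 / 2 * C := by
                rw [hCval]
                have : (0 : ℝ) ≤ (E : ℝ) * E * B * B := by positivity
                have : (0 : ℝ) ≤ (D : ℝ) := by positivity
                linarith
              calc E * (B * (H : ℝ) ^ b * s) = (E * B) * (H : ℝ) ^ b * s := by ring
                _ ≤ (1 / 2 * C) * (H : ℝ) ^ (b + b + 1) * s := by
                    apply mul_le_mul_of_nonneg_right _ hs.le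
                    exact mul_le_mul h3 h2 (by positivity) (by positivity)
                _ = _ := by ring
          _ ≤ 1 / 2 := by linarith
      have := abs_le.mp h1
      linarith [this.1]
    -- difference of squares
    have hdiff : |η ^ 2 - T ^ 2| ≤ ((D + 1) * H + E * E * (B * (H : ℝ) ^ b) * (B * (H : ℝ) ^ b)) * s ^ M := by
      have hT2 : T ^ 2 = ∑ p ∈ range M ×ˢ range M, (Yc g p.1 : ℝ) * (Yc g p.2 : ℝ) * s ^ (p.1 + p.2) := by
        rw [pow_two, hT, Finset.sum_mul_sum, ← Finset.sum_product']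
        apply Finset.sum_congr rfl
        intro p _
        rw [pow_add]; ring
      have hsplit : T ^ 2 = ∑ m ∈ range M, (g m : ℝ) * s ^ m +
          ∑ p ∈ (range M ×ˢ range M).filter (fun p => ¬ p.1 + p.2 < M),
            (Yc g p.1 : ℝ) * (Yc g p.2 : ℝ) * s ^ (p.1 + p.2) := by
        rw [hT2, ← Finset.sum_filter_add_sum_filter_not _ (fun p => p.1 + p.2 < M)]
        congr 1
        have h1 : ∀ m ∈ range M, (g m : ℝ) * s ^ m =
            ∑ p ∈ antidiagonal m, (Yc g p.1 : ℝ) * (Yc g p.2 : ℝ) * s ^ (p.1 + p.2) := by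
          intro m _
          have h2 : (g m : ℝ) = ∑ p ∈ antidiagonal m, (Yc g p.1 : ℝ) * (Yc g p.2 : ℝ) := by
            have := Yc_conv g h0 m
            have h3 := congrArg (fun q : ℚ => (q : ℝ)) this
            push_cast at h3
            exact h3.symm
          rw [h2, Finset.sum_mul]
          apply Finset.sum_congr rfl
          intro p hp
          rw [Finset.HasAntidiagonal.mem_antidiagonal] at hp
          rw [hp]
        rw [Finset.sum_congr rfl h1, Finset.sum_sigma']
        apply Finset.sum_bij' (fun p _ => (⟨p.1 + p.2, p⟩ : Σ _ : ℕ, ℕ × ℕ)) (fun q _ => q.2)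
        · intro p hp
          rw [Finset.mem_filter] at hp
          rw [Finset.mem_sigma, Finset.mem_range, Finset.HasAntidiagonal.mem_antidiagonal]
          exact ⟨hp.2, rfl⟩
        · intro q hq
          rw [Finset.mem_sigma, Finset.mem_range, Finset.HasAntidiagonal.mem_antidiagonal] at hq
          rw [Finset.mem_filter, Finset.mem_product, Finset.mem_range, Finset.mem_range]
          refine ⟨⟨by omega, by omega⟩, by omega⟩
        · intro p _; rfl
        · intro q hq
          rw [Finset.mem_sigma, Finset.mem_range, Finset.HasAntidiagonal.mem_antidiagonal] at hq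
          obtain ⟨m, p⟩ := q
          simp only at hq ⊢
          obtain ⟨_, h4⟩ := hq
          subst h4
          rfl
        · intro p _; rfl
      have hηs : η ^ 2 - ∑ m ∈ range M, (g m : ℝ) * s ^ m =
          ∑ m ∈ (range (D + 1)).filter (fun m => ¬ m < M), (g m : ℝ) * s ^ m -
          ∑ m ∈ (range M).filter (fun m => ¬ m < D + 1), (g m : ℝ) * s ^ m := by
        rw [hη2, ← Finset.sum_filter_add_sum_filter_not (range (D + 1)) (fun m => m < M),
          ← Finset.sum_filter_add_sum_filter_not (range M) (fun m => m < D + 1)]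
        have : (range (D + 1)).filter (fun m => m < M) = (range M).filter (fun m => m < D + 1) := by
          ext m
          simp only [Finset.mem_filter, Finset.mem_range]
          tauto
        rw [this]; ring
      have hz : ∑ m ∈ (range M).filter (fun m => ¬ m < D + 1), (g m : ℝ) * s ^ m = 0 := by
        apply Finset.sum_eq_zero
        intro m hm
        rw [Finset.mem_filter] at hm
        rw [hgD m (by omega)]
        push_cast; ring
      have hA : |∑ m ∈ (range (D + 1)).filter (fun m => ¬ m < M), (g m : ℝ) * s ^ m| ≤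
          ((D + 1) * H) * s ^ M := by
        calc _ ≤ ∑ m ∈ (range (D + 1)).filter (fun m => ¬ m < M), |(g m : ℝ) * s ^ m| :=
              Finset.abs_sum_le_sum_abs _ _
          _ ≤ ∑ m ∈ (range (D + 1)).filter (fun m => ¬ m < M), H * s ^ M := by
              apply Finset.sum_le_sum
              intro m hm
              rw [Finset.mem_filter] at hm
              rw [abs_mul, abs_of_nonneg (by positivity : 0 ≤ s ^ m)]
              exact mul_le_mul (hg' m) (hspow _ _ (by omega)) (by positivity) (by positivity)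
          _ ≤ ∑ m ∈ range (D + 1), H * s ^ M :=
              Finset.sum_le_sum_of_subset_of_nonneg (Finset.filter_subset _ _)
                (fun _ _ _ => by positivity)
          _ = _ := by rw [Finset.sum_const, Finset.card_range, nsmul_eq_mul]; push_cast; ring
      have hBB : |∑ p ∈ (range M ×ˢ range M).filter (fun p => ¬ p.1 + p.2 < M),
            (Yc g p.1 : ℝ) * (Yc g p.2 : ℝ) * s ^ (p.1 + p.2)| ≤
          (E * E * (B * (H : ℝ) ^ b) * (B * (H : ℝ) ^ b)) * s ^ M := by
        calc _ ≤ ∑ p ∈ (range M ×ˢ range M).filter (fun p => ¬ p.1 + p.2 < M),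
              |(Yc g p.1 : ℝ) * (Yc g p.2 : ℝ) * s ^ (p.1 + p.2)| := Finset.abs_sum_le_sum_abs _ _
          _ ≤ ∑ p ∈ (range M ×ˢ range M).filter (fun p => ¬ p.1 + p.2 < M),
              ((B * (H : ℝ) ^ b) * (B * (H : ℝ) ^ b)) * s ^ M := by
              apply Finset.sum_le_sum
              intro p hp
              rw [Finset.mem_filter, Finset.mem_product] at hp
              rw [abs_mul, abs_mul, abs_of_nonneg (by positivity : 0 ≤ s ^ (p.1 + p.2))]
              apply mul_le_mul _ (hspow _ _ (by omega)) (by positivity) (by positivity)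
              exact mul_le_mul (hYB _ hp.1.1) (hYB _ hp.1.2) (abs_nonneg _) (by positivity)
          _ ≤ ∑ p ∈ range M ×ˢ range M, ((B * (H : ℝ) ^ b) * (B * (H : ℝ) ^ b)) * s ^ M :=
              Finset.sum_le_sum_of_subset_of_nonneg (Finset.filter_subset _ _)
                (fun _ _ _ => by positivity)
          _ = (M * M) * (((B * (H : ℝ) ^ b) * (B * (H : ℝ) ^ b)) * s ^ M) := by
              rw [Finset.sum_const, Finset.card_product, Finset.card_range, nsmul_eq_mul]
              push_cast; ring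
          _ ≤ (E * E) * (((B * (H : ℝ) ^ b) * (B * (H : ℝ) ^ b)) * s ^ M) := by
              apply mul_le_mul_of_nonneg_right _ (by positivity)
              exact mul_le_mul hMR hMR (by positivity) (by positivity)
          _ = _ := by ring
      have heq : η ^ 2 - T ^ 2 =
          ∑ m ∈ (range (D + 1)).filter (fun m => ¬ m < M), (g m : ℝ) * s ^ m -
          ∑ p ∈ (range M ×ˢ range M).filter (fun p => ¬ p.1 + p.2 < M),
            (Yc g p.1 : ℝ) * (Yc g p.2 : ℝ) * s ^ (p.1 + p.2) := by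
        rw [hz, sub_zero] at hηs
        rw [← hηs, hsplit]; ring
      rw [heq]
      calc _ ≤ _ := abs_sub _ _
        _ ≤ _ := add_le_add hA hBB
        _ = _ := by ring
    -- conclusion
    have hsum : 0 < η + T := by linarith
    have h1 : |η - T| * (η + T) = |η ^ 2 - T ^ 2| := by
      rw [← abs_of_pos hsum, ← abs_mul]
      congr 1; ring
    have h2 : |η - T| * (1 / 2) ≤ |η - T| * (η + T) :=
      mul_le_mul_of_nonneg_left (by linarith) (abs_nonneg _)
    have h3 : (D + 1) * H + E * E * (B * (H : ℝ) ^ b) * (B * (H : ℝ) ^ b) ≤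
        ((D + 1) + E * E * B * B) * (H : ℝ) ^ (b + b + 1) := by
      have h4 : (H : ℝ) ≤ (H : ℝ) ^ (b + b + 1) := by
        calc (H : ℝ) = (H : ℝ) ^ 1 := (pow_one _).symm
          _ ≤ _ := hpow _ _ (by omega)
      have h5 : (H : ℝ) ^ (b + b) ≤ (H : ℝ) ^ (b + b + 1) := hpow _ _ (by omega)
      have h6 : (0 : ℝ) ≤ (D : ℝ) + 1 := by positivity
      have h7 : (0 : ℝ) ≤ (E : ℝ) * E * B * B := by positivity
      have h8 : (D + 1) * (H : ℝ) ≤ (D + 1) * (H : ℝ) ^ (b + b + 1) := mul_le_mul_of_nonneg_left h4 h6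
      have h9 : (E : ℝ) * E * B * B * (H : ℝ) ^ (b + b) ≤ E * E * B * B * (H : ℝ) ^ (b + b + 1) :=
        mul_le_mul_of_nonneg_left h5 h7
      have h10 : E * E * (B * (H : ℝ) ^ b) * (B * (H : ℝ) ^ b) = E * E * B * B * (H : ℝ) ^ (b + b) := by
        rw [pow_add]; ring
      rw [h10]
      linarith
    have h4 : ((D + 1) * H + E * E * (B * (H : ℝ) ^ b) * (B * (H : ℝ) ^ b)) * s ^ M ≤
        (((D + 1) + E * E * B * B) * (H : ℝ) ^ (b + b + 1)) * s ^ M :=
      mul_le_mul_of_nonneg_right h3 (by positivity)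
    have h5 : 2 * ((((D : ℝ) + 1) + E * E * B * B) * (H : ℝ) ^ (b + b + 1) * s ^ M) ≤
        C * (H : ℝ) ^ (b + b + 1) * s ^ M := by
      rw [hCval]
      have : (0 : ℝ) ≤ 2 * E * B * (H : ℝ) ^ (b + b + 1) * s ^ M := by positivity
      nlinarith
    linarith

end Pool.Agent.W273.Z
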