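import Pool.Agent.W273.Z.ZTwo
import Pool.Agent.W273.Z.Yser

/-!
The curve attached to a monic integer polynomial of odd degree, its coordinate ring, and monomials.
-/

set_option autoImplicit false

namespace Pool.Agent.W273.Z

open Polynomial Finset

/-- a monic squarefree integer polynomial of odd degree at least three -/
structure Par where
  f : ℤ[X]
  monic : f.Monic
  odd : Odd f.natDegree
  three : 3 ≤ f.natDegree
  sqf : Squarefree (f.map (Int.castRingHom ℚ))

namespace Par

variable (p : Par)

/-- the degree -/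
def d : ℕ := p.f.natDegree

/-- coefficients of the reversed polynomial in `s²` -/
def gc (m : ℕ) : ℤ := if Even m ∧ m / 2 ≤ p.d then p.f.coeff (p.d - m / 2) else 0

lemma gc_zero : p.gc 0 = 1 := by
  unfold gc
  rw [if_pos (by simp)]
  have h : p.f.coeff p.f.natDegree = 1 := p.monic
  have h2 : p.d - 0 / 2 = p.f.natDegree := by unfold d; simp
  rw [h2, h]

lemma gc_large (m : ℕ) (hm : 2 * p.d < m) : p.gc m = 0 := by
  unfold gc
  rw [if_neg]
  rintro ⟨h1, h2⟩
  obtain ⟨k, hk⟩ := h1
  omega

/-- rational polynomial -/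
noncomputable def FQ : ℚ[X] := p.f.map (Int.castRingHom ℚ)

lemma natDegree_FQ : p.FQ.natDegree = p.d := by
  unfold FQ d
  exact natDegree_map_eq_of_injective (RingHom.injective_int _) _

/-- the square root of the reversed polynomial -/
noncomputable def Y : PowerSeries ℚ := Yps p.gc

/-- power series as Hahn series -/
noncomputable def oP : PowerSeries ℚ →+* LL := HahnSeries.ofPowerSeries ℝ ℚ

lemma mk_gc : PowerSeries.mk (fun n => (p.gc n : ℚ)) =
    ∑ i ∈ range (p.d + 1), PowerSeries.C (p.f.coeff (p.d - i) : ℚ) * PowerSeries.X ^ (2 * i) := by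
  ext n
  rw [PowerSeries.coeff_mk, map_sum]
  simp only [PowerSeries.coeff_C_mul, PowerSeries.coeff_X_pow, mul_ite, mul_one, mul_zero]
  unfold gc
  split_ifs with h
  · obtain ⟨⟨k, hk⟩, h2⟩ := h
    rw [Finset.sum_eq_single (n / 2)]
    · rw [if_pos (by omega)]
    · intro b _ hb
      rw [if_neg (by omega)]
    · intro hb
      rw [Finset.mem_range] at hb
      omega
  · push_cast
    symm
    apply Finset.sum_eq_zero
    intro i hi
    rw [Finset.mem_range] at hi
    rw [if_neg]
    intro hn
    apply h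
    refine ⟨⟨i, by omega⟩, by omega⟩

/-- `y` as a Hahn series -/
noncomputable def yLL : LL := HahnSeries.single (-(p.d : ℝ)) (1 : ℚ) * oP p.Y

lemma oP_X_pow (k : ℕ) : oP (PowerSeries.X ^ k) = HahnSeries.single (k : ℝ) (1 : ℚ) := by
  unfold oP
  exact HahnSeries.ofPowerSeries_X_pow k

lemma oP_C (r : ℚ) : oP (PowerSeries.C r) = HahnSeries.C r := by
  unfold oP
  exact HahnSeries.ofPowerSeries_C r

lemma yLL_sq : p.yLL ^ 2 = evP p.FQ := by
  unfold yLL
  rw [mul_pow, HahnSeries.single_pow, one_pow, pow_two (oP p.Y), ← map_mul]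
  unfold Y
  rw [Yps_sq p.gc p.gc_zero, mk_gc, map_sum, Finset.mul_sum]
  unfold evP
  rw [coe_eval₂RingHom, eval₂_eq_sum_range, natDegree_FQ, ← Finset.sum_range_reflect]
  apply Finset.sum_congr rfl
  intro i hi
  rw [Finset.mem_range] at hi
  rw [map_mul, oP_X_pow, oP_C]
  have h1 : p.FQ.coeff i = (p.f.coeff i : ℚ) := by
    unfold FQ; rw [coeff_map]; rfl
  have h2 : p.d + 1 - 1 - i = p.d - i := by omega
  have h3 : p.d - (p.d - i) = i := by omega
  rw [h1, h2, h3]
  unfold xL
  rw [HahnSeries.single_pow, one_pow, HahnSeries.C_apply, HahnSeries.single_mul_single,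
    HahnSeries.single_mul_single, HahnSeries.single_mul_single, one_mul, mul_one]
  have h4 : ((p.d - i : ℕ) : ℝ) = (p.d : ℝ) - i := by
    rw [Nat.cast_sub (by omega)]
  congr 1
  push_cast
  rw [h4]
  simp only [nsmul_eq_mul]
  push_cast
  ring_nf

/-- the curve -/
noncomputable def E : CrvL where
  F := p.FQ
  odd := by rw [natDegree_FQ]; exact p.odd
  three := by rw [natDegree_FQ]; exact p.three
  sqf := p.sqf
  y := p.yLL
  hy := p.yLL_sq

/-- the coordinate ring -/
abbrev RZ : Type := QuadraticAlgebra ℤ[X] p.f 0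

/-- integer polynomials as rational functions -/
noncomputable def polR : ℤ[X] →+* RatFunc ℚ :=
  (algebraMap ℚ[X] (RatFunc ℚ)).comp (mapRingHom (Int.castRingHom ℚ))

lemma polR_inj : Function.Injective polR := by
  unfold polR
  rw [RingHom.coe_comp]
  apply Function.Injective.comp (IsFractionRing.injective ℚ[X] (RatFunc ℚ))
  exact map_injective _ (RingHom.injective_int _)

/-- the coordinate ring inside the function field -/
noncomputable def toK : p.RZ →+* p.E.K where
  toFun z := ⟨polR z.re, polR z.im⟩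
  map_zero' := by ext <;> simp
  map_one' := by
    ext
    · rw [QuadraticAlgebra.re_one, QuadraticAlgebra.re_one]; exact map_one _
    · rw [QuadraticAlgebra.im_one, QuadraticAlgebra.im_one]; exact map_zero _
  map_add' z z' := by ext <;> simp
  map_mul' z z' := by
    ext
    · rw [QuadraticAlgebra.re_mul, QuadraticAlgebra.re_mul]
      simp only [map_add, map_mul]
      rfl
    · rw [QuadraticAlgebra.im_mul, QuadraticAlgebra.im_mul]
      simp only [map_add, map_mul, map_zero]

lemma toK_re (z : p.RZ) : (p.toK z).re = polR z.re := rfl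
lemma toK_im (z : p.RZ) : (p.toK z).im = polR z.im := rfl

/-- specialisation at an integral point -/
noncomputable def sp (x y : ℤ) (h : y ^ 2 = p.f.eval x) : p.RZ →+* ℤ where
  toFun z := z.re.eval x + z.im.eval x * y
  map_zero' := by simp
  map_one' := by rw [QuadraticAlgebra.re_one, QuadraticAlgebra.im_one]; simp
  map_add' z z' := by
    rw [QuadraticAlgebra.re_add, QuadraticAlgebra.im_add, eval_add, eval_add]; ring
  map_mul' z z' := by
    rw [QuadraticAlgebra.re_mul, QuadraticAlgebra.im_mul]
    simp only [eval_add, eval_mul, eval_zero]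
    rw [← h]; ring

lemma sp_apply (x y : ℤ) (h : y ^ 2 = p.f.eval x) (z : p.RZ) :
    p.sp x y h z = z.re.eval x + z.im.eval x * y := rfl

/-- the monomial of pole order `i` -/
noncomputable def mon (i : ℕ) : p.RZ := if Even i then ⟨X ^ (i / 2), 0⟩ else ⟨0, X ^ ((i - p.d) / 2)⟩

lemma ratL_polR_X_pow (k : ℕ) : ratL (polR (X ^ k)) = HahnSeries.single (-2 * (k : ℝ)) (1 : ℚ) := by
  unfold polR
  rw [RingHom.comp_apply, ratL_algebraMap, coe_mapRingHom, Polynomial.map_pow, map_X, map_pow]
  unfold evP
  rw [coe_eval₂RingHom, eval₂_X]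
  unfold xL
  rw [HahnSeries.single_pow, one_pow, nsmul_eq_mul, mul_comm]

/-- the power series `1` or `Y` according to parity -/
noncomputable def pw (i : ℕ) : PowerSeries ℚ := if Even i then 1 else p.Y

lemma ι_mon (i : ℕ) (hi : p.d ≤ i) :
    p.E.ι (p.toK (p.mon i)) = HahnSeries.single (-(i : ℝ)) (1 : ℚ) * oP (p.pw i) := by
  rw [CrvL.ι_apply, toK_re, toK_im]
  unfold mon pw
  split_ifs with h
  · obtain ⟨k, hk⟩ := h
    simp only [map_zero, zero_mul, add_zero, map_one, mul_one]
    rw [ratL_polR_X_pow]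
    congr 1
    have : i / 2 = k := by omega
    rw [this, hk]; push_cast; ring_nf
  · rw [Nat.not_even_iff_odd] at h
    obtain ⟨k, hk⟩ := h
    obtain ⟨k', hk'⟩ := p.odd
    simp only [map_zero, zero_add]
    rw [ratL_polR_X_pow]
    change _ * (HahnSeries.single (-(p.d : ℝ)) (1 : ℚ) * oP p.Y) = _
    rw [← mul_assoc, HahnSeries.single_mul_single, one_mul]
    congr 2
    have h1 : p.d = 2 * k' + 1 := hk'
    have h2 : (i - p.d) / 2 = k - k' := by omega
    have h3 : k' ≤ k := by omega
    rw [h2, hk, h1, Nat.cast_sub h3]; push_cast; ring_nf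

/-- monomials at an integral point -/
lemma sp_mon (x y : ℤ) (h : y ^ 2 = p.f.eval x) (i : ℕ) :
    p.sp x y h (p.mon i) = if Even i then x ^ (i / 2) else x ^ ((i - p.d) / 2) * y := by
  rw [sp_apply]
  unfold mon
  split_ifs <;> simp

end Par

end Pool.Agent.W273.Z
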