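import Pool.Agent.W273.Z.Bad
import Pool.Agent.W273.Z.Ker
import Pool.Agent.W273.Z.Par

/-!
Exceptional identities have integral versions with coefficients bounded by a power of the height.
-/

set_option autoImplicit false

namespace Pool.Agent.W273.Z

open Polynomial Finset

lemma natDegree_reflect_le' {R : Type} [Semiring R] (N : ℕ) (f : R[X]) (h : f.natDegree ≤ N) :
    (f.reflect N).natDegree ≤ N := by
  rw [natDegree_le_iff_coeff_eq_zero]
  intro i hi
  rw [coeff_reflect, revAt_eq_self_of_lt hi]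
  exact coeff_eq_zero_of_natDegree_lt (by omega)

/-- coefficients of a power series times a polynomial -/
lemma coeff_mul_pol (Z : PowerSeries ℚ) (B : ℚ[X]) (q : ℕ) (hB : B.natDegree ≤ q) (e : ℕ) :
    PowerSeries.coeff e (Z * (B : PowerSeries ℚ)) =
      ∑ j ∈ range (q + 1), if j ≤ e then PowerSeries.coeff (e - j) Z * B.coeff j else 0 := by
  have h1 : (B : PowerSeries ℚ) =
      ∑ j ∈ range (q + 1), PowerSeries.C (B.coeff j) * PowerSeries.X ^ j := by
    conv_lhs => rw [B.as_sum_range_C_mul_X_pow' (Nat.lt_succ_of_le hB)]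
    rw [← Polynomial.coeToPowerSeries.ringHom_apply, map_sum]
    apply Finset.sum_congr rfl
    intro j _
    rw [Polynomial.coeToPowerSeries.ringHom_apply]
    simp
  rw [h1, Finset.mul_sum, map_sum]
  apply Finset.sum_congr rfl
  intro j _
  rw [← mul_assoc, PowerSeries.coeff_mul_X_pow']
  split_ifs
  · rw [PowerSeries.coeff_mul_C]
  · rfl

namespace Par

variable (p : Par)

/-- coefficients of the reversed polynomial -/
def gr (j : ℕ) : ℤ := if j ≤ p.d then p.f.coeff (p.d - j) else 0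

lemma gr_zero : p.gr 0 = 1 := by
  unfold gr
  rw [if_pos (Nat.zero_le _), Nat.sub_zero]
  exact p.monic

lemma gr_bd (H : ℕ) (h : ∀ i, |p.f.coeff i| ≤ H) (i : ℕ) : |p.gr i| ≤ H := by
  unfold gr
  split_ifs
  · exact h _
  · rw [abs_zero]; positivity

/-- square root of the reversed polynomial -/
noncomputable def Zs : PowerSeries ℚ := Yps p.gr

lemma Zs_sq : p.Zs * p.Zs = ((p.FQ.reflect p.d : ℚ[X]) : PowerSeries ℚ) := by
  unfold Zs
  rw [Yps_sq p.gr p.gr_zero]
  ext n
  rw [PowerSeries.coeff_mk, Polynomial.coeff_coe, coeff_reflect]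
  unfold gr
  split_ifs with h
  · rw [revAt_le h]
    unfold FQ
    rw [coeff_map]; rfl
  · rw [revAt_eq_self_of_lt (by omega), coeff_eq_zero_of_natDegree_lt (by rw [natDegree_FQ]; omega)]
    simp

/-- normalised form of the exceptional identity -/
lemma exc_norm (k : ℕ) (h : Exc p.FQ k) : ∃ q : ℕ, 2 * q + p.d = 2 * k + 1 ∧ ∃ A B : ℚ[X], ∃ c : ℚ,
    c ≠ 0 ∧ A.natDegree = k + 1 ∧ B.natDegree = q ∧ A.coeff 0 = -c ∧
    A * A - X * p.FQ * (B * B) = C (c * c) ∧ A.leadingCoeff = B.leadingCoeff := by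
  obtain ⟨m, Q, c, hm, hc, hk, hid⟩ := h
  obtain ⟨hQ, hdeg⟩ := p.E.exc_deg m Q c hm hid
  have hF : p.E.F.natDegree = p.d := p.natDegree_FQ
  rw [hF, hk] at hdeg
  have hid' : Q * Q * p.FQ = m * (m * X - C c) := hid
  obtain ⟨A, hA⟩ : ∃ A : ℚ[X], A = C 2 * (m * X) - C c := ⟨_, rfl⟩
  have hAd : A.natDegree = k + 1 := by
    rw [hA, natDegree_sub_C, natDegree_C_mul (by norm_num), natDegree_mul_X hm, hk]
  have hA0 : A.coeff 0 = -c := by
    rw [hA]; simp
  have hC2 : (C 2 : ℚ[X]) = 2 := map_ofNat C 2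
  have key : ∀ B : ℚ[X], B * B = C 4 * (Q * Q) → A * A - X * p.FQ * (B * B) = C (c * c) := by
    intro B hB
    have hC4 : (C 4 : ℚ[X]) = 4 := map_ofNat C 4
    rw [hB, hA, hC2, hC4, C_mul]
    linear_combination -4 * X * hid'
  have h2Q : (C 2 * Q : ℚ[X]) ≠ 0 := mul_ne_zero (by simp) hQ
  have hlc : A.leadingCoeff * A.leadingCoeff = (C 2 * Q : ℚ[X]).leadingCoeff * (C 2 * Q : ℚ[X]).leadingCoeff := by
    have h1 := key (C 2 * Q) (by rw [show (C 4 : ℚ[X]) = C 2 * C 2 by rw [← C_mul]; norm_num]; ring)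
    have hA0' : A ≠ 0 := by
      intro h0; rw [h0, natDegree_zero] at hAd; omega
    have h2 : A * A = X * p.FQ * ((C 2 * Q) * (C 2 * Q)) + C (c * c) := by
      rw [← h1]; ring
    have h3 : (A * A).leadingCoeff = (X * p.FQ * ((C 2 * Q) * (C 2 * Q))).leadingCoeff := by
      rw [h2]
      apply leadingCoeff_add_of_degree_lt'
      apply degree_lt_degree
      have hFne : p.FQ ≠ 0 := p.E.F_ne
      rw [natDegree_C, natDegree_mul (mul_ne_zero X_ne_zero hFne) (mul_ne_zero h2Q h2Q),
        natDegree_mul X_ne_zero hFne, natDegree_X]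
      omega
    have hFm : p.FQ.leadingCoeff = 1 := by
      unfold FQ
      exact (p.monic.map _)
    rw [leadingCoeff_mul] at h3
    rw [h3, leadingCoeff_mul, leadingCoeff_mul, leadingCoeff_mul, leadingCoeff_X, hFm]
    ring
  have h2d : (C 2 * Q : ℚ[X]).natDegree = Q.natDegree := natDegree_C_mul (by norm_num)
  rcases mul_self_eq_mul_self_iff.mp hlc with h | h
  · refine ⟨Q.natDegree, hdeg, A, C 2 * Q, c, hc, hAd, h2d, hA0, key _ ?_, h⟩
    rw [show (C 4 : ℚ[X]) = C 2 * C 2 by rw [← C_mul]; norm_num]; ring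
  · refine ⟨Q.natDegree, hdeg, A, -(C 2 * Q), c, hc, hAd, by rw [natDegree_neg, h2d], hA0, key _ ?_, ?_⟩
    · rw [show (C 4 : ℚ[X]) = C 2 * C 2 by rw [← C_mul]; norm_num]; ring
    · rw [leadingCoeff_neg, h]

/-- the reversed identity -/
lemma exc_series (k q : ℕ) (hq : 2 * q + p.d = 2 * k + 1) (A B : ℚ[X]) (c : ℚ)
    (hA : A.natDegree = k + 1) (hB : B.natDegree = q)
    (hid : A * A - X * p.FQ * (B * B) = C (c * c)) (hlc : A.leadingCoeff = B.leadingCoeff) :
    ∀ e < 2 * k + 2, PowerSeries.coeff e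
      (((A.reflect (k + 1) : ℚ[X]) : PowerSeries ℚ) - p.Zs * ((B.reflect q : ℚ[X]) : PowerSeries ℚ)) = 0 := by
  rw [← PowerSeries.X_pow_dvd_iff]
  set As := A.reflect (k + 1) with hAs
  set Bs := B.reflect q with hBs
  have hA0 : A ≠ 0 := by
    intro h0; rw [h0, natDegree_zero] at hA; omega
  -- the polynomial identity
  have h1 : As * As - p.FQ.reflect p.d * (Bs * Bs) = C (c * c) * X ^ (2 * k + 2) := by
    have e1 : As * As = (A * A).reflect (2 * k + 2) := by
      rw [show 2 * k + 2 = (k + 1) + (k + 1) by ring, reflect_mul A A hA.le hA.le]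
    have e2 : (B * B).reflect (q + q) = Bs * Bs := reflect_mul B B hB.le hB.le
    have e3 : (X * p.FQ).reflect (1 + p.d) = 1 * p.FQ.reflect p.d := by
      rw [reflect_mul X p.FQ natDegree_X_le (le_of_eq p.natDegree_FQ), reflect_one_X]
    have e4 : (X * p.FQ * (B * B)).reflect (2 * k + 2) = p.FQ.reflect p.d * (Bs * Bs) := by
      rw [show 2 * k + 2 = (1 + p.d) + (q + q) by omega, reflect_mul (X * p.FQ) (B * B) ?_ ?_, e2, e3,
        one_mul]
      · refine natDegree_mul_le.trans ?_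
        rw [natDegree_X, natDegree_FQ]
      · refine natDegree_mul_le.trans ?_
        rw [hB]
    rw [e1, ← e4, ← reflect_sub, hid, reflect_C]
  have h2 : ((As : PowerSeries ℚ) - p.Zs * (Bs : PowerSeries ℚ)) * ((As : PowerSeries ℚ) + p.Zs * (Bs : PowerSeries ℚ)) =
      PowerSeries.C (c * c) * PowerSeries.X ^ (2 * k + 2) := by
    have h3 := congrArg (fun P : ℚ[X] => (P : PowerSeries ℚ)) h1
    simp only [Polynomial.coe_sub, Polynomial.coe_mul, Polynomial.coe_C, Polynomial.coe_pow,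
      Polynomial.coe_X] at h3
    rw [← h3, ← p.Zs_sq]
    ring
  have hu : IsUnit ((As : PowerSeries ℚ) + p.Zs * (Bs : PowerSeries ℚ)) := by
    rw [PowerSeries.isUnit_iff_constantCoeff, map_add, map_mul]
    have f1 : PowerSeries.constantCoeff (As : PowerSeries ℚ) = A.leadingCoeff := by
      rw [← PowerSeries.coeff_zero_eq_constantCoeff_apply, Polynomial.coeff_coe, hAs, coeff_reflect,
        revAt_zero]
      rw [← hA]; rfl
    have f2 : PowerSeries.constantCoeff (Bs : PowerSeries ℚ) = B.leadingCoeff := by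
      rw [← PowerSeries.coeff_zero_eq_constantCoeff_apply, Polynomial.coeff_coe, hBs, coeff_reflect,
        revAt_zero]
      rw [← hB]; rfl
    have f3 : PowerSeries.constantCoeff p.Zs = 1 := by
      rw [← PowerSeries.coeff_zero_eq_constantCoeff_apply]
      unfold Zs Yps
      rw [PowerSeries.coeff_mk]
      exact Yc_zero _
    rw [f1, f2, f3, ← hlc, one_mul]
    have : A.leadingCoeff ≠ 0 := leadingCoeff_ne_zero.mpr hA0
    rw [isUnit_iff_ne_zero]
    intro h
    apply this
    linarith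
  obtain ⟨u, hu'⟩ := hu
  refine ⟨PowerSeries.C (c * c) * (↑u⁻¹ : PowerSeries ℚ), ?_⟩
  rw [← hu'] at h2
  calc _ = (((As : PowerSeries ℚ) - p.Zs * (Bs : PowerSeries ℚ)) * ↑u) * (↑u⁻¹ : PowerSeries ℚ) := by
        rw [mul_assoc, Units.mul_inv, mul_one]
    _ = _ := by rw [h2]; ring

/-- integer solution of the linear system -/
lemma exc_small (d k q : ℕ) (hq : 2 * q + d = 2 * k + 1) (hd : 1 ≤ d) : ∃ K e0 : ℕ, ∀ p : Par, p.d = d →
    ∀ H : ℕ, 1 ≤ H → (∀ i, |p.f.coeff i| ≤ H) → ∀ As Bs : ℚ[X], Bs ≠ 0 →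
    As.natDegree ≤ k + 1 → Bs.natDegree ≤ q →
    (∀ e < 2 * k + 2, PowerSeries.coeff e
      ((As : PowerSeries ℚ) - p.Zs * (Bs : PowerSeries ℚ)) = 0) →
    ∃ a b : ℤ[X], b ≠ 0 ∧ a.natDegree ≤ k + 1 ∧ b.natDegree ≤ q ∧ (∀ i, |a.coeff i| ≤ K * (H : ℤ) ^ e0) ∧
      ∀ e < 2 * k + 2, PowerSeries.coeff e
        (((a.map (Int.castRingHom ℚ) : ℚ[X]) : PowerSeries ℚ) -
          p.Zs * ((b.map (Int.castRingHom ℚ) : ℚ[X]) : PowerSeries ℚ)) = 0 := by
  obtain ⟨C0, e0, hC0, hyy⟩ := yy_bd (2 * k + 2)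
  refine ⟨(q + 1) * (4 ^ (k + 1 + q) * C0 * ((q + 1) * (4 ^ q * C0)) ^ (q + 1)), e0 + e0 * (q + 1), ?_⟩
  intro p hpd H hH hcoef As Bs hBs0 hAs hBs hser
  subst hpd
  have hgr := hyy p.gr H hH (p.gr_bd H hcoef)
  have hHe : (1 : ℤ) ≤ (H : ℤ) ^ e0 := one_le_pow₀ (by exact_mod_cast hH)
  have hqk : q ≤ k := by omega
  have hcoefZ : ∀ e, PowerSeries.coeff e p.Zs = Yc p.gr e := by
    intro e
    unfold Zs Yps
    rw [PowerSeries.coeff_mk]
  -- the matrix
  let M : Matrix (Fin k) (Fin (q + 1)) ℤ := fun i j => 4 ^ j.1 * yy p.gr (k + 2 + i.1 - j.1)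
  have hYc : ∀ e j : ℕ, j ≤ e → (4 : ℚ) ^ e * Yc p.gr (e - j) = 4 ^ j * (yy p.gr (e - j) : ℚ) := by
    intro e j hj
    unfold Yc
    have h3 : (4 : ℚ) ^ e = 4 ^ j * 4 ^ (e - j) := by rw [← pow_add]; congr 1; omega
    rw [h3]
    field_simp
  have hB1 : 1 ≤ 4 ^ q * (C0 * H ^ e0) := by
    have : 0 < 4 ^ q * (C0 * H ^ e0) := by positivity
    exact this
  obtain ⟨t, ht0, ht1, ht2⟩ := siegel_ker M (4 ^ q * (C0 * H ^ e0)) hB1 (by
    intro i j
    simp only [M]
    rw [abs_mul, abs_of_nonneg (by positivity : (0 : ℤ) ≤ 4 ^ j.1)]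
    push_cast
    apply mul_le_mul
    · exact pow_le_pow_right₀ (by norm_num) (by have := j.2; omega)
    · exact hgr _ (by have := i.2; omega)
    · exact abs_nonneg _
    · positivity) (fun j => Bs.coeff j.1) (by
    intro h0
    apply hBs0
    ext i
    rw [coeff_zero]
    rcases Nat.lt_or_ge q i with hi | hi
    · exact coeff_eq_zero_of_natDegree_lt (by omega)
    · exact congrFun h0 ⟨i, by omega⟩) (by
    intro i
    have h1 := hser (k + 2 + i.1) (by have := i.2; omega)
    rw [map_sub, Polynomial.coeff_coe, coeff_eq_zero_of_natDegree_lt (by omega), zero_sub,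
      neg_eq_zero, coeff_mul_pol p.Zs Bs q hBs] at h1
    rw [← Fin.sum_univ_eq_sum_range (fun j => if j ≤ k + 2 + i.1 then
      PowerSeries.coeff (k + 2 + i.1 - j) p.Zs * Bs.coeff j else 0)] at h1
    have h2 : ∑ j : Fin (q + 1), ((M i j : ℤ) : ℚ) * Bs.coeff j.1 =
        4 ^ (k + 2 + i.1) * ∑ j : Fin (q + 1), (if j.1 ≤ k + 2 + i.1 then
          PowerSeries.coeff (k + 2 + i.1 - j.1) p.Zs * Bs.coeff j.1 else 0) := by
      rw [Finset.mul_sum]
      apply Finset.sum_congr rfl
      intro j _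
      have hj : j.1 ≤ k + 2 + i.1 := by have := j.2; omega
      rw [if_pos hj, hcoefZ, ← mul_assoc, hYc _ _ hj]
      simp only [M]
      push_cast
      ring
    rw [h2, h1, mul_zero])
  -- the polynomials
  let b : ℤ[X] := ∑ j : Fin (q + 1), C (4 ^ (k + 1) * t j) * X ^ j.1
  let ae : ℕ → ℤ := fun e => ∑ j : Fin (q + 1), if j.1 ≤ e then 4 ^ (k + 1 - e + j.1) * yy p.gr (e - j.1) * t j else 0
  let a : ℤ[X] := ∑ e ∈ range (k + 2), C (ae e) * X ^ e
  have hbc : ∀ j : Fin (q + 1), b.coeff j.1 = 4 ^ (k + 1) * t j := by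
    intro j
    simp only [b, finsetSum_coeff, coeff_C_mul_X_pow]
    rw [Finset.sum_eq_single j]
    · rw [if_pos rfl]
    · intro j' _ hj'
      rw [if_neg]
      intro h
      exact hj' (Fin.ext h.symm)
    · intro h; exact absurd (Finset.mem_univ _) h
  have hac : ∀ e, a.coeff e = if e < k + 2 then ae e else 0 := by
    intro e
    simp only [a, finsetSum_coeff, coeff_C_mul_X_pow]
    rw [Finset.sum_ite_eq]
    simp only [Finset.mem_range]
  have hbd : b.natDegree ≤ q := by
    apply natDegree_sum_le_of_forall_le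
    intro j _
    exact (natDegree_C_mul_X_pow_le _ _).trans (by have := j.2; omega)
  have had : a.natDegree ≤ k + 1 := by
    apply natDegree_sum_le_of_forall_le
    intro e he
    rw [Finset.mem_range] at he
    exact (natDegree_C_mul_X_pow_le _ _).trans (by omega)
  have hb0 : b ≠ 0 := by
    intro h
    apply ht0
    funext j
    have h1 := hbc j
    rw [h, coeff_zero] at h1
    have h4 : (4 : ℤ) ^ (k + 1) ≠ 0 := by positivity
    exact (mul_eq_zero.mp h1.symm).resolve_left h4
  refine ⟨a, b, hb0, had, hbd, ?_, ?_⟩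
  · intro i
    rw [hac]
    have hpos : (0 : ℤ) ≤ (((q + 1) * (4 ^ (k + 1 + q) * C0 * ((q + 1) * (4 ^ q * C0)) ^ (q + 1)) : ℕ) : ℤ) *
        (H : ℤ) ^ (e0 + e0 * (q + 1)) := by positivity
    split_ifs with hi
    · have hterm : ∀ j : Fin (q + 1), |if j.1 ≤ i then 4 ^ (k + 1 - i + j.1) * yy p.gr (i - j.1) * t j else 0| ≤
          4 ^ (k + 1 + q) * (C0 * (H : ℤ) ^ e0) * (((q + 1) * (4 ^ q * (C0 * H ^ e0)) : ℕ) : ℤ) ^ (q + 1) := by
        intro j
        have hj := j.2
        split_ifs with hji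
        · rw [abs_mul, abs_mul, abs_of_nonneg (by positivity : (0 : ℤ) ≤ 4 ^ (k + 1 - i + j.1))]
          apply mul_le_mul _ (ht2 j) (abs_nonneg _) (by positivity)
          apply mul_le_mul _ (hgr _ (by omega)) (abs_nonneg _) (by positivity)
          exact pow_le_pow_right₀ (by norm_num) (by omega)
        · rw [abs_zero]; positivity
      calc |ae i| ≤ ∑ j : Fin (q + 1), |if j.1 ≤ i then 4 ^ (k + 1 - i + j.1) * yy p.gr (i - j.1) * t j else 0| :=
            Finset.abs_sum_le_sum_abs _ _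
        _ ≤ ∑ _j : Fin (q + 1), 4 ^ (k + 1 + q) * (C0 * (H : ℤ) ^ e0) *
              (((q + 1) * (4 ^ q * (C0 * H ^ e0)) : ℕ) : ℤ) ^ (q + 1) :=
            Finset.sum_le_sum fun j _ => hterm j
        _ = _ := by
            rw [Finset.sum_const, Finset.card_univ, Fintype.card_fin, nsmul_eq_mul]
            push_cast
            have hx : (((q : ℤ) + 1) * (4 ^ q * (C0 * (H : ℤ) ^ e0))) ^ (q + 1) =
                (((q : ℤ) + 1) * (4 ^ q * C0)) ^ (q + 1) * (H : ℤ) ^ (e0 * (q + 1)) := by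
              rw [pow_mul, ← mul_pow]
              congr 1
              ring
            rw [hx, pow_add (H : ℤ) e0]
            ring
    · rw [abs_zero]; exact hpos
  · intro e he
    rw [map_sub, Polynomial.coeff_coe, coeff_map, hac, coeff_mul_pol p.Zs _ q (by
      rw [natDegree_map_eq_of_injective (RingHom.injective_int _)]; exact hbd)]
    rw [← Fin.sum_univ_eq_sum_range (fun j => if j ≤ e then
      PowerSeries.coeff (e - j) p.Zs * (b.map (Int.castRingHom ℚ)).coeff j else 0)]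
    rcases Nat.lt_or_ge e (k + 2) with h | h
    · rw [if_pos h, sub_eq_zero]
      simp only [ae, map_sum]
      apply Finset.sum_congr rfl
      intro j _
      split_ifs with hje
      · rw [hcoefZ, coeff_map, hbc]
        simp only [eq_intCast]
        have h1 := hYc e j.1 hje
        have h2 : (4 : ℚ) ^ (k + 1) = 4 ^ (k + 1 - e) * 4 ^ e := by
          rw [← pow_add]; congr 1; omega
        push_cast
        rw [h2, pow_add]
        linear_combination (-(4 : ℚ) ^ (k + 1 - e) * t j) * h1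
      · simp
    · rw [if_neg (by omega), map_zero, zero_sub, neg_eq_zero]
      have hrow := ht1 ⟨e - (k + 2), by omega⟩
      have h1 : (4 : ℚ) ^ e * ∑ j : Fin (q + 1), (if j.1 ≤ e then
          PowerSeries.coeff (e - j.1) p.Zs * (b.map (Int.castRingHom ℚ)).coeff j.1 else 0) =
          4 ^ (k + 1) * ((∑ j : Fin (q + 1), M ⟨e - (k + 2), by omega⟩ j * t j : ℤ) : ℚ) := by
        push_cast
        rw [Finset.mul_sum, Finset.mul_sum]
        apply Finset.sum_congr rfl
        intro j _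
        have hj := j.2
        have hje : j.1 ≤ e := by omega
        rw [if_pos hje, hcoefZ, coeff_map, hbc, ← mul_assoc, hYc e j.1 hje]
        simp only [M, eq_intCast]
        have he2 : k + 2 + (e - (k + 2)) = e := by omega
        push_cast
        rw [he2]
        ring
      rw [hrow] at h1
      simp only [Int.cast_zero, mul_zero] at h1
      exact (mul_eq_zero.mp h1).resolve_left (by positivity)

/-- **integral form of the exceptional identity, with bounded coefficients** -/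
theorem exc_int (d k : ℕ) (hd : 1 ≤ d) : ∃ K e0 : ℕ, ∀ p : Par, p.d = d →
    ∀ H : ℕ, 1 ≤ H → (∀ i, |p.f.coeff i| ≤ H) → Exc p.FQ k →
    ∃ m Q : ℤ[X], ∃ c : ℤ, c ≠ 0 ∧ m ≠ 0 ∧ m.natDegree = k ∧ Q * Q * p.f = m * (m * X - C c) ∧
      (∀ i, |m.coeff i| ≤ K * (H : ℤ) ^ e0) ∧ |c| ≤ K * (H : ℤ) ^ e0 := by
  rcases Nat.even_or_odd' (2 * k + 1 - d) with ⟨q, hq | hq⟩
  · rcases Nat.lt_or_ge (2 * k + 1) d with hlt | hge
    · refine ⟨0, 0, ?_⟩
      intro p hpd H hH hcoef hexc
      obtain ⟨q', hq', _⟩ := p.exc_norm k hexc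
      omega
    obtain ⟨K, e0, hK⟩ := exc_small d k q (by omega) hd
    refine ⟨2 * K, e0, ?_⟩
    intro p hpd H hH hcoef hexc
    obtain ⟨q', hq', A, B, c, hc, hA, hB, hA0, hid, hlc⟩ := p.exc_norm k hexc
    have hqq : q' = q := by omega
    subst hqq
    have hAne : A ≠ 0 := by
      rintro rfl; rw [natDegree_zero] at hA; omega
    have hBne : B ≠ 0 := by
      rintro rfl
      rw [leadingCoeff_zero] at hlc
      exact hAne (leadingCoeff_eq_zero.mp hlc)
    have hser := p.exc_series k q' hq' A B c hA hB hid hlc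
    have hAsd : (A.reflect (k + 1)).natDegree ≤ k + 1 := natDegree_reflect_le' _ _ hA.le
    have hBsd : (B.reflect q').natDegree ≤ q' := natDegree_reflect_le' _ _ hB.le
    have hBs0 : B.reflect q' ≠ 0 := by
      rw [ne_eq, reflect_eq_zero_iff]; exact hBne
    obtain ⟨a, b, hb0, had, hbd, habd, hser2⟩ := hK p hpd H hH hcoef (A.reflect (k + 1)) (B.reflect q')
      hBs0 hAsd hBsd hser
    -- uniqueness
    set φ := Int.castRingHom ℚ with hφ
    have had' : (a.map φ).natDegree ≤ k + 1 := (natDegree_map_le).trans had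
    have hbd' : (b.map φ).natDegree ≤ q' := (natDegree_map_le).trans hbd
    have hD : a.map φ * B.reflect q' - A.reflect (k + 1) * b.map φ = 0 := by
      have h1 : (PowerSeries.X : PowerSeries ℚ) ^ (2 * k + 2) ∣
          ((a.map φ * B.reflect q' - A.reflect (k + 1) * b.map φ : ℚ[X]) : PowerSeries ℚ) := by
        rw [← PowerSeries.X_pow_dvd_iff] at hser hser2
        have e1 : ((a.map φ * B.reflect q' - A.reflect (k + 1) * b.map φ : ℚ[X]) : PowerSeries ℚ) =
            (((a.map φ : ℚ[X]) : PowerSeries ℚ) - p.Zs * ((b.map φ : ℚ[X]) : PowerSeries ℚ)) *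
              ((B.reflect q' : ℚ[X]) : PowerSeries ℚ) -
            (((A.reflect (k + 1) : ℚ[X]) : PowerSeries ℚ) - p.Zs * ((B.reflect q' : ℚ[X]) : PowerSeries ℚ)) *
              ((b.map φ : ℚ[X]) : PowerSeries ℚ) := by
          simp only [Polynomial.coe_sub, Polynomial.coe_mul]
          ring
        rw [e1]
        exact dvd_sub (Dvd.dvd.mul_right hser2 _) (Dvd.dvd.mul_right hser _)
      rw [PowerSeries.X_pow_dvd_iff] at h1
      ext i
      rw [coeff_zero]
      rcases Nat.lt_or_ge i (2 * k + 2) with hi | hi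
      · have := h1 i hi
        rwa [Polynomial.coeff_coe] at this
      · apply coeff_eq_zero_of_natDegree_lt
        refine lt_of_le_of_lt (natDegree_sub_le _ _) ?_
        refine max_lt ?_ ?_
        · refine lt_of_le_of_lt natDegree_mul_le ?_
          omega
        · refine lt_of_le_of_lt natDegree_mul_le ?_
          omega
    obtain ⟨A1, hA1⟩ : ∃ A1 : ℤ[X], A1 = a.reflect (k + 1) := ⟨_, rfl⟩
    obtain ⟨B1, hB1⟩ : ∃ B1 : ℤ[X], B1 = b.reflect q' := ⟨_, rfl⟩
    have hA1m : A1.map φ = (a.map φ).reflect (k + 1) := by rw [hA1, reflect_map]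
    have hB1m : B1.map φ = (b.map φ).reflect q' := by rw [hB1, reflect_map]
    have hAB : A1.map φ * B = A * B1.map φ := by
      have e1 : (a.map φ * B.reflect q').reflect (k + 1 + q') = A1.map φ * B := by
        rw [reflect_mul _ _ had' hBsd, reflect_reflect, hA1m]
      have e2 : (A.reflect (k + 1) * b.map φ).reflect (k + 1 + q') = A * B1.map φ := by
        rw [reflect_mul _ _ hAsd hbd', reflect_reflect, hB1m]
      rw [← e1, ← e2, sub_eq_zero.mp hD]
    have hB1ne : B1.map φ ≠ 0 := by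
      rw [hB1m, ne_eq, reflect_eq_zero_iff, Polynomial.map_eq_zero_iff (RingHom.injective_int φ)]
      exact hb0
    have hA1ne : A1.map φ ≠ 0 := by
      intro h0
      rw [h0, zero_mul] at hAB
      exact mul_ne_zero hAne hB1ne hAB.symm
    have hA1d : (A1.map φ).natDegree ≤ k + 1 := by
      rw [hA1m]; exact natDegree_reflect_le' _ _ had'
    -- proportionality
    have hcc : c * c ≠ 0 := mul_ne_zero hc hc
    obtain ⟨G, hG⟩ : ∃ G : ℚ[X], G = C (c * c)⁻¹ * (A * A1.map φ - X * p.FQ * (B * B1.map φ)) := ⟨_, rfl⟩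
    have hAG : A * G = A1.map φ := by
      have e1 : A * (A * A1.map φ - X * p.FQ * (B * B1.map φ)) = C (c * c) * A1.map φ := by
        rw [← hid]
        linear_combination (X * p.FQ * B) * hAB
      rw [hG, mul_left_comm, e1, ← mul_assoc, ← C_mul, inv_mul_cancel₀ hcc, C_1, one_mul]
    have hGd : G.natDegree = 0 := by
      have hG0 : G ≠ 0 := by
        rintro rfl
        rw [mul_zero] at hAG
        exact hA1ne hAG.symm
      have := congrArg natDegree hAG
      rw [natDegree_mul hAne hG0] at this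
      omega
    obtain ⟨γ, hγ⟩ := natDegree_eq_zero.mp hGd
    rw [← hγ] at hAG
    have hγ0 : γ ≠ 0 := by
      rintro rfl
      rw [C_0, mul_zero] at hAG
      exact hA1ne hAG.symm
    have hBG : B1.map φ = C γ * B := by
      have e1 : A * (B1.map φ) = A * (C γ * B) := by
        rw [← hAB, ← hAG]; ring
      exact mul_left_cancel₀ hAne e1
    have hid1 : A1.map φ * A1.map φ - X * p.FQ * (B1.map φ * B1.map φ) = C (γ * c * (γ * c)) := by
      rw [← hAG, hBG]
      have : (C (γ * c * (γ * c)) : ℚ[X]) = C γ * C γ * C (c * c) := by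
        rw [← C_mul, ← C_mul]; congr 1; ring
      rw [this, ← hid]; ring
    have hA10 : ((A1.coeff 0 : ℤ) : ℚ) = -(γ * c) := by
      have e1 : (A1.map φ).coeff 0 = γ * A.coeff 0 := by
        rw [← hAG, mul_coeff_zero, coeff_C_zero]; ring
      rw [coeff_map, hA0] at e1
      rw [hφ] at e1
      simp only [eq_intCast] at e1
      rw [e1]; ring
    obtain ⟨l, hl⟩ : ∃ l : ℤ, l = -A1.coeff 0 := ⟨_, rfl⟩
    have hlq : (l : ℚ) = γ * c := by rw [hl]; push_cast; rw [hA10]; ring
    have hl0 : l ≠ 0 := by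
      intro h0
      rw [h0] at hlq
      exact mul_ne_zero hγ0 hc (by rw [← hlq]; simp)
    obtain ⟨m, hm⟩ : ∃ m : ℤ[X], m = A1.divX := ⟨_, rfl⟩
    have hA1X : A1 = m * X - C l := by
      rw [hm, hl, C_neg, sub_neg_eq_add, divX_mul_X_add]
    have hidZ : A1 * A1 - X * p.f * (B1 * B1) = C (l * l) := by
      apply Polynomial.map_injective φ (RingHom.injective_int φ)
      rw [Polynomial.map_sub, Polynomial.map_mul, Polynomial.map_mul, Polynomial.map_mul,
        Polynomial.map_mul, map_X, map_C, hφ]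
      have : (Int.castRingHom ℚ) (l * l) = γ * c * (γ * c) := by
        rw [← hlq]; simp
      rw [this]
      exact hid1
    have hA1deg : A1.natDegree = k + 1 := by
      have e1 : (A1.map φ).natDegree = A1.natDegree :=
        natDegree_map_eq_of_injective (RingHom.injective_int φ) _
      rw [← e1, ← hAG, natDegree_mul_C hγ0, hA]
    have hmdeg : m.natDegree = k := by
      rw [hm, natDegree_divX_eq_natDegree_tsub_one, hA1deg]; omega
    have hm0 : m ≠ 0 := by
      intro h0
      rw [h0, zero_mul, zero_sub, ← C_neg] at hA1X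
      rw [hA1X, natDegree_C] at hA1deg
      omega
    have habd' : ∀ i, |A1.coeff i| ≤ K * (H : ℤ) ^ e0 := by
      intro i
      rw [hA1, coeff_reflect]; exact habd _
    have hKpos : (0 : ℤ) ≤ K * (H : ℤ) ^ e0 := by positivity
    refine ⟨m, B1, 2 * l, by omega, hm0, hmdeg, ?_, ?_, ?_⟩
    · apply mul_left_cancel₀ (X_ne_zero (R := ℤ))
      have e1 : X * (B1 * B1 * p.f) = A1 * A1 - C (l * l) := by
        rw [← hidZ]; ring
      rw [e1, hA1X, C_mul, C_mul]
      have : (C 2 : ℤ[X]) = 2 := map_ofNat C 2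
      rw [this]; ring
    · intro i
      rw [hm, coeff_divX]
      push_cast
      have := habd' (i + 1)
      linarith
    · rw [abs_mul, abs_two, hl, abs_neg]
      push_cast
      have := habd' 0
      linarith
  · refine ⟨0, 0, ?_⟩
    intro p hpd H hH hcoef hexc
    obtain ⟨q', hq', _⟩ := p.exc_norm k hexc
    omega

end Par

end Pool.Agent.W273.Z
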