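import Pool.Agent.W273.Z.Grid

/-!
Assembly of the exponents.
-/

set_option autoImplicit false

namespace Pool.Agent.W273.Z

open Polynomial Finset

/-- the assembled theorem -/
theorem assemble (d c : ℕ) (hc1 : 1 ≤ c) (ε : ℝ) (hε : 0 < ε) :
    ∃ K M : ℕ, 1 ≤ K ∧ ∀ p : Par, p.d = d →
      (∀ W : ℝ, 0 ≤ W → W ≤ c → ∀ φ : p.E.K, p.E.G W (X - C φ)) →
      ∀ H : ℕ, 1 ≤ H → (∀ i, |p.f.coeff i| ≤ H) → ∀ x y : ℤ, y ^ 2 = p.f.eval x →
      ∀ a b : ℤ, 1 ≤ b → (b : ℝ) ≤ |(x : ℝ)| ^ ((c : ℝ) / 4 - ε) →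
      |(b : ℝ) ^ 2 * x - (a : ℝ) ^ 2| ≤ |(x : ℝ)| ^ (1 / 2 - ε) → |(x : ℝ)| ≤ K * (H : ℝ) ^ M := by
  have hcR : (1 : ℝ) ≤ c := by exact_mod_cast hc1
  set η : ℝ := ε / 2 with hη
  have hη0 : 0 < η := by positivity
  have hgrid : ∀ i : ℕ, ∃ K M : ℕ, (2 * ε + 2 * i * η ≤ c → ∀ p : Par, p.d = d →
      (∀ φ : p.E.K, p.E.G (2 * ε + 2 * i * η) (X - C φ)) →
      ∀ H : ℕ, 1 ≤ H → (∀ i, |p.f.coeff i| ≤ H) →
      ∀ x y : ℤ, y ^ 2 = p.f.eval x → 0 ≤ y → ∀ w : ℝ, 1 ≤ w → w ^ 2 = x →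
      ∀ a b : ℤ, 1 ≤ b → (b : ℝ) ≤ w ^ ((i + 1) * η) → |w - a / b| ≤ w ^ (-(2 * ε + 2 * i * η)) →
      w ≤ K * (H : ℝ) ^ M) := by
    intro i
    by_cases h : 2 * ε + 2 * i * η ≤ c
    · obtain ⟨K, M, hKM⟩ := grid d c hc1 (2 * ε + 2 * i * η) ((i + 1) * η) (by positivity)
        (by rw [hη]; linarith) h
      exact ⟨K, M, fun _ => hKM⟩
    · exact ⟨0, 0, fun h' => absurd h' h⟩
  choose K M hKM using hgrid
  set I : ℕ := ⌈(c : ℝ) / (2 * η)⌉₊ with hI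
  set KK : ℕ := ∑ i ∈ range (I + 1), K i with hKK
  set MM : ℕ := ∑ i ∈ range (I + 1), M i with hMM
  refine ⟨KK ^ 2 + 1, 2 * MM, by omega, ?_⟩
  intro p hpd hgood H hH hcoef x y hy a b hb hbx hab
  have hHR : (1 : ℝ) ≤ H := by exact_mod_cast hH
  have hbR : (1 : ℝ) ≤ b := by exact_mod_cast hb
  have htriv : (1 : ℝ) ≤ ((KK ^ 2 + 1 : ℕ) : ℝ) * (H : ℝ) ^ (2 * MM) := by
    have h1 : (1 : ℝ) ≤ (H : ℝ) ^ (2 * MM) := one_le_pow₀ hHR
    have h2 : (1 : ℝ) ≤ ((KK ^ 2 + 1 : ℕ) : ℝ) := by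
      push_cast
      have : (0 : ℝ) ≤ (KK : ℝ) ^ 2 := by positivity
      linarith
    calc (1 : ℝ) = 1 * 1 := by norm_num
      _ ≤ _ := mul_le_mul h2 h1 (by norm_num) (by positivity)
  rcases le_or_gt |(x : ℝ)| 1 with hx1 | hx1
  · exact hx1.trans htriv
  -- x is positive
  have hxpos : 0 < x := by
    by_contra hneg
    push Not at hneg
    have hxR : (x : ℝ) ≤ 0 := by exact_mod_cast hneg
    have h1 : |(x : ℝ)| = -x := abs_of_nonpos hxR
    have h2 : |(x : ℝ)| ≤ |(b : ℝ) ^ 2 * x - (a : ℝ) ^ 2| := by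
      have hb2 : (1 : ℝ) ≤ (b : ℝ) ^ 2 := one_le_pow₀ hbR
      have h3 : (b : ℝ) ^ 2 * x - (a : ℝ) ^ 2 ≤ x := by
        have : (b : ℝ) ^ 2 * x ≤ 1 * x := mul_le_mul_of_nonpos_right hb2 hxR
        have : 0 ≤ (a : ℝ) ^ 2 := sq_nonneg _
        linarith
      rw [h1, abs_of_nonpos (by linarith)]
      linarith
    have h3 : |(x : ℝ)| ^ (1 / 2 - ε) < |(x : ℝ)| ^ (1 : ℝ) :=
      Real.rpow_lt_rpow_of_exponent_lt hx1 (by linarith)
    rw [Real.rpow_one] at h3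
    linarith
  have hxR : 0 < (x : ℝ) := by exact_mod_cast hxpos
  rw [abs_of_pos hxR] at hx1 hbx hab ⊢
  set w : ℝ := Real.sqrt x with hw
  have hw2 : w ^ 2 = x := Real.sq_sqrt hxR.le
  have hw1 : 1 < w := by
    rw [hw]; exact Real.lt_sqrt_of_sq_lt (by linarith)
  have hw0 : 0 < w := by linarith
  have hxw : ∀ e : ℝ, (x : ℝ) ^ e = w ^ (2 * e) := by
    intro e
    rw [← hw2, ← Real.rpow_natCast, ← Real.rpow_mul hw0.le]
    norm_num
  rw [hxw] at hbx hab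
  -- the approximation
  obtain ⟨α, hα⟩ : ∃ α : ℝ, α = |(a : ℝ)| := ⟨_, rfl⟩
  have hα0 : 0 ≤ α := by rw [hα]; exact abs_nonneg _
  have hα2 : α ^ 2 = (a : ℝ) ^ 2 := by rw [hα, sq_abs]
  have happ : |w - α / b| ≤ w ^ (-2 * ε) / b ^ 2 := by
    have hb0 : (0 : ℝ) < b := by linarith
    have h1 : |b * w - α| * (b * w) ≤ w ^ (2 * (1 / 2 - ε)) := by
      have h2 : |b * w - α| * (b * w + α) = |(b : ℝ) ^ 2 * x - (a : ℝ) ^ 2| := by
        have h3 : (0 : ℝ) ≤ b * w + α := by positivity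
        rw [← abs_of_nonneg h3, ← abs_mul]
        congr 1
        rw [← hw2, ← hα2]
        ring
      calc |b * w - α| * (b * w) ≤ |b * w - α| * (b * w + α) :=
            mul_le_mul_of_nonneg_left (by linarith) (abs_nonneg _)
        _ ≤ _ := by rw [h2]; exact hab
    have h4 : w - α / b = (b * w - α) / b := by field_simp
    rw [h4, abs_div, abs_of_pos hb0, div_le_div_iff₀ hb0 (by positivity)]
    have h5 : w ^ (2 * (1 / 2 - ε)) = w ^ (-2 * ε) * w := by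
      rw [← Real.rpow_add_one hw0.ne']
      congr 1; ring
    rw [h5] at h1
    have h6 : |b * w - α| * b ≤ w ^ (-2 * ε) := by
      have : (|b * w - α| * b) * w ≤ w ^ (-2 * ε) * w := by
        calc _ = |b * w - α| * (b * w) := by ring
          _ ≤ _ := h1
      exact le_of_mul_le_mul_right this hw0
    calc |b * w - α| * b ^ 2 = (|b * w - α| * b) * b := by ring
      _ ≤ w ^ (-2 * ε) * b := mul_le_mul_of_nonneg_right h6 hb0.le
  -- the grid point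
  have hwη : 1 < w ^ η := Real.one_lt_rpow hw1 hη0
  obtain ⟨i, hi1, hi2⟩ := exists_nat_pow_near hbR hwη
  have e1 : (w ^ η) ^ i = w ^ (i * η) := by
    rw [← Real.rpow_natCast, ← Real.rpow_mul hw0.le]; congr 1; ring
  have e2 : (w ^ η) ^ (i + 1) = w ^ ((i + 1) * η) := by
    rw [← Real.rpow_natCast, ← Real.rpow_mul hw0.le]; congr 1; push_cast; ring
  rw [e1] at hi1
  rw [e2] at hi2
  have hiη : (i : ℝ) * η ≤ c / 2 - 2 * ε := by
    have h1 : w ^ ((i : ℝ) * η) ≤ w ^ (2 * ((c : ℝ) / 4 - ε)) := hi1.trans hbx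
    have h2 := (Real.rpow_le_rpow_left_iff hw1).mp h1
    linarith
  have hWc : 2 * ε + 2 * i * η ≤ c := by linarith
  have hiI : i ≤ I := by
    have h1 : (i : ℝ) ≤ c / (2 * η) := by
      rw [le_div_iff₀ (by positivity)]
      linarith
    have h2 : (i : ℝ) ≤ I := h1.trans (Nat.le_ceil _)
    exact_mod_cast h2
  have hfin := hKM i hWc p hpd (hgood _ (by positivity) hWc) H hH hcoef x |y|
    (by rw [sq_abs]; exact hy) (abs_nonneg _) w hw1.le hw2 |a| b hb hi2.le (by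
      push_cast
      rw [← hα]
      have hb0 : (0 : ℝ) < b := by linarith
      calc |w - α / b| ≤ w ^ (-2 * ε) / b ^ 2 := happ
        _ ≤ w ^ (-2 * ε) / (w ^ (i * η)) ^ 2 := by
            apply div_le_div_of_nonneg_left (by positivity) (by positivity)
            exact pow_le_pow_left₀ (by positivity) hi1 2
        _ = _ := by
            rw [← Real.rpow_natCast, ← Real.rpow_mul hw0.le, ← Real.rpow_sub hw0]
            congr 1; push_cast; ring)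
  have hKi : (K i : ℝ) ≤ KK := by
    have : K i ≤ KK := Finset.single_le_sum (f := K) (fun _ _ => Nat.zero_le _)
      (Finset.mem_range.mpr (by omega))
    exact_mod_cast this
  have hMi : M i ≤ MM := Finset.single_le_sum (f := M) (fun _ _ => Nat.zero_le _)
      (Finset.mem_range.mpr (by omega))
  have hwle : w ≤ KK * (H : ℝ) ^ MM := by
    calc w ≤ K i * (H : ℝ) ^ M i := hfin
      _ ≤ KK * (H : ℝ) ^ MM :=
        mul_le_mul hKi (pow_le_pow_right₀ hHR hMi) (by positivity) (by positivity)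
  calc (x : ℝ) = w ^ 2 := hw2.symm
    _ ≤ (KK * (H : ℝ) ^ MM) ^ 2 := pow_le_pow_left₀ hw0.le hwle 2
    _ = (KK : ℝ) ^ 2 * (H : ℝ) ^ (2 * MM) := by rw [mul_pow, ← pow_mul, mul_comm MM 2]
    _ ≤ ((KK ^ 2 + 1 : ℕ) : ℝ) * (H : ℝ) ^ (2 * MM) := by
        apply mul_le_mul_of_nonneg_right _ (by positivity)
        push_cast; linarith

end Pool.Agent.W273.Z
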