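import Pool.Agent.W273.Z.GridTwo

/-!
Assembly of the exponents, all denominators bounded by a power of the abscissa.
-/

set_option autoImplicit false

namespace Pool.Agent.W273.Z

open Polynomial Finset

/-- the assembled theorem for monic polynomials -/
theorem assemble2 (d : ℕ) (hd : 1 ≤ d) (κ ε : ℝ) (hκ : 0 ≤ κ) (hε : 0 < ε) :
    ∃ K M : ℕ, 1 ≤ K ∧ ∀ p : Par, p.d = d →
      ∀ H : ℕ, 1 ≤ H → (∀ i, |p.f.coeff i| ≤ H) → ∀ x y : ℤ, y ^ 2 = p.f.eval x →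
      ∀ a b : ℤ, 1 ≤ b → (b : ℝ) ≤ |(x : ℝ)| ^ κ →
      |(b : ℝ) ^ 2 * x - (a : ℝ) ^ 2| ≤ |(x : ℝ)| ^ (1 / 2 - ε) → |(x : ℝ)| ≤ K * (H : ℝ) ^ M ∨
        ∃ k : ℕ, (k : ℝ) ≤ 2 * κ ∧ Alt p.f k x y a b := by
  obtain ⟨η, hη⟩ : ∃ η : ℝ, η = min (ε / 2) (((⌊2 * κ⌋₊ : ℝ) + 1 - 2 * κ) / 2) := ⟨_, rfl⟩
  have hfl : 2 * κ < (⌊2 * κ⌋₊ : ℝ) + 1 := Nat.lt_floor_add_one _
  have hη0 : 0 < η := by
    rw [hη]
    exact lt_min (by positivity) (by linarith)
  have hηε : η ≤ ε / 2 := by rw [hη]; exact min_le_left _ _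
  have hηκ : η ≤ ((⌊2 * κ⌋₊ : ℝ) + 1 - 2 * κ) / 2 := by rw [hη]; exact min_le_right _ _
  have hgrid : ∀ i : ℕ, ∃ K M : ℕ, ∀ p : Par, p.d = d →
      ∀ H : ℕ, 1 ≤ H → (∀ i, |p.f.coeff i| ≤ H) →
      ∀ x y : ℤ, y ^ 2 = p.f.eval x → 0 ≤ y → ∀ w : ℝ, 1 ≤ w → w ^ 2 = x →
      ∀ a b : ℤ, 1 ≤ b → (b : ℝ) ≤ w ^ ((i + 1) * η) → |w - a / b| ≤ w ^ (-(2 * ε + 2 * i * η)) →
      w ≤ K * (H : ℝ) ^ M ∨ ∃ k : ℕ, (k : ℝ) ≤ (i + 1) * η ∧ Alt p.f k x y a b := by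
    intro i
    exact grid2 d hd (2 * ε + 2 * i * η) ((i + 1) * η) (by positivity) (by linarith)
  choose K M hKM using hgrid
  set I : ℕ := ⌈2 * κ / η⌉₊ with hI
  set KK : ℕ := ∑ i ∈ range (I + 1), K i with hKK
  set MM : ℕ := ∑ i ∈ range (I + 1), M i with hMM
  refine ⟨KK ^ 2 + 1, 2 * MM, by omega, ?_⟩
  intro p hpd H hH hcoef x y hy a b hb hbx hab
  have hHR : (1 : ℝ) ≤ H := by exact_mod_cast hH
  have hbR : (1 : ℝ) ≤ b := by exact_mod_cast hb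
  have htriv : (1 : ℝ) ≤ ((KK ^ 2 + 1 : ℕ) : ℝ) * (H : ℝ) ^ (2 * MM) := by
    have h1 : (1 : ℝ) ≤ (H : ℝ) ^ (2 * MM) := one_le_pow₀ hHR
    have h2 : (1 : ℝ) ≤ ((KK ^ 2 + 1 : ℕ) : ℝ) := by
      push_cast
      have : (0 : ℝ) ≤ (KK : ℝ) ^ 2 := by positivity
      linarith
    calc (1 : ℝ) = 1 * 1 := by norm_num
      _ ≤ _ := mul_le_mul h2 h1 (by norm_num) (by positivity)
  rcases le_or_gt |(x : ℝ)| 1 with hx1 | hx1
  · exact Or.inl (hx1.trans htriv)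
  -- x is positive
  have hxpos : 0 < x := by
    by_contra hneg
    push Not at hneg
    have hxR : (x : ℝ) ≤ 0 := by exact_mod_cast hneg
    have h1 : |(x : ℝ)| = -x := abs_of_nonpos hxR
    have h2 : |(x : ℝ)| ≤ |(b : ℝ) ^ 2 * x - (a : ℝ) ^ 2| := by
      have hb2 : (1 : ℝ) ≤ (b : ℝ) ^ 2 := one_le_pow₀ hbR
      have h3 : (b : ℝ) ^ 2 * x - (a : ℝ) ^ 2 ≤ x := by
        have : (b : ℝ) ^ 2 * x ≤ 1 * x := mul_le_mul_of_nonpos_right hb2 hxR
        have : 0 ≤ (a : ℝ) ^ 2 := sq_nonneg _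
        linarith
      rw [h1, abs_of_nonpos (by linarith)]
      linarith
    have h3 : |(x : ℝ)| ^ (1 / 2 - ε) < |(x : ℝ)| ^ (1 : ℝ) :=
      Real.rpow_lt_rpow_of_exponent_lt hx1 (by linarith)
    rw [Real.rpow_one] at h3
    linarith
  have hxR : 0 < (x : ℝ) := by exact_mod_cast hxpos
  rw [abs_of_pos hxR] at hx1 hbx hab ⊢
  set w : ℝ := Real.sqrt x with hw
  have hw2 : w ^ 2 = x := Real.sq_sqrt hxR.le
  have hw1 : 1 < w := by
    rw [hw]; exact Real.lt_sqrt_of_sq_lt (by linarith)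
  have hw0 : 0 < w := by linarith
  have hxw : ∀ e : ℝ, (x : ℝ) ^ e = w ^ (2 * e) := by
    intro e
    rw [← hw2, ← Real.rpow_natCast, ← Real.rpow_mul hw0.le]
    norm_num
  rw [hxw] at hbx hab
  -- the approximation
  obtain ⟨α, hα⟩ : ∃ α : ℝ, α = |(a : ℝ)| := ⟨_, rfl⟩
  have hα0 : 0 ≤ α := by rw [hα]; exact abs_nonneg _
  have hα2 : α ^ 2 = (a : ℝ) ^ 2 := by rw [hα, sq_abs]
  have happ : |w - α / b| ≤ w ^ (-2 * ε) / b ^ 2 := by
    have hb0 : (0 : ℝ) < b := by linarith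
    have h1 : |b * w - α| * (b * w) ≤ w ^ (2 * (1 / 2 - ε)) := by
      have h2 : |b * w - α| * (b * w + α) = |(b : ℝ) ^ 2 * x - (a : ℝ) ^ 2| := by
        have h3 : (0 : ℝ) ≤ b * w + α := by positivity
        rw [← abs_of_nonneg h3, ← abs_mul]
        congr 1
        rw [← hw2, ← hα2]
        ring
      calc |b * w - α| * (b * w) ≤ |b * w - α| * (b * w + α) :=
            mul_le_mul_of_nonneg_left (by linarith) (abs_nonneg _)
        _ ≤ _ := by rw [h2]; exact hab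
    have h4 : w - α / b = (b * w - α) / b := by field_simp
    rw [h4, abs_div, abs_of_pos hb0, div_le_div_iff₀ hb0 (by positivity)]
    have h5 : w ^ (2 * (1 / 2 - ε)) = w ^ (-2 * ε) * w := by
      rw [← Real.rpow_add_one hw0.ne']
      congr 1; ring
    rw [h5] at h1
    have h6 : |b * w - α| * b ≤ w ^ (-2 * ε) := by
      have : (|b * w - α| * b) * w ≤ w ^ (-2 * ε) * w := by
        calc _ = |b * w - α| * (b * w) := by ring
          _ ≤ _ := h1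
      exact le_of_mul_le_mul_right this hw0
    calc |b * w - α| * b ^ 2 = (|b * w - α| * b) * b := by ring
      _ ≤ w ^ (-2 * ε) * b := mul_le_mul_of_nonneg_right h6 hb0.le
  -- the grid point
  have hwη : 1 < w ^ η := Real.one_lt_rpow hw1 hη0
  obtain ⟨i, hi1, hi2⟩ := exists_nat_pow_near hbR hwη
  have e1 : (w ^ η) ^ i = w ^ (i * η) := by
    rw [← Real.rpow_natCast, ← Real.rpow_mul hw0.le]; congr 1; ring
  have e2 : (w ^ η) ^ (i + 1) = w ^ ((i + 1) * η) := by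
    rw [← Real.rpow_natCast, ← Real.rpow_mul hw0.le]; congr 1; push_cast; ring
  rw [e1] at hi1
  rw [e2] at hi2
  have hiη : (i : ℝ) * η ≤ 2 * κ := by
    have h1 : w ^ ((i : ℝ) * η) ≤ w ^ (2 * κ) := hi1.trans hbx
    exact (Real.rpow_le_rpow_left_iff hw1).mp h1
  have hiI : i ≤ I := by
    have h1 : (i : ℝ) ≤ 2 * κ / η := by
      rw [le_div_iff₀ hη0]
      exact hiη
    have h2 : (i : ℝ) ≤ I := h1.trans (Nat.le_ceil _)
    exact_mod_cast h2
  have hfin := hKM i p hpd H hH hcoef x |y|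
    (by rw [sq_abs]; exact hy) (abs_nonneg _) w hw1.le hw2 |a| b hb hi2.le (by
      push_cast
      rw [← hα]
      have hb0 : (0 : ℝ) < b := by linarith
      calc |w - α / b| ≤ w ^ (-2 * ε) / b ^ 2 := happ
        _ ≤ w ^ (-2 * ε) / (w ^ (i * η)) ^ 2 := by
            apply div_le_div_of_nonneg_left (by positivity) (by positivity)
            exact pow_le_pow_left₀ (by positivity) hi1 2
        _ = _ := by
            rw [← Real.rpow_natCast, ← Real.rpow_mul hw0.le, ← Real.rpow_sub hw0]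
            congr 1; push_cast; ring)
  rcases hfin with hfin | ⟨k, hk, halt⟩
  · left
    have hKi : (K i : ℝ) ≤ KK := by
      have : K i ≤ KK := Finset.single_le_sum (f := K) (fun _ _ => Nat.zero_le _)
        (Finset.mem_range.mpr (by omega))
      exact_mod_cast this
    have hMi : M i ≤ MM := Finset.single_le_sum (f := M) (fun _ _ => Nat.zero_le _)
        (Finset.mem_range.mpr (by omega))
    have hwle : w ≤ KK * (H : ℝ) ^ MM := by
      calc w ≤ K i * (H : ℝ) ^ M i := hfin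
        _ ≤ KK * (H : ℝ) ^ MM :=
          mul_le_mul hKi (pow_le_pow_right₀ hHR hMi) (by positivity) (by positivity)
    calc (x : ℝ) = w ^ 2 := hw2.symm
      _ ≤ (KK * (H : ℝ) ^ MM) ^ 2 := pow_le_pow_left₀ hw0.le hwle 2
      _ = (KK : ℝ) ^ 2 * (H : ℝ) ^ (2 * MM) := by rw [mul_pow, ← pow_mul]; ring_nf
      _ ≤ ((KK ^ 2 + 1 : ℕ) : ℝ) * (H : ℝ) ^ (2 * MM) := by
          apply mul_le_mul_of_nonneg_right _ (by positivity)
          push_cast
          linarith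
  · right
    refine ⟨k, ?_, halt.signs⟩
    have h1 : (k : ℝ) < (⌊2 * κ⌋₊ : ℝ) + 1 := by
      have : ((i : ℝ) + 1) * η = i * η + η := by ring
      linarith
    have h2 : k < ⌊2 * κ⌋₊ + 1 := by exact_mod_cast h1
    have h3 : k ≤ ⌊2 * κ⌋₊ := by omega
    have h4 : (k : ℝ) ≤ (⌊2 * κ⌋₊ : ℝ) := by exact_mod_cast h3
    exact h4.trans (Nat.floor_le (by positivity))

end Pool.Agent.W273.Z
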