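import Pool.Agent.W273.Z.Disc

/-!
The function field of a hyperelliptic curve `y² = F(x)` of odd degree, the embedding into Hahn series at
the place at infinity, and the order of elements.
-/

set_option autoImplicit false

namespace Pool.Agent.W273.Z

open Polynomial Finset

/-- target field: Hahn series in `s` with real exponents -/
abbrev LL := HahnSeries ℝ ℚ

noncomputable def xL : LL := HahnSeries.single (-2 : ℝ) (1 : ℚ)
noncomputable def wL : LL := HahnSeries.single (-1 : ℝ) (1 : ℚ)

/-- evaluation of rational polynomials at `x = s⁻²` -/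
noncomputable def evP : ℚ[X] →+* LL := eval₂RingHom (HahnSeries.C : ℚ →+* LL) xL

lemma wL_sq : wL ^ 2 = xL := by
  unfold wL xL
  rw [HahnSeries.single_pow]
  norm_num

lemma coeff_evP_add (p : ℚ[X]) (e : ℝ) :
    (evP p).coeff e = ∑ i ∈ p.support, if e = -2 * (i : ℝ) then p.coeff i else 0 := by
  unfold evP
  rw [coe_eval₂RingHom, eval₂_eq_sum, Polynomial.sum, HahnSeries.coeff_sum]
  apply Finset.sum_congr rfl
  intro i _
  have h1 : HahnSeries.C (p.coeff i) * xL ^ i = (HahnSeries.single (-2 * (i : ℝ)) (p.coeff i) : LL) := by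
    unfold xL
    rw [HahnSeries.single_pow, one_pow, HahnSeries.C_apply, HahnSeries.single_mul_single, mul_one,
      zero_add, nsmul_eq_mul, mul_comm]
  rw [h1, HahnSeries.coeff_single]

lemma evP_coeff_lead (p : ℚ[X]) : (evP p).coeff (-2 * (p.natDegree : ℝ)) = p.leadingCoeff := by
  rw [coeff_evP_add]
  by_cases hp : p = 0
  · simp [hp]
  rw [Finset.sum_eq_single p.natDegree]
  · rw [if_pos rfl]; rfl
  · intro b _ hb
    rw [if_neg]
    intro h
    apply hb
    have : (b : ℝ) = p.natDegree := by linarith
    exact_mod_cast this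
  · intro h
    rw [if_pos rfl]
    exact Polynomial.notMem_support_iff.mp h

lemma evP_ne_zero {p : ℚ[X]} (hp : p ≠ 0) : evP p ≠ 0 := by
  intro h
  have h1 := evP_coeff_lead p
  rw [h, HahnSeries.coeff_zero] at h1
  exact hp (leadingCoeff_eq_zero.mp h1.symm)

lemma evP_injective : Function.Injective evP := by
  rw [injective_iff_map_eq_zero]
  intro p hp
  by_contra h
  exact evP_ne_zero h hp

lemma order_evP {p : ℚ[X]} (hp : p ≠ 0) : (evP p).order = -2 * (p.natDegree : ℝ) := by
  apply le_antisymm
  · apply HahnSeries.order_le_of_coeff_ne_zero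
    rw [evP_coeff_lead]
    exact leadingCoeff_ne_zero.mpr hp
  · rw [HahnSeries.le_order_iff_forall (evP_ne_zero hp)]
    intro e he
    rw [coeff_evP_add]
    apply Finset.sum_eq_zero
    intro i hi
    rw [if_neg]
    intro h
    have h1 : i ≤ p.natDegree := Polynomial.le_natDegree_of_mem_supp _ hi
    have h2 : (i : ℝ) ≤ p.natDegree := by exact_mod_cast h1
    linarith

/-- rational functions -/
noncomputable def ratL : RatFunc ℚ →+* LL := IsFractionRing.lift (A := ℚ[X]) evP_injective

lemma ratL_algebraMap (p : ℚ[X]) : ratL (algebraMap ℚ[X] (RatFunc ℚ) p) = evP p :=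
  IsFractionRing.lift_algebraMap evP_injective p

lemma order_ratL {r : RatFunc ℚ} (hr : r ≠ 0) : (ratL r).order = -2 * (r.intDegree : ℝ) := by
  have h1 := RatFunc.num_div_denom r
  have hn : r.num ≠ 0 := RatFunc.num_ne_zero hr
  have hd : r.denom ≠ 0 := RatFunc.denom_ne_zero r
  have hr' : ratL r ≠ 0 := (map_ne_zero ratL).mpr hr
  have h2 : ratL r * evP r.denom = evP r.num := by
    rw [← ratL_algebraMap, ← ratL_algebraMap, ← map_mul]
    congr 1
    have hd' : algebraMap ℚ[X] (RatFunc ℚ) r.denom ≠ 0 :=
      (map_ne_zero_iff _ (IsFractionRing.injective ℚ[X] (RatFunc ℚ))).mpr hd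
    exact ((div_eq_iff hd').mp h1).symm
  have h3 := congrArg HahnSeries.order h2
  rw [HahnSeries.order_mul hr' (evP_ne_zero hd), order_evP hn, order_evP hd] at h3
  unfold RatFunc.intDegree
  push_cast
  linarith

open Classical in
/-- the valuation on Hahn series -/
noncomputable def vL : Valuation LL NNReal where
  toFun x := if x = 0 then 0 else Real.toNNReal (Real.exp (-x.order))
  map_zero' := by rw [if_pos rfl]
  map_one' := by
    rw [if_neg one_ne_zero, HahnSeries.order_one]
    simp
  map_mul' x y := by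
    by_cases hx : x = 0
    · simp [hx]
    by_cases hy : y = 0
    · simp [hy]
    rw [if_neg hx, if_neg hy, if_neg (mul_ne_zero hx hy), HahnSeries.order_mul hx hy,
      ← Real.toNNReal_mul (Real.exp_pos _).le, ← Real.exp_add]
    congr 2; ring
  map_add_le_max' x y := by
    by_cases hx : x = 0
    · simp [hx]
    by_cases hy : y = 0
    · simp [hy]
    by_cases hxy : x + y = 0
    · rw [if_pos hxy]; exact zero_le
    rw [if_neg hx, if_neg hy, if_neg hxy]
    have h1 := HahnSeries.min_order_le_order_add hxy
    rcases min_le_iff.mp h1 with h | h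
    · apply le_max_of_le_left
      apply Real.toNNReal_le_toNNReal
      apply Real.exp_le_exp.mpr
      linarith
    · apply le_max_of_le_right
      apply Real.toNNReal_le_toNNReal
      apply Real.exp_le_exp.mpr
      linarith

lemma vL_apply {x : LL} (hx : x ≠ 0) : vL x = Real.toNNReal (Real.exp (-x.order)) := if_neg hx

lemma vL_le_one {x : LL} (hx : x ≠ 0) : vL x ≤ 1 ↔ 0 ≤ x.order := by
  rw [vL_apply hx, ← Real.toNNReal_one, Real.toNNReal_le_toNNReal_iff zero_le_one, Real.exp_le_one_iff]
  constructor <;> intro h <;> linarith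

lemma vL_eq_one {x : LL} (hx : x ≠ 0) : vL x = 1 ↔ x.order = 0 := by
  rw [vL_apply hx, ← Real.toNNReal_one, Real.toNNReal_eq_toNNReal_iff (Real.exp_pos _).le zero_le_one,
    Real.exp_eq_one_iff]
  constructor <;> intro h <;> linarith

lemma ne_zero_of_vL_eq_one {x : LL} (h : vL x = 1) : x ≠ 0 := by
  rintro rfl
  rw [map_zero] at h
  exact zero_ne_one h

end Pool.Agent.W273.Z
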