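import Pool.Agent.W273.Z.Norm

/-!
The structure theorem for general polynomials of odd degree.
-/

set_option autoImplicit false

namespace Pool.Agent.W273.Z

open Polynomial Finset

/-- the approximation `a / b` of `√(n x + e)` is the value of an exceptional function of level `k` -/
def AltL (f : ℤ[X]) (n e : ℤ) (k : ℕ) (x y a b : ℤ) : Prop :=
  ∃ m Q : ℤ[X], ∃ c : ℤ, c ≠ 0 ∧ m ≠ 0 ∧ m.natDegree = k ∧
    Q * Q * f = m * (m * (C n * X + C e) - C c) ∧ m.eval x ≠ 0 ∧ a * m.eval x = b * (Q.eval x * y)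

lemma alt_of (f : ℤ[X]) (n e h : ℤ) (g : ℕ) (hg : f.natDegree = 2 * g + 1) (hh : h ≠ 0)
    (hn : n * f.leadingCoeff = h ^ 2) (hn0 : n ≠ 0) (k : ℕ) (x y a b : ℤ)
    (halt : Alt (fh f n e) k ((lam f n e).eval x) (n ^ f.natDegree * f.leadingCoeff ^ g * y) (h * a) b) :
    AltL f n e k x y a b := by
  have hf0 : f ≠ 0 := by rintro rfl; simp at hg
  have hlc : f.leadingCoeff ≠ 0 := leadingCoeff_ne_zero.mpr hf0
  obtain ⟨m, Q, c, hc, hm, hk, hid, hx, he⟩ := halt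
  have hlamd : (lam f n e).natDegree = 1 := by
    unfold lam
    exact natDegree_linear (mul_ne_zero (pow_ne_zero _ hn0) hlc)
  have hlam : lam f n e = C (h ^ 2) * (C n * X + C e) := by
    unfold lam
    rw [← hn]
    simp only [C_mul, C_pow]
    ring
  have hmc : m.comp (lam f n e) ≠ 0 := by
    intro h0
    rw [comp_eq_zero_iff] at h0
    rcases h0 with h0 | ⟨_, h0⟩
    · exact hm h0
    · rw [h0, natDegree_C] at hlamd
      omega
  have hh2 : h ^ 2 ≠ 0 := pow_ne_zero _ hh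
  have hC : (C (h ^ 2) : ℤ[X]) ≠ 0 := by rwa [ne_eq, C_eq_zero]
  refine ⟨C (h ^ 2) * m.comp (lam f n e), C (h * (n ^ f.natDegree * f.leadingCoeff ^ g)) * Q.comp (lam f n e), c,
    hc, mul_ne_zero hC hmc, ?_, ?_, ?_, ?_⟩
  · rw [natDegree_C_mul hh2, natDegree_comp, hlamd, mul_one, hk]
  · have h1 := congrArg (fun P => P.comp (lam f n e)) hid
    simp only [mul_comp, sub_comp, X_comp, C_comp] at h1
    rw [fh_comp f n e (by omega)] at h1
    have h2 : (n ^ 2) ^ f.natDegree * f.leadingCoeff ^ (f.natDegree - 1) =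
        (n ^ f.natDegree * f.leadingCoeff ^ g) * (n ^ f.natDegree * f.leadingCoeff ^ g) := by
      have h3 : f.natDegree - 1 = g + g := by omega
      rw [h3, pow_add, ← pow_mul, mul_comm 2 f.natDegree, pow_mul]
      ring
    rw [h2] at h1
    rw [hlam] at h1 ⊢
    simp only [C_mul] at h1 ⊢
    have hCh : (C (h ^ 2) : ℤ[X]) = C h * C h := by rw [← C_mul, pow_two]
    rw [hCh] at h1 ⊢
    linear_combination (C h * C h : ℤ[X]) * h1
  · rw [eval_mul, eval_C, eval_comp]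
    exact mul_ne_zero hh2 hx
  · rw [eval_mul, eval_C, eval_comp, eval_mul, eval_C, eval_comp]
    linear_combination h * he

/-- **structure theorem**, general form -/
theorem gen (d : ℕ) (hd : Odd d) (hd3 : 3 ≤ d) (κ ε : ℝ) (hκ : 0 ≤ κ) (hε : 0 < ε) :
    ∃ K M : ℕ, 1 ≤ K ∧ ∀ f : ℤ[X], f.natDegree = d → Squarefree (f.map (Int.castRingHom ℚ)) →
      ∀ H : ℕ, 1 ≤ H → (∀ i, |f.coeff i| ≤ H) → ∀ n e h : ℤ, h ≠ 0 → n * f.leadingCoeff = h ^ 2 →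
      |n| ≤ H → |e| ≤ H → ∀ x y : ℤ, y ^ 2 = f.eval x → ∀ a b : ℤ, 1 ≤ b → (b : ℝ) ≤ |(x : ℝ)| ^ κ →
      |(b : ℝ) ^ 2 * (n * x + e) - (a : ℝ) ^ 2| ≤ |(x : ℝ)| ^ (1 / 2 - ε) →
      |(x : ℝ)| ≤ K * (H : ℝ) ^ M ∨ ∃ k : ℕ, (k : ℝ) ≤ 2 * κ ∧ AltL f n e k x y a b := by
  obtain ⟨g, hg⟩ := hd
  -- the exponents
  obtain ⟨ε', hε'⟩ : ∃ ε' : ℝ, ε' = min ε (1 / 2) / 2 := ⟨_, rfl⟩
  have hm0 : 0 < min ε (1 / 2) := lt_min hε (by norm_num)
  have hε'0 : 0 < ε' := by rw [hε']; positivity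
  have hε'1 : 2 * ε' ≤ ε := by
    rw [hε']
    have := min_le_left ε (1 / 2)
    linarith
  have hε'2 : 2 * ε' ≤ 1 / 2 := by
    rw [hε']
    have := min_le_right ε (1 / 2)
    linarith
  have hfl : 2 * κ < (⌊2 * κ⌋₊ : ℝ) + 1 := Nat.lt_floor_add_one _
  obtain ⟨η, hη⟩ : ∃ η : ℝ, η = ((⌊2 * κ⌋₊ : ℝ) + 1 - 2 * κ) / 4 := ⟨_, rfl⟩
  have hη0 : 0 < η := by rw [hη]; linarith
  obtain ⟨K1, M1, hK1, hKM1⟩ := assemble2 d (by omega) (κ + η) ε' (by linarith) hε'0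
  obtain ⟨n1, hn1⟩ : ∃ n1 : ℕ, n1 = ⌈1 / ε'⌉₊ := ⟨_, rfl⟩
  have hn1ε : 1 ≤ n1 * ε' := by
    have h1 : 1 / ε' ≤ n1 := by rw [hn1]; exact Nat.le_ceil _
    calc (1 : ℝ) = 1 / ε' * ε' := by field_simp
      _ ≤ _ := mul_le_mul_of_nonneg_right h1 hε'0.le
  obtain ⟨C0, hC0⟩ : ∃ C0 : ℝ, C0 = ((2 : ℝ) ^ κ) ^ (1 / η) := ⟨_, rfl⟩
  have hC00 : 0 < C0 := by rw [hC0]; positivity
  let F : ℕ → ℝ := fun H => 2 * (H : ℝ) ^ 3 + (2 * C0 + (2 * (2 * (H : ℝ) ^ 2) ^ n1 +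
    2 * (K1 * (((d : ℝ) + 1) * 2 ^ d * (H : ℝ) ^ (6 * d)) ^ M1)))
  have pbH : PB (fun H => (H : ℝ)) := PB.id
  have pbHe : ∀ e : ℕ, PB (fun H => (H : ℝ) ^ e) := fun e => pbH.pow (fun H => by positivity) e
  have pbF : PB F := by
    refine ((PB.const _).mul (pbHe 3) (fun H => by positivity)).add ?_
    refine (PB.const _).add ?_
    refine PB.add ?_ ?_
    · refine (PB.const _).mul ?_ (fun H => by positivity)
      refine PB.pow ?_ (fun H => by positivity) n1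
      exact (PB.const _).mul (pbHe 2) (fun H => by positivity)
    · refine (PB.const _).mul ?_ (fun H => by positivity)
      refine (PB.const _).mul ?_ (fun H => by positivity)
      refine PB.pow ?_ (fun H => by positivity) M1
      exact (PB.const _).mul (pbHe _) (fun H => by positivity)
  obtain ⟨K, M, hKM⟩ := pbF
  refine ⟨K + 1, M, by omega, ?_⟩
  intro f hfd hsq H hH hcoef n e h hh hn hnH heH x y hy a b hb hbx hab
  have hHR : (1 : ℝ) ≤ H := by exact_mod_cast hH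
  have hF := hKM H hH
  simp only [F] at hF
  have hp1 : 0 < 2 * (H : ℝ) ^ 3 := by positivity
  have hp2 : 0 ≤ 2 * (2 * (H : ℝ) ^ 2) ^ n1 := by positivity
  have hp3 : 0 ≤ 2 * (K1 * (((d : ℝ) + 1) * 2 ^ d * (H : ℝ) ^ (6 * d)) ^ M1) := by positivity
  rcases le_or_gt |(x : ℝ)| (K * (H : ℝ) ^ M) with hle | hgt
  · left
    have : (0 : ℝ) ≤ (H : ℝ) ^ M := by positivity
    push_cast
    linarith
  have hf0 : f ≠ 0 := by rintro rfl; simp at hfd; omega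
  have hlc : f.leadingCoeff ≠ 0 := leadingCoeff_ne_zero.mpr hf0
  have hlcH : |f.leadingCoeff| ≤ H := hcoef _
  have hn0 : n ≠ 0 := by
    rintro rfl
    rw [zero_mul] at hn
    exact pow_ne_zero 2 hh hn.symm
  obtain ⟨X', hX'⟩ : ∃ X' : ℤ, X' = (lam f n e).eval x := ⟨_, rfl⟩
  have hX'2 : X' = n ^ 2 * f.leadingCoeff * x + n * f.leadingCoeff * e := by
    rw [hX']; unfold lam; simp
  have hX'3 : X' = h ^ 2 * (n * x + e) := by
    rw [hX'2, ← hn]; ring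
  have hs : |n * f.leadingCoeff * e| ≤ (H : ℤ) ^ 3 := by
    rw [abs_mul, abs_mul]
    calc _ ≤ ((H : ℤ) * H) * H :=
          mul_le_mul (mul_le_mul hnH hlcH (abs_nonneg _) (by positivity)) heH (abs_nonneg _) (by positivity)
      _ = _ := by ring
  have hXlow : |(x : ℝ)| ≤ 2 * |(X' : ℝ)| := by
    have h1 : 1 ≤ |n ^ 2 * f.leadingCoeff| :=
      Int.one_le_abs (mul_ne_zero (pow_ne_zero 2 hn0) hlc)
    have h2 : |x| ≤ |X'| + (H : ℤ) ^ 3 := by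
      have h3 : |n ^ 2 * f.leadingCoeff * x| ≤ |X'| + |n * f.leadingCoeff * e| := by
        have : n ^ 2 * f.leadingCoeff * x = X' - n * f.leadingCoeff * e := by rw [hX'2]; ring
        rw [this]; exact abs_sub _ _
      rw [abs_mul] at h3
      have h4 : |x| ≤ |n ^ 2 * f.leadingCoeff| * |x| := le_mul_of_one_le_left (abs_nonneg _) h1
      linarith
    have h3 : |(x : ℝ)| ≤ |(X' : ℝ)| + (H : ℝ) ^ 3 := by exact_mod_cast h2
    linarith
  have hx1 : 1 ≤ |(x : ℝ)| := by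
    have : (1 : ℝ) ≤ (H : ℝ) ^ 3 := one_le_pow₀ hHR
    linarith
  have hx0 : 0 < |(x : ℝ)| := by linarith
  have hX0 : 0 < |(X' : ℝ)| := by linarith
  -- the point on the monic model
  let p : Par := fhPar f n e (by rw [hfd]; exact ⟨g, hg⟩) (by omega) hn0 hsq
  have hpd : p.d = d := by
    change (fh f n e).natDegree = d
    rw [fh_natDegree, hfd]
  have hH' : 1 ≤ (d + 1) * 2 ^ d * H ^ (6 * d) := by
    have : 0 < (d + 1) * 2 ^ d * H ^ (6 * d) := by positivity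
    exact this
  have hpt : (n ^ f.natDegree * f.leadingCoeff ^ g * y) ^ 2 = p.f.eval X' := by
    change _ = (fh f n e).eval X'
    rw [hX', ← eval_comp, fh_comp f n e (by omega), eval_mul, eval_C, ← hy]
    have h3 : f.natDegree - 1 = g + g := by omega
    rw [h3]
    ring
  have hc1 : (b : ℝ) ≤ |(X' : ℝ)| ^ (κ + η) := by
    have h1 : (b : ℝ) ≤ (2 * |(X' : ℝ)|) ^ κ := hbx.trans (Real.rpow_le_rpow hx0.le hXlow hκ)
    have h2 : (2 : ℝ) ^ κ ≤ |(X' : ℝ)| ^ η := by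
      have h3 : C0 ≤ |(X' : ℝ)| := by linarith
      have h4 : C0 ^ η = (2 : ℝ) ^ κ := by
        rw [hC0, ← Real.rpow_mul (by positivity)]
        rw [one_div_mul_cancel hη0.ne', Real.rpow_one]
      rw [← h4]
      exact Real.rpow_le_rpow hC00.le h3 hη0.le
    rw [Real.mul_rpow (by norm_num) hX0.le] at h1
    rw [Real.rpow_add hX0, mul_comm (|(X' : ℝ)| ^ κ)]
    exact h1.trans (mul_le_mul_of_nonneg_right h2 (by positivity))
  have hc2 : |(b : ℝ) ^ 2 * X' - ((h * a : ℤ) : ℝ) ^ 2| ≤ |(X' : ℝ)| ^ (1 / 2 - ε') := by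
    have h1 : (b : ℝ) ^ 2 * X' - ((h * a : ℤ) : ℝ) ^ 2 =
        (h : ℝ) ^ 2 * ((b : ℝ) ^ 2 * (n * x + e) - (a : ℝ) ^ 2) := by
      rw [hX'3]; push_cast; ring
    have h2 : (h : ℝ) ^ 2 ≤ (H : ℝ) ^ 2 := by
      have h3 : h ^ 2 ≤ (H : ℤ) ^ 2 := by
        rw [← hn]
        calc n * f.leadingCoeff ≤ |n * f.leadingCoeff| := le_abs_self _
          _ = |n| * |f.leadingCoeff| := abs_mul _ _
          _ ≤ H * H := mul_le_mul hnH hlcH (abs_nonneg _) (by positivity)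
          _ = _ := by ring
      exact_mod_cast h3
    have h3 : |(x : ℝ)| ^ (1 / 2 - ε) ≤ (2 * |(X' : ℝ)|) ^ (1 / 2 - 2 * ε') := by
      calc |(x : ℝ)| ^ (1 / 2 - ε) ≤ |(x : ℝ)| ^ (1 / 2 - 2 * ε') :=
            Real.rpow_le_rpow_of_exponent_le hx1 (by linarith)
        _ ≤ _ := Real.rpow_le_rpow hx0.le hXlow (by linarith)
    have h4 : (2 * |(X' : ℝ)|) ^ (1 / 2 - 2 * ε') ≤ 2 * |(X' : ℝ)| ^ (1 / 2 - 2 * ε') := by
      rw [Real.mul_rpow (by norm_num) hX0.le]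
      apply mul_le_mul_of_nonneg_right _ (by positivity)
      calc (2 : ℝ) ^ (1 / 2 - 2 * ε') ≤ 2 ^ (1 : ℝ) :=
            Real.rpow_le_rpow_of_exponent_le (by norm_num) (by linarith)
        _ = 2 := Real.rpow_one 2
    have h5 : 2 * (H : ℝ) ^ 2 ≤ |(X' : ℝ)| ^ ε' := by
      have h6 : (2 * (H : ℝ) ^ 2) ^ n1 ≤ |(X' : ℝ)| := by linarith
      have hbase : (1 : ℝ) ≤ 2 * (H : ℝ) ^ 2 := by
        have : (1 : ℝ) ≤ (H : ℝ) ^ 2 := one_le_pow₀ hHR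
        linarith
      calc 2 * (H : ℝ) ^ 2 = (2 * (H : ℝ) ^ 2) ^ (1 : ℝ) := (Real.rpow_one _).symm
        _ ≤ (2 * (H : ℝ) ^ 2) ^ (n1 * ε') := Real.rpow_le_rpow_of_exponent_le hbase hn1ε
        _ = ((2 * (H : ℝ) ^ 2) ^ n1) ^ ε' := by
            rw [Real.rpow_mul (by positivity), Real.rpow_natCast]
        _ ≤ _ := Real.rpow_le_rpow (by positivity) h6 hε'0.le
    rw [h1, abs_mul, abs_of_nonneg (by positivity : (0 : ℝ) ≤ (h : ℝ) ^ 2)]
    calc (h : ℝ) ^ 2 * |(b : ℝ) ^ 2 * (n * x + e) - (a : ℝ) ^ 2|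
        ≤ (H : ℝ) ^ 2 * (2 * |(X' : ℝ)| ^ (1 / 2 - 2 * ε')) :=
          mul_le_mul h2 (hab.trans (h3.trans h4)) (abs_nonneg _) (by positivity)
      _ = 2 * (H : ℝ) ^ 2 * |(X' : ℝ)| ^ (1 / 2 - 2 * ε') := by ring
      _ ≤ |(X' : ℝ)| ^ ε' * |(X' : ℝ)| ^ (1 / 2 - 2 * ε') :=
          mul_le_mul_of_nonneg_right h5 (by positivity)
      _ = _ := by
          rw [← Real.rpow_add hX0]
          congr 1; ring
  rcases hKM1 p hpd ((d + 1) * 2 ^ d * H ^ (6 * d)) hH' (fun i => by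
      have := fh_coeff f n e (by omega) H hH hcoef hnH heH i
      rw [hfd] at this
      exact this) X' _ hpt (h * a) b hb hc1 hc2 with hfin | ⟨k, hk, halt⟩
  · exfalso
    push_cast at hfin
    linarith
  · right
    refine ⟨k, ?_, alt_of f n e h g (by omega) hh hn hn0 k x y a b (by rw [← hX']; exact halt)⟩
    have h1 : (k : ℝ) < (⌊2 * κ⌋₊ : ℝ) + 1 := by
      have : 2 * (κ + η) = 2 * κ + ((⌊2 * κ⌋₊ : ℝ) + 1 - 2 * κ) / 2 := by rw [hη]; ring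
      linarith
    have h2 : k < ⌊2 * κ⌋₊ + 1 := by exact_mod_cast h1
    have h3 : k ≤ ⌊2 * κ⌋₊ := by omega
    have h4 : (k : ℝ) ≤ (⌊2 * κ⌋₊ : ℝ) := by exact_mod_cast h3
    exact h4.trans (Nat.floor_le (by positivity))

end Pool.Agent.W273.Z
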