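import Pool.Agent.W273.Z.Vanish

/-!
The main theorem for one pair of exponents.
-/

set_option autoImplicit false

namespace Pool.Agent.W273.Z

open Polynomial Finset

lemma A_bd (d n N : ℕ) (W v0 : ℝ) (Emax : ℕ) (hEmax : ∀ j ≤ n, En d n N W v0 j ≤ Emax) :
    ∃ C e : ℕ, 1 ≤ C ∧ ∀ p : Par, (hpd : p.d = d) → ∀ H : ℕ, 1 ≤ H → (∀ i, |p.f.coeff i| ≤ H) →
      ∀ c q, |p.A n N W v0 c q| ≤ ((C * H ^ e : ℕ) : ℤ) := by
  obtain ⟨C, e, hC1, hC⟩ := yy_bd Emax
  refine ⟨2 ^ n * (4 ^ Emax * C), e, ?_, ?_⟩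
  · have : 0 < 2 ^ n * (4 ^ Emax * C) := by positivity
    exact this
  intro p hpd H hH hcoef c q
  subst hpd
  have hyy := hC p.gc H hH (p.gc_bd H hcoef)
  have hHe : (1 : ℤ) ≤ (H : ℤ) ^ e := one_le_pow₀ (by exact_mod_cast hH)
  have hCH : (1 : ℤ) ≤ C * (H : ℤ) ^ e := by
    have : (1 : ℤ) ≤ C := by exact_mod_cast hC1
    nlinarith
  have hcE : c.2.1 < Emax := lt_of_lt_of_le c.2.2 (hEmax c.1.1 (by have := c.1.2; omega))
  have h4 : ∀ a : ℕ, a ≤ Emax → (4 : ℤ) ^ a ≤ 4 ^ Emax := fun a ha => pow_le_pow_right₀ (by norm_num) ha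
  have hac : |p.ac (p.io n N q) q.2.1 c.2.1| ≤ 4 ^ Emax * (C * (H : ℤ) ^ e) := by
    unfold Par.ac
    split_ifs with h1 h2 h2
    · rw [abs_of_nonneg (by positivity)]
      calc (4 : ℤ) ^ c.2.1 = 4 ^ c.2.1 * 1 := (mul_one _).symm
        _ ≤ _ := mul_le_mul (h4 _ hcE.le) hCH (by norm_num) (by positivity)
    · rw [abs_zero]; positivity
    · rw [abs_mul, abs_of_nonneg (by positivity : (0 : ℤ) ≤ 4 ^ q.2.1)]
      exact mul_le_mul (h4 _ (by omega)) (hyy _ (by omega)) (abs_nonneg _) (by positivity)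
    · rw [abs_zero]; positivity
  unfold Par.A
  rw [abs_mul, abs_of_nonneg (by positivity)]
  have hch : ((q.1.1.choose c.1.1 : ℕ) : ℤ) ≤ 2 ^ n := by
    have : q.1.1.choose c.1.1 ≤ 2 ^ n := by
      calc q.1.1.choose c.1.1 ≤ 2 ^ q.1.1 := Nat.choose_le_two_pow _ _
        _ ≤ 2 ^ n := Nat.pow_le_pow_right (by norm_num) (by have := q.1.2; omega)
    exact_mod_cast this
  calc _ ≤ (2 ^ n : ℤ) * (4 ^ Emax * (C * (H : ℤ) ^ e)) :=
        mul_le_mul hch hac (abs_nonneg _) (by positivity)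
    _ = _ := by push_cast; ring

lemma l1_f_le (p : Par) (H : ℕ) (hcoef : ∀ i, |p.f.coeff i| ≤ H) : l1 p.f ≤ (p.d + 1) * H := by
  rw [l1_eq_of_subset p.f (range (p.f.natDegree + 1)) p.f.supp_subset_range_natDegree_succ]
  calc _ ≤ ∑ i ∈ range (p.f.natDegree + 1), (H : ℤ) := Finset.sum_le_sum fun i _ => hcoef i
    _ = _ := by rw [Finset.sum_const, Finset.card_range, nsmul_eq_mul]; unfold Par.d; push_cast; ring

/-- choice of the degree -/
lemma numeric (d n c : ℕ) (θ : ℝ) (hθ : 0 < θ) (hc : 1 ≤ c) (hθ1 : θ ≤ c)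
    (hn : 2 * c * (2 * d + 2 * c + 6) / θ ^ 2 ≤ n) :
    (n + 2 - θ / (2 * c) * n) * (θ * n + 1) < (n + 1) * (θ * n - d) ∧ (d : ℝ) ≤ θ * n ∧
      1 ≤ θ * n / 2 := by
  have hcR : (1 : ℝ) ≤ c := by exact_mod_cast hc
  have hθ2 : 0 < θ ^ 2 := by positivity
  have h1 : 2 * (c : ℝ) * (2 * (d : ℝ) + 2 * c + 6) ≤ n * θ ^ 2 := (div_le_iff₀ hθ2).mp hn
  have hd : (0 : ℝ) ≤ d := by positivity
  have hn0 : (0 : ℝ) ≤ n := by positivity
  have hn1 : (1 : ℝ) ≤ n := by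
    have h0 : (0 : ℝ) < n * θ ^ 2 := lt_of_lt_of_le (by positivity) h1
    have : 0 < (n : ℝ) := pos_of_mul_pos_left h0 hθ2.le
    exact_mod_cast this
  have h2 : 2 * (2 * (d : ℝ) + 2 * c + 6) ≤ θ * n := by
    have h3 : n * θ ^ 2 ≤ c * (θ * n) := by
      have : (n : ℝ) * θ ^ 2 = θ * (θ * n) := by ring
      rw [this]
      exact mul_le_mul_of_nonneg_right hθ1 (by positivity)
    have h4 : (c : ℝ) * (2 * (2 * (d : ℝ) + 2 * c + 6)) ≤ c * (θ * n) := by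
      calc _ = 2 * (c : ℝ) * (2 * (d : ℝ) + 2 * c + 6) := by ring
        _ ≤ _ := h1.trans h3
    exact le_of_mul_le_mul_left h4 (by linarith)
  refine ⟨?_, by linarith, by linarith⟩
  have h3 : (2 * (d : ℝ) + 2 * c + 6) * n ≤ θ ^ 2 / (2 * c) * n * n := by
    apply mul_le_mul_of_nonneg_right _ hn0
    rw [div_mul_eq_mul_div, le_div_iff₀ (by positivity)]
    calc _ = 2 * (c : ℝ) * (2 * (d : ℝ) + 2 * c + 6) := by ring
      _ ≤ _ := by rw [mul_comm (θ ^ 2)]; exact h1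
  have h4 : θ * n ≤ c * n := mul_le_mul_of_nonneg_right hθ1 hn0
  have h5 : 0 ≤ θ / (2 * c) * n := by positivity
  have h6 : (d : ℝ) * 1 ≤ d * n := mul_le_mul_of_nonneg_left hn1 hd
  have h7 : (c : ℝ) * 1 ≤ c * n := mul_le_mul_of_nonneg_left hn1 (by positivity)
  have h8 : (n + 1) * (θ * n - d) - (n + 2 - θ / (2 * c) * n) * (θ * n + 1) =
      θ ^ 2 / (2 * c) * n * n - (d + 1) * n - θ * n + θ / (2 * c) * n - (d + 2) := by
    field_simp
    ring
  have h9 : 0 < θ ^ 2 / (2 * c) * n * n - (d + 1) * n - θ * n + θ / (2 * c) * n - (d + 2) := by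
    have : (2 * (d : ℝ) + 2 * c + 6) * n = 2 * (d * n) + 2 * (c * n) + 6 * n := by ring
    have : ((d : ℝ) + 1) * n = d * n + n := by ring
    linarith
  linarith

/-- the specialised matrix has small rank -/
lemma rank_small (p : Par) (n N : ℕ) (W v0 β : ℝ) {k : ℕ} (t : Fin k → Bx n N → ℤ) (T B : ℝ)
    (hT0 : 0 ≤ T) (hT : ∀ i q, |(t i q : ℝ)| ≤ T) (hB : 1 ≤ B) (Emax : ℕ)
    (hker : ∀ i, ∀ j ≤ n, ∀ e < En p.d n N W v0 j,
      PowerSeries.coeff e (p.Cs n N (fun q => (t i q : ℚ)) j) = 0)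
    (hE : ∀ j ≤ n, En p.d n N W v0 j ≤ Emax)
    (x y : ℤ) (hy : y ^ 2 = p.f.eval x) (w : ℝ) (hw1 : 1 ≤ w) (hwx : w ^ 2 = x)
    (happ : ∀ M ≤ Emax, |(y : ℝ) / w ^ p.d - ∑ m ∈ range M, (Yc p.gc m : ℝ) * w⁻¹ ^ m| ≤ B * w⁻¹ ^ M)
    (a b : ℤ) (hb : 1 ≤ b) (hbw : (b : ℝ) ≤ w ^ β) (hab : |w - a / b| ≤ w ^ (-W)) (m0 : ℕ)
    (hm0n : m0 ≤ n) (hexp : ∀ j : ℕ, j < m0 → 1 ≤ v0 - β * n - j * (W - β))
    (hw3 : (n + 1) * 2 ^ n * ((n + 1) * (N + n + 1) * 2 ^ n * T * B) < w) :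
    (p.MR n N t x y hy).rank ≤ n + 1 - m0 := by
  have hw : 0 < w := by linarith
  apply rank_le_of_vanish k n m0 ((a : ℝ) / b)
  intro i j hj
  have hc := fun j hj => p.c_bound n N W v0 (t i) T B (hT i) hB Emax (hker i) hE x y hy w hw1 hwx happ j hj
  apply vanish n W v0 β (((n : ℝ) + 1) * (N + n + 1) * 2 ^ n * T * B)
    (fun l => p.sp x y hy (p.cf n N (t i) l)) w hw1 (by positivity) hc a b hb hbw hab j (by omega)
  -- smallness
  have h1 : w ^ (-(v0 - β * n - j * (W - β))) ≤ w⁻¹ := by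
    rw [← Real.rpow_neg_one]
    exact Real.rpow_le_rpow_of_exponent_le hw1 (by have := hexp j hj; linarith)
  calc _ ≤ (n + 1) * 2 ^ n * (((n : ℝ) + 1) * (N + n + 1) * 2 ^ n * T * B) * w⁻¹ :=
        mul_le_mul_of_nonneg_left h1 (by positivity)
    _ < w * w⁻¹ := mul_lt_mul_of_pos_right hw3 (by positivity)
    _ = 1 := mul_inv_cancel₀ hw.ne'

/-- **the main theorem for one pair of exponents** -/
theorem grid (d c : ℕ) (hc1 : 1 ≤ c) (W β : ℝ) (hβ0 : 0 ≤ β) (hβ : β < W / 2) (hW : W ≤ c) :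
    ∃ K M : ℕ, ∀ p : Par, p.d = d → (∀ φ : p.E.K, p.E.G W (X - C φ)) →
      ∀ H : ℕ, 1 ≤ H → (∀ i, |p.f.coeff i| ≤ H) →
      ∀ x y : ℤ, y ^ 2 = p.f.eval x → 0 ≤ y → ∀ w : ℝ, 1 ≤ w → w ^ 2 = x →
      ∀ a b : ℤ, 1 ≤ b → (b : ℝ) ≤ w ^ β → |w - a / b| ≤ w ^ (-W) → w ≤ K * (H : ℝ) ^ M := by
  have hcR : (1 : ℝ) ≤ c := by exact_mod_cast hc1
  obtain ⟨θ, hθdef⟩ : ∃ θ : ℝ, θ = (W / 2 - β) / 2 := ⟨_, rfl⟩
  have hθ : 0 < θ := by rw [hθdef]; linarith
  have hθ1 : θ ≤ c := by rw [hθdef]; linarith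
  have hW0 : 0 ≤ W := by linarith
  -- the degree
  obtain ⟨n, hn⟩ : ∃ n : ℕ, n = ⌈2 * c * (2 * (d : ℝ) + 2 * c + 6) / θ ^ 2⌉₊ := ⟨_, rfl⟩
  obtain ⟨hnum, hnum2, hnum3⟩ := numeric d n c θ hθ hc1 hθ1 (by rw [hn]; exact Nat.le_ceil _)
  have hn0 : (0 : ℝ) ≤ n := by positivity
  obtain ⟨N, hN⟩ : ∃ N : ℕ, N = c * n := ⟨_, rfl⟩
  have hWN : W * n ≤ N := by
    rw [hN]; push_cast
    exact mul_le_mul_of_nonneg_right hW hn0
  obtain ⟨v0, hv0⟩ : ∃ v0 : ℝ, v0 = (β + θ) * n := ⟨_, rfl⟩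
  have hv00 : 0 ≤ v0 := by rw [hv0]; positivity
  obtain ⟨m0, hm0⟩ : ∃ m0 : ℕ, m0 = ⌊θ / (2 * c) * n⌋₊ := ⟨_, rfl⟩
  have hm0le : (m0 : ℝ) ≤ θ / (2 * c) * n := by rw [hm0]; exact Nat.floor_le (by positivity)
  have hm0gt : θ / (2 * c) * n < m0 + 1 := by rw [hm0]; exact Nat.lt_floor_add_one _
  have hθc : θ / (2 * c) ≤ 1 := by
    rw [div_le_one (by positivity)]; linarith
  have hθ4 : θ / (2 * c) * n ≤ n := by
    calc θ / (2 * c) * n ≤ 1 * n := mul_le_mul_of_nonneg_right hθc hn0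
      _ = n := one_mul _
  have hm0n : m0 ≤ n := by
    have : (m0 : ℝ) ≤ n := hm0le.trans hθ4
    exact_mod_cast this
  obtain ⟨t0, ht0⟩ : ∃ t0 : ℕ, t0 = ⌊θ * n⌋₊ + 1 := ⟨_, rfl⟩
  have ht0gt : θ * n < t0 := by rw [ht0]; push_cast; exact Nat.lt_floor_add_one _
  have ht0le : (t0 : ℝ) ≤ θ * n + 1 := by
    rw [ht0]; push_cast
    have : (⌊θ * n⌋₊ : ℝ) ≤ θ * n := Nat.floor_le (by positivity)
    linarith
  obtain ⟨Emax, hEmax⟩ : ∃ Emax : ℕ, Emax = ⌈(N : ℝ) + n + d + v0⌉₊ := ⟨_, rfl⟩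
  have hE : ∀ j ≤ n, En d n N W v0 j ≤ Emax := by
    intro j _
    rw [hEmax]
    apply Nat.ceil_le_ceil
    have : (0 : ℝ) ≤ j := by positivity
    have : (0 : ℝ) ≤ j * W := by positivity
    linarith
  obtain ⟨Ca, ea, hCa1, hCa⟩ := approx Emax (2 * d)
  obtain ⟨Cb, eb, hCb1, hCb⟩ := A_bd d n N W v0 Emax hE
  -- the thresholds
  let F1 : ℕ → ℝ := fun H => Ca * (H : ℝ) ^ ea
  let TF : ℕ → ℝ := fun H => (Fintype.card (Bx n N) * (Cb * (H : ℝ) ^ eb)) ^ (Fintype.card (Bx n N))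
  let F2 : ℕ → ℝ := fun H => ((n + 1).factorial *
    ((N + n + 1) * (TF H * ((d + 1) * (H : ℝ)))) ^ (n + 1)) ^ 2
  let F3 : ℕ → ℝ := fun H => (n + 1) * 2 ^ n * (((n + 1) * (N + n + 1) * 2 ^ n) * (TF H * F1 H))
  have pbH : PB (fun H => (H : ℝ)) := PB.id
  have pbHe : ∀ e : ℕ, PB (fun H => (H : ℝ) ^ e) := fun e => pbH.pow (fun H => by positivity) e
  have pb1 : PB F1 := (PB.const _).mul (pbHe ea) (fun H => by positivity)
  have pbT : PB TF := ((PB.const _).mul ((PB.const _).mul (pbHe eb) (fun H => by positivity))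
    (fun H => by positivity)).pow (fun H => by positivity) _
  have hT0 : ∀ H, 0 ≤ TF H := fun H => by simp only [TF]; positivity
  have pb2 : PB F2 := by
    refine PB.pow ?_ (fun H => by have := hT0 H; positivity) 2
    refine (PB.const _).mul ?_ (fun H => by have := hT0 H; positivity)
    refine PB.pow ?_ (fun H => by have := hT0 H; positivity) _
    refine (PB.const _).mul ?_ (fun H => by have := hT0 H; positivity)
    refine pbT.mul ?_ (fun H => by positivity)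
    exact (PB.const _).mul pbH (fun H => by positivity)
  have pb3 : PB F3 := by
    refine (PB.const _).mul ?_ (fun H => by have := hT0 H; positivity)
    refine (PB.const _).mul ?_ (fun H => by have := hT0 H; positivity)
    exact pbT.mul pb1 (fun H => by positivity)
  obtain ⟨K, M, hKM⟩ := (pb1.add pb2).add pb3
  refine ⟨K, M, ?_⟩
  intro p hpd hgood H hH hcoef x y hy hy0 w hw1 hwx a b hb hbw hab
  subst hpd
  by_contra hlt
  push Not at hlt
  have hKM' := hKM H hH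
  have hHR : (1 : ℝ) ≤ H := by exact_mod_cast hH
  have hw : 0 < w := by linarith
  have hTH0 := hT0 H
  have hF1 : 0 ≤ F1 H := by simp only [F1]; positivity
  have hF2 : 0 ≤ F2 H := by simp only [F2]; positivity
  have hF3 : 0 ≤ F3 H := by simp only [F3]; positivity
  have hw1' : F1 H < w := by linarith
  have hw2' : F2 H < w := by linarith
  have hw3' : F3 H < w := by linarith
  -- the family
  obtain ⟨B, hB⟩ : ∃ B : ℕ, B = Cb * H ^ eb := ⟨_, rfl⟩
  have hB1 : 1 ≤ B := by rw [hB]; exact Nat.mul_pos (by omega) (Nat.pow_pos (by omega))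
  obtain ⟨k, hk⟩ : ∃ k : ℕ, k = Fintype.card (Bx n N) - Fintype.card (Jx p.d n N W v0) := ⟨_, rfl⟩
  have hcount := count p.d n N W v0 hW0 hWN hv00
  have hθn : (n : ℝ) * (W / 2) - v0 - p.d = θ * n - p.d := by
    rw [hv0, hθdef]; ring
  rw [hθn] at hcount
  have hcard : Fintype.card (Jx p.d n N W v0) ≤ Fintype.card (Bx n N) := by
    have h1 : (0 : ℝ) ≤ ((n : ℝ) + 1) * (θ * n - p.d) := by
      apply mul_nonneg (by positivity) (by linarith)
    have h2 : ((Fintype.card (Jx p.d n N W v0) : ℕ) : ℝ) ≤ Fintype.card (Bx n N) := by linarith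
    exact_mod_cast h2
  obtain ⟨t, ht1, ht2, cc, ht3, ht4⟩ := siegel_many (p.A n N W v0) B hB1
    (fun i j => by rw [hB]; exact hCb p rfl H hH hcoef i j) k (by omega)
  obtain ⟨TN, hTN⟩ : ∃ TN : ℕ, TN = (Fintype.card (Bx n N) * B) ^ (Fintype.card (Bx n N)) := ⟨_, rfl⟩
  have hTNR : (TN : ℝ) = TF H := by
    simp only [TF]; rw [hTN, hB]; push_cast; ring
  have hcardpos : 0 < Fintype.card (Bx n N) := by
    have : Nonempty (Bx n N) := ⟨⟨⟨0, by omega⟩, ⟨0, by simp only; omega⟩⟩⟩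
    exact Fintype.card_pos
  have hTN1 : 1 ≤ TN := by rw [hTN]; exact Nat.pow_pos (Nat.mul_pos hcardpos (by omega))
  have htT : ∀ i q, |t i q| ≤ (TN : ℤ) := by
    intro i q
    have := ht2 i q
    rw [hTN]; push_cast at this ⊢
    exact this
  -- kernel conditions
  have hker : ∀ i, ∀ j ≤ n, ∀ e < En p.d n N W v0 j,
      PowerSeries.coeff e (p.Cs n N (fun q => (t i q : ℚ)) j) = 0 := fun i j hj e he =>
    p.Cs_of_ker n N W v0 (t i) (ht1 i) j hj e he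
  -- independence
  have hind : ∀ lam : Fin k → ℚ, ∑ i, lam i • (fun q => (t i q : ℚ)) = 0 → lam = 0 := by
    intro lam hlam
    apply triangular_indep (fun i q => (t i q : ℚ)) cc _ _ lam
    · intro j
      have := congrFun hlam j
      rw [Finset.sum_apply] at this
      simpa using this
    · intro i
      exact_mod_cast ht3 i
    · intro i i' hi
      exact_mod_cast ht4 i i' hi
  -- specialisation of the rank
  have hx2 : w ≤ (x : ℝ) := by
    rw [← hwx, pow_two]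
    exact le_mul_of_one_le_left hw.le hw1
  have hHf1 : (1 : ℤ) ≤ (p.d + 1) * H := by
    have e1 : (1 : ℤ) ≤ H := by exact_mod_cast hH
    have e2 : (1 : ℤ) ≤ p.d + 1 := by
      have e3 : (0 : ℤ) ≤ p.d := by positivity
      linarith only [e3]
    calc (1 : ℤ) = 1 * 1 := by norm_num
      _ ≤ _ := mul_le_mul e2 e1 (by norm_num) (by positivity)
  have hrank1 := p.rank_spec hHf1 (l1_f_le p H hcoef) n N t TN (by exact_mod_cast hTN1) htT x y hy (by
    have h1 : F2 H < (x : ℝ) := lt_of_lt_of_le hw2' hx2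
    simp only [F2] at h1
    rw [← hTNR] at h1
    exact_mod_cast h1)
  -- vanishing
  have hrank2 : (p.MR n N t x y hy).rank ≤ n + 1 - m0 := by
    have happ : ∀ M ≤ Emax, |(y : ℝ) / w ^ p.d - ∑ m ∈ range M, (Yc p.gc m : ℝ) * w⁻¹ ^ m| ≤
        F1 H * w⁻¹ ^ M := by
      apply hCa p.gc H hH (p.gc_bd H hcoef) p.gc_zero (fun i hi => p.gc_large i hi) w⁻¹ _
        (by positivity)
      · calc w⁻¹ * (Ca * (H : ℝ) ^ ea) ≤ w⁻¹ * w :=
              mul_le_mul_of_nonneg_left hw1'.le (by positivity)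
          _ = 1 := inv_mul_cancel₀ hw.ne'
      · have : (0 : ℝ) ≤ y := by exact_mod_cast hy0
        positivity
      · exact p.eta_sq x y hy w hw hwx
    have hF11 : 1 ≤ F1 H := by
      simp only [F1]
      have h1 : (1 : ℝ) ≤ (H : ℝ) ^ ea := one_le_pow₀ hHR
      have h2 : (1 : ℝ) ≤ Ca := by exact_mod_cast hCa1
      calc (1 : ℝ) = 1 * 1 := by norm_num
        _ ≤ _ := mul_le_mul h2 h1 (by norm_num) (by positivity)
    refine rank_small p n N W v0 β t (TF H) (F1 H) hTH0 ?_ hF11 Emax hker hE x y hy w hw1 hwx happ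
      a b hb hbw hab m0 hm0n ?_ ?_
    · intro i q
      rw [← hTNR]
      exact_mod_cast htT i q
    · intro j hj
      have hj' : (j : ℝ) ≤ θ / (2 * c) * n := by
        have : (j : ℝ) ≤ m0 := by exact_mod_cast hj.le
        exact this.trans hm0le
      have hj0 : (0 : ℝ) ≤ j := by positivity
      have h1 : (j : ℝ) * (W - β) ≤ j * c := mul_le_mul_of_nonneg_left (by linarith only [hW, hβ0]) hj0
      have h2 : v0 - β * n = θ * n := by rw [hv0]; ring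
      have h3 : (j : ℝ) * c ≤ θ / (2 * c) * n * c := mul_le_mul_of_nonneg_right hj' (by linarith only [hcR])
      have h4 : θ / (2 * c) * n * c = θ * n / 2 := by field_simp
      rw [h2]
      linarith only [h1, h3, h4, hnum3]
    · have : F3 H = (n + 1) * 2 ^ n * ((n + 1) * (N + n + 1) * 2 ^ n * TF H * F1 H) := by
        simp only [F3]; ring
      rw [← this]
      exact hw3'
  -- conclusion
  have hfin := p.large_rank n N W v0 hW0 hgood (fun i q => (t i q : ℚ)) hker hind (n + 1 - m0)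
    (hrank1.trans hrank2) t0 (by
      have : v0 + θ * n = n * (W / 2) := by rw [hv0, hθdef]; ring
      linarith)
  have hkR : ((n : ℝ) + 1) * (θ * n - p.d) ≤ k := by
    rw [hk, Nat.cast_sub hcard]; exact hcount
  have hfinR : (k : ℝ) ≤ (n + 1 - m0) * t0 := by
    have h1 : (k : ℝ) ≤ ((n + 1 - m0 : ℕ) : ℝ) * t0 := by exact_mod_cast hfin
    rw [Nat.cast_sub (by omega)] at h1
    push_cast at h1
    exact h1
  have h1 : ((n : ℝ) + 1 - m0) * t0 ≤ (n + 2 - θ / (2 * c) * n) * (θ * n + 1) := by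
    apply mul_le_mul (by linarith) ht0le (by positivity)
    linarith
  linarith

end Pool.Agent.W273.Z
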