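import Pool.Agent.W273.Z.Near
import Pool.Agent.W273.Z.Grid

/-!
The main theorem for one pair of exponents, without restriction on the exponents.
-/

set_option autoImplicit false

namespace Pool.Agent.W273.Z

open Polynomial Finset

/-- the approximation `a / b` is the value of an exceptional function of level `k` -/
def Alt (f : ℤ[X]) (k : ℕ) (x y a b : ℤ) : Prop :=
  ∃ m Q : ℤ[X], ∃ c : ℤ, c ≠ 0 ∧ m ≠ 0 ∧ m.natDegree = k ∧ Q * Q * f = m * (m * X - C c) ∧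
    m.eval x ≠ 0 ∧ a * m.eval x = b * (Q.eval x * y)

lemma Alt.signs {f : ℤ[X]} {k : ℕ} {x y a b : ℤ} (h : Alt f k x |y| |a| b) : Alt f k x y a b := by
  obtain ⟨m, Q, c, hc, hm, hk, hid, hx, he⟩ := h
  have hid' : (-Q) * (-Q) * f = m * (m * X - C c) := by rw [← hid]; ring
  rcases abs_choice a with h1 | h1 <;> rcases abs_choice y with h2 | h2 <;> rw [h1, h2] at he
  · exact ⟨m, Q, c, hc, hm, hk, hid, hx, he⟩
  · exact ⟨m, -Q, c, hc, hm, hk, hid', hx, by rw [eval_neg]; linarith⟩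
  · exact ⟨m, -Q, c, hc, hm, hk, hid', hx, by rw [eval_neg]; linarith⟩
  · exact ⟨m, Q, c, hc, hm, hk, hid, hx, by linarith⟩

/-- **the main theorem for one pair of exponents, all cases** -/
theorem grid2 (d : ℕ) (hd : 1 ≤ d) (W β : ℝ) (hβ0 : 0 ≤ β) (hβ : β < W / 2) :
    ∃ K M : ℕ, ∀ p : Par, p.d = d →
      ∀ H : ℕ, 1 ≤ H → (∀ i, |p.f.coeff i| ≤ H) →
      ∀ x y : ℤ, y ^ 2 = p.f.eval x → 0 ≤ y → ∀ w : ℝ, 1 ≤ w → w ^ 2 = x →
      ∀ a b : ℤ, 1 ≤ b → (b : ℝ) ≤ w ^ β → |w - a / b| ≤ w ^ (-W) →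
      w ≤ K * (H : ℝ) ^ M ∨ ∃ k : ℕ, (k : ℝ) ≤ β ∧ Alt p.f k x y a b := by
  have hW0 : 0 ≤ W := by linarith
  obtain ⟨k, hk⟩ : ∃ k : ℕ, k = ⌊W / 2⌋₊ := ⟨_, rfl⟩
  have hk1 : 2 * (k : ℝ) ≤ W := by
    have : (k : ℝ) ≤ W / 2 := by rw [hk]; exact Nat.floor_le (by positivity)
    linarith
  have hk2 : W < 2 * (k : ℝ) + 2 := by
    have : W / 2 < (k : ℝ) + 1 := by rw [hk]; exact Nat.lt_floor_add_one _
    linarith
  obtain ⟨c, hc⟩ : ∃ c : ℕ, c = ⌈W⌉₊ + 1 := ⟨_, rfl⟩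
  have hc1 : 1 ≤ c := by omega
  have hWc : W ≤ c := by
    rw [hc]; push_cast
    have := Nat.le_ceil W
    linarith
  rcases lt_or_ge β k with hβk | hβk
  · -- no exceptional functions for the exponent 2k
    obtain ⟨K, M, hKM⟩ := grid d c hc1 (2 * (k : ℝ)) β hβ0 (by linarith) (by linarith)
    refine ⟨K, M, ?_⟩
    intro p hpd H hH hcoef x y hy hy0 w hw1 hwx a b hb hbw hab
    left
    refine hKM p hpd ?_ H hH hcoef x y hy hy0 w hw1 hwx a b hb hbw ?_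
    · rcases p.E.good_or_exc k (2 * (k : ℝ)) le_rfl (by linarith) with h | ⟨h, _⟩
      · exact h
      · exact absurd h (lt_irrefl _)
    · exact hab.trans (Real.rpow_le_rpow_of_exponent_le hw1 (by linarith))
  · obtain ⟨K1, M1, hKM1⟩ := grid d c hc1 W β hβ0 hβ hWc
    obtain ⟨K2, e2, hK2⟩ := Par.exc_int d k hd
    obtain ⟨δ, hδ⟩ : ∃ δ : ℝ, δ = min (W - 2 * β) (k + 1 - β) := ⟨_, rfl⟩
    have hδ0 : 0 < δ := by rw [hδ]; exact lt_min (by linarith) (by linarith)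
    have hδ1 : δ ≤ W - 2 * β := by rw [hδ]; exact min_le_left _ _
    have hδ2 : δ ≤ k + 1 - β := by rw [hδ]; exact min_le_right _ _
    obtain ⟨n1, hn1⟩ : ∃ n1 : ℕ, n1 = ⌈1 / δ⌉₊ := ⟨_, rfl⟩
    have hn1δ : 1 ≤ n1 * δ := by
      have h1 : 1 / δ ≤ n1 := by rw [hn1]; exact Nat.le_ceil _
      calc (1 : ℝ) = 1 / δ * δ := by field_simp
        _ ≤ _ := mul_le_mul_of_nonneg_right h1 hδ0.le
    let T : ℕ → ℕ := fun H => K2 * H ^ e2 + 1
    let F : ℕ → ℝ := fun H => (K1 : ℝ) * (H : ℝ) ^ M1 + (2 * ((k : ℝ) + 1) * ((K2 : ℝ) * (H : ℝ) ^ e2 + 1) +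
      (6 * ((k : ℝ) + 1) * ((K2 : ℝ) * (H : ℝ) ^ e2 + 1) ^ 2) ^ n1)
    have pbH : PB (fun H => (H : ℝ)) := PB.id
    have pbHe : ∀ e : ℕ, PB (fun H => (H : ℝ) ^ e) := fun e => pbH.pow (fun H => by positivity) e
    have pbT : PB (fun H => (K2 : ℝ) * (H : ℝ) ^ e2 + 1) :=
      ((PB.const _).mul (pbHe e2) (fun H => by positivity)).add (PB.const _)
    have pbF : PB F := by
      refine ((PB.const _).mul (pbHe M1) (fun H => by positivity)).add ?_
      refine ((PB.const _).mul pbT (fun H => by positivity)).add ?_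
      refine PB.pow ?_ (fun H => by positivity) n1
      exact (PB.const _).mul (pbT.pow (fun H => by positivity) 2) (fun H => by positivity)
    obtain ⟨K, M, hKM⟩ := pbF
    refine ⟨K, M, ?_⟩
    intro p hpd H hH hcoef x y hy hy0 w hw1 hwx a b hb hbw hab
    have hw : 0 < w := by linarith
    have hF := hKM H hH
    simp only [F] at hF
    have hF1 : 0 ≤ (K1 : ℝ) * (H : ℝ) ^ M1 := by positivity
    have hF2 : 0 ≤ 2 * ((k : ℝ) + 1) * ((K2 : ℝ) * (H : ℝ) ^ e2 + 1) := by positivity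
    have hF3 : 0 ≤ (6 * ((k : ℝ) + 1) * ((K2 : ℝ) * (H : ℝ) ^ e2 + 1) ^ 2) ^ n1 := by positivity
    rcases le_or_gt w (K * (H : ℝ) ^ M) with hle | hgt
    · exact Or.inl hle
    rcases p.E.good_or_exc k W hk1 hk2 with hgood | ⟨_, hexc⟩
    · left
      have := hKM1 p hpd hgood H hH hcoef x y hy hy0 w hw1 hwx a b hb hbw hab
      linarith
    · right
      obtain ⟨m, Q, c', hc', hm, hmk, hid, hmT, hcT⟩ := hK2 p hpd H hH hcoef hexc
      have hTcast : ((T H : ℕ) : ℝ) = (K2 : ℝ) * (H : ℝ) ^ e2 + 1 := by simp only [T]; push_cast; ring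
      have hTZ : ((T H : ℕ) : ℤ) = (K2 : ℤ) * (H : ℤ) ^ e2 + 1 := by simp only [T]; push_cast; ring
      have hbase : (1 : ℝ) ≤ 6 * ((k : ℝ) + 1) * ((K2 : ℝ) * (H : ℝ) ^ e2 + 1) ^ 2 := by
        have h1 : (1 : ℝ) ≤ (K2 : ℝ) * (H : ℝ) ^ e2 + 1 := by
          have : (0 : ℝ) ≤ (K2 : ℝ) * (H : ℝ) ^ e2 := by positivity
          linarith
        have h2 : (1 : ℝ) ≤ ((K2 : ℝ) * (H : ℝ) ^ e2 + 1) ^ 2 := one_le_pow₀ h1
        have h3 : (0 : ℝ) ≤ k := by positivity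
        nlinarith
      have hor := near p.f m Q c' k hm hmk hid (T H) (by simp only [T]; omega)
        (fun i => by rw [hTZ]; have := hmT i; linarith) (by rw [hTZ]; linarith) x y hy w hw1 hwx β W δ
        (by linarith) (by linarith) a b hb hbw hab (by
          rw [hTcast]
          linarith) (by
          rw [hTcast]
          set base : ℝ := 6 * ((k : ℝ) + 1) * ((K2 : ℝ) * (H : ℝ) ^ e2 + 1) ^ 2 with hbdef
          have h1 : base ^ n1 < w := by linarith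
          calc base = base ^ (1 : ℝ) := (Real.rpow_one _).symm
            _ ≤ base ^ (n1 * δ) := Real.rpow_le_rpow_of_exponent_le hbase hn1δ
            _ = (base ^ n1) ^ δ := by
                rw [Real.rpow_mul (by linarith), Real.rpow_natCast]
            _ < w ^ δ := Real.rpow_lt_rpow (by positivity) h1 hδ0)
      refine ⟨k, hβk, ?_⟩
      obtain ⟨hx0, hor⟩ := hor
      rcases hor with h | h
      · exact ⟨m, Q, c', hc', hm, hmk, hid, hx0, h⟩
      · refine ⟨m, -Q, c', hc', hm, hmk, by rw [← hid]; ring, hx0, ?_⟩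
        rw [eval_neg, h]; ring

end Pool.Agent.W273.Z
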