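import Pool.Agent.W273.Z.DropTwo

/-!
Heights of elements of the coordinate ring, and comparison of ranks under specialisation.
-/

set_option autoImplicit false

namespace Pool.Agent.W273.Z

open Polynomial Finset

/-- the sum of the absolute values of the coefficients -/
noncomputable def l1 (P : ℤ[X]) : ℤ := ∑ i ∈ P.support, |P.coeff i|

lemma l1_nonneg (P : ℤ[X]) : 0 ≤ l1 P := Finset.sum_nonneg fun _ _ => abs_nonneg _

lemma l1_eq_of_subset (P : ℤ[X]) (s : Finset ℕ) (h : P.support ⊆ s) : l1 P = ∑ i ∈ s, |P.coeff i| := by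
  unfold l1
  apply Finset.sum_subset h
  intro i _ hi
  rw [Polynomial.notMem_support_iff.mp hi, abs_zero]

lemma l1_add (P Q : ℤ[X]) : l1 (P + Q) ≤ l1 P + l1 Q := by
  classical
  rw [l1_eq_of_subset (P + Q) (P.support ∪ Q.support) Polynomial.support_add,
    l1_eq_of_subset P (P.support ∪ Q.support) Finset.subset_union_left,
    l1_eq_of_subset Q (P.support ∪ Q.support) Finset.subset_union_right, ← Finset.sum_add_distrib]
  apply Finset.sum_le_sum
  intro i _
  rw [coeff_add]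
  exact abs_add_le _ _

lemma l1_zero : l1 0 = 0 := by simp [l1]

lemma l1_neg (P : ℤ[X]) : l1 (-P) = l1 P := by
  unfold l1
  rw [Polynomial.support_neg]
  exact Finset.sum_congr rfl fun i _ => by rw [coeff_neg, abs_neg]

lemma l1_sum {ι : Type} (s : Finset ι) (P : ι → ℤ[X]) : l1 (∑ i ∈ s, P i) ≤ ∑ i ∈ s, l1 (P i) := by
  classical
  induction s using Finset.induction_on with
  | empty => rw [Finset.sum_empty, Finset.sum_empty, l1_zero]
  | insert a s ha ih =>
    rw [Finset.sum_insert ha, Finset.sum_insert ha]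
    exact (l1_add _ _).trans (by linarith)

lemma l1_monomial_mul (n : ℕ) (a : ℤ) (Q : ℤ[X]) : l1 (monomial n a * Q) ≤ |a| * l1 Q := by
  classical
  have hsub : (monomial n a * Q).support ⊆ Q.support.image (fun i => i + n) := by
    intro j hj
    rw [Polynomial.mem_support_iff] at hj
    rw [Finset.mem_image]
    rcases Nat.lt_or_ge j n with h | h
    · exfalso
      apply hj
      rw [← C_mul_X_pow_eq_monomial, mul_assoc, coeff_C_mul, coeff_X_pow_mul', if_neg (by omega), mul_zero]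
    · refine ⟨j - n, ?_, by omega⟩
      rw [Polynomial.mem_support_iff]
      intro h0
      apply hj
      rw [← C_mul_X_pow_eq_monomial, mul_assoc, coeff_C_mul, coeff_X_pow_mul', if_pos h, h0, mul_zero]
  rw [l1_eq_of_subset _ _ hsub, Finset.sum_image (by intro a _ b _ h; simpa using h)]
  unfold l1
  rw [Finset.mul_sum]
  apply Finset.sum_le_sum
  intro i _
  rw [← C_mul_X_pow_eq_monomial, mul_assoc, coeff_C_mul, coeff_X_pow_mul', if_pos (by omega),
    Nat.add_sub_cancel, abs_mul]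

lemma l1_mul (P Q : ℤ[X]) : l1 (P * Q) ≤ l1 P * l1 Q := by
  have h1 : P * Q = ∑ i ∈ P.support, monomial i (P.coeff i) * Q := by
    conv_lhs => rw [P.as_sum_support]
    rw [Finset.sum_mul]
  rw [h1]
  calc _ ≤ ∑ i ∈ P.support, l1 (monomial i (P.coeff i) * Q) := l1_sum _ _
    _ ≤ ∑ i ∈ P.support, |P.coeff i| * l1 Q := Finset.sum_le_sum fun i _ => l1_monomial_mul _ _ _
    _ = l1 P * l1 Q := by unfold l1; rw [Finset.sum_mul]

lemma l1_X_pow (k : ℕ) : l1 (X ^ k : ℤ[X]) = 1 := by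
  rw [l1_eq_of_subset _ {k}]
  · simp
  · intro i hi
    rw [Polynomial.mem_support_iff, coeff_X_pow] at hi
    rw [Finset.mem_singleton]
    by_contra h
    exact hi (if_neg h)

/-- an integer root is bounded by the sum of the absolute values of the coefficients -/
lemma root_le (N : ℤ[X]) (hN : N ≠ 0) (x : ℤ) (hx : 1 ≤ x) (h : N.eval x = 0) : x ≤ l1 N := by
  by_contra hlt
  push Not at hlt
  have hlead : 1 ≤ |N.leadingCoeff| := Int.one_le_abs (leadingCoeff_ne_zero.mpr hN)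
  have h1 : N.eval x = N.leadingCoeff * x ^ N.natDegree + ∑ i ∈ range N.natDegree, N.coeff i * x ^ i := by
    rw [eval_eq_sum_range, Finset.sum_range_succ]
    rw [add_comm]; rfl
  have h2 : l1 N = |N.leadingCoeff| + ∑ i ∈ range N.natDegree, |N.coeff i| := by
    rw [l1_eq_of_subset N (range (N.natDegree + 1)) N.supp_subset_range_natDegree_succ,
      Finset.sum_range_succ, add_comm]; rfl
  rcases Nat.eq_zero_or_pos N.natDegree with h0 | hpos
  · rw [h0, pow_zero, mul_one, Finset.sum_range_zero, add_zero] at h1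
    rw [h] at h1
    exact leadingCoeff_ne_zero.mpr hN h1.symm
  · obtain ⟨m, hm⟩ : ∃ m, N.natDegree = m + 1 := ⟨N.natDegree - 1, by omega⟩
    rw [h, hm] at h1
    rw [hm] at h2
    have h3 : |∑ i ∈ range (m + 1), N.coeff i * x ^ i| ≤ (∑ i ∈ range (m + 1), |N.coeff i|) * x ^ m := by
      calc _ ≤ ∑ i ∈ range (m + 1), |N.coeff i * x ^ i| := Finset.abs_sum_le_sum_abs _ _
        _ ≤ ∑ i ∈ range (m + 1), |N.coeff i| * x ^ m := by
            apply Finset.sum_le_sum
            intro i hi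
            rw [Finset.mem_range] at hi
            rw [abs_mul, abs_of_nonneg (by positivity : (0 : ℤ) ≤ x ^ i)]
            exact mul_le_mul_of_nonneg_left (pow_le_pow_right₀ hx (by omega)) (abs_nonneg _)
        _ = _ := by rw [Finset.sum_mul]
    have h4 : |N.leadingCoeff * x ^ (m + 1)| = |∑ i ∈ range (m + 1), N.coeff i * x ^ i| := by
      have : N.leadingCoeff * x ^ (m + 1) = -∑ i ∈ range (m + 1), N.coeff i * x ^ i := by linarith
      rw [this, abs_neg]
    rw [abs_mul, abs_of_nonneg (by positivity : (0 : ℤ) ≤ x ^ (m + 1))] at h4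
    have hxm : (0 : ℤ) < x ^ m := by positivity
    have h5 : |N.leadingCoeff| * x * x ^ m ≤ (∑ i ∈ range (m + 1), |N.coeff i|) * x ^ m := by
      rw [← h4] at h3
      calc _ = |N.leadingCoeff| * x ^ (m + 1) := by rw [pow_succ]; ring
        _ ≤ _ := h3
    have h6 := le_of_mul_le_mul_right h5 hxm
    nlinarith

namespace Par

variable (p : Par)

/-- height on the coordinate ring -/
noncomputable def nr (Hf : ℤ) (z : p.RZ) : ℤ := l1 z.re + Hf * l1 z.im

variable {p} in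
lemma nr_nonneg {Hf : ℤ} (hH : 0 ≤ Hf) (z : p.RZ) : 0 ≤ p.nr Hf z := by
  unfold nr
  have := l1_nonneg z.re
  have := mul_nonneg hH (l1_nonneg z.im)
  linarith

lemma nr_zero (Hf : ℤ) : p.nr Hf 0 = 0 := by
  unfold nr
  rw [QuadraticAlgebra.re_zero, QuadraticAlgebra.im_zero, l1_zero]; ring

lemma nr_one (Hf : ℤ) : p.nr Hf 1 = 1 := by
  unfold nr
  rw [QuadraticAlgebra.re_one, QuadraticAlgebra.im_one, l1_zero]
  have : l1 (1 : ℤ[X]) = 1 := by
    have := l1_X_pow 0
    rwa [pow_zero] at this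
  rw [this]; ring

lemma nr_neg (Hf : ℤ) (z : p.RZ) : p.nr Hf (-z) = p.nr Hf z := by
  unfold nr
  rw [QuadraticAlgebra.re_neg, QuadraticAlgebra.im_neg, l1_neg, l1_neg]

lemma nr_add {Hf : ℤ} (hH : 0 ≤ Hf) (z z' : p.RZ) : p.nr Hf (z + z') ≤ p.nr Hf z + p.nr Hf z' := by
  unfold nr
  rw [QuadraticAlgebra.re_add, QuadraticAlgebra.im_add]
  have h1 := l1_add z.re z'.re
  have h2 := mul_le_mul_of_nonneg_left (l1_add z.im z'.im) hH
  linarith

lemma nr_sum {ι : Type} {Hf : ℤ} (hH : 0 ≤ Hf) (s : Finset ι) (z : ι → p.RZ) :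
    p.nr Hf (∑ i ∈ s, z i) ≤ ∑ i ∈ s, p.nr Hf (z i) := by
  classical
  induction s using Finset.induction_on with
  | empty => rw [Finset.sum_empty, Finset.sum_empty, nr_zero]
  | insert a s ha ih =>
    rw [Finset.sum_insert ha, Finset.sum_insert ha]
    exact (p.nr_add hH _ _).trans (by linarith)

lemma nr_mul {Hf : ℤ} (hH1 : 1 ≤ Hf) (hHf : l1 p.f ≤ Hf) (z z' : p.RZ) :
    p.nr Hf (z * z') ≤ p.nr Hf z * p.nr Hf z' := by
  unfold nr
  rw [QuadraticAlgebra.re_mul, QuadraticAlgebra.im_mul, zero_mul, zero_mul, add_zero]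
  have a1 := l1_nonneg z.re
  have a2 := l1_nonneg z.im
  have b1 := l1_nonneg z'.re
  have b2 := l1_nonneg z'.im
  have h1 : l1 (z.re * z'.re + p.f * z.im * z'.im) ≤ l1 z.re * l1 z'.re + Hf * (l1 z.im * l1 z'.im) := by
    have e1 := l1_mul z.re z'.re
    have e2 : l1 (p.f * z.im * z'.im) ≤ Hf * (l1 z.im * l1 z'.im) := by
      calc _ ≤ l1 (p.f * z.im) * l1 z'.im := l1_mul _ _
        _ ≤ (l1 p.f * l1 z.im) * l1 z'.im := mul_le_mul_of_nonneg_right (l1_mul _ _) b2
        _ = l1 p.f * (l1 z.im * l1 z'.im) := by ring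
        _ ≤ _ := mul_le_mul_of_nonneg_right hHf (mul_nonneg a2 b2)
    have := l1_add (z.re * z'.re) (p.f * z.im * z'.im)
    linarith
  have h2 : l1 (z.re * z'.im + z.im * z'.re) ≤ l1 z.re * l1 z'.im + l1 z.im * l1 z'.re := by
    have e1 := l1_mul z.re z'.im
    have e2 := l1_mul z.im z'.re
    have := l1_add (z.re * z'.im) (z.im * z'.re)
    linarith
  have h3 : Hf * l1 (z.re * z'.im + z.im * z'.re) ≤ Hf * (l1 z.re * l1 z'.im + l1 z.im * l1 z'.re) :=
    mul_le_mul_of_nonneg_left h2 (by linarith)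
  have h4 : Hf * (l1 z.im * l1 z'.im) ≤ Hf * Hf * (l1 z.im * l1 z'.im) :=
    mul_le_mul_of_nonneg_right (by nlinarith) (mul_nonneg a2 b2)
  nlinarith

lemma nr_prod {ι : Type} {Hf : ℤ} (hH1 : 1 ≤ Hf) (hHf : l1 p.f ≤ Hf) (s : Finset ι) (z : ι → p.RZ) :
    p.nr Hf (∏ i ∈ s, z i) ≤ ∏ i ∈ s, p.nr Hf (z i) := by
  classical
  induction s using Finset.induction_on with
  | empty => rw [Finset.prod_empty, Finset.prod_empty, nr_one]
  | insert a s ha ih =>
    rw [Finset.prod_insert ha, Finset.prod_insert ha]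
    exact (p.nr_mul hH1 hHf _ _).trans
      (mul_le_mul_of_nonneg_left ih (nr_nonneg (by linarith) _))

lemma nr_det {Hf : ℤ} (hH1 : 1 ≤ Hf) (hHf : l1 p.f ≤ Hf) (ρ : ℕ) (M : Matrix (Fin ρ) (Fin ρ) p.RZ)
    (B : ℤ) (hM : ∀ i j, p.nr Hf (M i j) ≤ B) : p.nr Hf M.det ≤ ρ.factorial * B ^ ρ := by
  rw [Matrix.det_apply]
  calc _ ≤ ∑ σ : Equiv.Perm (Fin ρ), p.nr Hf (Equiv.Perm.sign σ • ∏ i, M (σ i) i) :=
        p.nr_sum (by linarith) _ _
    _ ≤ ∑ σ : Equiv.Perm (Fin ρ), B ^ ρ := by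
        apply Finset.sum_le_sum
        intro σ _
        have h1 : p.nr Hf (Equiv.Perm.sign σ • ∏ i, M (σ i) i) = p.nr Hf (∏ i, M (σ i) i) := by
          rcases Int.units_eq_one_or (Equiv.Perm.sign σ) with h | h
          · rw [h, one_smul]
          · rw [h, Units.neg_smul, one_smul, nr_neg]
        rw [h1]
        calc _ ≤ ∏ i, p.nr Hf (M (σ i) i) := p.nr_prod hH1 hHf _ _
          _ ≤ ∏ _i : Fin ρ, B := Finset.prod_le_prod (fun i _ => nr_nonneg (by linarith) _)
              (fun i _ => hM _ _)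
          _ = B ^ ρ := by rw [Finset.prod_const, Finset.card_univ, Fintype.card_fin]
    _ = _ := by
        rw [Finset.sum_const, Finset.card_univ, Fintype.card_perm, Fintype.card_fin, nsmul_eq_mul]

lemma toK_ne {z : p.RZ} (hz : z ≠ 0) : p.toK z ≠ 0 := by
  intro h
  apply hz
  ext1
  · exact (map_eq_zero_iff _ polR_inj).mp (congrArg QuadraticAlgebra.re h)
  · exact (map_eq_zero_iff _ polR_inj).mp (congrArg QuadraticAlgebra.im h)

/-- non-vanishing at integral points with large abscissa -/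
lemma sp_ne_zero {Hf : ℤ} (hH1 : 1 ≤ Hf) (hHf : l1 p.f ≤ Hf) (z : p.RZ) (hz : z ≠ 0) (x y : ℤ)
    (h : y ^ 2 = p.f.eval x) (hx : (p.nr Hf z) ^ 2 < x) : p.sp x y h z ≠ 0 := by
  intro h0
  set N : ℤ[X] := QuadraticAlgebra.norm z with hN
  have hN0 : N ≠ 0 := by
    intro hN0
    have h1 : QuadraticAlgebra.norm (p.toK z) = polR N := by
      rw [hN, QuadraticAlgebra.norm_def, QuadraticAlgebra.norm_def, toK_re, toK_im]
      simp only [map_add, map_sub, map_mul, map_zero]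
      rfl
    rw [hN0, map_zero] at h1
    exact p.E.norm_ne (p.toK_ne hz) h1
  have hev : N.eval x = 0 := by
    rw [hN, QuadraticAlgebra.norm_def]
    rw [sp_apply] at h0
    simp only [eval_add, eval_sub, eval_mul, eval_zero, ← h]
    have : z.re.eval x = -(z.im.eval x * y) := by linarith
    rw [this]; ring
  have hx1 : 1 ≤ x := by
    have : 0 ≤ (p.nr Hf z) ^ 2 := sq_nonneg _
    linarith
  have h2 := root_le N hN0 x hx1 hev
  have h3 : l1 N ≤ (p.nr Hf z) ^ 2 := by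
    have a1 := l1_nonneg z.re
    have a2 := l1_nonneg z.im
    have e0 : N = z.re * z.re + -(p.f * (z.im * z.im)) := by
      rw [hN, QuadraticAlgebra.norm_def]; ring
    have e1 : l1 N ≤ l1 (z.re * z.re) + l1 (p.f * (z.im * z.im)) := by
      rw [e0, ← l1_neg (p.f * (z.im * z.im))]
      exact l1_add _ _
    have e2 := l1_mul z.re z.re
    have e3 : l1 (p.f * (z.im * z.im)) ≤ Hf * (l1 z.im * l1 z.im) := by
      calc _ ≤ l1 p.f * l1 (z.im * z.im) := l1_mul _ _
        _ ≤ l1 p.f * (l1 z.im * l1 z.im) := mul_le_mul_of_nonneg_left (l1_mul _ _) (l1_nonneg _)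
        _ ≤ _ := mul_le_mul_of_nonneg_right hHf (mul_nonneg a2 a2)
    have e4 : Hf * (l1 z.im * l1 z.im) ≤ Hf * Hf * (l1 z.im * l1 z.im) :=
      mul_le_mul_of_nonneg_right (by nlinarith) (mul_nonneg a2 a2)
    have e5 : 0 ≤ Hf * (l1 z.re * l1 z.im) := mul_nonneg (by linarith) (mul_nonneg a1 a2)
    unfold nr
    nlinarith
  linarith

/-- coefficients of the auxiliary polynomials in the coordinate ring -/
noncomputable def cf (n N : ℕ) (t : Bx n N → ℤ) (l : Fin (n + 1)) : p.RZ :=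
  ∑ k : Fin (N + n + 1 - l.1), (t ⟨l, k⟩ : p.RZ) * p.mon (p.io n N ⟨l, k⟩)

lemma coeff_PQ_int (n N : ℕ) (t : Bx n N → ℤ) (l : Fin (n + 1)) :
    (p.PQ n N (fun q => (t q : ℚ))).coeff l = p.toK (p.cf n N t l) := by
  rw [coeff_PQ, cf, map_sum]
  apply Finset.sum_congr rfl
  intro k _
  rw [RingHom.map_mul p.toK, map_intCast, map_intCast]

lemma nr_mon {Hf : ℤ} (hH1 : 1 ≤ Hf) (i : ℕ) : p.nr Hf (p.mon i) ≤ Hf := by
  unfold mon nr
  split_ifs
  · simp only [l1_X_pow, l1_zero]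
    linarith
  · simp only [l1_X_pow, l1_zero]
    linarith

lemma nr_intCast {Hf : ℤ} (a : ℤ) : p.nr Hf (a : p.RZ) ≤ |a| := by
  unfold nr
  rw [QuadraticAlgebra.re_intCast, QuadraticAlgebra.im_intCast, l1_zero, mul_zero, add_zero]
  have h1 : ((a : ℤ) : ℤ[X]) = monomial 0 a * 1 := by
    rw [mul_one]; simp
  have h2 : l1 (1 : ℤ[X]) = 1 := by
    have := l1_X_pow 0
    rwa [pow_zero] at this
  rw [h1]
  calc _ ≤ |a| * l1 1 := l1_monomial_mul _ _ _
    _ = |a| := by rw [h2, mul_one]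

lemma nr_cf {Hf : ℤ} (hH1 : 1 ≤ Hf) (hHf : l1 p.f ≤ Hf) (n N : ℕ) (t : Bx n N → ℤ) (T : ℤ) (hT0 : 0 ≤ T)
    (hT : ∀ q, |t q| ≤ T) (l : Fin (n + 1)) : p.nr Hf (p.cf n N t l) ≤ (N + n + 1) * (T * Hf) := by
  unfold cf
  calc _ ≤ ∑ k : Fin (N + n + 1 - l.1), p.nr Hf ((t ⟨l, k⟩ : p.RZ) * p.mon (p.io n N ⟨l, k⟩)) :=
        p.nr_sum (by linarith) _ _
    _ ≤ ∑ _k : Fin (N + n + 1 - l.1), T * Hf := by
        apply Finset.sum_le_sum
        intro k _
        calc _ ≤ p.nr Hf (t ⟨l, k⟩ : p.RZ) * p.nr Hf (p.mon (p.io n N ⟨l, k⟩)) := p.nr_mul hH1 hHf _ _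
          _ ≤ T * Hf := mul_le_mul ((p.nr_intCast _).trans (hT _)) (p.nr_mon hH1 _)
              (nr_nonneg (by linarith) _) hT0
    _ = ((N + n + 1 - l.1 : ℕ) : ℤ) * (T * Hf) := by
        rw [Finset.sum_const, Finset.card_univ, Fintype.card_fin, nsmul_eq_mul]
    _ ≤ (N + n + 1) * (T * Hf) := by
        apply mul_le_mul_of_nonneg_right _ (mul_nonneg hT0 (by linarith))
        have : (N + n + 1 - l.1 : ℕ) ≤ N + n + 1 := by omega
        exact_mod_cast this

/-- specialised coefficient matrix -/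
noncomputable def MR (n N : ℕ) {k : ℕ} (t : Fin k → Bx n N → ℤ) (x y : ℤ) (h : y ^ 2 = p.f.eval x) :
    Matrix (Fin k) (Fin (n + 1)) ℝ := fun i l => (p.sp x y h (p.cf n N (t i) l) : ℝ)

/-- **specialisation of ranks** -/
theorem rank_spec {Hf : ℤ} (hH1 : 1 ≤ Hf) (hHf : l1 p.f ≤ Hf) (n N : ℕ) {k : ℕ} (t : Fin k → Bx n N → ℤ)
    (T : ℤ) (hT1 : 1 ≤ T) (hT : ∀ i q, |t i q| ≤ T) (x y : ℤ) (h : y ^ 2 = p.f.eval x)
    (hx : ((n + 1).factorial * ((N + n + 1) * (T * Hf)) ^ (n + 1)) ^ 2 < x) :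
    (p.MK n N (fun i q => (t i q : ℚ))).rank ≤ (p.MR n N t x y h).rank := by
  set ρ := (p.MK n N (fun i q => (t i q : ℚ))).rank with hρ
  have hρn : ρ ≤ n + 1 := by
    have := Matrix.rank_le_card_width (p.MK n N (fun i q => (t i q : ℚ)))
    rwa [Fintype.card_fin] at this
  obtain ⟨f, g, hfg⟩ := exists_minor (p.MK n N (fun i q => (t i q : ℚ))) ρ le_rfl
  set D : Matrix (Fin ρ) (Fin ρ) p.RZ := fun i j => p.cf n N (t (f i)) (g j) with hD
  have h1 : (p.MK n N (fun i q => (t i q : ℚ))).submatrix f g = p.toK.mapMatrix D := by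
    ext1 i j
    exact p.coeff_PQ_int n N (t (f i)) (g j)
  rw [h1, ← RingHom.map_det] at hfg
  have hD0 : D.det ≠ 0 := by
    intro h0
    rw [h0, map_zero] at hfg
    exact hfg rfl
  have hB1 : (1 : ℤ) ≤ (N + n + 1) * (T * Hf) := by
    have : (1 : ℤ) ≤ T * Hf := by nlinarith
    have h0 : (0 : ℤ) ≤ n := by positivity
    nlinarith
  have hnr : p.nr Hf D.det ≤ (n + 1).factorial * ((N + n + 1) * (T * Hf)) ^ (n + 1) := by
    calc _ ≤ ρ.factorial * ((N + n + 1) * (T * Hf)) ^ ρ :=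
          p.nr_det hH1 hHf ρ D _ (fun i j => p.nr_cf hH1 hHf n N _ T (by linarith) (hT _) _)
      _ ≤ _ := by
        apply mul_le_mul _ (pow_le_pow_right₀ hB1 hρn) (by positivity) (by positivity)
        exact_mod_cast Nat.factorial_le hρn
  have hsp : p.sp x y h D.det ≠ 0 := by
    apply p.sp_ne_zero hH1 hHf D.det hD0 x y h
    refine lt_of_le_of_lt ?_ hx
    exact pow_le_pow_left₀ (nr_nonneg (by linarith) _) hnr 2
  apply rank_ge_of_minor _ ρ f g
  have h2 : (p.MR n N t x y h).submatrix f g =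
      (Int.castRingHom ℝ).mapMatrix ((p.sp x y h).mapMatrix D) := by
    ext i j; rfl
  rw [h2, ← RingHom.map_det, ← RingHom.map_det]
  simpa using hsp

end Par

end Pool.Agent.W273.Z
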