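import Pool.Agent.W273.Z.Fld

/-!
The function field of a hyperelliptic curve `y² = F(x)` of odd degree and its embedding.
-/

set_option autoImplicit false

namespace Pool.Agent.W273.Z

open Polynomial Finset

/-- a squarefree rational polynomial of odd degree at least three with a square root at infinity -/
structure CrvL where
  F : ℚ[X]
  odd : Odd F.natDegree
  three : 3 ≤ F.natDegree
  sqf : Squarefree F
  y : LL
  hy : y ^ 2 = evP F

namespace CrvL

variable (E : CrvL)

/-- `F` as a rational function -/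
noncomputable def Fr : RatFunc ℚ := algebraMap ℚ[X] (RatFunc ℚ) E.F

lemma F_ne : E.F ≠ 0 := by
  intro h
  have := E.three
  rw [h] at this
  simp at this

lemma Fr_ne : E.Fr ≠ 0 :=
  (map_ne_zero_iff _ (IsFractionRing.injective ℚ[X] (RatFunc ℚ))).mpr E.F_ne

lemma intDegree_Fr : E.Fr.intDegree = E.F.natDegree := RatFunc.intDegree_polynomial

lemma no_sqrt (r : RatFunc ℚ) : r ^ 2 ≠ E.Fr + 0 * r := by
  intro h
  rw [zero_mul, add_zero] at h
  have hr : r ≠ 0 := by
    rintro rfl
    rw [zero_pow two_ne_zero] at h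
    exact E.Fr_ne h.symm
  have h1 := congrArg RatFunc.intDegree h
  rw [E.intDegree_Fr, pow_two, RatFunc.intDegree_mul hr hr] at h1
  obtain ⟨k, hk⟩ := E.odd
  omega

instance : Fact (∀ r : RatFunc ℚ, r ^ 2 ≠ E.Fr + 0 * r) := ⟨E.no_sqrt⟩

/-- the function field -/
abbrev K : Type := QuadraticAlgebra (RatFunc ℚ) E.Fr 0

lemma y_ne : E.y ≠ 0 := by
  intro h
  have := E.hy
  rw [h, zero_pow two_ne_zero] at this
  exact evP_ne_zero E.F_ne this.symm

lemma order_y : E.y.order = -(E.F.natDegree : ℝ) := by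
  have h1 := congrArg HahnSeries.order E.hy
  rw [HahnSeries.order_pow, order_evP E.F_ne, nsmul_eq_mul] at h1
  push_cast at h1
  linarith

/-- the embedding of the function field at the place at infinity -/
noncomputable def ι : E.K →+* LL where
  toFun z := ratL z.re + ratL z.im * E.y
  map_zero' := by simp
  map_one' := by
    rw [QuadraticAlgebra.re_one, QuadraticAlgebra.im_one, map_one, map_zero, zero_mul, add_zero]
  map_add' z z' := by
    rw [QuadraticAlgebra.re_add, QuadraticAlgebra.im_add, map_add, map_add]; ring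
  map_mul' z z' := by
    have h : ratL E.Fr = E.y * E.y := by
      rw [← pow_two, E.hy]; exact ratL_algebraMap E.F
    rw [QuadraticAlgebra.re_mul, QuadraticAlgebra.im_mul]
    simp only [map_add, map_mul, zero_mul, add_zero, h]
    ring

lemma ι_apply (z : E.K) : E.ι z = ratL z.re + ratL z.im * E.y := rfl

lemma ι_ne {z : E.K} (hz : z ≠ 0) : E.ι z ≠ 0 := (map_ne_zero E.ι).mpr hz

lemma order_im {r : RatFunc ℚ} (hr : r ≠ 0) :
    (ratL r * E.y).order = -2 * (r.intDegree : ℝ) - E.F.natDegree := by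
  rw [HahnSeries.order_mul ((map_ne_zero ratL).mpr hr) E.y_ne, order_ratL hr, E.order_y]; ring

lemma orders_ne (a b : ℤ) : -2 * (a : ℝ) ≠ -2 * (b : ℝ) - E.F.natDegree := by
  intro h
  obtain ⟨k, hk⟩ := E.odd
  have h1 : -2 * a = -2 * b - E.F.natDegree := by exact_mod_cast h
  omega

end CrvL

lemma order_add_of_ne {x y : LL} (hx : x ≠ 0) (hy : y ≠ 0) (h : x.order ≠ y.order) :
    x + y ≠ 0 ∧ (x + y).order = min x.order y.order := by
  have key : ∀ {x y : LL}, x ≠ 0 → y ≠ 0 → x.order < y.order →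
      x + y ≠ 0 ∧ (x + y).order = x.order := by
    intro x y hx hy h
    have h1 : x.orderTop < y.orderTop := by
      rw [← HahnSeries.order_eq_orderTop_of_ne_zero hx, ← HahnSeries.order_eq_orderTop_of_ne_zero hy]
      exact_mod_cast h
    have h2 := HahnSeries.orderTop_add_eq_left h1
    have h3 : x + y ≠ 0 := by
      intro h0
      rw [h0, HahnSeries.orderTop_zero] at h2
      exact hx (HahnSeries.orderTop_eq_top.mp h2.symm)
    refine ⟨h3, ?_⟩
    rw [← HahnSeries.order_eq_orderTop_of_ne_zero hx, ← HahnSeries.order_eq_orderTop_of_ne_zero h3] at h2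
    exact_mod_cast h2
  rcases lt_or_gt_of_ne h with h | h
  · obtain ⟨h1, h2⟩ := key hx hy h
    exact ⟨h1, by rw [h2, min_eq_left h.le]⟩
  · obtain ⟨h1, h2⟩ := key hy hx h
    rw [add_comm]
    exact ⟨h1, by rw [h2, min_eq_right h.le]⟩

lemma order_neg_LL (x : LL) : (-x).order = x.order := HahnSeries.order_neg

namespace CrvL

variable (E : CrvL)

lemma order_ι_star {z : E.K} : (E.ι (star z)).order = (E.ι z).order := by
  have h1 : E.ι (star z) = ratL z.re + -(ratL z.im * E.y) := by
    rw [ι_apply, QuadraticAlgebra.re_star, QuadraticAlgebra.im_star, zero_mul, add_zero, map_neg]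
    ring
  rw [h1, ι_apply]
  by_cases hr : z.re = 0
  · rw [hr, map_zero, zero_add, zero_add, order_neg_LL]
  by_cases hi : z.im = 0
  · rw [hi, map_zero, zero_mul, neg_zero]
  have h2 : ratL z.re ≠ 0 := (map_ne_zero ratL).mpr hr
  have h3 : ratL z.im * E.y ≠ 0 := mul_ne_zero ((map_ne_zero ratL).mpr hi) E.y_ne
  have h4 : (ratL z.re).order ≠ (ratL z.im * E.y).order := by
    rw [order_ratL hr, E.order_im hi]
    exact E.orders_ne _ _
  rw [(order_add_of_ne h2 h3 h4).2, (order_add_of_ne h2 (neg_ne_zero.mpr h3) (by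
    rw [order_neg_LL]; exact h4)).2, order_neg_LL]

lemma ι_algebraMap (r : RatFunc ℚ) : E.ι (algebraMap (RatFunc ℚ) E.K r) = ratL r := by
  rw [ι_apply, QuadraticAlgebra.algebraMap_re, QuadraticAlgebra.algebraMap_im, map_zero, zero_mul,
    add_zero]

lemma norm_ne {z : E.K} (hz : z ≠ 0) : QuadraticAlgebra.norm z ≠ 0 := by
  rw [ne_eq, QuadraticAlgebra.norm_eq_zero_iff_eq_zero]
  exact hz

lemma star_ne {z : E.K} (hz : z ≠ 0) : star z ≠ 0 := by
  rwa [ne_eq, star_eq_zero]

/-- the order at infinity is minus the degree of the norm -/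
lemma order_ι {z : E.K} (hz : z ≠ 0) :
    (E.ι z).order = -((QuadraticAlgebra.norm z).intDegree : ℝ) := by
  have h1 := QuadraticAlgebra.algebraMap_norm_eq_mul_star z
  have h2 : (E.ι (algebraMap (RatFunc ℚ) E.K (QuadraticAlgebra.norm z))).order =
      (E.ι (z * star z)).order := by rw [h1]
  rw [ι_algebraMap, order_ratL (E.norm_ne hz), map_mul, HahnSeries.order_mul (E.ι_ne hz)
    (E.ι_ne (E.star_ne hz)), E.order_ι_star] at h2
  linarith

end CrvL

end Pool.Agent.W273.Z
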