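import Pool.Agent.W273.Z.ExcInt

/-!
In the exceptional case the good approximations of `√x` are the values of the exceptional function.
-/

set_option autoImplicit false

namespace Pool.Agent.W273.Z

open Polynomial Finset

/-- size of an integer polynomial at a large integer -/
lemma eval_size (m : ℤ[X]) (hm : m ≠ 0) (T : ℕ) (hT : ∀ i, |m.coeff i| ≤ T) (x : ℤ) (hx1 : 1 ≤ x)
    (hx : 2 * (m.natDegree + 1) * (T : ℤ) ≤ x) :
    x ^ m.natDegree ≤ 2 * |m.eval x| ∧ |m.eval x| ≤ (m.natDegree + 1) * T * x ^ m.natDegree := by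
  have hlead : 1 ≤ |m.leadingCoeff| := Int.one_le_abs (leadingCoeff_ne_zero.mpr hm)
  have h1 : m.eval x = m.leadingCoeff * x ^ m.natDegree + ∑ i ∈ range m.natDegree, m.coeff i * x ^ i := by
    rw [eval_eq_sum_range, Finset.sum_range_succ]
    rw [add_comm]; rfl
  have hT0 : (0 : ℤ) ≤ T := by positivity
  constructor
  · rcases Nat.eq_zero_or_pos m.natDegree with h0 | hpos
    · rw [h0, pow_zero, mul_one, Finset.sum_range_zero, add_zero] at h1
      rw [h0, pow_zero, h1]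
      linarith
    · obtain ⟨k, hk⟩ : ∃ k, m.natDegree = k + 1 := ⟨m.natDegree - 1, by omega⟩
      rw [hk] at h1 hx ⊢
      have h3 : |∑ i ∈ range (k + 1), m.coeff i * x ^ i| ≤ (k + 1) * T * x ^ k := by
        calc _ ≤ ∑ i ∈ range (k + 1), |m.coeff i * x ^ i| := Finset.abs_sum_le_sum_abs _ _
          _ ≤ ∑ i ∈ range (k + 1), T * x ^ k := by
              apply Finset.sum_le_sum
              intro i hi
              rw [Finset.mem_range] at hi
              rw [abs_mul, abs_of_nonneg (by positivity : (0 : ℤ) ≤ x ^ i)]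
              exact mul_le_mul (hT i) (pow_le_pow_right₀ hx1 (by omega)) (by positivity) hT0
          _ = _ := by rw [Finset.sum_const, Finset.card_range, nsmul_eq_mul]; push_cast; ring
      have hxk : (0 : ℤ) < x ^ k := by positivity
      have h4 : |m.leadingCoeff * x ^ (k + 1)| ≤ |m.eval x| + |∑ i ∈ range (k + 1), m.coeff i * x ^ i| := by
        have : m.leadingCoeff * x ^ (k + 1) = m.eval x - ∑ i ∈ range (k + 1), m.coeff i * x ^ i := by
          rw [h1]; ring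
        rw [this]
        exact abs_sub _ _
      rw [abs_mul, abs_of_nonneg (by positivity : (0 : ℤ) ≤ x ^ (k + 1))] at h4
      have h5 : x ^ (k + 1) ≤ |m.leadingCoeff| * x ^ (k + 1) :=
        le_mul_of_one_le_left (by positivity) hlead
      have h6 : 2 * ((k + 1) * T * x ^ k) ≤ x ^ (k + 1) := by
        rw [pow_succ]
        push_cast at hx
        have h7 : 2 * ((k : ℤ) + 1) * T ≤ x := by
          have : 2 * ((k : ℤ) + 1) * T ≤ 2 * (k + 1 + 1) * T := by
            apply mul_le_mul_of_nonneg_right _ hT0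
            linarith
          linarith
        calc 2 * (((k : ℤ) + 1) * T * x ^ k) = x ^ k * (2 * (k + 1) * T) := by ring
          _ ≤ x ^ k * x := mul_le_mul_of_nonneg_left h7 hxk.le
      linarith
  · rw [eval_eq_sum_range]
    calc _ ≤ ∑ i ∈ range (m.natDegree + 1), |m.coeff i * x ^ i| := Finset.abs_sum_le_sum_abs _ _
      _ ≤ ∑ i ∈ range (m.natDegree + 1), T * x ^ m.natDegree := by
          apply Finset.sum_le_sum
          intro i hi
          rw [Finset.mem_range] at hi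
          rw [abs_mul, abs_of_nonneg (by positivity : (0 : ℤ) ≤ x ^ i)]
          exact mul_le_mul (hT i) (pow_le_pow_right₀ hx1 (by omega)) (by positivity) hT0
      _ = _ := by rw [Finset.sum_const, Finset.card_range, nsmul_eq_mul]; push_cast; ring

/-- two different rationals -/
lemma rat_gap (a b : ℤ) (hb : 1 ≤ b) (r : ℚ) (hne : (a : ℚ) / b ≠ r) :
    1 ≤ (b : ℝ) * r.den * |(a : ℝ) / b - r| := by
  have hb0 : (0 : ℝ) < b := by exact_mod_cast (by omega : 0 < b)
  have hd0 : (0 : ℝ) < r.den := by exact_mod_cast r.den_pos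
  have hr : (r : ℝ) = (r.num : ℝ) / r.den := by
    exact_mod_cast (Rat.num_div_den r).symm
  have hz : a * r.den - r.num * b ≠ 0 := by
    intro h
    apply hne
    have hbq : (b : ℚ) ≠ 0 := by exact_mod_cast (by omega : b ≠ 0)
    have hdq : (r.den : ℚ) ≠ 0 := by exact_mod_cast r.den_nz
    rw [← Rat.num_div_den r, div_eq_div_iff hbq hdq]
    have : a * (r.den : ℤ) = r.num * b := by linarith
    exact_mod_cast this
  have h1 : (1 : ℝ) ≤ |((a * r.den - r.num * b : ℤ) : ℝ)| := by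
    rw [← Int.cast_abs]
    exact_mod_cast Int.one_le_abs hz
  have h2 : (b : ℝ) * r.den * |(a : ℝ) / b - r| = |((a * r.den - r.num * b : ℤ) : ℝ)| := by
    rw [hr, ← abs_of_pos (mul_pos hb0 hd0), ← abs_mul]
    congr 1
    push_cast
    field_simp
  rw [h2]
  exact h1

/-- **the exceptional function** -/
theorem near (f m Q : ℤ[X]) (c : ℤ) (k : ℕ) (hm : m ≠ 0) (hk : m.natDegree = k)
    (hid : Q * Q * f = m * (m * X - C c)) (T : ℕ) (hT1 : 1 ≤ T) (hT : ∀ i, |m.coeff i| ≤ T) (hcT : |c| ≤ T)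
    (x y : ℤ) (hy : y ^ 2 = f.eval x) (w : ℝ) (hw1 : 1 ≤ w) (hwx : w ^ 2 = x) (β W δ : ℝ)
    (hW : β + k + δ ≤ W) (hβ : β ≤ k + 1 - δ) (a b : ℤ) (hb : 1 ≤ b) (hbw : (b : ℝ) ≤ w ^ β)
    (hab : |w - a / b| ≤ w ^ (-W)) (hw2 : 2 * ((k : ℝ) + 1) * T ≤ w)
    (hw3 : 6 * ((k : ℝ) + 1) * T ^ 2 < w ^ δ) :
    m.eval x ≠ 0 ∧
      (a * m.eval x = b * (Q.eval x * y) ∨ a * m.eval x = -(b * (Q.eval x * y))) := by
  have hw : 0 < w := by linarith
  have hTR : (1 : ℝ) ≤ T := by exact_mod_cast hT1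
  have hx1R : (1 : ℝ) ≤ x := by rw [← hwx]; exact one_le_pow₀ hw1
  have hx1 : 1 ≤ x := by exact_mod_cast hx1R
  have hxw : w ≤ (x : ℝ) := by
    rw [← hwx, pow_two]
    exact le_mul_of_one_le_left hw.le hw1
  have hx2 : 2 * (m.natDegree + 1) * (T : ℤ) ≤ x := by
    have : 2 * ((k : ℝ) + 1) * T ≤ x := hw2.trans hxw
    rw [hk]
    exact_mod_cast this
  obtain ⟨hlow, hup⟩ := eval_size m hm T hT x hx1 hx2
  obtain ⟨mx, hmx⟩ : ∃ mx : ℤ, mx = m.eval x := ⟨_, rfl⟩
  obtain ⟨t, ht⟩ : ∃ t : ℤ, t = Q.eval x * y := ⟨_, rfl⟩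
  rw [← hmx, hk] at hlow hup
  rw [← hmx, ← ht]
  have ht2 : t ^ 2 = mx * (mx * x - c) := by
    have h1 := congrArg (fun P => P.eval x) hid
    simp only [eval_mul, eval_sub, eval_X, eval_C] at h1
    rw [← hmx] at h1
    rw [ht, ← h1, mul_pow, hy]
    ring
  have hmx0 : mx ≠ 0 := by
    intro h0
    rw [h0, abs_zero, mul_zero] at hlow
    have : 0 < x ^ k := by positivity
    linarith
  have hmxR : (mx : ℝ) ≠ 0 := by exact_mod_cast hmx0
  have hmxabs : 0 < |(mx : ℝ)| := abs_pos.mpr hmxR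
  have hxk : (x : ℝ) ^ k = w ^ (2 * (k : ℝ)) := by
    rw [← hwx, ← pow_mul, ← Real.rpow_natCast]
    push_cast; ring_nf
  have hlowR : w ^ (2 * (k : ℝ)) ≤ 2 * |(mx : ℝ)| := by
    rw [← hxk]; exact_mod_cast hlow
  have hupR : |(mx : ℝ)| ≤ (k + 1) * T * w ^ (2 * (k : ℝ)) := by
    rw [← hxk]; exact_mod_cast hup
  -- the rational number
  obtain ⟨r, hr⟩ : ∃ r : ℚ, r = |(t : ℚ)| / |(mx : ℚ)| := ⟨_, rfl⟩
  have hmxq : (mx : ℚ) ≠ 0 := by exact_mod_cast hmx0
  have hr2 : r ^ 2 = ((mx * x - c : ℤ) : ℚ) / ((mx : ℤ) : ℚ) := by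
    rw [hr, div_pow, sq_abs, sq_abs]
    have : (t : ℚ) ^ 2 = mx * (mx * x - c) := by exact_mod_cast ht2
    rw [this]
    push_cast
    field_simp
  have hden : ((r.den : ℤ)) ^ 2 ∣ mx := by
    have h1 : (((r ^ 2).den : ℕ) : ℤ) ∣ mx := by
      rw [hr2, ← Rat.divInt_eq_div]; exact Rat.den_dvd _ _
    rw [Rat.den_pow] at h1
    exact_mod_cast h1
  have hdenR : (r.den : ℝ) ≤ (k + 1) * T * w ^ (k : ℝ) := by
    have h1 : (r.den : ℤ) ^ 2 ≤ |mx| := Int.le_of_dvd (abs_pos.mpr hmx0) ((dvd_abs _ _).mpr hden)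
    have h2 : (r.den : ℝ) ^ 2 ≤ |(mx : ℝ)| := by exact_mod_cast h1
    have h3 : (w ^ (k : ℝ)) ^ 2 = w ^ (2 * (k : ℝ)) := by
      rw [← Real.rpow_natCast, ← Real.rpow_mul hw.le]
      congr 1; push_cast; ring
    have hk1 : (1 : ℝ) ≤ (k + 1) * T := by
      have : (0 : ℝ) ≤ k := by positivity
      nlinarith
    apply le_of_sq_le_sq _ (by positivity)
    calc (r.den : ℝ) ^ 2 ≤ (k + 1) * T * w ^ (2 * (k : ℝ)) := h2.trans hupR
      _ ≤ ((k + 1) * T) ^ 2 * w ^ (2 * (k : ℝ)) := by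
          apply mul_le_mul_of_nonneg_right _ (by positivity)
          rw [pow_two]
          exact le_mul_of_one_le_left (by linarith) hk1
      _ = ((k + 1) * T * w ^ (k : ℝ)) ^ 2 := by rw [mul_pow ((k + 1) * T : ℝ), h3]
  have hr0 : (0 : ℝ) ≤ r := by
    have : (0 : ℚ) ≤ r := by rw [hr]; positivity
    exact_mod_cast this
  have hrw : |w - r| ≤ 2 * T * w ^ (-(2 * (k : ℝ) + 1)) := by
    have h1 : (w - r) * (w + r) = c / mx := by
      have h2 : (r : ℝ) ^ 2 = (mx * x - c) / mx := by exact_mod_cast congrArg (fun q : ℚ => (q : ℝ)) hr2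
      have : (w - r) * (w + r) = x - (r : ℝ) ^ 2 := by rw [← hwx]; ring
      rw [this, h2]
      field_simp
      ring
    have h2 : |w - r| * w ≤ |w - r| * (w + r) := mul_le_mul_of_nonneg_left (by linarith) (abs_nonneg _)
    have h3 : |w - r| * (w + r) = |(c : ℝ)| / |(mx : ℝ)| := by
      rw [← abs_div, ← h1, abs_mul, abs_of_pos (by linarith : 0 < w + r)]
    have h4 : |(c : ℝ)| ≤ T := by exact_mod_cast hcT
    have h5 : |(c : ℝ)| / |(mx : ℝ)| ≤ 2 * T * w ^ (-(2 * (k : ℝ))) := by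
      rw [div_le_iff₀ hmxabs, Real.rpow_neg hw.le]
      have h6 : 0 < w ^ (2 * (k : ℝ)) := by positivity
      calc |(c : ℝ)| ≤ T * 1 := by rw [mul_one]; exact h4
        _ = T * ((w ^ (2 * (k : ℝ)))⁻¹ * w ^ (2 * (k : ℝ))) := by rw [inv_mul_cancel₀ h6.ne']
        _ ≤ T * ((w ^ (2 * (k : ℝ)))⁻¹ * (2 * |(mx : ℝ)|)) := by
            apply mul_le_mul_of_nonneg_left _ (by positivity)
            exact mul_le_mul_of_nonneg_left hlowR (by positivity)
        _ = _ := by ring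
    have h7 : w ^ (-(2 * (k : ℝ))) = w ^ (-(2 * (k : ℝ) + 1)) * w := by
      rw [← Real.rpow_add_one hw.ne']
      congr 1; ring
    rw [h7] at h5
    have h8 : |w - r| * w ≤ (2 * T * w ^ (-(2 * (k : ℝ) + 1))) * w := by
      calc _ ≤ _ := h2
        _ = _ := h3
        _ ≤ _ := h5
        _ = _ := by ring
    exact le_of_mul_le_mul_right h8 hw
  -- equality
  have heq : (a : ℚ) / b = r := by
    by_contra hne
    have h1 := rat_gap a b hb r hne
    have h2 : |(a : ℝ) / b - r| ≤ w ^ (-W) + 2 * T * w ^ (-(2 * (k : ℝ) + 1)) := by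
      have : (a : ℝ) / b - r = -(w - a / b) + (w - r) := by ring
      rw [this]
      calc _ ≤ |-(w - a / b)| + |w - r| := abs_add_le _ _
        _ ≤ _ := by rw [abs_neg]; exact add_le_add hab hrw
    have h3 : (b : ℝ) * r.den ≤ w ^ β * ((k + 1) * T * w ^ (k : ℝ)) :=
      mul_le_mul hbw hdenR (by positivity) (by positivity)
    have h4 : 1 ≤ w ^ β * ((k + 1) * T * w ^ (k : ℝ)) * (w ^ (-W) + 2 * T * w ^ (-(2 * (k : ℝ) + 1))) :=
      h1.trans (mul_le_mul h3 h2 (abs_nonneg _) (by positivity))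
    have e1 : w ^ β * w ^ (k : ℝ) * w ^ (-W) ≤ w ^ (-δ) := by
      rw [← Real.rpow_add hw, ← Real.rpow_add hw]
      exact Real.rpow_le_rpow_of_exponent_le hw1 (by linarith)
    have e2 : w ^ β * w ^ (k : ℝ) * w ^ (-(2 * (k : ℝ) + 1)) ≤ w ^ (-δ) := by
      rw [← Real.rpow_add hw, ← Real.rpow_add hw]
      exact Real.rpow_le_rpow_of_exponent_le hw1 (by linarith)
    have hkT : (0 : ℝ) ≤ (k + 1) * T := by positivity
    have h5 : w ^ β * ((k + 1) * T * w ^ (k : ℝ)) * (w ^ (-W) + 2 * T * w ^ (-(2 * (k : ℝ) + 1))) ≤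
        (k + 1) * T * (w ^ (-δ) + 2 * T * w ^ (-δ)) := by
      calc _ = (k + 1) * T * (w ^ β * w ^ (k : ℝ) * w ^ (-W) +
            2 * T * (w ^ β * w ^ (k : ℝ) * w ^ (-(2 * (k : ℝ) + 1)))) := by ring
        _ ≤ _ := by
          apply mul_le_mul_of_nonneg_left _ hkT
          apply add_le_add e1
          exact mul_le_mul_of_nonneg_left e2 (by positivity)
    have h6 : (k + 1) * T * (w ^ (-δ) + 2 * T * w ^ (-δ)) ≤ 6 * ((k : ℝ) + 1) * T ^ 2 * w ^ (-δ) := by
      have e3 : 0 < w ^ (-δ) := by positivity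
      have e4 : 1 + 2 * (T : ℝ) ≤ 6 * T := by linarith
      calc _ = (k + 1) * T * w ^ (-δ) * (1 + 2 * T) := by ring
        _ ≤ (k + 1) * T * w ^ (-δ) * (6 * T) := mul_le_mul_of_nonneg_left e4 (by positivity)
        _ = _ := by ring
    have h7 : 6 * ((k : ℝ) + 1) * T ^ 2 * w ^ (-δ) < w ^ δ * w ^ (-δ) :=
      mul_lt_mul_of_pos_right hw3 (by positivity)
    rw [← Real.rpow_add hw, add_neg_cancel, Real.rpow_zero] at h7
    linarith
  -- conclusion
  have hbq : (b : ℚ) ≠ 0 := by exact_mod_cast (by omega : b ≠ 0)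
  rw [hr, div_eq_div_iff hbq (abs_ne_zero.mpr hmxq)] at heq
  have heqZ : a * |mx| = |t| * b := by exact_mod_cast heq
  refine ⟨hmx0, ?_⟩
  rcases abs_choice mx with h1 | h1 <;> rcases abs_choice t with h2 | h2 <;> rw [h1, h2] at heqZ
  · left; linarith
  · right; linarith
  · right; linarith
  · left; linarith

end Pool.Agent.W273.Z
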