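import Pool.Agent.W273.Z.FinTwo

/-!
Reduction of general polynomials and affine forms to monic polynomials.
-/

set_option autoImplicit false

namespace Pool.Agent.W273.Z

open Polynomial Finset

lemma coeff_le_l1 (P : ℤ[X]) (i : ℕ) : |P.coeff i| ≤ l1 P := by
  by_cases h : i ∈ P.support
  · exact Finset.single_le_sum (f := fun i => |P.coeff i|) (fun _ _ => abs_nonneg _) h
  · rw [Polynomial.notMem_support_iff.mp h, abs_zero]; exact l1_nonneg P

lemma l1_one : l1 (1 : ℤ[X]) = 1 := by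
  have := l1_X_pow 0
  rwa [pow_zero] at this

lemma l1_pow (P : ℤ[X]) (k : ℕ) : l1 (P ^ k) ≤ l1 P ^ k := by
  induction k with
  | zero => rw [pow_zero, pow_zero, l1_one]
  | succ k ih =>
    rw [pow_succ, pow_succ]
    exact (l1_mul _ _).trans (mul_le_mul_of_nonneg_right ih (l1_nonneg _))

lemma l1_C_mul (a : ℤ) (Q : ℤ[X]) : l1 (C a * Q) ≤ |a| * l1 Q := by
  have := l1_monomial_mul 0 a Q
  rwa [monomial_zero_left] at this

lemma l1_X_sub_C (s : ℤ) : l1 (X - C s) ≤ 1 + |s| := by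
  rw [sub_eq_add_neg, ← C_neg]
  have h1 := l1_add (X : ℤ[X]) (C (-s))
  have h2 : l1 (X : ℤ[X]) = 1 := by
    have := l1_X_pow 1
    rwa [pow_one] at this
  have h3 := l1_C_mul (-s) 1
  rw [mul_one, l1_one, mul_one, abs_neg] at h3
  linarith

lemma l1_comp_X_sub_C (P : ℤ[X]) (s : ℤ) (T : ℤ) (hT : ∀ i, |P.coeff i| ≤ T) :
    l1 (P.comp (X - C s)) ≤ (P.natDegree + 1) * (T * (1 + |s|) ^ P.natDegree) := by
  have hT0 : 0 ≤ T := (abs_nonneg _).trans (hT 0)
  have hs : 1 ≤ 1 + |s| := by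
    have := abs_nonneg s
    linarith
  have h1 : P.comp (X - C s) = ∑ i ∈ range (P.natDegree + 1), C (P.coeff i) * (X - C s) ^ i := by
    rw [comp, eval₂_eq_sum_range]
  rw [h1]
  calc _ ≤ ∑ i ∈ range (P.natDegree + 1), l1 (C (P.coeff i) * (X - C s) ^ i) := l1_sum _ _
    _ ≤ ∑ i ∈ range (P.natDegree + 1), T * (1 + |s|) ^ P.natDegree := by
        apply Finset.sum_le_sum
        intro i hi
        rw [Finset.mem_range] at hi
        refine (l1_C_mul _ _).trans ?_
        apply mul_le_mul (hT i) _ (l1_nonneg _) hT0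
        refine (l1_pow _ _).trans ?_
        refine (pow_le_pow_left₀ (l1_nonneg _) (l1_X_sub_C s) i).trans ?_
        exact pow_le_pow_right₀ hs (by omega)
    _ = _ := by rw [Finset.sum_const, Finset.card_range, nsmul_eq_mul]; push_cast; ring

/-- the monic polynomial attached to `f` and the affine form `n X + e` -/
noncomputable def fh (f : ℤ[X]) (n e : ℤ) : ℤ[X] :=
  ((integralNormalization f).scaleRoots (n ^ 2)).comp (X - C (n * f.leadingCoeff * e))

/-- the change of variable -/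
noncomputable def lam (f : ℤ[X]) (n e : ℤ) : ℤ[X] :=
  C (n ^ 2 * f.leadingCoeff) * X + C (n * f.leadingCoeff * e)

lemma fh_comp (f : ℤ[X]) (n e : ℤ) (hf : 1 ≤ f.natDegree) :
    (fh f n e).comp (lam f n e) = C ((n ^ 2) ^ f.natDegree * f.leadingCoeff ^ (f.natDegree - 1)) * f := by
  unfold fh lam
  rw [comp_assoc]
  have h1 : (X - C (n * f.leadingCoeff * e)).comp
      (C (n ^ 2 * f.leadingCoeff) * X + C (n * f.leadingCoeff * e)) = C (n ^ 2 * f.leadingCoeff) * X := by
    rw [sub_comp, X_comp, C_comp]; ring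
  rw [h1]
  ext i
  rw [comp_C_mul_X_coeff, coeff_scaleRoots, coeff_C_mul, natDegree_integralNormalization]
  have h2 := integralNormalization_coeff_mul_leadingCoeff_pow (p := f) i hf
  rcases Nat.lt_or_ge f.natDegree i with hi | hi
  · rw [coeff_eq_zero_of_natDegree_lt hi, coeff_eq_zero_of_natDegree_lt (by
      rw [natDegree_integralNormalization]; exact hi)]
    ring
  · have h3 : (n ^ 2) ^ f.natDegree = (n ^ 2) ^ (f.natDegree - i) * (n ^ 2) ^ i := by
      rw [← pow_add]; congr 1; omega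
    rw [mul_pow, h3]
    linear_combination ((n ^ 2) ^ (f.natDegree - i) * (n ^ 2) ^ i) * h2

lemma fh_monic (f : ℤ[X]) (n e : ℤ) (hf : f ≠ 0) : (fh f n e).Monic := by
  unfold fh
  apply Monic.comp_X_sub_C
  exact (monic_scaleRoots_iff _).mpr (monic_integralNormalization hf)

lemma fh_natDegree (f : ℤ[X]) (n e : ℤ) : (fh f n e).natDegree = f.natDegree := by
  unfold fh
  rw [natDegree_comp, natDegree_X_sub_C, mul_one, natDegree_scaleRoots, natDegree_integralNormalization]

lemma fh_sqf (f : ℤ[X]) (n e : ℤ) (hn : n ≠ 0) (hf : 1 ≤ f.natDegree)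
    (hs : Squarefree (f.map (Int.castRingHom ℚ))) :
    Squarefree ((fh f n e).map (Int.castRingHom ℚ)) := by
  set φ := Int.castRingHom ℚ with hφ
  have hf0 : f ≠ 0 := by rintro rfl; simp at hf
  have hlc : f.leadingCoeff ≠ 0 := leadingCoeff_ne_zero.mpr hf0
  intro g hg
  obtain ⟨q, hq⟩ := hg
  have h1 := congrArg (Polynomial.map φ) (fh_comp f n e hf)
  rw [Polynomial.map_comp, hq, mul_comp, mul_comp, Polynomial.map_mul, map_C] at h1
  have hu : φ ((n ^ 2) ^ f.natDegree * f.leadingCoeff ^ (f.natDegree - 1)) ≠ 0 := by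
    rw [hφ, ne_eq, eq_intCast, Int.cast_eq_zero]
    exact mul_ne_zero (pow_ne_zero _ (pow_ne_zero _ hn)) (pow_ne_zero _ hlc)
  have h2 : IsUnit (g.comp ((lam f n e).map φ)) := by
    apply hs
    refine ⟨C (φ ((n ^ 2) ^ f.natDegree * f.leadingCoeff ^ (f.natDegree - 1)))⁻¹ *
      q.comp ((lam f n e).map φ), ?_⟩
    calc f.map φ = C (φ ((n ^ 2) ^ f.natDegree * f.leadingCoeff ^ (f.natDegree - 1)))⁻¹ *
          (C (φ ((n ^ 2) ^ f.natDegree * f.leadingCoeff ^ (f.natDegree - 1))) * f.map φ) := by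
          rw [← mul_assoc, ← C_mul, inv_mul_cancel₀ hu, C_1, one_mul]
      _ = _ := by rw [← h1]; ring
  have h3 := natDegree_eq_zero_of_isUnit h2
  have hlam : ((lam f n e).map φ).natDegree = 1 := by
    rw [natDegree_map_eq_of_injective (RingHom.injective_int φ)]
    unfold lam
    exact natDegree_linear (mul_ne_zero (pow_ne_zero _ hn) hlc)
  rw [natDegree_comp, hlam, mul_one] at h3
  obtain ⟨r, hr⟩ := natDegree_eq_zero.mp h3
  rw [← hr] at hq ⊢
  have hr0 : r ≠ 0 := by
    rintro rfl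
    rw [C_0, zero_mul, zero_mul] at hq
    have := (fh_monic f n e hf0).map φ
    exact this.ne_zero hq
  exact isUnit_C.mpr (isUnit_iff_ne_zero.mpr hr0)

lemma fh_coeff (f : ℤ[X]) (n e : ℤ) (hf : 1 ≤ f.natDegree) (H : ℕ) (hH : 1 ≤ H)
    (hcoef : ∀ i, |f.coeff i| ≤ H) (hn : |n| ≤ H) (he : |e| ≤ H) (i : ℕ) :
    |(fh f n e).coeff i| ≤ (((f.natDegree + 1) * 2 ^ f.natDegree * H ^ (6 * f.natDegree) : ℕ) : ℤ) := by
  have hf0 : f ≠ 0 := by rintro rfl; simp at hf
  set d := f.natDegree with hd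
  have hHZ : (1 : ℤ) ≤ H := by exact_mod_cast hH
  have hlc : |f.leadingCoeff| ≤ H := hcoef _
  have h1 : ∀ i, |(integralNormalization f).coeff i| ≤ (H : ℤ) ^ d := by
    intro i
    rcases lt_trichotomy i f.natDegree with hi | hi | hi
    · rw [integralNormalization_coeff_ne_natDegree (by omega), abs_mul, abs_pow]
      calc |f.coeff i| * |f.leadingCoeff| ^ (f.natDegree - 1 - i)
          ≤ H * (H : ℤ) ^ (f.natDegree - 1 - i) :=
            mul_le_mul (hcoef i) (pow_le_pow_left₀ (abs_nonneg _) hlc _) (by positivity) (by positivity)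
        _ = (H : ℤ) ^ (f.natDegree - 1 - i + 1) := by rw [pow_succ]; ring
        _ ≤ _ := pow_le_pow_right₀ hHZ (by omega)
    · rw [hi, integralNormalization_coeff_natDegree hf0, abs_one]
      exact one_le_pow₀ hHZ
    · rw [coeff_eq_zero_of_natDegree_lt (by rw [natDegree_integralNormalization]; exact hi), abs_zero]
      positivity
  have hn2 : |n ^ 2| ≤ (H : ℤ) ^ 2 := by
    rw [abs_pow]; exact pow_le_pow_left₀ (abs_nonneg _) hn 2
  have h2 : ∀ i, |((integralNormalization f).scaleRoots (n ^ 2)).coeff i| ≤ (H : ℤ) ^ (3 * d) := by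
    intro i
    rw [coeff_scaleRoots, abs_mul, abs_pow, natDegree_integralNormalization]
    calc _ ≤ (H : ℤ) ^ d * ((H : ℤ) ^ 2) ^ (d - i) := by
          apply mul_le_mul (h1 i) (pow_le_pow_left₀ (abs_nonneg _) hn2 _) (by positivity) (by positivity)
      _ = (H : ℤ) ^ (d + 2 * (d - i)) := by rw [← pow_mul, ← pow_add]
      _ ≤ _ := pow_le_pow_right₀ hHZ (by omega)
  refine (coeff_le_l1 _ i).trans ?_
  unfold fh
  refine (l1_comp_X_sub_C _ _ _ h2).trans ?_
  rw [natDegree_scaleRoots, natDegree_integralNormalization, ← hd]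
  have hs : |n * f.leadingCoeff * e| ≤ (H : ℤ) ^ 3 := by
    rw [abs_mul, abs_mul]
    calc _ ≤ ((H : ℤ) * H) * H :=
          mul_le_mul (mul_le_mul hn hlc (abs_nonneg _) (by positivity)) he (abs_nonneg _) (by positivity)
      _ = _ := by ring
  have h3 : 1 + |n * f.leadingCoeff * e| ≤ 2 * (H : ℤ) ^ 3 := by
    have : (1 : ℤ) ≤ (H : ℤ) ^ 3 := one_le_pow₀ hHZ
    linarith
  have h4 : (1 + |n * f.leadingCoeff * e|) ^ d ≤ (2 * (H : ℤ) ^ 3) ^ d :=
    pow_le_pow_left₀ (by positivity) h3 d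
  calc ((d : ℤ) + 1) * ((H : ℤ) ^ (3 * d) * (1 + |n * f.leadingCoeff * e|) ^ d)
      ≤ ((d : ℤ) + 1) * ((H : ℤ) ^ (3 * d) * (2 * (H : ℤ) ^ 3) ^ d) := by
        apply mul_le_mul_of_nonneg_left _ (by positivity)
        exact mul_le_mul_of_nonneg_left h4 (by positivity)
    _ = _ := by
        rw [mul_pow, ← pow_mul]
        push_cast
        have : (H : ℤ) ^ (6 * d) = (H : ℤ) ^ (3 * d) * (H : ℤ) ^ (3 * d) := by
          rw [← pow_add]; congr 1; ring
        rw [this]; ring

/-- the parameter attached to `f` and an affine form -/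
noncomputable def fhPar (f : ℤ[X]) (n e : ℤ) (hodd : Odd f.natDegree) (h3 : 3 ≤ f.natDegree) (hn : n ≠ 0)
    (hs : Squarefree (f.map (Int.castRingHom ℚ))) : Par where
  f := fh f n e
  monic := fh_monic f n e (by rintro rfl; simp at h3)
  odd := by rw [fh_natDegree]; exact hodd
  three := by rw [fh_natDegree]; exact h3
  sqf := fh_sqf f n e hn (by omega) hs

end Pool.Agent.W273.Z
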