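import Pool.Agent.W273.Z.Iota

/-!
Contents of polynomials over the function field; integrality of the norm of the discriminant.
-/

set_option autoImplicit false

namespace Pool.Agent.W273.Z

open Polynomial Finset

lemma discr_map_field {K L : Type*} [Field K] [CharZero K] [Field L] [CharZero L] (φ : K →+* L)
    (Q : K[X]) (hk : 0 < Q.natDegree) : (Q.map φ).discr = φ Q.discr := by
  have hQ : Q ≠ 0 := by rintro rfl; simp at hk
  have h1 := resultant_deriv (f := Q.map φ) (by
    rw [← natDegree_pos_iff_degree_pos, natDegree_map]; exact hk)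
  have h2 := resultant_deriv (f := Q) (by rw [← natDegree_pos_iff_degree_pos]; exact hk)
  rw [derivative_map, resultant_map_map, natDegree_map, h2, map_mul, map_mul,
    leadingCoeff_map, map_pow, map_neg, map_one] at h1
  have hl : φ Q.leadingCoeff ≠ 0 := (map_ne_zero φ).mpr (leadingCoeff_ne_zero.mpr hQ)
  have hs : ((-1 : L) ^ (Q.natDegree * (Q.natDegree - 1) / 2)) ≠ 0 :=
    pow_ne_zero _ (by norm_num)
  exact (mul_left_cancel₀ (mul_ne_zero hs hl) h1).symm

/-- every non-zero polynomial over `ℚ(x)` is a scalar times a primitive polynomial over `ℚ[x]` -/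
lemma exists_primP (N : (RatFunc ℚ)[X]) (hN : N ≠ 0) :
    ∃ κ : RatFunc ℚ, ∃ N1 : ℚ[X][X], κ ≠ 0 ∧ N1.contentIdeal = ⊤ ∧
      N = C κ * N1.map (algebraMap ℚ[X] (RatFunc ℚ)) := by
  obtain ⟨b, hb, h⟩ := IsLocalization.integerNormalization_spec (nonZeroDivisors ℚ[X]) N
  set M := IsLocalization.integerNormalization (nonZeroDivisors ℚ[X]) N with hM
  let _ : NormalizedGCDMonoid ℚ[X] :=
    Classical.choice (inferInstance : Nonempty (NormalizedGCDMonoid ℚ[X]))
  have hb0 : b ≠ 0 := nonZeroDivisors.ne_zero hb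
  have hbr : algebraMap ℚ[X] (RatFunc ℚ) b ≠ 0 :=
    (map_ne_zero_iff _ (IsFractionRing.injective ℚ[X] (RatFunc ℚ))).mpr hb0
  have hM0 : M ≠ 0 := by
    intro h0
    rw [h0, Polynomial.map_zero] at h
    have h1 : N = C (algebraMap ℚ[X] (RatFunc ℚ) b)⁻¹ * (b • N) := by
      rw [← IsScalarTower.algebraMap_smul (RatFunc ℚ) b N, smul_eq_C_mul, ← mul_assoc, ← C_mul,
        inv_mul_cancel₀ hbr, C_1, one_mul]
    rw [← h, mul_zero] at h1
    exact hN h1
  have hc : M.content ≠ 0 := by rwa [ne_eq, content_eq_zero_iff]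
  have hcr : algebraMap ℚ[X] (RatFunc ℚ) M.content ≠ 0 :=
    (map_ne_zero_iff _ (IsFractionRing.injective ℚ[X] (RatFunc ℚ))).mpr hc
  refine ⟨(algebraMap ℚ[X] (RatFunc ℚ) b)⁻¹ * algebraMap ℚ[X] (RatFunc ℚ) M.content, M.primPart,
    mul_ne_zero (inv_ne_zero hbr) hcr,
    (isPrimitive_iff_contentIdeal_eq_top _).mp (isPrimitive_primPart M), ?_⟩
  have h2 := congrArg (Polynomial.map (algebraMap ℚ[X] (RatFunc ℚ))) (eq_C_content_mul_primPart M)
  rw [h, Polynomial.map_mul, map_C, ← IsScalarTower.algebraMap_smul (RatFunc ℚ) b N,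
    smul_eq_C_mul] at h2
  rw [C_mul, mul_assoc, ← h2, ← mul_assoc, ← C_mul, inv_mul_cancel₀ hbr, C_1, one_mul]

namespace CrvL

variable (E : CrvL)

/-- polynomials in `x` as elements of the function field -/
noncomputable def polK : ℚ[X] →+* E.K :=
  (algebraMap (RatFunc ℚ) E.K).comp (algebraMap ℚ[X] (RatFunc ℚ))

/-- a primitive polynomial is primitive for each valuation that is non-negative on `ℚ[x]` -/
lemma prim_of_content {Γ : Type*} [LinearOrderedCommGroupWithZero Γ] (v : Valuation E.K Γ)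
    (hv : ∀ p : ℚ[X], v (E.polK p) ≤ 1) (N : ℚ[X][X]) (hN : N.contentIdeal = ⊤) :
    PrimV v (N.map E.polK) := by
  refine ⟨fun i => by rw [coeff_map]; exact hv _, ?_⟩
  by_contra hne
  push Not at hne
  have hlt : ∀ i, v (E.polK (N.coeff i)) < 1 := by
    intro i
    have := hne i
    rw [coeff_map] at this
    exact lt_of_le_of_ne (hv _) this
  -- the set of elements of ℚ[x] with valuation less than one is an ideal
  let I : Ideal ℚ[X] :=
    { carrier := {p | v (E.polK p) < 1}
      add_mem' := by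
        intro a b ha hb
        simp only [Set.mem_ofPred_eq] at ha hb ⊢
        rw [map_add]
        exact lt_of_le_of_lt (Valuation.map_add v _ _) (max_lt ha hb)
      zero_mem' := by simp
      smul_mem' := by
        intro c x hx
        simp only [Set.mem_ofPred_eq, smul_eq_mul] at hx ⊢
        rw [map_mul, map_mul]
        calc v (E.polK c) * v (E.polK x) ≤ 1 * v (E.polK x) := mul_le_mul_left (hv c) _
          _ < 1 := by rw [one_mul]; exact hx }
  have hI : N.contentIdeal ≤ I := by
    rw [contentIdeal_def, Ideal.span_le]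
    intro a ha
    rw [Finset.mem_coe, mem_coeffs_iff] at ha
    obtain ⟨n, _, h2⟩ := ha
    rw [h2]
    exact hlt n
  rw [hN] at hI
  have h1 : (1 : ℚ[X]) ∈ I := hI Submodule.mem_top
  have h2 : v (E.polK 1) < 1 := h1
  rw [map_one, map_one] at h2
  exact lt_irrefl _ h2

/-- membership of `ℚ[x]` can be tested by valuations -/
lemma mem_of_val (r : RatFunc ℚ)
    (h : ∀ A : ValuationSubring E.K, (∀ p : ℚ[X], E.polK p ∈ A) →
      A.valuation (algebraMap (RatFunc ℚ) E.K r) ≤ 1) :
    ∃ p : ℚ[X], algebraMap ℚ[X] (RatFunc ℚ) p = r := by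
  have h1 : algebraMap (RatFunc ℚ) E.K r ∈
      (integralClosure (Subring.closure (Set.range E.polK)) E.K).toSubring := by
    rw [← iInf_valuationSubring_superset, Subring.mem_iInf]
    rintro ⟨A, hA⟩
    have := h A (fun p => hA ⟨p, rfl⟩)
    rw [ValuationSubring.valuation_le_one_iff] at this
    exact this
  have h2 : IsIntegral (Subring.closure (Set.range E.polK)) (algebraMap (RatFunc ℚ) E.K r) := h1
  have h3 : Subring.closure (Set.range E.polK) = E.polK.range := by
    rw [← RingHom.coe_range, Subring.closure_eq]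
  have h4 : E.polK.IsIntegralElem (algebraMap (RatFunc ℚ) E.K r) := by
    obtain ⟨g, hg, hg2⟩ := h2
    -- lift the coefficients
    have h5 : g.map (Subring.closure (Set.range E.polK)).subtype ∈ Polynomial.lifts E.polK := by
      rw [lifts_iff_coeff_lifts]
      intro n
      rw [coeff_map]
      have h6 : ((g.coeff n : Subring.closure (Set.range E.polK)) : E.K) ∈ E.polK.range := by
        rw [← h3]; exact (g.coeff n).2
      exact h6
    obtain ⟨q, hq1, _, hq3⟩ := lifts_and_natDegree_eq_and_monic h5 (hg.map _)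
    refine ⟨q, hq3, ?_⟩
    have h7 : eval₂ E.polK (algebraMap (RatFunc ℚ) E.K r) q =
        eval (algebraMap (RatFunc ℚ) E.K r) (q.map E.polK) := by rw [eval_map]
    rw [h7, hq1, eval_map]
    exact hg2
  -- descend to ℚ(x)
  have h8 : IsIntegral ℚ[X] r := by
    obtain ⟨q, hq1, hq2⟩ := h4
    refine ⟨q, hq1, ?_⟩
    apply (algebraMap (RatFunc ℚ) E.K).injective
    rw [map_zero, hom_eval₂]
    exact hq2
  exact IsIntegrallyClosed.isIntegral_iff.mp h8

end CrvL

end Pool.Agent.W273.Z
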