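import Mathlib

/-!
Many linearly independent small integer solutions of a system of linear equations.
-/

set_option autoImplicit false

namespace Pool.Agent.W273.Z

open Finset Matrix

attribute [local instance] Matrix.normedAddCommGroup Matrix.seminormedAddCommGroup

/-- one solution, with a crude bound -/
lemma siegel_one {α β : Type} [Fintype α] [Fintype β] (A : Matrix α β ℤ) (B : ℕ) (hB : 1 ≤ B)
    (hA : ∀ i j, |A i j| ≤ B) (hn : Fintype.card α < Fintype.card β) :
    ∃ t : β → ℤ, t ≠ 0 ∧ A *ᵥ t = 0 ∧ ∀ j, |t j| ≤ ((Fintype.card β * B : ℕ) : ℤ) ^ (Fintype.card β) := by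
  classical
  rcases Nat.eq_zero_or_pos (Fintype.card α) with h0 | hm
  · have hβ : 0 < Fintype.card β := by omega
    have : Nonempty β := Fintype.card_pos_iff.mp hβ
    have : IsEmpty α := Fintype.card_eq_zero_iff.mp h0
    refine ⟨fun _ => 1, ?_, ?_, ?_⟩
    · intro h
      have := congrFun h (Classical.arbitrary β)
      simp at this
    · ext i; exact isEmptyElim i
    · intro j
      rw [abs_one]
      apply one_le_pow₀
      have : 1 ≤ Fintype.card β * B := Nat.mul_pos hβ hB
      exact_mod_cast this
  · obtain ⟨t, ht0, hAt, hle⟩ := Int.Matrix.exists_ne_zero_int_vec_norm_le A hn hm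
    refine ⟨t, ht0, hAt, ?_⟩
    have hnorm : ‖A‖ ≤ B := by
      rw [Matrix.norm_le_iff (by positivity)]
      intro i j
      rw [Int.norm_eq_abs]
      exact_mod_cast hA i j
    have hBR : (1 : ℝ) ≤ B := by exact_mod_cast hB
    have hmax : max 1 ‖A‖ ≤ B := max_le hBR hnorm
    have hcard : (1 : ℝ) ≤ Fintype.card β := by
      have : 1 ≤ Fintype.card β := by omega
      exact_mod_cast this
    have hbase : (1 : ℝ) ≤ Fintype.card β * B := by nlinarith
    have hαβ : (Fintype.card α : ℝ) + 1 ≤ Fintype.card β := by exact_mod_cast hn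
    have hexp : (Fintype.card α : ℝ) / (Fintype.card β - Fintype.card α) ≤ (Fintype.card β : ℝ) := by
      rw [div_le_iff₀ (by linarith)]
      nlinarith
    have key : ‖t‖ ≤ ((Fintype.card β : ℝ) * B) ^ (Fintype.card β) := by
      calc ‖t‖ ≤ ((Fintype.card β : ℝ) * max 1 ‖A‖) ^
            ((Fintype.card α : ℝ) / (Fintype.card β - Fintype.card α)) := hle
        _ ≤ ((Fintype.card β : ℝ) * B) ^ ((Fintype.card α : ℝ) / (Fintype.card β - Fintype.card α)) := by
            apply Real.rpow_le_rpow (by positivity)
            · exact mul_le_mul_of_nonneg_left hmax (by positivity)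
            · apply div_nonneg (by positivity) (by linarith)
        _ ≤ ((Fintype.card β : ℝ) * B) ^ (Fintype.card β : ℝ) :=
            Real.rpow_le_rpow_of_exponent_le hbase hexp
        _ = _ := Real.rpow_natCast _ _
    intro j
    have h1 : ‖t j‖ ≤ ‖t‖ := norm_le_pi_norm t j
    rw [Int.norm_eq_abs] at h1
    have h2 := h1.trans key
    exact_mod_cast h2

/-- **many solutions**: a triangular family -/
lemma siegel_many {α β : Type} [Fintype α] [Fintype β] (A : Matrix α β ℤ) (B : ℕ) (hB : 1 ≤ B)
    (hA : ∀ i j, |A i j| ≤ B) (k : ℕ) (hk : Fintype.card α + k ≤ Fintype.card β) :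
    ∃ t : Fin k → β → ℤ, (∀ i, A *ᵥ t i = 0) ∧
      (∀ i j, |t i j| ≤ ((Fintype.card β * B : ℕ) : ℤ) ^ (Fintype.card β)) ∧
      ∃ c : Fin k → β, (∀ i, t i (c i) ≠ 0) ∧ ∀ i i', i' < i → t i (c i') = 0 := by
  classical
  induction k with
  | zero => exact ⟨fun i => Fin.elim0 i, fun i => Fin.elim0 i, fun i => Fin.elim0 i,
      fun i => Fin.elim0 i, fun i => Fin.elim0 i, fun i => Fin.elim0 i⟩
  | succ k ih =>
    obtain ⟨t, h1, h2, c, h3, h4⟩ := ih (by omega)
    -- the enlarged system
    let A' : Matrix (α ⊕ Fin k) β ℤ := Matrix.of (Sum.elim (fun i j => A i j)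
      (fun i j => if j = c i then 1 else 0))
    have hA' : ∀ i j, |A' i j| ≤ B := by
      intro i j
      rcases i with i | i
      · exact hA i j
      · change |(if j = c i then (1 : ℤ) else 0)| ≤ B
        have hBZ : (1 : ℤ) ≤ B := by exact_mod_cast hB
        split_ifs
        · rw [abs_one]; exact hBZ
        · rw [abs_zero]; linarith
    obtain ⟨s, hs0, hs1, hs2⟩ := siegel_one A' B hB hA' (by
      rw [Fintype.card_sum, Fintype.card_fin]; omega)
    obtain ⟨j0, hj0⟩ : ∃ j, s j ≠ 0 := by
      by_contra h
      push Not at h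
      exact hs0 (funext h)
    have hsA : A *ᵥ s = 0 := by
      ext i
      have := congrFun hs1 (Sum.inl i)
      exact this
    have hsc : ∀ i : Fin k, s (c i) = 0 := by
      intro i
      have := congrFun hs1 (Sum.inr i)
      simp only [Matrix.mulVec, dotProduct, A', Matrix.of_apply, Sum.elim_inr, ite_mul, one_mul,
        zero_mul, Finset.sum_ite_eq', Finset.mem_univ, if_true, Pi.zero_apply] at this
      exact this
    refine ⟨Fin.snoc t s, ?_, ?_, Fin.snoc c j0, ?_, ?_⟩
    · intro i
      refine Fin.lastCases ?_ (fun i => ?_) i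
      · rw [Fin.snoc_last]; exact hsA
      · rw [Fin.snoc_castSucc]; exact h1 i
    · intro i
      refine Fin.lastCases ?_ (fun i => ?_) i
      · rw [Fin.snoc_last]; exact hs2
      · rw [Fin.snoc_castSucc]; exact h2 i
    · intro i
      refine Fin.lastCases ?_ (fun i => ?_) i
      · rw [Fin.snoc_last, Fin.snoc_last]; exact hj0
      · rw [Fin.snoc_castSucc, Fin.snoc_castSucc]; exact h3 i
    · intro i i'
      refine Fin.lastCases ?_ (fun i => ?_) i
      · refine Fin.lastCases ?_ (fun i' => ?_) i'
        · intro h; exact absurd h (lt_irrefl _)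
        · intro _
          rw [Fin.snoc_last, Fin.snoc_castSucc]; exact hsc i'
      · refine Fin.lastCases ?_ (fun i' => ?_) i'
        · intro h
          exact absurd h (not_lt.mpr (Fin.le_last _))
        · intro h
          rw [Fin.snoc_castSucc, Fin.snoc_castSucc]
          exact h4 i i' (Fin.castSucc_lt_castSucc_iff.mp h)

/-- a triangular family is linearly independent -/
lemma triangular_indep {k : ℕ} {β : Type} {R : Type} [Field R] (t : Fin k → β → R) (c : Fin k → β)
    (h3 : ∀ i, t i (c i) ≠ 0) (h4 : ∀ i i', i' < i → t i (c i') = 0) (lam : Fin k → R)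
    (h : ∀ j, ∑ i, lam i * t i j = 0) : lam = 0 := by
  have key : ∀ i : Fin k, lam i = 0 := by
    intro i
    induction i using WellFoundedLT.induction with
    | ind i ih =>
      have h1 := h (c i)
      rw [Finset.sum_eq_single i] at h1
      · exact (mul_eq_zero.mp h1).resolve_right (h3 i)
      · intro i' _ hne
        rcases lt_or_gt_of_ne hne with hlt | hgt
        · rw [ih i' hlt, zero_mul]
        · rw [h4 i' i hgt, mul_zero]
      · intro hi; exact absurd (Finset.mem_univ i) hi
  exact funext key

end Pool.Agent.W273.Z
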