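import Pool.Agent.W273.Z.Ht

/-!
Sizes of the auxiliary polynomials at the real point.
-/

set_option autoImplicit false

namespace Pool.Agent.W273.Z

open Polynomial Finset

lemma sum_even (a : ℕ → ℝ) (h : ∀ k, a (2 * k + 1) = 0) (N : ℕ) :
    ∑ m ∈ range (2 * N + 1), a m = ∑ i ∈ range (N + 1), a (2 * i) := by
  induction N with
  | zero => simp
  | succ N ih =>
    rw [show 2 * (N + 1) + 1 = (2 * N + 1) + 1 + 1 by ring, Finset.sum_range_succ, Finset.sum_range_succ,
      ih, h N, add_zero, Finset.sum_range_succ _ (N + 1)]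
    congr 1

namespace Par

variable (p : Par)

lemma gc_bd (H : ℕ) (hH : ∀ i, |p.f.coeff i| ≤ H) (i : ℕ) : |p.gc i| ≤ H := by
  unfold gc
  split_ifs
  · exact hH _
  · rw [abs_zero]; positivity

/-- the value of the square root -/
lemma eta_sq (x y : ℤ) (h : y ^ 2 = p.f.eval x) (w : ℝ) (hw : 0 < w) (hwx : w ^ 2 = x) :
    ((y : ℝ) / w ^ p.d) ^ 2 = ∑ m ∈ range (2 * p.d + 1), (p.gc m : ℝ) * (w⁻¹) ^ m := by
  have h1 : ∑ m ∈ range (2 * p.d + 1), (p.gc m : ℝ) * (w⁻¹) ^ m =
      ∑ i ∈ range (p.d + 1), (p.f.coeff (p.d - i) : ℝ) * (w⁻¹) ^ (2 * i) := by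
    rw [sum_even (fun m => (p.gc m : ℝ) * (w⁻¹) ^ m)]
    · apply Finset.sum_congr rfl
      intro i hi
      rw [Finset.mem_range] at hi
      have : p.gc (2 * i) = p.f.coeff (p.d - i) := by
        unfold gc
        rw [if_pos ⟨⟨i, by ring⟩, by omega⟩]
        congr 2; omega
      simp only [this]
    · intro k
      have : p.gc (2 * k + 1) = 0 := by
        unfold gc
        rw [if_neg]
        rintro ⟨⟨m, hm⟩, _⟩
        omega
      simp only [this]; push_cast; ring
  rw [h1, div_pow]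
  have hy : (y : ℝ) ^ 2 = ∑ i ∈ range (p.d + 1), (p.f.coeff i : ℝ) * (w ^ 2) ^ i := by
    have h2 : ((y ^ 2 : ℤ) : ℝ) = ((p.f.eval x : ℤ) : ℝ) := by rw [h]
    rw [eval_eq_sum_range] at h2
    push_cast at h2
    rw [h2, hwx]
    rfl
  rw [hy, ← Finset.sum_range_reflect, Finset.sum_div]
  apply Finset.sum_congr rfl
  intro i hi
  rw [Finset.mem_range] at hi
  have e1 : p.d + 1 - 1 - i = p.d - i := by omega
  rw [e1]
  have e2 : (w ^ p.d) ^ 2 = (w ^ 2) ^ (p.d - i) * w ^ (2 * i) := by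
    rw [← pow_mul, ← pow_mul, ← pow_add]
    congr 1; omega
  rw [e2, inv_pow]
  have hw2 : w ^ (2 * i) ≠ 0 := by positivity
  have hw3 : (w ^ 2) ^ (p.d - i) ≠ 0 := by positivity
  field_simp

/-- real value of the monomial, normalised -/
noncomputable def mu (η : ℝ) (i : ℕ) : ℝ := if Even i then 1 else η

/-- remainder estimate for a monomial -/
lemma mono_rem (η s B : ℝ) (hs : 0 < s) (hs1 : s ≤ 1) (hB : 1 ≤ B) (Emax : ℕ)
    (happ : ∀ M ≤ Emax, |η - ∑ m ∈ range M, (Yc p.gc m : ℝ) * s ^ m| ≤ B * s ^ M)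
    (i k E : ℕ) (hE : E ≤ Emax) :
    |s ^ k * mu η i - ∑ e ∈ range E, ((PowerSeries.coeff e (PowerSeries.X ^ k * p.pw i) : ℚ) : ℝ) * s ^ e| ≤
      B * s ^ E := by
  have hsE : 0 < s ^ E := by positivity
  unfold mu pw
  split_ifs with hev
  · -- even
    rw [mul_one]
    have h1 : ∀ e ∈ range E, ((PowerSeries.coeff e (PowerSeries.X ^ k * (1 : PowerSeries ℚ)) : ℚ) : ℝ) * s ^ e =
        if e = k then s ^ k else 0 := by
      intro e _
      rw [mul_one, PowerSeries.coeff_X_pow]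
      split_ifs with hek
      · rw [hek]; push_cast; ring
      · push_cast; ring
    rw [Finset.sum_congr rfl h1, Finset.sum_ite_eq']
    split_ifs with hk
    · rw [sub_self, abs_zero]; positivity
    · rw [Finset.mem_range, not_lt] at hk
      rw [sub_zero, abs_of_pos (by positivity)]
      calc s ^ k ≤ s ^ E := pow_le_pow_of_le_one hs.le hs1 hk
        _ ≤ B * s ^ E := by nlinarith
  · -- odd
    have h1 : ∑ e ∈ range E, ((PowerSeries.coeff e (PowerSeries.X ^ k * p.Y) : ℚ) : ℝ) * s ^ e =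
        s ^ k * ∑ m ∈ range (E - k), (Yc p.gc m : ℝ) * s ^ m := by
      rcases Nat.lt_or_ge E k with hk | hk
      · have h2 : E - k = 0 := by omega
        rw [h2, Finset.sum_range_zero, mul_zero]
        apply Finset.sum_eq_zero
        intro e he
        rw [Finset.mem_range] at he
        rw [PowerSeries.coeff_X_pow_mul', if_neg (by omega)]
        push_cast; ring
      · obtain ⟨M, rfl⟩ : ∃ M, E = k + M := ⟨E - k, by omega⟩
        rw [Finset.sum_range_add]
        have h2 : ∑ e ∈ range k, ((PowerSeries.coeff e (PowerSeries.X ^ k * p.Y) : ℚ) : ℝ) * s ^ e = 0 := by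
          apply Finset.sum_eq_zero
          intro e he
          rw [Finset.mem_range] at he
          rw [PowerSeries.coeff_X_pow_mul', if_neg (by omega)]
          push_cast; ring
        rw [h2, zero_add, Nat.add_sub_cancel_left, Finset.mul_sum]
        apply Finset.sum_congr rfl
        intro m _
        rw [PowerSeries.coeff_X_pow_mul', if_pos (by omega), Nat.add_sub_cancel_left]
        unfold Y Yps
        rw [PowerSeries.coeff_mk, pow_add]; ring
    rw [h1, ← mul_sub, abs_mul, abs_of_pos (by positivity : 0 < s ^ k)]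
    have h3 := happ (E - k) (by omega)
    calc s ^ k * |η - ∑ m ∈ range (E - k), (Yc p.gc m : ℝ) * s ^ m| ≤ s ^ k * (B * s ^ (E - k)) :=
          mul_le_mul_of_nonneg_left h3 (by positivity)
      _ = B * s ^ (k + (E - k)) := by rw [pow_add]; ring
      _ ≤ B * s ^ E := by
          apply mul_le_mul_of_nonneg_left _ (by linarith)
          exact pow_le_pow_of_le_one hs.le hs1 (by omega)

/-- value of a monomial at the integral point -/
lemma sp_mon_real (x y : ℤ) (h : y ^ 2 = p.f.eval x) (w : ℝ) (hw : 0 < w) (hwx : w ^ 2 = x) (i : ℕ)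
    (hi : p.d ≤ i) : ((p.sp x y h (p.mon i) : ℤ) : ℝ) = w ^ i * mu ((y : ℝ) / w ^ p.d) i := by
  rw [sp_mon]
  unfold mu
  split_ifs with hev
  · obtain ⟨k, hk⟩ := hev
    push_cast
    rw [← hwx, ← pow_mul, mul_one]
    congr 1; omega
  · rw [Nat.not_even_iff_odd] at hev
    obtain ⟨a, ha⟩ := hev
    obtain ⟨b, hb⟩ := p.odd
    have hb' : p.d = 2 * b + 1 := hb
    push_cast
    rw [← hwx, ← pow_mul]
    have h1 : w ^ i = w ^ (2 * ((i - p.d) / 2)) * w ^ p.d := by
      rw [← pow_add]; congr 1; omega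
    rw [h1]
    have : w ^ p.d ≠ 0 := by positivity
    field_simp

/-- the row of the specialised matrix -/
noncomputable def row (n N : ℕ) (t : Bx n N → ℤ) (x y : ℤ) (h : y ^ 2 = p.f.eval x) : Fin (n + 1) → ℝ :=
  fun l => (p.sp x y h (p.cf n N t l) : ℝ)

/-- Hasse derivatives at the real point -/
lemma hasse_row (n N : ℕ) (t : Bx n N → ℤ) (x y : ℤ) (h : y ^ 2 = p.f.eval x) (w : ℝ) (hw : 0 < w)
    (hwx : w ^ 2 = x) (j : ℕ) (hj : j ≤ n) :
    (hasseDeriv j (poly n (p.row n N t x y h))).eval w = w ^ (N + n + p.d - j) *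
      ∑ q : Bx n N, ((q.1.1.choose j : ℝ) * t q) * (w⁻¹ ^ q.2.1 * mu ((y : ℝ) / w ^ p.d) (p.io n N q)) := by
  rw [poly_apply, map_sum, eval_finsetSum, Finset.mul_sum, Fintype.sum_sigma]
  apply Finset.sum_congr rfl
  intro l _
  rw [hasseDeriv_monomial, eval_monomial]
  unfold row cf
  rw [map_sum]
  push_cast
  rw [Finset.mul_sum, Finset.sum_mul]
  apply Finset.sum_congr rfl
  intro k _
  rw [RingHom.map_mul (p.sp x y h), map_intCast]
  push_cast
  rw [p.sp_mon_real x y h w hw hwx _ (p.io_ge n N _)]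
  rcases Nat.lt_or_ge l.1 j with hl | hl
  · rw [Nat.choose_eq_zero_of_lt hl]; push_cast; ring
  · have hio := p.io_add n N ⟨l, k⟩
    simp only at hio
    have h1 : w ^ p.io n N ⟨l, k⟩ * w ^ (l.1 - j) = w ^ (N + n + p.d - j) * w⁻¹ ^ k.1 := by
      have h2 : w ^ (N + n + p.d - j) = w ^ p.io n N ⟨l, k⟩ * w ^ (l.1 - j) * w ^ k.1 := by
        rw [← pow_add, ← pow_add]; congr 1; omega
      rw [h2, inv_pow]
      have : w ^ k.1 ≠ 0 := by positivity
      field_simp
    calc _ = (l.1.choose j : ℝ) * t ⟨l, k⟩ * (w ^ p.io n N ⟨l, k⟩ * w ^ (l.1 - j)) *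
          mu ((y : ℝ) / w ^ p.d) (p.io n N ⟨l, k⟩) := by ring
      _ = _ := by rw [h1]; ring

/-- the main estimate -/
lemma c_bound (n N : ℕ) (W v0 : ℝ) (t : Bx n N → ℤ) (T B : ℝ) (hT : ∀ q, |(t q : ℝ)| ≤ T) (hB : 1 ≤ B)
    (Emax : ℕ)
    (hker : ∀ j ≤ n, ∀ e < En p.d n N W v0 j, PowerSeries.coeff e (p.Cs n N (fun q => (t q : ℚ)) j) = 0)
    (hEmax : ∀ j ≤ n, En p.d n N W v0 j ≤ Emax)
    (x y : ℤ) (h : y ^ 2 = p.f.eval x) (w : ℝ) (hw1 : 1 ≤ w) (hwx : w ^ 2 = x)
    (happ : ∀ M ≤ Emax, |(y : ℝ) / w ^ p.d - ∑ m ∈ range M, (Yc p.gc m : ℝ) * w⁻¹ ^ m| ≤ B * w⁻¹ ^ M)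
    (j : ℕ) (hj : j ≤ n) :
    |(hasseDeriv j (poly n (p.row n N t x y h))).eval w| ≤
      ((n + 1) * (N + n + 1) * 2 ^ n * T * B) * w ^ (j * W - v0) := by
  have hw : 0 < w := by linarith
  set s : ℝ := w⁻¹ with hs
  have hs0 : 0 < s := by positivity
  have hs1 : s ≤ 1 := inv_le_one_of_one_le₀ hw1
  set E := En p.d n N W v0 j with hE
  set η : ℝ := (y : ℝ) / w ^ p.d with hη
  have hT0 : 0 ≤ T := by
    have hq : Nonempty (Bx n N) := ⟨⟨⟨0, by omega⟩, ⟨0, by simp only; omega⟩⟩⟩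
    exact (abs_nonneg _).trans (hT (Classical.arbitrary _))
  rw [p.hasse_row n N t x y h w hw hwx j hj]
  -- the sum
  have hsum : |∑ q : Bx n N, ((q.1.1.choose j : ℝ) * t q) * (s ^ q.2.1 * mu η (p.io n N q))| ≤
      ((n + 1) * (N + n + 1) * 2 ^ n * T * B) * s ^ E := by
    have h0 : ∑ q : Bx n N, ((q.1.1.choose j : ℝ) * t q) *
        ∑ e ∈ range E, ((PowerSeries.coeff e (PowerSeries.X ^ q.2.1 * p.pw (p.io n N q)) : ℚ) : ℝ) * s ^ e = 0 := by
      simp only [Finset.mul_sum]
      rw [Finset.sum_comm]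
      apply Finset.sum_eq_zero
      intro e he
      rw [Finset.mem_range] at he
      have h1 := hker j hj e he
      unfold Cs at h1
      rw [map_sum] at h1
      have h2 : ∑ q : Bx n N, ((q.1.1.choose j : ℝ) * t q) *
          ((PowerSeries.coeff e (PowerSeries.X ^ q.2.1 * p.pw (p.io n N q)) : ℚ) : ℝ) = 0 := by
        have h3 := congrArg (fun r : ℚ => (r : ℝ)) h1
        simp only [PowerSeries.coeff_C_mul] at h3
        push_cast at h3
        exact h3
      have h4 : ∑ q : Bx n N, ((q.1.1.choose j : ℝ) * t q) *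
          (((PowerSeries.coeff e (PowerSeries.X ^ q.2.1 * p.pw (p.io n N q)) : ℚ) : ℝ) * s ^ e) =
          (∑ q : Bx n N, ((q.1.1.choose j : ℝ) * t q) *
          ((PowerSeries.coeff e (PowerSeries.X ^ q.2.1 * p.pw (p.io n N q)) : ℚ) : ℝ)) * s ^ e := by
        rw [Finset.sum_mul]
        exact Finset.sum_congr rfl fun q _ => by ring
      rw [h4, h2, zero_mul]
    have h1 : ∑ q : Bx n N, ((q.1.1.choose j : ℝ) * t q) * (s ^ q.2.1 * mu η (p.io n N q)) =
        ∑ q : Bx n N, ((q.1.1.choose j : ℝ) * t q) * (s ^ q.2.1 * mu η (p.io n N q) -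
          ∑ e ∈ range E, ((PowerSeries.coeff e (PowerSeries.X ^ q.2.1 * p.pw (p.io n N q)) : ℚ) : ℝ) * s ^ e) := by
      rw [← sub_zero (∑ q : Bx n N, ((q.1.1.choose j : ℝ) * t q) * (s ^ q.2.1 * mu η (p.io n N q))), ← h0,
        ← Finset.sum_sub_distrib]
      exact Finset.sum_congr rfl fun q _ => by ring
    rw [h1]
    calc _ ≤ ∑ q : Bx n N, |((q.1.1.choose j : ℝ) * t q) * (s ^ q.2.1 * mu η (p.io n N q) -
          ∑ e ∈ range E, ((PowerSeries.coeff e (PowerSeries.X ^ q.2.1 * p.pw (p.io n N q)) : ℚ) : ℝ) * s ^ e)| :=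
          Finset.abs_sum_le_sum_abs _ _
      _ ≤ ∑ _q : Bx n N, (2 ^ n * T) * (B * s ^ E) := by
          apply Finset.sum_le_sum
          intro q _
          rw [abs_mul]
          apply mul_le_mul _ (p.mono_rem η s B hs0 hs1 hB Emax happ _ _ E (hEmax j hj)) (abs_nonneg _)
            (by positivity)
          rw [abs_mul]
          apply mul_le_mul _ (hT q) (abs_nonneg _) (by positivity)
          rw [abs_of_nonneg (by positivity)]
          have h5 : q.1.1.choose j ≤ 2 ^ n := by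
            calc q.1.1.choose j ≤ 2 ^ q.1.1 := Nat.choose_le_two_pow _ _
              _ ≤ 2 ^ n := Nat.pow_le_pow_right (by norm_num) (by have := q.1.2; omega)
          exact_mod_cast h5
      _ = (Fintype.card (Bx n N) : ℝ) * ((2 ^ n * T) * (B * s ^ E)) := by
          rw [Finset.sum_const, Finset.card_univ, nsmul_eq_mul]
      _ ≤ ((n + 1) * (N + n + 1)) * ((2 ^ n * T) * (B * s ^ E)) := by
          apply mul_le_mul_of_nonneg_right _ (by positivity)
          have h6 : Fintype.card (Bx n N) ≤ (n + 1) * (N + n + 1) := by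
            rw [Fintype.card_sigma]
            calc _ ≤ ∑ _l : Fin (n + 1), (N + n + 1) := by
                  apply Finset.sum_le_sum
                  intro l _
                  rw [Fintype.card_fin]; omega
              _ = _ := by rw [Finset.sum_const, Finset.card_univ, Fintype.card_fin, smul_eq_mul]
          exact_mod_cast h6
      _ = _ := by ring
  rw [abs_mul, abs_of_pos (by positivity : 0 < w ^ (N + n + p.d - j))]
  calc _ ≤ w ^ (N + n + p.d - j) * (((n + 1) * (N + n + 1) * 2 ^ n * T * B) * s ^ E) :=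
        mul_le_mul_of_nonneg_left hsum (by positivity)
    _ = ((n + 1) * (N + n + 1) * 2 ^ n * T * B) * (w ^ (N + n + p.d - j) * s ^ E) := by ring
    _ ≤ _ := by
        apply mul_le_mul_of_nonneg_left _ (by positivity)
        have h7 : w ^ (N + n + p.d - j) * s ^ E = w ^ (((N + n + p.d - j : ℕ) : ℝ) - (E : ℝ)) := by
          rw [Real.rpow_sub hw, Real.rpow_natCast, Real.rpow_natCast, hs, inv_pow]
          rfl
        rw [h7]
        apply Real.rpow_le_rpow_of_exponent_le hw1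
        have h8 : (N + n + p.d : ℝ) - j + v0 - j * W ≤ E := Nat.le_ceil _
        rw [Nat.cast_sub (by omega)]
        push_cast
        linarith

end Par

end Pool.Agent.W273.Z
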