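import Pool.Agent.W273.Z.Par
import Pool.Agent.W273.Z.Siegel

/-!
The linear system of the auxiliary polynomials.
-/

set_option autoImplicit false

namespace Pool.Agent.W273.Z

open Polynomial Finset

/-- unknowns -/
abbrev Bx (n N : ℕ) : Type := Σ l : Fin (n + 1), Fin (N + n + 1 - l.1)

/-- number of conditions in degree `j` -/
noncomputable def En (d n N : ℕ) (W v0 : ℝ) (j : ℕ) : ℕ := ⌈(N + n + d : ℝ) - j + v0 - j * W⌉₊

/-- conditions -/
abbrev Jx (d n N : ℕ) (W v0 : ℝ) : Type := Σ j : Fin (n + 1), Fin (En d n N W v0 j.1)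

namespace Par

variable (p : Par)

/-- pole order of the monomial with index `q` -/
def io (n N : ℕ) (q : Bx n N) : ℕ := N + n + p.d - q.1.1 - q.2.1

lemma io_ge (n N : ℕ) (q : Bx n N) : p.d ≤ p.io n N q := by
  unfold io
  have h1 := q.1.2
  have h2 := q.2.2
  omega

lemma io_add (n N : ℕ) (q : Bx n N) : p.io n N q + q.1.1 + q.2.1 = N + n + p.d := by
  unfold io
  have h1 := q.1.2
  have h2 := q.2.2
  omega

/-- integer coefficients of `4ᵉ` times the expansion of a monomial -/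
def ac (i k e : ℕ) : ℤ :=
  if Even i then (if e = k then 4 ^ e else 0) else (if k ≤ e then 4 ^ k * yy p.gc (e - k) else 0)

lemma ac_eq (i k e : ℕ) :
    (p.ac i k e : ℚ) = 4 ^ e * PowerSeries.coeff e (PowerSeries.X ^ k * p.pw i) := by
  unfold ac pw
  split_ifs with h1 h2 h2
  · rw [mul_one, PowerSeries.coeff_X_pow, if_pos h2]; push_cast; ring
  · rw [mul_one, PowerSeries.coeff_X_pow, if_neg h2]; simp
  · rw [PowerSeries.coeff_X_pow_mul', if_pos h2]
    unfold Y Yps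
    rw [PowerSeries.coeff_mk]
    unfold Yc
    have h3 : (4 : ℚ) ^ e = 4 ^ k * 4 ^ (e - k) := by rw [← pow_add]; congr 1; omega
    rw [h3]
    push_cast
    field_simp
  · rw [PowerSeries.coeff_X_pow_mul', if_neg h2]; simp

/-- the matrix of the linear system -/
noncomputable def A (n N : ℕ) (W v0 : ℝ) : Matrix (Jx p.d n N W v0) (Bx n N) ℤ :=
  fun c q => (q.1.1.choose c.1.1 : ℤ) * p.ac (p.io n N q) q.2.1 c.2.1

/-- the expansions -/
noncomputable def Cs (n N : ℕ) (u : Bx n N → ℚ) (j : ℕ) : PowerSeries ℚ :=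
  ∑ q : Bx n N, PowerSeries.C ((q.1.1.choose j : ℚ) * u q) * (PowerSeries.X ^ q.2.1 * p.pw (p.io n N q))

lemma coeff_Cs (n N : ℕ) (u : Bx n N → ℚ) (j e : ℕ) : 4 ^ e * PowerSeries.coeff e (p.Cs n N u j) =
    ∑ q : Bx n N, ((q.1.1.choose j : ℚ) * p.ac (p.io n N q) q.2.1 e) * u q := by
  unfold Cs
  rw [map_sum, Finset.mul_sum]
  apply Finset.sum_congr rfl
  intro q _
  rw [PowerSeries.coeff_C_mul, p.ac_eq]; ring

lemma Cs_of_ker (n N : ℕ) (W v0 : ℝ) (t : Bx n N → ℤ) (ht : (p.A n N W v0).mulVec t = 0) (j : ℕ)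
    (hj : j ≤ n) (e : ℕ) (he : e < En p.d n N W v0 j) :
    PowerSeries.coeff e (p.Cs n N (fun q => (t q : ℚ)) j) = 0 := by
  have h1 := congrFun ht ⟨⟨j, by omega⟩, ⟨e, he⟩⟩
  have h2 := p.coeff_Cs n N (fun q => (t q : ℚ)) j e
  have h3 : ∑ q : Bx n N, ((q.1.1.choose j : ℚ) * p.ac (p.io n N q) q.2.1 e) * (t q : ℚ) = 0 := by
    simp only [Matrix.mulVec, dotProduct, A, Pi.zero_apply] at h1
    exact_mod_cast h1
  rw [h3] at h2
  exact (mul_eq_zero.mp h2).resolve_left (by positivity)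

/-- rational constants in the function field -/
noncomputable def cK : ℚ →+* p.E.K := p.E.polK.comp Polynomial.C

lemma ι_cK (c : ℚ) : p.E.ι (p.cK c) = HahnSeries.C c := by
  unfold cK CrvL.polK
  rw [RingHom.comp_apply, RingHom.comp_apply, CrvL.ι_algebraMap, ratL_algebraMap]
  unfold evP
  rw [coe_eval₂RingHom, eval₂_C]

/-- auxiliary polynomials -/
noncomputable def PQ (n N : ℕ) (u : Bx n N → ℚ) : p.E.K[X] :=
  ∑ q : Bx n N, monomial q.1.1 (p.cK (u q) * p.toK (p.mon (p.io n N q)))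

lemma tw_coeff (E : CrvL) (W : ℝ) (Q : E.K[X]) (j : ℕ) :
    (E.tw W Q).coeff j = ϖL W ^ j * (hasseDeriv j (Q.map E.ι)).eval wL := by
  unfold CrvL.tw
  have h1 : (Q.map E.ι).comp (C (ϖL W) * X + C wL) =
      (taylor wL (Q.map E.ι)).comp (C (ϖL W) * X) := by
    rw [taylor_apply, comp_assoc]
    simp
  rw [h1, comp_C_mul_X_coeff, taylor_coeff]
  ring

lemma tw_PQ (n N : ℕ) (W : ℝ) (u : Bx n N → ℚ) (j : ℕ) :
    (p.E.tw W (p.PQ n N u)).coeff j =
      HahnSeries.single ((j : ℝ) * W - (N + n + p.d - j)) (1 : ℚ) * oP (p.Cs n N u j) := by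
  rw [tw_coeff]
  unfold PQ Cs
  rw [Polynomial.map_sum, map_sum, eval_finsetSum, map_sum, Finset.mul_sum, Finset.mul_sum]
  apply Finset.sum_congr rfl
  intro q _
  rw [map_monomial, hasseDeriv_monomial, eval_monomial, map_mul, p.ι_cK, p.ι_mon _ (p.io_ge n N q)]
  simp only [map_mul, oP_X_pow, oP_C]
  rcases Nat.lt_or_ge q.1.1 j with h | h
  · rw [Nat.choose_eq_zero_of_lt h]
    simp
  · have hio := p.io_add n N q
    have hio' : (p.io n N q : ℝ) = N + n + p.d - q.1.1 - q.2.1 := by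
      have : ((p.io n N q + q.1.1 + q.2.1 : ℕ) : ℝ) = ((N + n + p.d : ℕ) : ℝ) := by rw [hio]
      push_cast at this
      linarith
    unfold ϖL wL
    rw [HahnSeries.single_pow, HahnSeries.single_pow, one_pow, one_pow]
    have h2 : ((q.1.1.choose j : ℕ) : LL) = HahnSeries.C ((q.1.1.choose j : ℕ) : ℚ) := by
      rw [map_natCast]
    rw [h2]
    have h3 : (HahnSeries.single ((j • W : ℝ)) (1 : ℚ) : LL) *
        (HahnSeries.single (-(p.io n N q : ℝ)) (1 : ℚ) * HahnSeries.single ((q.1.1 - j) • (-1 : ℝ)) (1 : ℚ)) =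
        HahnSeries.single ((j : ℝ) * W - (N + n + p.d - j)) (1 : ℚ) * HahnSeries.single (q.2.1 : ℝ) (1 : ℚ) := by
      rw [HahnSeries.single_mul_single, HahnSeries.single_mul_single, HahnSeries.single_mul_single,
        one_mul]
      have h4 : (j • W + (-(p.io n N q : ℝ) + (q.1.1 - j) • (-1 : ℝ))) =
          ((j : ℝ) * W - (N + n + p.d - j)) + (q.2.1 : ℝ) := by
        rw [hio', nsmul_eq_mul, nsmul_eq_mul, Nat.cast_sub h]
        ring
      rw [h4]
    calc _ = HahnSeries.C ((q.1.1.choose j : ℕ) : ℚ) * HahnSeries.C (u q) *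
          ((HahnSeries.single ((j • W : ℝ)) (1 : ℚ) : LL) *
          (HahnSeries.single (-(p.io n N q : ℝ)) (1 : ℚ) *
            HahnSeries.single ((q.1.1 - j) • (-1 : ℝ)) (1 : ℚ))) * oP (p.pw (p.io n N q)) := by ring
      _ = _ := by rw [h3]; ring

lemma oP_coeff_zero (F : PowerSeries ℚ) (E : ℕ) (h : ∀ e < E, PowerSeries.coeff e F = 0) (r : ℝ)
    (hr : r < E) : (oP F).coeff r = 0 := by
  unfold oP
  by_cases hm : ∃ m : ℕ, (m : ℝ) = r
  · obtain ⟨m, rfl⟩ := hm
    rw [HahnSeries.ofPowerSeries_apply_coeff]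
    exact h m (by exact_mod_cast hr)
  · rw [HahnSeries.ofPowerSeries_apply]
    apply HahnSeries.embDomain_of_notMem_range
    rintro ⟨m, hm'⟩
    exact hm ⟨m, hm'⟩

/-- kernel vectors have large order -/
lemma order_of_ker (n N : ℕ) (W v0 : ℝ) (u : Bx n N → ℚ)
    (hu : ∀ j ≤ n, ∀ e < En p.d n N W v0 j, PowerSeries.coeff e (p.Cs n N u j) = 0) (j : ℕ) (e : ℝ)
    (he : e < v0) : ((p.E.tw W (p.PQ n N u)).coeff j).coeff e = 0 := by
  rcases Nat.lt_or_ge n j with hj | hj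
  · have : p.Cs n N u j = 0 := by
      unfold Cs
      apply Finset.sum_eq_zero
      intro q _
      rw [Nat.choose_eq_zero_of_lt (by have := q.1.2; omega)]
      simp
    rw [tw_PQ, this, map_zero, mul_zero, HahnSeries.coeff_zero]
  · rw [tw_PQ]
    set a : ℝ := (j : ℝ) * W - (N + n + p.d - j) with ha
    have h1 : e = (e - a) + a := by ring
    rw [h1, HahnSeries.coeff_single_mul_add, one_mul]
    apply oP_coeff_zero _ _ (hu j hj)
    have h2 : (N + n + p.d : ℝ) - j + v0 - j * W ≤ En p.d n N W v0 j := Nat.le_ceil _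
    rw [ha]
    linarith

end Par

end Pool.Agent.W273.Z
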