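import Pool.Agent.W273.Z.NormP

/-!
The zero estimate: a polynomial over the coordinate ring cannot have a large weighted order at `√x`.
-/

set_option autoImplicit false

namespace Pool.Agent.W273.Z

open Polynomial Finset

instance : CharZero LL :=
  charZero_of_injective_ringHom (f := (HahnSeries.C : ℚ →+* LL)) (RingHom.injective _)

/-- the element of order `W` -/
noncomputable def ϖL (W : ℝ) : LL := HahnSeries.single W (1 : ℚ)

lemma ϖL_ne (W : ℝ) : ϖL W ≠ 0 := HahnSeries.single_ne_zero one_ne_zero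

lemma order_ϖL (W : ℝ) : (ϖL W).order = W := HahnSeries.order_single one_ne_zero

lemma wL_ne : wL ≠ 0 := HahnSeries.single_ne_zero one_ne_zero

lemma order_wL : wL.order = -1 := HahnSeries.order_single one_ne_zero

namespace CrvL

variable (E : CrvL)

/-- the polynomial, moved to Hahn series, shifted to `w` and rescaled -/
noncomputable def tw (W : ℝ) (Q : E.K[X]) : LL[X] := (Q.map E.ι).comp (C (ϖL W) * X + C wL)

/-- conjugate polynomial -/
noncomputable def cj (Q : E.K[X]) : E.K[X] := Q.map (starRingEnd E.K)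

/-- the key property -/
def G (W : ℝ) (Q : E.K[X]) : Prop :=
  ∃ c : LL, ∃ κ : RatFunc ℚ, ∃ Q1 : LL[X], ∃ N1 : ℚ[X][X], c ≠ 0 ∧ κ ≠ 0 ∧ PrimV vL Q1 ∧
    E.tw W Q = C c * Q1 ∧ N1.contentIdeal = ⊤ ∧
    Q * E.cj Q = C (algebraMap (RatFunc ℚ) E.K κ) * N1.map E.polK ∧
    c.order + κ.intDegree ≤ Q.natDegree * (W / 2)

lemma G_mul (W : ℝ) {P Q : E.K[X]} (hP0 : P ≠ 0) (hQ0 : Q ≠ 0) (hP : E.G W P) (hQ : E.G W Q) :
    E.G W (P * Q) := by
  obtain ⟨c, κ, P1, N1, hc, hκ, hprim, htw, hN1, hN, hle⟩ := hP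
  obtain ⟨c', κ', Q1, N1', hc', hκ', hprim', htw', hN1', hN', hle'⟩ := hQ
  refine ⟨c * c', κ * κ', P1 * Q1, N1 * N1', mul_ne_zero hc hc', mul_ne_zero hκ hκ',
    hprim.mul hprim', ?_, contentIdeal_mul_eq_top_of_contentIdeal_eq_top hN1 hN1', ?_, ?_⟩
  · unfold tw at htw htw' ⊢
    rw [Polynomial.map_mul, mul_comp, htw, htw', C_mul]; ring
  · unfold cj at hN hN' ⊢
    rw [Polynomial.map_mul, Polynomial.map_mul, map_mul, C_mul]
    calc _ = (P * P.map (starRingEnd E.K)) * (Q * Q.map (starRingEnd E.K)) := by ring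
      _ = _ := by rw [hN, hN']; ring
  · rw [HahnSeries.order_mul hc hc', RatFunc.intDegree_mul hκ hκ', natDegree_mul hP0 hQ0]
    push_cast
    linarith

lemma G_C (W : ℝ) {u : E.K} (hu : u ≠ 0) : E.G W (C u) := by
  refine ⟨E.ι u, QuadraticAlgebra.norm u, 1, 1, E.ι_ne hu, E.norm_ne hu, ?_, ?_, ?_, ?_, ?_⟩
  · refine ⟨fun i => ?_, 0, by simp⟩
    rw [coeff_one]
    split_ifs
    · rw [map_one]
    · rw [map_zero]; exact zero_le_one
  · unfold tw
    rw [map_C, C_comp, mul_one]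
  · exact contentIdeal_one
  · unfold cj
    rw [map_C, Polynomial.map_one, mul_one, ← C_mul, starRingEnd_apply,
      ← QuadraticAlgebra.algebraMap_norm_eq_mul_star]
  · rw [E.order_ι hu, natDegree_C]
    simp

/-- the coefficients of the norm polynomial are rational functions -/
lemma exists_norm (Q : E.K[X]) : ∃ N : (RatFunc ℚ)[X], N.map (algebraMap (RatFunc ℚ) E.K) = Q * E.cj Q := by
  have h : Q * E.cj Q ∈ Polynomial.lifts (algebraMap (RatFunc ℚ) E.K) := by
    rw [lifts_iff_coeff_lifts]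
    intro n
    refine ⟨((Q * E.cj Q).coeff n).re, ?_⟩
    have hst : star ((Q * E.cj Q).coeff n) = (Q * E.cj Q).coeff n := by
      have h1 : (Q * E.cj Q).map (starRingEnd E.K) = Q * E.cj Q := by
        unfold cj
        rw [Polynomial.map_mul, Polynomial.map_map]
        have : (starRingEnd E.K).comp (starRingEnd E.K) = RingHom.id E.K := by
          ext z <;> simp
        rw [this, Polynomial.map_id, mul_comm]
      have h2 := congrArg (fun P => P.coeff n) h1
      simp only [coeff_map, starRingEnd_apply] at h2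
      exact h2
    have him : ((Q * E.cj Q).coeff n).im = 0 := by
      have h3 := congrArg QuadraticAlgebra.im hst
      rw [QuadraticAlgebra.im_star] at h3
      exact self_eq_neg.mp h3.symm
    ext
    · rw [QuadraticAlgebra.algebraMap_re]
    · rw [QuadraticAlgebra.algebraMap_im, him]
  obtain ⟨N, hN⟩ := h
  exact ⟨N, hN⟩

lemma exists_kappa (Q : E.K[X]) (hQ : Q ≠ 0) : ∃ κ : RatFunc ℚ, ∃ N1 : ℚ[X][X], κ ≠ 0 ∧
    N1.contentIdeal = ⊤ ∧
    Q * E.cj Q = C (algebraMap (RatFunc ℚ) E.K κ) * N1.map E.polK := by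
  obtain ⟨N, hN⟩ := E.exists_norm Q
  have hcj : E.cj Q ≠ 0 := by
    unfold cj
    rwa [ne_eq, Polynomial.map_eq_zero]
  have hN0 : N ≠ 0 := by
    rintro rfl
    rw [Polynomial.map_zero] at hN
    exact mul_ne_zero hQ hcj hN.symm
  obtain ⟨κ, N1, hκ, hN1, h⟩ := exists_primP N hN0
  refine ⟨κ, N1, hκ, hN1, ?_⟩
  rw [← hN, h, Polynomial.map_mul, map_C, Polynomial.map_map]
  rfl

/-- content inequality at the finite places, for the discriminant -/
lemma norm_discr (Q : E.K[X]) (hQ : Q ≠ 0) (hk : 0 < Q.natDegree) (κ : RatFunc ℚ) (N1 : ℚ[X][X])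
    (hκ : κ ≠ 0) (hN1 : N1.contentIdeal = ⊤)
    (hN : Q * E.cj Q = C (algebraMap (RatFunc ℚ) E.K κ) * N1.map E.polK) :
    ∃ p : ℚ[X], algebraMap ℚ[X] (RatFunc ℚ) p =
      QuadraticAlgebra.norm Q.discr / κ ^ (2 * Q.natDegree - 2) := by
  apply E.mem_of_val
  intro A hA
  set v := A.valuation with hv
  have hv1 : ∀ p : ℚ[X], v (E.polK p) ≤ 1 := by
    intro p
    rw [hv, ValuationSubring.valuation_le_one_iff]
    exact hA p
  have hcj : E.cj Q ≠ 0 := by
    unfold cj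
    rwa [ne_eq, Polynomial.map_eq_zero]
  obtain ⟨c, Q1, hc, hQ1, hcQ⟩ := exists_prim v Q hQ
  obtain ⟨c', Q1', hc', hQ1', hcQ'⟩ := exists_prim v (E.cj Q) hcj
  have hprimN := E.prim_of_content v hv1 N1 hN1
  have h1 : C (c * c') * (Q1 * Q1') = C (algebraMap (RatFunc ℚ) E.K κ) * N1.map E.polK := by
    rw [← hN, hcQ', C_mul]
    conv_rhs => rw [hcQ]
    ring
  have h2 := prim_unique (hQ1.mul hQ1') hprimN h1
  rw [map_mul] at h2
  -- discriminants
  have hd1 : Q1.natDegree = Q.natDegree := by rw [hcQ, natDegree_C_mul hc]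
  have hd2 : Q1'.natDegree = Q.natDegree := by
    have : (E.cj Q).natDegree = Q.natDegree := by unfold cj; rw [natDegree_map]
    rw [← this, hcQ', natDegree_C_mul hc']
  have h3 : v Q.discr ≤ v c ^ (2 * Q.natDegree - 2) := by
    have h4 : Q.discr = c ^ (2 * Q.natDegree - 2) * Q1.discr := by
      conv_lhs => rw [hcQ]
      rw [discr_C_mul c hc Q1 (by rw [hd1]; exact hk), hd1]
    rw [h4, map_mul, map_pow]
    calc _ ≤ v c ^ (2 * Q.natDegree - 2) * 1 := mul_le_mul_right (v_discr_le v Q1 hQ1.1) _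
      _ = _ := mul_one _
  have h3' : v (star Q.discr) ≤ v c' ^ (2 * Q.natDegree - 2) := by
    have h4 : star Q.discr = c' ^ (2 * Q.natDegree - 2) * Q1'.discr := by
      have h5 : (E.cj Q).discr = star Q.discr := by
        unfold cj
        rw [discr_map_field _ _ hk]; rfl
      rw [← h5]
      conv_lhs => rw [hcQ']
      rw [discr_C_mul c' hc' Q1' (by rw [hd2]; exact hk), hd2]
    rw [h4, map_mul, map_pow]
    calc _ ≤ v c' ^ (2 * Q.natDegree - 2) * 1 := mul_le_mul_right (v_discr_le v Q1' hQ1'.1) _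
      _ = _ := mul_one _
  have hκ' : algebraMap (RatFunc ℚ) E.K κ ≠ 0 := (_root_.map_ne_zero _).mpr hκ
  rw [map_div₀, map_pow, QuadraticAlgebra.algebraMap_norm_eq_mul_star, map_div₀, map_pow, map_mul,
    ← h2]
  have hvc : v c ≠ 0 := (Valuation.ne_zero_iff v).mpr hc
  have hvc' : v c' ≠ 0 := (Valuation.ne_zero_iff v).mpr hc'
  apply div_le_one_of_le₀
  · rw [mul_pow]
    exact mul_le_mul' h3 h3'
  · exact zero_le

/-- irreducible factors of degree at least two -/
lemma G_irr (W : ℝ) (Q : E.K[X]) (hQ : Irreducible Q) (hk : 2 ≤ Q.natDegree) : E.G W Q := by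
  have hQ0 : Q ≠ 0 := hQ.ne_zero
  have hk0 : 0 < Q.natDegree := by omega
  obtain ⟨κ, N1, hκ, hN1, hN⟩ := E.exists_kappa Q hQ0
  have htwd : (E.tw W Q).natDegree = Q.natDegree := by
    unfold tw
    rw [natDegree_comp_scale _ _ _ (ϖL_ne W), natDegree_map]
  have htw : E.tw W Q ≠ 0 := by
    intro h
    rw [h, natDegree_zero] at htwd
    omega
  obtain ⟨c, Q1, hc, hQ1, hcQ⟩ := exists_prim vL _ htw
  refine ⟨c, κ, Q1, N1, hc, hκ, hQ1, hcQ, hN1, hN, ?_⟩
  obtain ⟨p, hp⟩ := E.norm_discr Q hQ0 hk0 κ N1 hκ hN1 hN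
  have hdis : Q.discr ≠ 0 := discr_ne_zero Q hQ
  have hnd : QuadraticAlgebra.norm Q.discr ≠ 0 := E.norm_ne hdis
  have hκp : κ ^ (2 * Q.natDegree - 2) ≠ 0 := pow_ne_zero _ hκ
  -- Fact A
  have hA : ((2 * Q.natDegree - 2 : ℕ) : ℤ) * κ.intDegree ≤ (QuadraticAlgebra.norm Q.discr).intDegree := by
    have h1 : algebraMap ℚ[X] (RatFunc ℚ) p * κ ^ (2 * Q.natDegree - 2) =
        QuadraticAlgebra.norm Q.discr := by rw [hp, div_mul_cancel₀ _ hκp]
    have hp0 : algebraMap ℚ[X] (RatFunc ℚ) p ≠ 0 := by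
      rw [hp]; exact div_ne_zero hnd hκp
    have h2 : ∀ m : ℕ, (κ ^ m).intDegree = m * κ.intDegree := by
      intro m
      induction m with
      | zero => simp
      | succ m ih =>
        rw [pow_succ, RatFunc.intDegree_mul (pow_ne_zero _ hκ) hκ, ih]
        push_cast; ring
    rw [← h1, RatFunc.intDegree_mul hp0 hκp, h2, RatFunc.intDegree_polynomial]
    have : (0 : ℤ) ≤ p.natDegree := by positivity
    linarith
  -- Fact B
  have hdeg : Q1.natDegree = Q.natDegree := by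
    rw [← htwd, hcQ, natDegree_C_mul hc]
  have hB1 : (E.tw W Q).discr = ϖL W ^ (Q.natDegree * (Q.natDegree - 1)) * E.ι Q.discr := by
    unfold tw
    rw [discr_comp _ _ _ (ϖL_ne W) (by rw [natDegree_map]; exact hk0), discr_map_field _ _ hk0,
      natDegree_map]
  have hB2 : (E.tw W Q).discr = c ^ (2 * Q.natDegree - 2) * Q1.discr := by
    rw [hcQ, discr_C_mul c hc Q1 (by rw [hdeg]; exact hk0), hdeg]
  have hne1 : ϖL W ^ (Q.natDegree * (Q.natDegree - 1)) ≠ 0 := pow_ne_zero _ (ϖL_ne W)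
  have hne2 : c ^ (2 * Q.natDegree - 2) ≠ 0 := pow_ne_zero _ hc
  have hQ1d : Q1.discr ≠ 0 := by
    intro h
    rw [h, mul_zero, hB1] at hB2
    exact mul_ne_zero hne1 (E.ι_ne hdis) hB2
  have hQ1o : 0 ≤ Q1.discr.order := (vL_le_one hQ1d).mp (v_discr_le vL Q1 hQ1.1)
  have hB3 := congrArg HahnSeries.order (hB1.symm.trans hB2)
  rw [HahnSeries.order_mul hne1 (E.ι_ne hdis), HahnSeries.order_mul hne2 hQ1d, HahnSeries.order_pow,
    HahnSeries.order_pow, order_ϖL, E.order_ι hdis, nsmul_eq_mul, nsmul_eq_mul] at hB3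
  -- conclusion
  obtain ⟨m, hm⟩ : ∃ m, Q.natDegree = m + 2 := ⟨Q.natDegree - 2, by omega⟩
  rw [hm] at hA hB3 ⊢
  have e1 : 2 * (m + 2) - 2 = 2 * (m + 1) := by omega
  have e2 : m + 2 - 1 = m + 1 := by omega
  rw [e1] at hA hB3
  rw [e2] at hB3
  have hA' : ((2 * (m + 1) : ℕ) : ℝ) * κ.intDegree ≤ (QuadraticAlgebra.norm Q.discr).intDegree := by
    exact_mod_cast hA
  push_cast at hA' hB3 ⊢
  have hm1 : (0 : ℝ) < m + 1 := by positivity
  have key : 2 * ((m : ℝ) + 1) * (c.order + κ.intDegree) ≤ 2 * (m + 1) * ((m + 2) * (W / 2)) := by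
    nlinarith
  exact le_of_mul_le_mul_left key (by positivity)

end CrvL

end Pool.Agent.W273.Z
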