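import Pool.Agent.W273.Z.ZOne

/-!
Linear factors, and the zero estimate.
-/

set_option autoImplicit false

namespace Pool.Agent.W273.Z

open Polynomial Finset

namespace CrvL

variable (E : CrvL)

lemma polR_inj : Function.Injective (algebraMap ℚ[X] (RatFunc ℚ)) :=
  IsFractionRing.injective ℚ[X] (RatFunc ℚ)

/-- an element whose square times `F` is a polynomial is a polynomial (this uses that `F` is
squarefree) -/
lemma pol_of_sq (u : RatFunc ℚ) (g : ℚ[X])
    (h : algebraMap ℚ[X] (RatFunc ℚ) E.F * (u * u) = algebraMap ℚ[X] (RatFunc ℚ) g) :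
    ∃ q : ℚ[X], u = algebraMap ℚ[X] (RatFunc ℚ) q := by
  have hd : u.denom ≠ 0 := RatFunc.denom_ne_zero _
  have hdr : algebraMap ℚ[X] (RatFunc ℚ) u.denom ≠ 0 := (map_ne_zero_iff _ polR_inj).mpr hd
  have h1 : algebraMap ℚ[X] (RatFunc ℚ) u.num = u * algebraMap ℚ[X] (RatFunc ℚ) u.denom := by
    have := RatFunc.num_div_denom u
    exact (div_eq_iff hdr).mp this
  have h3 : E.F * (u.num * u.num) = g * (u.denom * u.denom) := by
    apply polR_inj
    rw [map_mul, map_mul, h1, map_mul _ g, ← h, map_mul]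
    ring
  have hcop : IsCoprime u.num u.denom := RatFunc.isCoprime_num_denom _
  have hcop2 : IsCoprime (u.denom * u.denom) (u.num * u.num) :=
    (IsCoprime.mul_left (hcop.symm.mul_right hcop.symm) (hcop.symm.mul_right hcop.symm))
  have hdvd : u.denom * u.denom ∣ E.F := by
    apply hcop2.dvd_of_dvd_mul_right
    exact ⟨g, by rw [h3]; ring⟩
  obtain ⟨v, hv⟩ := E.sqf _ hdvd
  refine ⟨u.num * (↑v⁻¹ : ℚ[X]), ?_⟩
  rw [map_mul, h1, ← hv, mul_assoc, ← map_mul, Units.mul_inv, map_one, mul_one]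

/-- representation `φ = (P + Q y) / m` -/
def Data (φ : E.K) (m P Q R : ℚ[X]) : Prop :=
  m ≠ 0 ∧ E.polK m * φ = ⟨algebraMap ℚ[X] (RatFunc ℚ) P, algebraMap ℚ[X] (RatFunc ℚ) Q⟩ ∧
    m * R = P * P - E.F * (Q * Q)

/-- linear factors -/
lemma G_of_data (W : ℝ) (φ : E.K)
    (hdata : ∀ m P Q R : ℚ[X], E.Data φ m P Q R → (W - m.natDegree ≤ W / 2 ∨
      (wL - E.ι φ ≠ 0 ∧ (wL - E.ι φ).order - m.natDegree ≤ W / 2))) : E.G W (X - C φ) := by
  have hQ0 : (X - C φ : E.K[X]) ≠ 0 := X_sub_C_ne_zero φ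
  obtain ⟨κ, N1, hκ, hN1, hN⟩ := E.exists_kappa (X - C φ) hQ0
  have htw_eq : E.tw W (X - C φ) = C (ϖL W) * X + C (wL - E.ι φ) := by
    unfold tw
    rw [Polynomial.map_sub, map_X, map_C, sub_comp, X_comp, C_comp, C_sub]
    ring
  have htw : E.tw W (X - C φ) ≠ 0 := by
    rw [htw_eq]
    intro h
    have := congrArg (fun P => P.coeff 1) h
    simp at this
    exact ϖL_ne W this
  obtain ⟨c, Q1, hc, hQ1, hcQ⟩ := exists_prim vL _ htw
  refine ⟨c, κ, Q1, N1, hc, hκ, hQ1, hcQ, hN1, hN, ?_⟩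
  rw [natDegree_X_sub_C]
  -- the coefficients
  have hc1 : ϖL W = c * Q1.coeff 1 := by
    have := congrArg (fun P => P.coeff 1) (htw_eq.symm.trans hcQ)
    simpa [coeff_C_mul] using this
  have hc0 : wL - E.ι φ = c * Q1.coeff 0 := by
    have := congrArg (fun P => P.coeff 0) (htw_eq.symm.trans hcQ)
    simpa [coeff_C_mul] using this
  have hcW : c.order ≤ W := by
    have hne : Q1.coeff 1 ≠ 0 := by
      intro h
      rw [h, mul_zero] at hc1
      exact ϖL_ne W hc1
    have h1 := congrArg HahnSeries.order hc1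
    rw [order_ϖL, HahnSeries.order_mul hc hne] at h1
    have h2 : 0 ≤ (Q1.coeff 1).order := (vL_le_one hne).mp (hQ1.1 1)
    linarith
  have hcφ : wL - E.ι φ ≠ 0 → c.order ≤ (wL - E.ι φ).order := by
    intro hw
    have hne : Q1.coeff 0 ≠ 0 := by
      intro h
      rw [h, mul_zero] at hc0
      exact hw hc0
    have h1 := congrArg HahnSeries.order hc0
    rw [HahnSeries.order_mul hc hne] at h1
    have h2 : 0 ≤ (Q1.coeff 0).order := (vL_le_one hne).mp (hQ1.1 0)
    linarith
  -- norm polynomial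
  have hcj : E.cj (X - C φ) = X - C (star φ) := by
    unfold cj
    rw [Polynomial.map_sub, map_X, map_C]; rfl
  have hprod : (X - C φ) * E.cj (X - C φ) = X ^ 2 - C (φ + star φ) * X + C (φ * star φ) := by
    rw [hcj, C_add, C_mul]; ring
  rw [hprod] at hN
  have e2 : (1 : E.K) = algebraMap (RatFunc ℚ) E.K κ * E.polK (N1.coeff 2) := by
    have := congrArg (fun P => P.coeff 2) hN
    simp only [coeff_C_mul, coeff_map, coeff_add, coeff_sub, coeff_X_pow, coeff_X, coeff_C] at this
    simpa using this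
  have e1 : -(φ + star φ) = algebraMap (RatFunc ℚ) E.K κ * E.polK (N1.coeff 1) := by
    have := congrArg (fun P => P.coeff 1) hN
    simp only [coeff_C_mul, coeff_map, coeff_add, coeff_sub, coeff_X_pow, coeff_X, coeff_C] at this
    simpa using this
  have e0 : φ * star φ = algebraMap (RatFunc ℚ) E.K κ * E.polK (N1.coeff 0) := by
    have := congrArg (fun P => P.coeff 0) hN
    simp only [coeff_C_mul, coeff_map, coeff_add, coeff_sub, coeff_X_pow, coeff_X, coeff_C] at this
    simpa using this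
  have e2' : (1 : RatFunc ℚ) = κ * algebraMap ℚ[X] (RatFunc ℚ) (N1.coeff 2) := by
    apply (algebraMap (RatFunc ℚ) E.K).injective
    rw [map_one, map_mul]; exact e2
  set m := N1.coeff 2 with hmdef
  have hm : m ≠ 0 := by
    intro h
    rw [h, map_zero, mul_zero] at e2'
    exact one_ne_zero e2'
  have hmr : algebraMap ℚ[X] (RatFunc ℚ) m ≠ 0 := (map_ne_zero_iff _ polR_inj).mpr hm
  have hdeg : κ.intDegree = -(m.natDegree : ℤ) := by
    have := congrArg RatFunc.intDegree e2'
    rw [RatFunc.intDegree_mul hκ hmr, RatFunc.intDegree_one, RatFunc.intDegree_polynomial] at this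
    linarith
  -- the data
  have f1 : algebraMap ℚ[X] (RatFunc ℚ) m * (2 * φ.re) = -algebraMap ℚ[X] (RatFunc ℚ) (N1.coeff 1) := by
    have h3 : algebraMap (RatFunc ℚ) E.K (2 * φ.re) = φ + star φ := by
      ext
      · rw [QuadraticAlgebra.algebraMap_re, QuadraticAlgebra.re_add, QuadraticAlgebra.re_star,
          zero_mul, add_zero, two_mul]
      · rw [QuadraticAlgebra.algebraMap_im, QuadraticAlgebra.im_add, QuadraticAlgebra.im_star]
        ring
    have h4 : 2 * φ.re = -(κ * algebraMap ℚ[X] (RatFunc ℚ) (N1.coeff 1)) := by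
      apply (algebraMap (RatFunc ℚ) E.K).injective
      rw [h3, map_neg, map_mul, ← neg_neg (φ + star φ), e1]
      rfl
    rw [h4]
    calc _ = -((κ * algebraMap ℚ[X] (RatFunc ℚ) m) * algebraMap ℚ[X] (RatFunc ℚ) (N1.coeff 1)) := by ring
      _ = _ := by rw [← e2', one_mul]
  have f0 : algebraMap ℚ[X] (RatFunc ℚ) m * QuadraticAlgebra.norm φ =
      algebraMap ℚ[X] (RatFunc ℚ) (N1.coeff 0) := by
    have h4 : QuadraticAlgebra.norm φ = κ * algebraMap ℚ[X] (RatFunc ℚ) (N1.coeff 0) := by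
      apply (algebraMap (RatFunc ℚ) E.K).injective
      rw [QuadraticAlgebra.algebraMap_norm_eq_mul_star, e0, map_mul]
      rfl
    rw [h4]
    calc _ = (κ * algebraMap ℚ[X] (RatFunc ℚ) m) * algebraMap ℚ[X] (RatFunc ℚ) (N1.coeff 0) := by ring
      _ = _ := by rw [← e2', one_mul]
  have h2 : algebraMap ℚ[X] (RatFunc ℚ) (C (1 / 2)) * 2 = 1 := by
    have : (2 : RatFunc ℚ) = algebraMap ℚ[X] (RatFunc ℚ) (C 2) := by
      rw [map_ofNat C 2, map_ofNat]
    rw [this, ← map_mul, ← C_mul]
    norm_num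
  obtain ⟨P, hP⟩ : ∃ P : ℚ[X], P = C (1 / 2) * -(N1.coeff 1) := ⟨_, rfl⟩
  have hre : algebraMap ℚ[X] (RatFunc ℚ) m * φ.re = algebraMap ℚ[X] (RatFunc ℚ) P := by
    rw [hP, map_mul, map_neg, ← f1]
    calc _ = (algebraMap ℚ[X] (RatFunc ℚ) (C (1 / 2)) * 2) * (algebraMap ℚ[X] (RatFunc ℚ) m * φ.re) := by
          rw [h2, one_mul]
      _ = _ := by ring
  have hnorm : QuadraticAlgebra.norm φ = φ.re * φ.re - algebraMap ℚ[X] (RatFunc ℚ) E.F * (φ.im * φ.im) := by
    rw [QuadraticAlgebra.norm_def]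
    simp only [Fr]
    ring
  have him : algebraMap ℚ[X] (RatFunc ℚ) E.F *
      ((algebraMap ℚ[X] (RatFunc ℚ) m * φ.im) * (algebraMap ℚ[X] (RatFunc ℚ) m * φ.im)) =
      algebraMap ℚ[X] (RatFunc ℚ) (P * P - m * N1.coeff 0) := by
    rw [map_sub, map_mul, map_mul, ← f0, ← hre, hnorm]
    ring
  obtain ⟨Q, hQ⟩ := E.pol_of_sq _ _ him
  have hD : E.Data φ m P Q (N1.coeff 0) := by
    refine ⟨hm, ?_, ?_⟩
    · have h5 : E.polK m = algebraMap (RatFunc ℚ) E.K (algebraMap ℚ[X] (RatFunc ℚ) m) := rfl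
      ext
      · rw [h5, QuadraticAlgebra.re_mul, QuadraticAlgebra.algebraMap_re, QuadraticAlgebra.algebraMap_im,
          mul_zero, zero_mul, add_zero, hre]
      · rw [h5, QuadraticAlgebra.im_mul, QuadraticAlgebra.algebraMap_re, QuadraticAlgebra.algebraMap_im,
          zero_mul, zero_mul, zero_mul, add_zero, add_zero, hQ]
    · apply polR_inj
      rw [hQ] at him
      rw [map_sub, map_mul, map_mul] at him
      rw [map_sub, map_mul, map_mul, map_mul, map_mul]
      rw [him]
      ring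
  rw [hdeg]
  push_cast
  rcases hdata m P Q (N1.coeff 0) hD with h | ⟨h, h'⟩
  · linarith
  · have := hcφ h
    linarith

/-- the odd part -/
noncomputable def Od (m Q : ℚ[X]) : LL := evP m * wL + -(evP Q * E.y)

lemma w_sub_eq (φ : E.K) (m P Q R : ℚ[X]) (h : E.Data φ m P Q R) :
    evP m * (wL - E.ι φ) = E.Od m Q + -(evP P) := by
  obtain ⟨_, h1, _⟩ := h
  have h2 := congrArg E.ι h1
  have h4 : E.ι (⟨algebraMap ℚ[X] (RatFunc ℚ) P, algebraMap ℚ[X] (RatFunc ℚ) Q⟩ : E.K) =
      evP P + evP Q * E.y := by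
    rw [ι_apply]
    simp only
    rw [ratL_algebraMap, ratL_algebraMap]
  rw [map_mul, h4] at h2
  have h3 : E.ι (E.polK m) = evP m := by
    change E.ι (algebraMap (RatFunc ℚ) E.K (algebraMap ℚ[X] (RatFunc ℚ) m)) = _
    rw [ι_algebraMap, ratL_algebraMap]
  rw [h3] at h2
  rw [mul_sub, h2]
  unfold Od
  ring

/-- elements with small denominators are far away from `w` -/
lemma far (φ : E.K) (m P Q R : ℚ[X]) (h : E.Data φ m P Q R)
    (hdeg : 2 * m.natDegree + 1 < E.F.natDegree) :
    wL - E.ι φ ≠ 0 ∧ (wL - E.ι φ).order ≤ -1 := by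
  have hm := h.1
  have hodd := E.odd
  have hthree := E.three
  have hmne := evP_ne_zero hm
  have hmw : evP m * wL ≠ 0 := mul_ne_zero hmne wL_ne
  have hmwo : (evP m * wL).order = -(2 * (m.natDegree : ℝ) + 1) := by
    rw [HahnSeries.order_mul hmne wL_ne, order_evP hm, order_wL]; ring
  -- the odd part
  obtain ⟨a, ha1, ha2, ha3⟩ : ∃ a : ℕ, m.natDegree + 1 ≤ a ∧ E.Od m Q ≠ 0 ∧
      (E.Od m Q).order = -(2 * (a : ℝ) - 1) := by
    unfold Od
    by_cases hq0 : Q = 0
    · refine ⟨m.natDegree + 1, le_rfl, ?_, ?_⟩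
      · rw [hq0, map_zero, zero_mul, neg_zero, add_zero]; exact hmw
      · rw [hq0, map_zero, zero_mul, neg_zero, add_zero, hmwo]; push_cast; ring
    · have hne : -(evP Q * E.y) ≠ 0 := neg_ne_zero.mpr (mul_ne_zero (evP_ne_zero hq0) E.y_ne)
      have hor : (-(evP Q * E.y)).order = -2 * (Q.natDegree : ℝ) - E.F.natDegree := by
        rw [order_neg_LL, HahnSeries.order_mul (evP_ne_zero hq0) E.y_ne, order_evP hq0, E.order_y]
        ring
      have h3 : (2 * (m.natDegree : ℝ) + 1) < E.F.natDegree := by exact_mod_cast hdeg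
      have h4 : (0 : ℝ) ≤ Q.natDegree := by positivity
      have hlt : (evP m * wL).order ≠ (-(evP Q * E.y)).order := by
        rw [hmwo, hor]; intro h; linarith
      obtain ⟨g1, g2⟩ := order_add_of_ne hmw hne hlt
      obtain ⟨k, hk⟩ := hodd
      refine ⟨Q.natDegree + k + 1, by omega, g1, ?_⟩
      rw [g2, hor, hmwo, min_eq_right (by linarith), hk]
      push_cast; ring
  have hprod := E.w_sub_eq φ m P Q R h
  have ha1' : (m.natDegree : ℝ) + 1 ≤ a := by exact_mod_cast ha1
  obtain ⟨g1, g2⟩ : E.Od m Q + -(evP P) ≠ 0 ∧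
      (E.Od m Q + -(evP P)).order ≤ -(2 * (m.natDegree : ℝ) + 1) := by
    by_cases hp0 : P = 0
    · rw [hp0, map_zero, neg_zero, add_zero]
      exact ⟨ha2, by rw [ha3]; linarith⟩
    · have hne : -(evP P) ≠ 0 := neg_ne_zero.mpr (evP_ne_zero hp0)
      have hor : (-(evP P)).order = -2 * (P.natDegree : ℝ) := by
        rw [order_neg_LL, order_evP hp0]
      have hlt : (E.Od m Q).order ≠ (-(evP P)).order := by
        rw [ha3, hor]
        intro h
        have h5 : (2 * (a : ℝ) - 1) = 2 * (P.natDegree : ℝ) := by linarith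
        have h6 : (2 * (a : ℤ) - 1) = 2 * (P.natDegree : ℤ) := by exact_mod_cast h5
        omega
      obtain ⟨g1, g2⟩ := order_add_of_ne ha2 hne hlt
      refine ⟨g1, ?_⟩
      rw [g2, ha3]
      exact (min_le_left _ _).trans (by linarith)
  rw [← hprod] at g1 g2
  have hne : wL - E.ι φ ≠ 0 := right_ne_zero_of_mul g1
  refine ⟨hne, ?_⟩
  rw [HahnSeries.order_mul hmne hne, order_evP hm] at g2
  linarith

/-- linear factors, exponents up to the degree minus one -/
lemma good_of_le (W : ℝ) (hW0 : 0 ≤ W) (hW : W ≤ E.F.natDegree - 1) (φ : E.K) :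
    E.G W (X - C φ) := by
  apply E.G_of_data
  intro m P Q R hD
  by_cases hdeg : 2 * m.natDegree + 1 < E.F.natDegree
  · right
    obtain ⟨h1, h2⟩ := E.far φ m P Q R hD hdeg
    refine ⟨h1, ?_⟩
    have : (0 : ℝ) ≤ m.natDegree := by positivity
    linarith
  · left
    push Not at hdeg
    have : (E.F.natDegree : ℝ) ≤ 2 * m.natDegree + 1 := by exact_mod_cast hdeg
    linarith

/-- linear factors, cubic case with non-vanishing constant term -/
lemma good_cubic (W : ℝ) (hW0 : 0 ≤ W) (hW : W ≤ 4) (h3 : E.F.natDegree = 3) (hc2 : E.F.coeff 2 = 0)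
    (hc0 : E.F.coeff 0 ≠ 0) (φ : E.K) : E.G W (X - C φ) := by
  rcases le_or_gt W 2 with hW2 | hW2
  · apply E.good_of_le W hW0
    rw [h3]; push_cast; linarith
  apply E.G_of_data
  intro m P Q R hD
  have hm := hD.1
  have hmne := evP_ne_zero hm
  rcases Nat.lt_or_ge m.natDegree 1 with hlt | hge
  · right
    obtain ⟨h1, h2⟩ := E.far φ m P Q R hD (by omega)
    refine ⟨h1, ?_⟩
    have : (0 : ℝ) ≤ m.natDegree := by positivity
    linarith
  rcases Nat.lt_or_ge 1 m.natDegree with hlt2 | hge2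
  · left
    have : (2 : ℝ) ≤ m.natDegree := by exact_mod_cast hlt2
    linarith
  have hm1 : m.natDegree = 1 := by omega
  right
  by_contra hcon
  -- the difference is very small
  have hbig : wL - E.ι φ = 0 ∨ 2 < (wL - E.ι φ).order := by
    by_contra h
    push Not at h
    apply hcon
    refine ⟨h.1, ?_⟩
    rw [hm1]; push_cast
    linarith [h.2]
  have hprod := E.w_sub_eq φ m P Q R hD
  have hD0 : E.Od m Q + -(evP P) = 0 ∨ 0 < (E.Od m Q + -(evP P)).order := by
    rw [← hprod]
    rcases hbig with h | h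
    · left; rw [h, mul_zero]
    · by_cases hz : wL - E.ι φ = 0
      · left; rw [hz, mul_zero]
      · right
        rw [HahnSeries.order_mul hmne hz, order_evP hm, hm1]
        push_cast
        linarith
  have hmwo : (evP m * wL).order = -3 := by
    rw [HahnSeries.order_mul hmne wL_ne, order_evP hm, order_wL, hm1]; norm_num
  have hmw : evP m * wL ≠ 0 := mul_ne_zero hmne wL_ne
  -- the odd part is not too large
  have hOd : E.Od m Q = 0 ∨ -3 < (E.Od m Q).order := by
    by_contra hh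
    push Not at hh
    obtain ⟨hO1, hO2⟩ := hh
    obtain ⟨a, ha⟩ : ∃ a : ℤ, (E.Od m Q).order = 2 * (a : ℝ) + 1 := by
      by_cases hq0 : Q = 0
      · refine ⟨-2, ?_⟩
        unfold Od
        rw [hq0, map_zero, zero_mul, neg_zero, add_zero, hmwo]; norm_num
      · have hne : -(evP Q * E.y) ≠ 0 := neg_ne_zero.mpr (mul_ne_zero (evP_ne_zero hq0) E.y_ne)
        have hor : (-(evP Q * E.y)).order = -2 * (Q.natDegree : ℝ) - 3 := by
          rw [order_neg_LL, HahnSeries.order_mul (evP_ne_zero hq0) E.y_ne, order_evP hq0, E.order_y, h3]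
          push_cast; ring
        rcases Nat.eq_zero_or_pos Q.natDegree with hq | hq
        · refine ⟨-2, ?_⟩
          rw [hq] at hor
          have h5 := HahnSeries.min_order_le_order_add hO1
          rw [hmwo, hor] at h5
          have h6 : (E.Od m Q).order = -3 := by
            apply le_antisymm hO2
            unfold Od
            refine le_trans (le_of_eq ?_) h5
            norm_num
          rw [h6]; norm_num
        · have hq' : (0 : ℝ) < Q.natDegree := by exact_mod_cast hq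
          have hlt : (evP m * wL).order ≠ (-(evP Q * E.y)).order := by
            rw [hmwo, hor]; intro h; linarith
          obtain ⟨_, g2⟩ := order_add_of_ne hmw hne hlt
          refine ⟨-(Q.natDegree : ℤ) - 2, ?_⟩
          unfold Od
          rw [g2, hmwo, hor, min_eq_right (by linarith)]
          push_cast; ring
    by_cases hp0 : P = 0
    · rw [hp0, map_zero, neg_zero, add_zero] at hD0
      rcases hD0 with h | h
      · exact hO1 h
      · linarith
    · have hne : -(evP P) ≠ 0 := neg_ne_zero.mpr (evP_ne_zero hp0)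
      have hor : (-(evP P)).order = -2 * (P.natDegree : ℝ) := by
        rw [order_neg_LL, order_evP hp0]
      have hlt : (E.Od m Q).order ≠ (-(evP P)).order := by
        rw [ha, hor]
        intro h
        have h6 : (2 * a + 1 : ℤ) = -2 * (P.natDegree : ℤ) := by exact_mod_cast h
        omega
      obtain ⟨g1, g2⟩ := order_add_of_ne hO1 hne hlt
      rcases hD0 with h | h
      · exact g1 h
      · rw [g2] at h
        have := lt_of_lt_of_le h (min_le_left _ _)
        linarith
  -- the conjugate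
  obtain ⟨hO'1, hO'2⟩ : evP m * wL + evP Q * E.y ≠ 0 ∧ (evP m * wL + evP Q * E.y).order = -3 := by
    have e1 : evP m * wL + evP Q * E.y = evP (C 2 * m) * wL + -(E.Od m Q) := by
      have : evP (C 2 * m) = 2 * evP m := by
        rw [map_mul, map_ofNat C 2, map_ofNat]
      unfold Od
      rw [this]; ring
    have h2m : (C 2 * m : ℚ[X]) ≠ 0 := mul_ne_zero (by simp) hm
    have h2d : (C 2 * m : ℚ[X]).natDegree = 1 := by rw [natDegree_C_mul (by norm_num), hm1]
    have h2ne : evP (C 2 * m) * wL ≠ 0 := mul_ne_zero (evP_ne_zero h2m) wL_ne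
    have h2o : (evP (C 2 * m) * wL).order = -3 := by
      rw [HahnSeries.order_mul (evP_ne_zero h2m) wL_ne, order_evP h2m, order_wL, h2d]; norm_num
    rw [e1]
    by_cases hz : E.Od m Q = 0
    · rw [hz, neg_zero, add_zero]
      exact ⟨h2ne, h2o⟩
    · have h5 := hOd.resolve_left hz
      have hlt : (evP (C 2 * m) * wL).order ≠ (-(E.Od m Q)).order := by
        rw [h2o, order_neg_LL]; exact h5.ne
      obtain ⟨g1, g2⟩ := order_add_of_ne h2ne (neg_ne_zero.mpr hz) hlt
      refine ⟨g1, ?_⟩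
      rw [g2, h2o, order_neg_LL]
      exact min_eq_left h5.le
  -- the product
  set N : ℚ[X] := m * m * X - Q * Q * E.F with hN
  have hprod2 : E.Od m Q * (evP m * wL + evP Q * E.y) = evP N := by
    have e1 : evP X = wL ^ 2 := by
      rw [wL_sq]; unfold evP; rw [coe_eval₂RingHom, eval₂_X]
    rw [hN, map_sub, map_mul, map_mul, map_mul, map_mul, e1, ← E.hy]
    unfold Od
    ring
  -- order of the odd part is odd
  have hord : E.Od m Q ≠ 0 → N ≠ 0 ∧ (E.Od m Q).order = 3 - 2 * (N.natDegree : ℝ) := by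
    intro hz
    have hN0 : N ≠ 0 := by
      intro h
      rw [h, map_zero] at hprod2
      exact mul_ne_zero hz hO'1 hprod2
    refine ⟨hN0, ?_⟩
    have h5 := congrArg HahnSeries.order hprod2
    rw [HahnSeries.order_mul hz hO'1, hO'2, order_evP hN0] at h5
    linarith
  have hP0 : P = 0 := by
    by_contra hp0
    have hne : -(evP P) ≠ 0 := neg_ne_zero.mpr (evP_ne_zero hp0)
    have hor : (-(evP P)).order = -2 * (P.natDegree : ℝ) := by
      rw [order_neg_LL, order_evP hp0]
    have hPd : (0 : ℝ) ≤ P.natDegree := by positivity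
    by_cases hz : E.Od m Q = 0
    · rw [hz, zero_add] at hD0
      rcases hD0 with h | h
      · exact hne h
      · rw [hor] at h; linarith
    · obtain ⟨_, h6⟩ := hord hz
      have hlt : (E.Od m Q).order ≠ (-(evP P)).order := by
        rw [h6, hor]
        intro h
        have h7 : (3 - 2 * (N.natDegree : ℤ)) = -2 * (P.natDegree : ℤ) := by exact_mod_cast h
        omega
      obtain ⟨g1, g2⟩ := order_add_of_ne hz hne hlt
      rcases hD0 with h | h
      · exact g1 h
      · rw [g2] at h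
        have := lt_of_lt_of_le h (min_le_right _ _)
        rw [hor] at this
        linarith
  rw [hP0, map_zero, neg_zero, add_zero] at hD0
  have hNdeg : N.natDegree ≤ 1 := by
    by_cases hz : E.Od m Q = 0
    · have : N = 0 := by
        rw [hz, zero_mul] at hprod2
        by_contra h
        exact evP_ne_zero h hprod2.symm
      rw [this]; simp
    · obtain ⟨_, h6⟩ := hord hz
      have h7 := hD0.resolve_left hz
      rw [h6] at h7
      have h8 : (2 * (N.natDegree : ℝ)) < 3 := by linarith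
      have h9 : 2 * N.natDegree < 3 := by exact_mod_cast h8
      omega
  -- coefficients
  have hm' := eq_X_add_C_of_natDegree_le_one hm1.le
  set m1 := m.coeff 1 with hm1c
  set m0' := m.coeff 0 with hm0c
  have hm1ne : m1 ≠ 0 := by
    intro h
    rw [h, C_0, zero_mul, zero_add] at hm'
    rw [hm', natDegree_C] at hm1
    exact zero_ne_one hm1
  have hQF : Q * Q * E.F = m * m * X - N := by rw [hN]; ring
  have hmmX : (m * m * X : ℚ[X]).natDegree = 3 := by
    rw [natDegree_mul (mul_ne_zero hm hm) X_ne_zero, natDegree_mul hm hm, hm1, natDegree_X]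
  have hQFd : (Q * Q * E.F).natDegree = 3 := by
    rw [hQF, natDegree_sub_eq_left_of_natDegree_lt (by rw [hmmX]; omega), hmmX]
  have hQ0 : Q ≠ 0 := by
    rintro rfl
    simp at hQFd
  have hQd : Q.natDegree = 0 := by
    rw [natDegree_mul (mul_ne_zero hQ0 hQ0) E.F_ne, natDegree_mul hQ0 hQ0, h3] at hQFd
    omega
  obtain ⟨q0, hq0⟩ := natDegree_eq_zero.mp hQd
  have hc : (m * m * X - Q * Q * E.F).coeff 2 = 0 := by
    apply coeff_eq_zero_of_natDegree_lt
    change N.natDegree < 2
    omega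
  rw [coeff_sub, coeff_mul_X, ← hq0, ← C_mul, coeff_C_mul, hc2, mul_zero, sub_zero, hm'] at hc
  have hc' : (0 : ℚ) = 2 * (m1 * m0') := by
    rw [← hc]
    have : (C m1 * X + C m0') * (C m1 * X + C m0') = C (m1 * m1) * X ^ 2 + C (2 * (m1 * m0')) * X +
        C (m0' * m0') := by
      simp only [C_mul]
      rw [map_ofNat C 2]
      ring
    rw [this]
    simp only [coeff_add, coeff_C_mul, coeff_X_pow, coeff_X, coeff_C]
    norm_num
  have hm0z : m0' = 0 := by
    have : m1 * m0' = 0 := by linarith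
    exact (mul_eq_zero.mp this).resolve_left hm1ne
  have hfin := hD.2.2
  rw [hP0, mul_zero, zero_sub] at hfin
  have h0 := congrArg (fun T : ℚ[X] => T.coeff 0) hfin
  simp only [mul_coeff_zero, coeff_neg] at h0
  rw [← hm0c, hm0z, zero_mul, ← hq0, coeff_C_zero] at h0
  have hq0ne : q0 ≠ 0 := by
    rintro rfl
    rw [C_0] at hq0
    exact hQ0 hq0.symm
  have : E.F.coeff 0 * (q0 * q0) = 0 := by linarith
  rcases mul_eq_zero.mp this with h | h
  · exact hc0 h
  · exact mul_ne_zero hq0ne hq0ne h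

lemma G_all (W : ℝ) (hgood : ∀ φ : E.K, E.G W (X - C φ)) (Q : E.K[X]) (hQ : Q ≠ 0) : E.G W Q := by
  revert hQ
  apply WfDvdMonoid.induction_on_irreducible (motive := fun Q => Q ≠ 0 → E.G W Q) Q
  · intro h; exact absurd rfl h
  · intro u hu _
    obtain ⟨r, hr, rfl⟩ := Polynomial.isUnit_iff.mp hu
    exact E.G_C W hr.ne_zero
  · intro a i ha hi ih _
    have hGi : E.G W i := by
      have hpos : 0 < i.natDegree := hi.natDegree_pos
      rcases Nat.lt_or_ge 1 i.natDegree with h | h
      · exact E.G_irr W i hi h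
      · have h1 : i.natDegree = 1 := by omega
        obtain ⟨b, hb, c, hc⟩ := natDegree_eq_one.mp h1
        have h2 : i = C b * (X - C (-c / b)) := by
          rw [← hc, mul_sub, ← C_mul, mul_div_cancel₀ _ hb, C_neg, sub_neg_eq_add]
        rw [h2]
        exact E.G_mul W (by rwa [ne_eq, C_eq_zero]) (X_sub_C_ne_zero _) (E.G_C W hb) (hgood _)
    exact E.G_mul W hi.ne_zero ha hGi (ih ha)

/-- **the zero estimate** -/
theorem zero_estimate (W : ℝ) (hW0 : 0 ≤ W) (hgood : ∀ φ : E.K, E.G W (X - C φ)) (Q : E.K[X]) (hQ : Q ≠ 0) (n : ℕ)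
    (hn : Q.natDegree ≤ n)
    (hint : ∀ i, ∃ p q : ℚ[X], Q.coeff i = ⟨algebraMap ℚ[X] (RatFunc ℚ) p, algebraMap ℚ[X] (RatFunc ℚ) q⟩)
    (v0 : ℝ) (hv : ∀ j, ∀ e : ℝ, e < v0 → ((E.tw W Q).coeff j).coeff e = 0) :
    v0 ≤ n * (W / 2) := by
  obtain ⟨c, κ, Q1, N1, hc, hκ, hprim, htw, hN1, hN, hle⟩ := E.G_all W hgood Q hQ
  -- κ is a polynomial
  obtain ⟨pκ, hpκ⟩ : ∃ p : ℚ[X], algebraMap ℚ[X] (RatFunc ℚ) p = κ := by
    let S : Subring E.K := 
      { carrier := {z | ∃ p q : ℚ[X], z = ⟨algebraMap ℚ[X] (RatFunc ℚ) p, algebraMap ℚ[X] (RatFunc ℚ) q⟩}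
        mul_mem' := by
          rintro a b ⟨p, q, rfl⟩ ⟨p', q', rfl⟩
          refine ⟨p * p' + E.F * q * q', p * q' + q * p', ?_⟩
          ext
          · rw [QuadraticAlgebra.re_mul, map_add, map_mul, map_mul, map_mul]; rfl
          · rw [QuadraticAlgebra.im_mul]
            change _ = algebraMap ℚ[X] (RatFunc ℚ) (p * q' + q * p')
            rw [(algebraMap ℚ[X] (RatFunc ℚ)).map_add, (algebraMap ℚ[X] (RatFunc ℚ)).map_mul,
              (algebraMap ℚ[X] (RatFunc ℚ)).map_mul]
            ring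
        one_mem' := ⟨1, 0, by ext <;> simp [QuadraticAlgebra.re_one, QuadraticAlgebra.im_one]⟩
        add_mem' := by
          rintro a b ⟨p, q, rfl⟩ ⟨p', q', rfl⟩
          exact ⟨p + p', q + q', by ext <;> simp⟩
        zero_mem' := ⟨0, 0, by ext <;> simp⟩
        neg_mem' := by
          rintro a ⟨p, q, rfl⟩
          exact ⟨-p, -q, by ext <;> simp⟩ }
    have hS : ∀ i, Q.coeff i ∈ S := hint
    have hS' : ∀ i, (E.cj Q).coeff i ∈ S := by
      intro i
      obtain ⟨p, q, hpq⟩ := hint i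
      refine ⟨p, -q, ?_⟩
      unfold cj
      rw [coeff_map, hpq, starRingEnd_apply]
      ext
      · simp
      · simp
    have hprod : ∀ i, (Q * E.cj Q).coeff i ∈ S := by
      intro i
      rw [coeff_mul]
      exact Subring.sum_mem _ (fun x _ => S.mul_mem (hS _) (hS' _))
    -- ideal of multipliers
    let I : Ideal ℚ[X] :=
      { carrier := {r | ∃ p : ℚ[X], algebraMap ℚ[X] (RatFunc ℚ) p = κ * algebraMap ℚ[X] (RatFunc ℚ) r}
        add_mem' := by
          rintro a b ⟨p, hp⟩ ⟨q, hq⟩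
          exact ⟨p + q, by rw [map_add, map_add, hp, hq]; ring⟩
        zero_mem' := ⟨0, by simp⟩
        smul_mem' := by
          rintro c x ⟨p, hp⟩
          exact ⟨c * p, by rw [smul_eq_mul, map_mul, map_mul, hp]; ring⟩ }
    have hI : N1.contentIdeal ≤ I := by
      rw [contentIdeal_def, Ideal.span_le]
      intro a ha
      rw [Finset.mem_coe, mem_coeffs_iff] at ha
      obtain ⟨m, _, h2⟩ := ha
      rw [h2]
      obtain ⟨p, q, hpq⟩ := hprod m
      rw [hN, coeff_C_mul, coeff_map] at hpq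
      refine ⟨p, ?_⟩
      have h3 := congrArg QuadraticAlgebra.re hpq
      have h4 : algebraMap (RatFunc ℚ) E.K κ * E.polK (N1.coeff m) =
          algebraMap (RatFunc ℚ) E.K (κ * algebraMap ℚ[X] (RatFunc ℚ) (N1.coeff m)) := by
        rw [map_mul]; rfl
      rw [h4, QuadraticAlgebra.algebraMap_re] at h3
      exact h3.symm
    rw [hN1] at hI
    obtain ⟨p, hp⟩ : (1 : ℚ[X]) ∈ I := hI Submodule.mem_top
    exact ⟨p, by rw [hp, map_one, mul_one]⟩
  have hκ0 : (0 : ℝ) ≤ κ.intDegree := by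
    rw [← hpκ, RatFunc.intDegree_polynomial]
    positivity
  have hcv : v0 ≤ c.order := by
    obtain ⟨i, hi⟩ := hprim.2
    have hne : Q1.coeff i ≠ 0 := ne_zero_of_vL_eq_one hi
    have h1 : (Q1.coeff i).order = 0 := (vL_eq_one hne).mp hi
    have h2 : ((E.tw W Q).coeff i).order = c.order := by
      rw [htw, coeff_C_mul, HahnSeries.order_mul hc hne, h1, add_zero]
    have h3 : (E.tw W Q).coeff i ≠ 0 := by
      rw [htw, coeff_C_mul]; exact mul_ne_zero hc hne
    by_contra hlt
    push Not at hlt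
    rw [← h2] at hlt
    exact h3 (HahnSeries.coeff_order_eq_zero.mp (hv i _ hlt))
  have hn' : (Q.natDegree : ℝ) ≤ n := by exact_mod_cast hn
  have hW2 : 0 ≤ W / 2 := by linarith
  calc v0 ≤ c.order + κ.intDegree := by linarith
    _ ≤ Q.natDegree * (W / 2) := hle
    _ ≤ n * (W / 2) := mul_le_mul_of_nonneg_right hn' hW2

end CrvL

end Pool.Agent.W273.Z
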